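import Pool.Agent.Helper8.Verg.Defs

set_option autoImplicit false

/-!
# Fractional routing through a clique
-/

namespace Pool.Agent.Helper8.Verg

open Finset

section clique

variable {V : Type} [Fintype V]

open Classical in
/-- indicator of `c ∈ C`, not adjacent to `u` -/
noncomputable def ci (H : SimpleGraph V) (C : Finset V) (u c : V) : ℝ :=
  if c ∈ C ∧ ¬ H.Adj u c then 1 else 0

theorem ci_cases (H : SimpleGraph V) (C : Finset V) (u c : V) :
    ci H C u c = 0 ∨ ci H C u c = 1 := by
  unfold ci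
  split_ifs
  · exact Or.inr rfl
  · exact Or.inl rfl

theorem ci_ne {H : SimpleGraph V} {C : Finset V} {u c : V} (h : ci H C u c ≠ 0) :
    c ∈ C ∧ ¬ H.Adj u c := by
  unfold ci at h
  by_contra hcon
  rw [if_neg hcon] at h
  exact h rfl

theorem ci_nonneg (H : SimpleGraph V) (C : Finset V) (u c : V) : 0 ≤ ci H C u c := by
  rcases ci_cases H C u c with h | h <;> rw [h]
  norm_num

theorem ci_le_one (H : SimpleGraph V) (C : Finset V) (u c : V) : ci H C u c ≤ 1 := by
  rcases ci_cases H C u c with h | h <;> rw [h]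
  norm_num

/-- number of possible ports -/
noncomputable def cs (H : SimpleGraph V) (C : Finset V) (u : V) : ℝ := ∑ c, ci H C u c

theorem cs_eq (H : SimpleGraph V) (C : Finset V) (u : V) : cs H C u = (codegS H C u : ℝ) := by
  classical
  unfold cs ci codegS
  rw [Finset.sum_boole]
  congr 2
  ext c
  simp

theorem cs_nonneg (H : SimpleGraph V) (C : Finset V) (u : V) : 0 ≤ cs H C u :=
  Finset.sum_nonneg fun c _ => ci_nonneg H C u c

/-- number of common ports -/
noncomputable def cg (H : SimpleGraph V) (C : Finset V) (u w : V) : ℝ :=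
  ∑ c, ci H C u c * ci H C w c

theorem cg_nonneg (H : SimpleGraph V) (C : Finset V) (u w : V) : 0 ≤ cg H C u w :=
  Finset.sum_nonneg fun c _ => mul_nonneg (ci_nonneg H C u c) (ci_nonneg H C w c)

theorem cg_comm (H : SimpleGraph V) (C : Finset V) (u w : V) : cg H C u w = cg H C w u :=
  Finset.sum_congr rfl fun _ _ => mul_comm _ _

theorem cg_le (H : SimpleGraph V) (C : Finset V) (u w : V) : cg H C u w ≤ cs H C w := by
  apply Finset.sum_le_sum
  intro c _
  have h1 := ci_nonneg H C w c
  have h2 := ci_le_one H C u c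
  nlinarith

/-- good pairs -/
def cgood (H : SimpleGraph V) (B C : Finset V) (σ : ℝ) (u w : V) : Prop :=
  u ∈ B ∧ w ∈ B ∧ H.Adj u w ∧ σ * (Fintype.card V : ℝ) ≤ cs H C u ∧
    σ * (Fintype.card V : ℝ) ≤ cs H C w

theorem cgood_symm {H : SimpleGraph V} {B C : Finset V} {σ : ℝ} {u w : V}
    (h : cgood H B C σ u w) : cgood H B C σ w u :=
  ⟨h.2.1, h.1, h.2.2.1.symm, h.2.2.2.2, h.2.2.2.1⟩

open Classical in
/-- indicator of the good pairs -/
noncomputable def cG (H : SimpleGraph V) (B C : Finset V) (σ : ℝ) (u w : V) : ℝ :=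
  if cgood H B C σ u w then 1 else 0

theorem cG_cases (H : SimpleGraph V) (B C : Finset V) (σ : ℝ) (u w : V) :
    cG H B C σ u w = 0 ∨ (cG H B C σ u w = 1 ∧ cgood H B C σ u w) := by
  unfold cG
  split_ifs with h
  · exact Or.inr ⟨rfl, h⟩
  · exact Or.inl rfl

theorem cG_symm (H : SimpleGraph V) (B C : Finset V) (σ : ℝ) (u w : V) :
    cG H B C σ u w = cG H B C σ w u := by
  unfold cG
  by_cases h : cgood H B C σ u w
  · rw [if_pos h, if_pos (cgood_symm h)]
  · rw [if_neg h, if_neg (fun h' => h (cgood_symm h'))]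

/-- the coefficient -/
noncomputable def ck (H : SimpleGraph V) (B C : Finset V) (σ : ℝ) (u w : V) : ℝ :=
  cG H B C σ u w * (1 / 2 / (cs H C u * cs H C w))

theorem ck_nonneg (H : SimpleGraph V) (B C : Finset V) (σ : ℝ) (u w : V) :
    0 ≤ ck H B C σ u w := by
  unfold ck
  have h1 := cs_nonneg H C u
  have h2 := cs_nonneg H C w
  rcases cG_cases H B C σ u w with h | ⟨h, _⟩ <;> rw [h]
  · simp
  · positivity

theorem ck_symm (H : SimpleGraph V) (B C : Finset V) (σ : ℝ) (u w : V) :
    ck H B C σ u w = ck H B C σ w u := by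
  unfold ck
  rw [cG_symm, mul_comm (cs H C u)]

theorem ck_ne {H : SimpleGraph V} {B C : Finset V} {σ : ℝ} {u w : V}
    (h : ck H B C σ u w ≠ 0) : cgood H B C σ u w := by
  rcases cG_cases H B C σ u w with h1 | ⟨_, h1⟩
  · exfalso
    apply h
    unfold ck
    rw [h1, zero_mul]
  · exact h1

theorem ck_mul {H : SimpleGraph V} {B C : Finset V} {σ : ℝ} (hσ : 0 < σ) (u w : V) :
    ck H B C σ u w * (cs H C u * cs H C w) = cG H B C σ u w / 2 := by
  unfold ck
  rcases cG_cases H B C σ u w with h | ⟨h, hg⟩ <;> rw [h]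
  · simp
  · have hn : (0 : ℝ) < Fintype.card V := by
      have : 0 < Fintype.card V := Fintype.card_pos_iff.mpr ⟨u⟩
      exact_mod_cast this
    have h1 : 0 < cs H C u := lt_of_lt_of_le (by positivity) hg.2.2.2.1
    have h2 : 0 < cs H C w := lt_of_lt_of_le (by positivity) hg.2.2.2.2
    field_simp

/-- two-paths -/
noncomputable def cx2 (H : SimpleGraph V) (B C : Finset V) (σ : ℝ) (u c w : V) : ℝ :=
  ck H B C σ u w * cg H C u w * (ci H C u c * ci H C w c)

/-- three-paths -/
noncomputable def cx3 (H : SimpleGraph V) (B C : Finset V) (σ : ℝ) (u c d w : V) : ℝ :=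
  ck H B C σ u w * (ci H C u c * ci H C w d * (1 - ci H C w c * ci H C u d))

theorem sum_cx2 (H : SimpleGraph V) (B C : Finset V) (σ : ℝ) (u w : V) :
    ∑ c, cx2 H B C σ u c w = ck H B C σ u w * cg H C u w * cg H C u w := by
  unfold cx2
  rw [← Finset.mul_sum]
  rfl

theorem sum_cx3 (H : SimpleGraph V) (B C : Finset V) (σ : ℝ) (u c w : V) :
    ∑ d, cx3 H B C σ u c d w = ck H B C σ u w * (ci H C u c *
      (cs H C w - ci H C w c * cg H C u w)) := by
  unfold cx3
  rw [← Finset.mul_sum]
  congr 1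
  have h1 : ∀ d, ci H C u c * ci H C w d * (1 - ci H C w c * ci H C u d) =
      ci H C u c * ci H C w d - ci H C u c * ci H C w c * (ci H C u d * ci H C w d) := by
    intro d
    ring
  simp_rw [h1]
  rw [Finset.sum_sub_distrib, ← Finset.mul_sum, ← Finset.mul_sum]
  unfold cs cg
  ring

theorem sum_sum_cx3 (H : SimpleGraph V) (B C : Finset V) (σ : ℝ) (u w : V) :
    ∑ c, ∑ d, cx3 H B C σ u c d w = ck H B C σ u w *
      (cs H C u * cs H C w - cg H C u w * cg H C u w) := by
  simp_rw [sum_cx3]
  rw [← Finset.mul_sum]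
  congr 1
  have h1 : ∀ c, ci H C u c * (cs H C w - ci H C w c * cg H C u w) =
      ci H C u c * cs H C w - (ci H C u c * ci H C w c) * cg H C u w := by
    intro c
    ring
  simp_rw [h1]
  rw [Finset.sum_sub_distrib, ← Finset.sum_mul, ← Finset.sum_mul]
  rfl

theorem cdem {H : SimpleGraph V} {B C : Finset V} {σ : ℝ} (hσ : 0 < σ) (u w : V) :
    ∑ c, cx2 H B C σ u c w + ∑ c, ∑ d, cx3 H B C σ u c d w = cG H B C σ u w / 2 := by
  rw [sum_cx2, sum_sum_cx3, ← ck_mul hσ]
  ring

theorem cport {H : SimpleGraph V} {B C : Finset V} {σ : ℝ} (hσ : 0 < σ)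
    (hdeg : ∀ u ∈ B, degS H B u ≤ codegS H C u) (u c : V) :
    ∑ w, cx2 H B C σ u c w + ∑ d, ∑ w, cx3 H B C σ u c d w ≤ 1 / 2 := by
  classical
  rw [Finset.sum_comm (f := fun d w => cx3 H B C σ u c d w), ← Finset.sum_add_distrib]
  have h1 : ∀ w, cx2 H B C σ u c w + ∑ d, cx3 H B C σ u c d w ≤
      if w ∈ B ∧ H.Adj u w then (if 0 < cs H C u ∧ u ∈ B then 1 / 2 / cs H C u else 0) else 0 := by
    intro w
    rw [sum_cx3]
    have h2 : cx2 H B C σ u c w + ck H B C σ u w * (ci H C u c *
        (cs H C w - ci H C w c * cg H C u w)) =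
        (ck H B C σ u w * cs H C w) * ci H C u c := by
      unfold cx2
      ring
    rw [h2]
    rcases cG_cases H B C σ u w with h | ⟨h, hg⟩
    · have h3 : ck H B C σ u w = 0 := by
        unfold ck
        rw [h, zero_mul]
      rw [h3, zero_mul, zero_mul]
      split_ifs with h4 h5
      · have := h5.1
        positivity
      · exact le_rfl
      · exact le_rfl
    · have hn : (0 : ℝ) < Fintype.card V := by
        have : 0 < Fintype.card V := Fintype.card_pos_iff.mpr ⟨u⟩
        exact_mod_cast this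
      have h3 : 0 < cs H C u := lt_of_lt_of_le (by positivity) hg.2.2.2.1
      have h4 : 0 < cs H C w := lt_of_lt_of_le (by positivity) hg.2.2.2.2
      rw [if_pos ⟨hg.2.1, hg.2.2.1⟩, if_pos ⟨h3, hg.1⟩]
      have h5 : ck H B C σ u w * cs H C w = 1 / 2 / cs H C u := by
        unfold ck
        rw [h]
        field_simp
      rw [h5]
      have h6 := ci_le_one H C u c
      have h7 : 0 ≤ 1 / 2 / cs H C u := by positivity
      nlinarith
  refine (Finset.sum_le_sum fun w _ => h1 w).trans ?_
  rw [← Finset.sum_filter, Finset.sum_const, nsmul_eq_mul]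
  split_ifs with h2
  · have h3 : ((univ.filter (fun w => w ∈ B ∧ H.Adj u w)).card : ℝ) ≤ cs H C u := by
      rw [cs_eq]
      have h4 := hdeg u h2.2
      have h5 : (univ.filter (fun w => w ∈ B ∧ H.Adj u w)).card = degS H B u := by
        unfold degS
        congr 1
        ext w
        simp
      rw [h5]
      exact_mod_cast h4
    have h4 := h2.1
    have h5 := mul_le_mul_of_nonneg_right h3 (show 0 ≤ 1 / 2 / cs H C u by positivity)
    refine h5.trans (le_of_eq ?_)
    field_simp
  · simp

theorem ck_le_theta {H : SimpleGraph V} {B C : Finset V} {σ : ℝ} :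
    ∑ u, ∑ w, ck H B C σ u w ≤ theta H C B / 2 := by
  classical
  unfold theta
  rw [Finset.sum_div]
  have h0 : ∑ u, ∑ w, ck H B C σ u w = ∑ u ∈ B, ∑ w ∈ B, ck H B C σ u w := by
    symm
    have h1 : ∀ u ∈ B, ∑ w ∈ B, ck H B C σ u w = ∑ w, ck H B C σ u w := by
      intro u _
      apply Finset.sum_subset (Finset.subset_univ B)
      intro w _ hw
      by_contra hcon
      exact hw (ck_ne hcon).2.1
    rw [Finset.sum_congr rfl h1]
    apply Finset.sum_subset (Finset.subset_univ B)
    intro u _ hu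
    apply Finset.sum_eq_zero
    intro w _
    by_contra hcon
    exact hu (ck_ne hcon).1
  rw [h0]
  apply Finset.sum_le_sum
  intro u hu
  rw [Finset.sum_div]
  apply Finset.sum_le_sum
  intro w hw
  have h1 : (0 : ℝ) ≤ codegS H C u := Nat.cast_nonneg _
  have h2 : (0 : ℝ) ≤ codegS H C w := Nat.cast_nonneg _
  by_cases h : H.Adj u w
  · rw [if_pos h]
    unfold ck
    rw [cs_eq, cs_eq]
    rcases cG_cases H B C σ u w with h3 | ⟨h3, _⟩ <;> rw [h3]
    · rw [zero_mul]
      positivity
    · apply le_of_eq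
      rw [one_mul]
      ring
  · rw [if_neg h]
    by_cases h3 : ck H B C σ u w = 0
    · rw [h3]
      norm_num
    · exact absurd (ck_ne h3).2.2.1 h

theorem crout {H : SimpleGraph V} {B C : Finset V} {σ : ℝ}
    (hΘ : theta H C B ≤ 2) (c d : V) : ∑ u, ∑ w, cx3 H B C σ u c d w ≤ 1 / 2 := by
  have h1 : 2 * ∑ u, ∑ w, cx3 H B C σ u c d w ≤ ∑ u, ∑ w, ck H B C σ u w := by
    have h2 : 2 * ∑ u, ∑ w, cx3 H B C σ u c d w =
        ∑ u, ∑ w, (cx3 H B C σ u c d w + cx3 H B C σ w c d u) := by
      simp_rw [Finset.sum_add_distrib]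
      rw [Finset.sum_comm (f := fun u w => cx3 H B C σ w c d u)]
      ring
    rw [h2]
    apply Finset.sum_le_sum
    intro u _
    apply Finset.sum_le_sum
    intro w _
    unfold cx3
    rw [ck_symm H B C σ w u]
    have h3 := ck_nonneg H B C σ u w
    have h4 : ck H B C σ u w * (ci H C u c * ci H C w d * (1 - ci H C w c * ci H C u d)) +
        ck H B C σ u w * (ci H C w c * ci H C u d * (1 - ci H C u c * ci H C w d)) =
        ck H B C σ u w * (ci H C u c * ci H C w d * (1 - ci H C w c * ci H C u d) +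
        ci H C w c * ci H C u d * (1 - ci H C u c * ci H C w d)) := by ring
    rw [h4]
    have h5 : ci H C u c * ci H C w d * (1 - ci H C w c * ci H C u d) +
        ci H C w c * ci H C u d * (1 - ci H C u c * ci H C w d) ≤ 1 := by
      rcases ci_cases H C u c with h | h <;> rcases ci_cases H C w d with h' | h' <;>
        rcases ci_cases H C w c with h'' | h'' <;> rcases ci_cases H C u d with h''' | h''' <;>
        rw [h, h', h'', h'''] <;> norm_num
    nlinarith
  have h2 := ck_le_theta (H := H) (B := B) (C := C) (σ := σ)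
  linarith

theorem ctotal {H : SimpleGraph V} {B C : Finset V} {σ : ℝ} (hσ : 0 < σ)
    (hdeg : ∀ u ∈ B, degS H B u ≤ codegS H C u) :
    (∑ u ∈ B, (degS H B u : ℝ)) / 2 - σ * (Fintype.card V : ℝ) ^ 2 ≤
      ∑ u, ∑ w, cG H B C σ u w / 2 := by
  classical
  set n : ℝ := (Fintype.card V : ℝ) with hn
  have hn0 : 0 ≤ n := Nat.cast_nonneg _
  -- adjacent pairs
  have h1 : ∑ u ∈ B, (degS H B u : ℝ) = ∑ u, ∑ w, if u ∈ B ∧ w ∈ B ∧ H.Adj u w then (1 : ℝ) else 0 := by
    have h2 : ∀ u ∈ B, (degS H B u : ℝ) = ∑ w, if u ∈ B ∧ w ∈ B ∧ H.Adj u w then (1 : ℝ) else 0 := by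
      intro u hu
      rw [Finset.sum_boole]
      unfold degS
      congr 2
      ext w
      simp [hu]
    rw [Finset.sum_congr rfl h2]
    apply Finset.sum_subset (Finset.subset_univ B)
    intro u _ hu
    apply Finset.sum_eq_zero
    intro w _
    rw [if_neg]
    rintro ⟨h3, _⟩
    exact hu h3
  -- bad pairs
  have h2 : ∀ u w, (if u ∈ B ∧ w ∈ B ∧ H.Adj u w then (1 : ℝ) else 0) ≤ cG H B C σ u w +
      ((if u ∈ B ∧ cs H C u < σ * n then (if w ∈ B ∧ H.Adj u w then (1 : ℝ) else 0) else 0) +
      (if w ∈ B ∧ cs H C w < σ * n then (if u ∈ B ∧ H.Adj w u then (1 : ℝ) else 0) else 0)) := by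
    intro u w
    have hG : 0 ≤ cG H B C σ u w := by
      rcases cG_cases H B C σ u w with h | ⟨h, _⟩ <;> rw [h]
      norm_num
    have ha : 0 ≤ (if u ∈ B ∧ cs H C u < σ * n then (if w ∈ B ∧ H.Adj u w then (1 : ℝ) else 0) else 0) := by
      split_ifs <;> norm_num
    have hb : 0 ≤ (if w ∈ B ∧ cs H C w < σ * n then (if u ∈ B ∧ H.Adj w u then (1 : ℝ) else 0) else 0) := by
      split_ifs <;> norm_num
    by_cases h : u ∈ B ∧ w ∈ B ∧ H.Adj u w
    · rw [if_pos h]
      by_cases h3 : cs H C u < σ * n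
      · rw [if_pos ⟨h.1, h3⟩, if_pos ⟨h.2.1, h.2.2⟩]
        linarith
      · by_cases h4 : cs H C w < σ * n
        · rw [if_pos (c := w ∈ B ∧ cs H C w < σ * n) ⟨h.2.1, h4⟩,
            if_pos (c := u ∈ B ∧ H.Adj w u) ⟨h.1, h.2.2.symm⟩]
          linarith
        · push Not at h3 h4
          have h5 : cG H B C σ u w = 1 := by
            unfold cG
            rw [if_pos]
            exact ⟨h.1, h.2.1, h.2.2, h3, h4⟩
          rw [h5]
          linarith
    · rw [if_neg h]
      positivity
  have h3 : ∑ u, ∑ w, (if u ∈ B ∧ cs H C u < σ * n then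
      (if w ∈ B ∧ H.Adj u w then (1 : ℝ) else 0) else 0) ≤ σ * n ^ 2 := by
    have h4 : ∀ u, ∑ w, (if u ∈ B ∧ cs H C u < σ * n then
        (if w ∈ B ∧ H.Adj u w then (1 : ℝ) else 0) else 0) ≤ σ * n := by
      intro u
      by_cases h5 : u ∈ B ∧ cs H C u < σ * n
      · simp only [if_pos h5]
        rw [Finset.sum_boole]
        have h6 : (univ.filter (fun w => w ∈ B ∧ H.Adj u w)).card = degS H B u := by
          unfold degS
          congr 1
          ext w
          simp
        rw [h6]
        have h7 := hdeg u h5.1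
        have h8 := h5.2
        rw [cs_eq] at h8
        have h9 : (degS H B u : ℝ) ≤ codegS H C u := by exact_mod_cast h7
        linarith
      · simp only [if_neg h5, Finset.sum_const_zero]
        positivity
    refine (Finset.sum_le_sum fun u _ => h4 u).trans (le_of_eq ?_)
    rw [Finset.sum_const, Finset.card_univ, nsmul_eq_mul, ← hn]
    ring
  have h4 : ∑ u, ∑ w, (if w ∈ B ∧ cs H C w < σ * n then
      (if u ∈ B ∧ H.Adj w u then (1 : ℝ) else 0) else 0) ≤ σ * n ^ 2 := by
    rw [Finset.sum_comm]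
    exact h3
  have h5 := Finset.sum_le_sum fun u (_ : u ∈ (univ : Finset V)) =>
    Finset.sum_le_sum fun w (_ : w ∈ (univ : Finset V)) => h2 u w
  simp_rw [Finset.sum_add_distrib] at h5
  rw [h1]
  have h6 : ∑ u, ∑ w, cG H B C σ u w / 2 = (∑ u, ∑ w, cG H B C σ u w) / 2 := by
    simp_rw [Finset.sum_div]
  rw [h6]
  linarith

end clique

/-- M2. Routing through a clique `C` of `Hᶜ`. -/
theorem core_clique {V : Type} [Fintype V] [DecidableEq V] (H : SimpleGraph V) (B C : Finset V)
    (hBC : Disjoint B C)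
    (htri : ∀ a b c, H.Adj a b → H.Adj b c → ¬ H.Adj a c)
    (hC : ∀ c ∈ C, ∀ d ∈ C, ¬ H.Adj c d)
    (hdeg : ∀ u ∈ B, degS H B u ≤ codegS H C u)
    (hΘ : theta H C B ≤ 2)
    (σ : ℝ) (hσ : 0 < σ) (hσ1 : σ ≤ 1) :
    ∃ P : PathSystem H B C (1 / σ ^ 2),
      (∑ u ∈ B, (degS H B u : ℝ)) / 2 - σ * (Fintype.card V : ℝ) ^ 2 ≤ P.total := by
  have _ := hBC
  have _ := htri
  have hn : ∀ _u : V, (0 : ℝ) < Fintype.card V := by
    intro u
    have : 0 < Fintype.card V := Fintype.card_pos_iff.mpr ⟨u⟩
    exact_mod_cast this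
  refine ⟨{
    x2 := cx2 H B C σ
    x3 := cx3 H B C σ
    x4 := fun _ _ _ _ _ => 0
    nn2 := ?_
    nn3 := ?_
    nn4 := fun _ _ _ _ _ => le_rfl
    sym2 := ?_
    sym3 := ?_
    sym4 := fun _ _ _ _ _ => rfl
    sup2 := ?_
    sup3 := ?_
    sup4 := ?_
    bd2 := ?_
    bd3 := ?_
    bd4 := ?_
    dem := ?_
    port := ?_
    rout := ?_ }, ?_⟩
  · intro u c w
    exact mul_nonneg (mul_nonneg (ck_nonneg _ _ _ _ _ _) (cg_nonneg _ _ _ _))
      (mul_nonneg (ci_nonneg _ _ _ _) (ci_nonneg _ _ _ _))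
  · intro u c d w
    apply mul_nonneg (ck_nonneg _ _ _ _ _ _)
    apply mul_nonneg (mul_nonneg (ci_nonneg _ _ _ _) (ci_nonneg _ _ _ _))
    have h1 := ci_le_one H C w c
    have h2 := ci_le_one H C u d
    have h3 := ci_nonneg H C w c
    have h4 := ci_nonneg H C u d
    nlinarith
  · intro u c w
    unfold cx2
    rw [ck_symm H B C σ w u, cg_comm H C w u]
    ring
  · intro u c d w
    unfold cx3
    rw [ck_symm H B C σ w u]
    ring
  · intro u c w h
    unfold cx2 at h
    have h1 := ck_ne (left_ne_zero_of_mul (left_ne_zero_of_mul h))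
    have h2 := ci_ne (left_ne_zero_of_mul (right_ne_zero_of_mul h))
    have h3 := ci_ne (right_ne_zero_of_mul (right_ne_zero_of_mul h))
    exact ⟨h1.1, h1.2.1, h2.1, h1.2.2.1, h2.2, fun h4 => h3.2 h4.symm⟩
  · intro u c d w h
    unfold cx3 at h
    have h1 := ck_ne (left_ne_zero_of_mul h)
    have h2 := right_ne_zero_of_mul h
    have h3 := ci_ne (left_ne_zero_of_mul (left_ne_zero_of_mul h2))
    have h4 := ci_ne (right_ne_zero_of_mul (left_ne_zero_of_mul h2))
    have h5 := right_ne_zero_of_mul h2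
    refine ⟨h1.1, h1.2.1, h3.1, h4.1, ?_, h1.2.2.1, h3.2, hC c h3.1 d h4.1,
      fun h6 => h4.2 h6.symm⟩
    rintro rfl
    apply h5
    have h6 : ci H C w c = 1 := by
      rcases ci_cases H C w c with h | h
      · exact absurd h (right_ne_zero_of_mul (left_ne_zero_of_mul h2))
      · exact h
    have h7 : ci H C u c = 1 := by
      rcases ci_cases H C u c with h | h
      · exact absurd h (left_ne_zero_of_mul (left_ne_zero_of_mul h2))
      · exact h
    rw [h6, h7]
    norm_num
  · intro u c e d w h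
    exact absurd rfl h
  · intro u c w
    have hn0 := hn u
    rcases cG_cases H B C σ u w with h | ⟨h, hg⟩
    · have h3 : cx2 H B C σ u c w = 0 := by
        unfold cx2 ck
        rw [h, zero_mul, zero_mul, zero_mul]
      rw [h3]
      positivity
    · have h3 : 0 < cs H C u := lt_of_lt_of_le (by positivity) hg.2.2.2.1
      have h4 : 0 < cs H C w := lt_of_lt_of_le (by positivity) hg.2.2.2.2
      have h5 : cx2 H B C σ u c w ≤ 1 / 2 / cs H C u := by
        unfold cx2 ck
        rw [h, one_mul]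
        have h6 : 1 / 2 / (cs H C u * cs H C w) * cg H C u w ≤ 1 / 2 / cs H C u := by
          rw [div_mul_eq_mul_div, div_le_div_iff₀ (by positivity) h3]
          have := cg_le H C u w
          nlinarith
        have h7 : 0 ≤ 1 / 2 / (cs H C u * cs H C w) * cg H C u w :=
          mul_nonneg (by positivity) (cg_nonneg _ _ _ _)
        have h8 : ci H C u c * ci H C w c ≤ 1 := by
          have h1 := ci_le_one H C u c
          have h2 := ci_le_one H C w c
          have h3 := ci_nonneg H C u c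
          have h4 := ci_nonneg H C w c
          nlinarith
        have h9 : 0 ≤ ci H C u c * ci H C w c :=
          mul_nonneg (ci_nonneg _ _ _ _) (ci_nonneg _ _ _ _)
        nlinarith
      refine h5.trans ?_
      rw [div_le_div_iff₀ h3 hn0]
      have h6 := hg.2.2.2.1
      have h7 : (1 : ℝ) / 2 * Fintype.card V ≤ 1 / σ ^ 2 * (σ * Fintype.card V) := by
        have h8 : 1 / σ ^ 2 * (σ * (Fintype.card V : ℝ)) = 1 / σ * Fintype.card V := by
          field_simp
        rw [h8]
        apply mul_le_mul_of_nonneg_right _ hn0.le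
        rw [div_le_div_iff₀ two_pos hσ]
        linarith
      exact h7.trans (mul_le_mul_of_nonneg_left h6 (by positivity))
  · intro u c d w
    have hn0 := hn u
    rcases cG_cases H B C σ u w with h | ⟨h, hg⟩
    · have h3 : cx3 H B C σ u c d w = 0 := by
        unfold cx3 ck
        rw [h, zero_mul, zero_mul]
      rw [h3]
      positivity
    · have h3 : 0 < cs H C u := lt_of_lt_of_le (by positivity) hg.2.2.2.1
      have h4 : 0 < cs H C w := lt_of_lt_of_le (by positivity) hg.2.2.2.2
      have h5 : cx3 H B C σ u c d w ≤ 1 / 2 / (cs H C u * cs H C w) := by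
        unfold cx3 ck
        rw [h, one_mul]
        have h8 : ci H C u c * ci H C w d * (1 - ci H C w c * ci H C u d) ≤ 1 := by
          rcases ci_cases H C u c with h | h <;> rcases ci_cases H C w d with h' | h' <;>
            rcases ci_cases H C w c with h'' | h'' <;> rcases ci_cases H C u d with h''' | h''' <;>
            rw [h, h', h'', h'''] <;> norm_num
        have h9 : 0 ≤ 1 / 2 / (cs H C u * cs H C w) := by positivity
        nlinarith
      refine h5.trans ?_
      rw [div_le_div_iff₀ (by positivity) (by positivity)]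
      have h6 : (σ * (Fintype.card V : ℝ)) * (σ * Fintype.card V) ≤ cs H C u * cs H C w :=
        mul_le_mul hg.2.2.2.1 hg.2.2.2.2 (by positivity) h3.le
      have h7 := mul_le_mul_of_nonneg_left h6 (show 0 ≤ 1 / σ ^ 2 by positivity)
      refine le_trans ?_ h7
      have h8 : 1 / σ ^ 2 * (σ * (Fintype.card V : ℝ) * (σ * Fintype.card V)) =
          (Fintype.card V : ℝ) ^ 2 := by
        field_simp
      rw [h8]
      nlinarith [sq_nonneg (Fintype.card V : ℝ)]
  · intro u c e d w
    have hn0 := hn u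
    positivity
  · intro u w
    simp only [Finset.sum_const_zero, add_zero]
    rw [cdem hσ]
    rcases cG_cases H B C σ u w with h | ⟨h, _⟩ <;> rw [h] <;> norm_num
  · intro u c
    simp only [Finset.sum_const_zero, add_zero]
    exact cport hσ hdeg u c
  · intro c d
    simp only [Finset.sum_const_zero, add_zero]
    exact crout hΘ c d
  · unfold PathSystem.total
    simp only [Finset.sum_const_zero, add_zero]
    simp_rw [cdem hσ]
    exact ctotal hσ hdeg

end Pool.Agent.Helper8.Verg
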