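import Pool.Agent.Helper8.Verg.Defs

set_option autoImplicit false

/-!
Fractional routing by 2-paths and 4-paths.
-/

namespace Pool.Agent.Helper8.Verg

open Finset

open Classical in
/-- indicator of a proposition -/
noncomputable def csI (p : Prop) : ℝ := if p then 1 else 0

theorem csI_pos {p : Prop} (h : p) : csI p = 1 := if_pos h

theorem csI_neg {p : Prop} (h : ¬ p) : csI p = 0 := if_neg h

theorem csI_nonneg (p : Prop) : 0 ≤ csI p := by
  by_cases h : p
  · rw [csI_pos h]; norm_num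
  · rw [csI_neg h]

theorem csI_le_one (p : Prop) : csI p ≤ 1 := by
  by_cases h : p
  · rw [csI_pos h]
  · rw [csI_neg h]; norm_num

theorem csI_and (p q : Prop) : csI (p ∧ q) = csI p * csI q := by
  by_cases h : p
  · by_cases h' : q
    · rw [csI_pos h, csI_pos h', csI_pos ⟨h, h'⟩, one_mul]
    · rw [csI_neg h', csI_neg (fun h => h' h.2), mul_zero]
  · rw [csI_neg h, csI_neg (fun h' => h h'.1), zero_mul]

theorem csI_congr {p q : Prop} (h : p ↔ q) : csI p = csI q := by
  rw [propext h]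

theorem csI_ne_zero {p : Prop} (h : csI p ≠ 0) : p := by
  by_contra hp
  exact h (csI_neg hp)

section

variable {V : Type} [Fintype V]

theorem cs_sum_card (S : Finset V) : ∑ c, csI (c ∈ S) = (S.card : ℝ) := by
  have h1 : ∑ c ∈ S, csI (c ∈ S) = ∑ c, csI (c ∈ S) :=
    Finset.sum_subset (Finset.subset_univ S) fun x _ hx => csI_neg hx
  rw [← h1, Finset.sum_congr rfl fun c hc => csI_pos hc, Finset.sum_const, nsmul_eq_mul, mul_one]

theorem cs_sum_adj (H : SimpleGraph V) (S : Finset V) (w : V) :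
    ∑ c, csI (c ∈ S ∧ H.Adj w c) = (degS H S w : ℝ) := by
  classical
  unfold degS
  rw [← cs_sum_card]
  refine Finset.sum_congr rfl fun c _ => csI_congr ?_
  rw [Finset.mem_filter]

theorem cs_sum_eq (c : V) : ∑ e, csI (e = c) = 1 := by
  classical
  have h := cs_sum_card ({c} : Finset V)
  rw [Finset.card_singleton, Nat.cast_one] at h
  rw [← h]
  exact Finset.sum_congr rfl fun e _ => csI_congr (Finset.mem_singleton).symm

/-- the number of middle vertices of the paths `c e d` -/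
noncomputable def csM (H : SimpleGraph V) (Z : Finset V) (c d : V) : ℝ :=
  ∑ e, csI (e ∈ Z ∧ ¬ H.Adj c e ∧ ¬ H.Adj e d ∧ e ≠ c ∧ e ≠ d)

theorem csM_comm (H : SimpleGraph V) (Z : Finset V) (c d : V) : csM H Z c d = csM H Z d c := by
  unfold csM
  refine Finset.sum_congr rfl fun e _ => csI_congr ?_
  rw [H.adj_comm e d, H.adj_comm e c]
  tauto

theorem csM_ge (H : SimpleGraph V) (Z : Finset V) (D : ℝ) (c d : V)
    (hc : (degS H Z c : ℝ) ≤ D) (hd : (degS H Z d : ℝ) ≤ D) :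
    (Z.card : ℝ) - 2 * D - 2 ≤ csM H Z c d := by
  have h : ∑ e, (csI (e ∈ Z) - csI (e ∈ Z ∧ H.Adj c e) - csI (e ∈ Z ∧ H.Adj d e)
      - csI (e = c) - csI (e = d)) ≤ csM H Z c d := by
    unfold csM
    refine Finset.sum_le_sum fun e _ => ?_
    have n1 := csI_nonneg (e ∈ Z ∧ ¬ H.Adj c e ∧ ¬ H.Adj e d ∧ e ≠ c ∧ e ≠ d)
    have n2 := csI_nonneg (e ∈ Z ∧ H.Adj c e)
    have n3 := csI_nonneg (e ∈ Z ∧ H.Adj d e)
    have n4 := csI_nonneg (e = c)
    have n5 := csI_nonneg (e = d)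
    have n6 := csI_le_one (e ∈ Z)
    by_cases h1 : e ∈ Z
    · by_cases h2 : H.Adj c e
      · have := csI_pos (⟨h1, h2⟩ : e ∈ Z ∧ H.Adj c e)
        linarith
      · by_cases h3 : H.Adj d e
        · have := csI_pos (⟨h1, h3⟩ : e ∈ Z ∧ H.Adj d e)
          linarith
        · by_cases h4 : e = c
          · have := csI_pos h4
            linarith
          · by_cases h5 : e = d
            · have := csI_pos h5
              linarith
            · have := csI_pos (⟨h1, h2, fun h => h3 h.symm, h4, h5⟩ :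
                e ∈ Z ∧ ¬ H.Adj c e ∧ ¬ H.Adj e d ∧ e ≠ c ∧ e ≠ d)
              linarith
    · have := csI_neg h1
      linarith
  have h2 : ∑ e, (csI (e ∈ Z) - csI (e ∈ Z ∧ H.Adj c e) - csI (e ∈ Z ∧ H.Adj d e)
      - csI (e = c) - csI (e = d)) = Z.card - degS H Z c - degS H Z d - 1 - 1 := by
    rw [Finset.sum_sub_distrib, Finset.sum_sub_distrib, Finset.sum_sub_distrib,
      Finset.sum_sub_distrib, cs_sum_card, cs_sum_adj, cs_sum_adj, cs_sum_eq, cs_sum_eq]
  linarith

theorem cs_sum_out (H : SimpleGraph V) (Z : Finset V) (u w : V)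
    (hd : ∀ c, ¬ (H.Adj u c ∧ H.Adj w c)) :
    ∑ c, csI (c ∈ Z ∧ ¬ H.Adj u c ∧ ¬ H.Adj c w) = Z.card - degS H Z u - degS H Z w := by
  rw [← cs_sum_card, ← cs_sum_adj, ← cs_sum_adj, ← Finset.sum_sub_distrib,
    ← Finset.sum_sub_distrib]
  refine Finset.sum_congr rfl fun c _ => ?_
  by_cases h1 : c ∈ Z
  · have e1 := csI_pos h1
    by_cases h2 : H.Adj u c
    · have h3 : ¬ H.Adj w c := fun h => hd c ⟨h2, h⟩
      have e2 := csI_pos (⟨h1, h2⟩ : c ∈ Z ∧ H.Adj u c)
      have e3 : csI (c ∈ Z ∧ H.Adj w c) = 0 := csI_neg fun h => h3 h.2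
      have e4 : csI (c ∈ Z ∧ ¬ H.Adj u c ∧ ¬ H.Adj c w) = 0 := csI_neg fun h => h.2.1 h2
      rw [e1, e2, e3, e4]; norm_num
    · have e2 : csI (c ∈ Z ∧ H.Adj u c) = 0 := csI_neg fun h => h2 h.2
      by_cases h3 : H.Adj w c
      · have e3 := csI_pos (⟨h1, h3⟩ : c ∈ Z ∧ H.Adj w c)
        have e4 : csI (c ∈ Z ∧ ¬ H.Adj u c ∧ ¬ H.Adj c w) = 0 :=
          csI_neg fun h => h.2.2 h3.symm
        rw [e1, e2, e3, e4]; norm_num
      · have e3 : csI (c ∈ Z ∧ H.Adj w c) = 0 := csI_neg fun h => h3 h.2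
        have e4 : csI (c ∈ Z ∧ ¬ H.Adj u c ∧ ¬ H.Adj c w) = 1 :=
          csI_pos ⟨h1, h2, fun h => h3 h.symm⟩
        rw [e1, e2, e3, e4]; norm_num
  · have e1 := csI_neg h1
    have e2 : csI (c ∈ Z ∧ H.Adj u c) = 0 := csI_neg fun h => h1 h.1
    have e3 : csI (c ∈ Z ∧ H.Adj w c) = 0 := csI_neg fun h => h1 h.1
    have e4 : csI (c ∈ Z ∧ ¬ H.Adj u c ∧ ¬ H.Adj c w) = 0 := csI_neg fun h => h1 h.1
    rw [e1, e2, e3, e4]; norm_num

/-- the number of common non-neighbours -/
noncomputable def csG (H : SimpleGraph V) (Z : Finset V) (u w : V) : ℝ :=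
  Z.card - degS H Z u - degS H Z w

omit [Fintype V] in
theorem csG_comm (H : SimpleGraph V) (Z : Finset V) (u w : V) : csG H Z u w = csG H Z w u := by
  unfold csG; ring

/-- the weight left to the 4-paths -/
noncomputable def csMu (H : SimpleGraph V) (Z : Finset V) (D : ℝ) (u w : V) : ℝ :=
  max 0 (1 - csG H Z u w / D)

omit [Fintype V] in
theorem csMu_comm (H : SimpleGraph V) (Z : Finset V) (D : ℝ) (u w : V) :
    csMu H Z D u w = csMu H Z D w u := by
  unfold csMu; rw [csG_comm]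

/-- weights of the 2-paths -/
noncomputable def csX2 (H : SimpleGraph V) (B Z : Finset V) (D : ℝ) (u c w : V) : ℝ :=
  csI (u ∈ B ∧ w ∈ B ∧ H.Adj u w) * csI (c ∈ Z ∧ ¬ H.Adj u c ∧ ¬ H.Adj c w) *
    ((1 / 2) / max (csG H Z u w) D)

/-- weights of the 4-paths -/
noncomputable def csX4 (H : SimpleGraph V) (B Z : Finset V) (D : ℝ) (u c e d w : V) : ℝ :=
  csI (u ∈ B ∧ w ∈ B ∧ H.Adj u w) * csI (c ∈ Z ∧ H.Adj w c) * csI (d ∈ Z ∧ H.Adj u d) *
    csI (e ∈ Z ∧ ¬ H.Adj c e ∧ ¬ H.Adj e d ∧ e ≠ c ∧ e ≠ d) *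
    ((1 / 2) * csMu H Z D u w / (degS H Z w * degS H Z u * csM H Z c d))

/-- the standing assumptions -/
structure CsHyp (H : SimpleGraph V) (B Z : Finset V) (D θ κ : ℝ) : Prop where
  tri : ∀ a b c, H.Adj a b → H.Adj b c → ¬ H.Adj a c
  kpos : 0 < κ
  tnn : 0 ≤ θ
  hB : ∀ w, w ∈ B ∨ w ∈ Z → (degS H B w : ℝ) ≤ D
  hZ : ∀ w, w ∈ B ∨ w ∈ Z → (degS H Z w : ℝ) ≤ D
  deg : ∀ u ∈ B, (Z.card : ℝ) - 2 * D ≤ (degS H Z u : ℝ) →
      (degS H B u : ℝ) ≤ (1 + θ) * (degS H Z u : ℝ)
  hD : κ * (Fintype.card V : ℝ) ≤ D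
  gap : κ * (Fintype.card V : ℝ) ≤ (Z.card : ℝ) - 2 * D - 2
  load : 2 * (1 + θ) * (3 * D - (Z.card : ℝ)) ≤ (Z.card : ℝ) - 2 * D - 2

variable {H : SimpleGraph V} {B Z : Finset V} {D θ κ : ℝ}

theorem CsHyp.card_pos (u : V) : (1 : ℝ) ≤ (Fintype.card V : ℝ) := by
  have : 0 < Fintype.card V := Fintype.card_pos_iff.2 ⟨u⟩
  exact_mod_cast this

theorem CsHyp.dpos (h : CsHyp H B Z D θ κ) (u : V) : 0 < D := by
  have h1 := CsHyp.card_pos u
  have h2 : 0 < κ * (Fintype.card V : ℝ) := mul_pos h.kpos (by linarith)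
  linarith [h.hD]

theorem CsHyp.mpos (h : CsHyp H B Z D θ κ) (u : V) : 0 < (Z.card : ℝ) - 2 * D - 2 := by
  have h1 := CsHyp.card_pos u
  have h2 : 0 < κ * (Fintype.card V : ℝ) := mul_pos h.kpos (by linarith)
  linarith [h.gap]

theorem CsHyp.kle (h : CsHyp H B Z D θ κ) (u : V) : κ ≤ 1 := by
  have h1 := CsHyp.card_pos u
  have h3 := h.dpos u
  have h2 : (Z.card : ℝ) ≤ (Fintype.card V : ℝ) := by exact_mod_cast Finset.card_le_univ Z
  have h4 := h.gap
  by_contra hcon
  rw [not_le] at hcon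
  have : (Fintype.card V : ℝ) ≤ κ * (Fintype.card V : ℝ) := by nlinarith
  linarith

theorem CsHyp.gnn (h : CsHyp H B Z D θ κ) {u w : V} (huw : H.Adj u w) : 0 ≤ csG H Z u w := by
  unfold csG
  rw [← cs_sum_out H Z u w (fun c hc => h.tri u w c huw hc.2 hc.1)]
  exact Finset.sum_nonneg fun c _ => csI_nonneg _

omit [Fintype V] in
theorem csMu_nonneg (H : SimpleGraph V) (Z : Finset V) (D : ℝ) (u w : V) :
    0 ≤ csMu H Z D u w := le_max_left _ _

theorem CsHyp.mu_le (h : CsHyp H B Z D θ κ) {u w : V} (hu : u ∈ B) :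
    csMu H Z D u w ≤ max 0 (2 * D + degS H Z w - Z.card) / D := by
  have hD := h.dpos u
  have hu' := h.hZ u (Or.inl hu)
  unfold csMu
  refine max_le (div_nonneg (le_max_left _ _) hD.le) ?_
  have h1 : 1 - csG H Z u w / D = (D - csG H Z u w) / D := by
    field_simp
  rw [h1]
  refine div_le_div_of_nonneg_right ?_ hD.le
  refine le_trans ?_ (le_max_right _ _)
  unfold csG
  linarith

theorem CsHyp.g_lt (h : CsHyp H B Z D θ κ) {u w : V} (hmu : csMu H Z D u w ≠ 0) :
    csG H Z u w < D := by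
  have hD := h.dpos u
  by_contra hcon
  rw [not_lt] at hcon
  apply hmu
  unfold csMu
  refine max_eq_left ?_
  have : 1 ≤ csG H Z u w / D := by rwa [le_div_iff₀ hD, one_mul]
  linarith

theorem CsHyp.a_gt (h : CsHyp H B Z D θ κ) {u w : V} (hw : w ∈ B)
    (hmu : csMu H Z D u w ≠ 0) : (Z.card : ℝ) - 2 * D < degS H Z u := by
  have h1 := h.g_lt hmu
  have h2 := h.hZ w (Or.inl hw)
  unfold csG at h1
  linarith

theorem CsHyp.a_gt' (h : CsHyp H B Z D θ κ) {u w : V} (hu : u ∈ B)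
    (hmu : csMu H Z D u w ≠ 0) : (Z.card : ℝ) - 2 * D < degS H Z w := by
  rw [csMu_comm] at hmu
  exact h.a_gt hu hmu

theorem CsHyp.M_ge (h : CsHyp H B Z D θ κ) {c d : V} (hc : c ∈ Z) (hd : d ∈ Z) :
    (Z.card : ℝ) - 2 * D - 2 ≤ csM H Z c d :=
  csM_ge H Z D c d (h.hZ c (Or.inr hc)) (h.hZ d (Or.inr hd))

theorem csX4_nonneg (h : CsHyp H B Z D θ κ) (u c e d w : V) : 0 ≤ csX4 H B Z D u c e d w := by
  unfold csX4
  by_cases hc : c ∈ Z ∧ H.Adj w c
  · by_cases hd : d ∈ Z ∧ H.Adj u d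
    · have h1 : 0 ≤ csM H Z c d := (h.mpos u).le.trans (h.M_ge hc.1 hd.1)
      have h2 := csMu_nonneg H Z D u w
      have := csI_nonneg (u ∈ B ∧ w ∈ B ∧ H.Adj u w)
      have := csI_nonneg (c ∈ Z ∧ H.Adj w c)
      have := csI_nonneg (d ∈ Z ∧ H.Adj u d)
      have := csI_nonneg (e ∈ Z ∧ ¬ H.Adj c e ∧ ¬ H.Adj e d ∧ e ≠ c ∧ e ≠ d)
      positivity
    · rw [csI_neg hd]; simp
  · rw [csI_neg hc]; simp

theorem csX2_nonneg (h : CsHyp H B Z D θ κ) (u c w : V) : 0 ≤ csX2 H B Z D u c w := by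
  unfold csX2
  have hD := h.dpos u
  have h1 : 0 < max (csG H Z u w) D := lt_max_of_lt_right hD
  have := csI_nonneg (u ∈ B ∧ w ∈ B ∧ H.Adj u w)
  have := csI_nonneg (c ∈ Z ∧ ¬ H.Adj u c ∧ ¬ H.Adj c w)
  positivity

omit [Fintype V] in
theorem csX2_symm (u c w : V) : csX2 H B Z D u c w = csX2 H B Z D w c u := by
  unfold csX2
  have h1 : (u ∈ B ∧ w ∈ B ∧ H.Adj u w) ↔ (w ∈ B ∧ u ∈ B ∧ H.Adj w u) := by
    rw [H.adj_comm u w]; tauto
  have h2 : (c ∈ Z ∧ ¬ H.Adj u c ∧ ¬ H.Adj c w) ↔ (c ∈ Z ∧ ¬ H.Adj w c ∧ ¬ H.Adj c u) := by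
    rw [H.adj_comm u c, H.adj_comm c w]; tauto
  rw [csI_congr h1, csI_congr h2, csG_comm]

theorem csX4_symm (u c e d w : V) : csX4 H B Z D u c e d w = csX4 H B Z D w d e c u := by
  unfold csX4
  have h1 : (u ∈ B ∧ w ∈ B ∧ H.Adj u w) ↔ (w ∈ B ∧ u ∈ B ∧ H.Adj w u) := by
    rw [H.adj_comm u w]; tauto
  have h2 : (e ∈ Z ∧ ¬ H.Adj c e ∧ ¬ H.Adj e d ∧ e ≠ c ∧ e ≠ d) ↔
      (e ∈ Z ∧ ¬ H.Adj d e ∧ ¬ H.Adj e c ∧ e ≠ d ∧ e ≠ c) := by
    rw [H.adj_comm c e, H.adj_comm e d]; tauto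
  rw [csI_congr h1, csI_congr h2, csMu_comm, csM_comm]
  ring

theorem cs_sum_e (h : CsHyp H B Z D θ κ) (u w c d : V) :
    ∑ e, csX4 H B Z D u c e d w = csI (u ∈ B ∧ w ∈ B ∧ H.Adj u w) *
      csI (c ∈ Z ∧ H.Adj w c) * csI (d ∈ Z ∧ H.Adj u d) *
      ((1 / 2) * csMu H Z D u w / (degS H Z w * degS H Z u)) := by
  have h0 : ∑ e, csX4 H B Z D u c e d w = csI (u ∈ B ∧ w ∈ B ∧ H.Adj u w) *
      csI (c ∈ Z ∧ H.Adj w c) * csI (d ∈ Z ∧ H.Adj u d) * csM H Z c d *
      ((1 / 2) * csMu H Z D u w / (degS H Z w * degS H Z u * csM H Z c d)) := by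
    unfold csX4
    rw [← Finset.sum_mul, ← Finset.mul_sum]
    rfl
  rw [h0]
  by_cases hc : c ∈ Z ∧ H.Adj w c
  · by_cases hd : d ∈ Z ∧ H.Adj u d
    · have h1 : csM H Z c d ≠ 0 := ((h.mpos u).trans_le (h.M_ge hc.1 hd.1)).ne'
      rw [← div_div ((1 / 2) * csMu H Z D u w)]
      field_simp
    · rw [csI_neg hd]; simp
  · rw [csI_neg hc]; simp

theorem cs_sum_de (h : CsHyp H B Z D θ κ) (u w c : V) :
    ∑ d, ∑ e, csX4 H B Z D u c e d w = csI (u ∈ B ∧ w ∈ B ∧ H.Adj u w) *
      csI (c ∈ Z ∧ H.Adj w c) * ((1 / 2) * csMu H Z D u w / degS H Z w) := by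
  rw [Finset.sum_congr rfl fun d _ => cs_sum_e h u w c d, ← Finset.sum_mul, ← Finset.mul_sum,
    cs_sum_adj]
  by_cases huw : u ∈ B ∧ w ∈ B ∧ H.Adj u w
  · by_cases hmu : csMu H Z D u w = 0
    · rw [hmu]; simp
    · have h1 := h.a_gt huw.2.1 hmu
      have h2 := h.mpos u
      have h3 : (degS H Z u : ℝ) ≠ 0 := by
        have : (0 : ℝ) < degS H Z u := by linarith
        exact this.ne'
      rw [← div_div ((1 / 2) * csMu H Z D u w)]
      field_simp
  · rw [csI_neg huw]; simp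

theorem cs_sum_cde (h : CsHyp H B Z D θ κ) (u w : V) :
    ∑ c, ∑ d, ∑ e, csX4 H B Z D u c e d w = csI (u ∈ B ∧ w ∈ B ∧ H.Adj u w) *
      ((1 / 2) * csMu H Z D u w) := by
  rw [Finset.sum_congr rfl fun c _ => cs_sum_de h u w c, ← Finset.sum_mul, ← Finset.mul_sum,
    cs_sum_adj]
  by_cases huw : u ∈ B ∧ w ∈ B ∧ H.Adj u w
  · by_cases hmu : csMu H Z D u w = 0
    · rw [hmu]; simp
    · have h1 := h.a_gt' huw.1 hmu
      have h2 := h.mpos u
      have h3 : (degS H Z w : ℝ) ≠ 0 := by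
        have : (0 : ℝ) < degS H Z w := by linarith
        exact this.ne'
      field_simp
  · rw [csI_neg huw]; simp

theorem cs_sum_x2 (h : CsHyp H B Z D θ κ) (u w : V) :
    ∑ c, csX2 H B Z D u c w = csI (u ∈ B ∧ w ∈ B ∧ H.Adj u w) *
      ((1 / 2) * (csG H Z u w / max (csG H Z u w) D)) := by
  unfold csX2
  rw [← Finset.sum_mul, ← Finset.mul_sum]
  by_cases huw : u ∈ B ∧ w ∈ B ∧ H.Adj u w
  · rw [cs_sum_out H Z u w (fun c hc => h.tri u w c huw.2.2 hc.2 hc.1)]
    unfold csG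
    ring
  · rw [csI_neg huw]; simp

theorem cs_half (h : CsHyp H B Z D θ κ) {u w : V} (huw : H.Adj u w) :
    csG H Z u w / max (csG H Z u w) D + csMu H Z D u w = 1 := by
  have hD := h.dpos u
  have hg := h.gnn huw
  unfold csMu
  rcases le_total (csG H Z u w) D with h1 | h1
  · have h2 : csG H Z u w / D ≤ 1 := by rwa [div_le_one hD]
    rw [max_eq_right h1, max_eq_right (by linarith)]
    ring
  · have h2 : 1 ≤ csG H Z u w / D := by rwa [one_le_div hD]
    rw [max_eq_left h1, max_eq_left (by linarith), div_self (hD.trans_le h1).ne']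
    ring

/-- total weight of an ordered pair -/
theorem cs_dem (h : CsHyp H B Z D θ κ) (u w : V) :
    ∑ c, csX2 H B Z D u c w + ∑ c, ∑ e, ∑ d, csX4 H B Z D u c e d w =
      csI (u ∈ B ∧ w ∈ B ∧ H.Adj u w) * (1 / 2) := by
  have h1 : ∑ c, ∑ e, ∑ d, csX4 H B Z D u c e d w = ∑ c, ∑ d, ∑ e, csX4 H B Z D u c e d w :=
    Finset.sum_congr rfl fun c _ => Finset.sum_comm
  rw [h1, cs_sum_cde h, cs_sum_x2 h]
  by_cases huw : u ∈ B ∧ w ∈ B ∧ H.Adj u w
  · have h2 := cs_half h huw.2.2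
    rw [csI_pos huw]
    linarith
  · rw [csI_neg huw]; simp

theorem cs_port (h : CsHyp H B Z D θ κ) (u c : V) :
    ∑ w, csX2 H B Z D u c w + ∑ e, ∑ d, ∑ w, csX4 H B Z D u c e d w ≤ 1 / 2 := by
  have hD := h.dpos u
  have h1 : ∑ e, ∑ d, ∑ w, csX4 H B Z D u c e d w = ∑ w, ∑ d, ∑ e, csX4 H B Z D u c e d w := by
    calc ∑ e, ∑ d, ∑ w, csX4 H B Z D u c e d w
        = ∑ e, ∑ w, ∑ d, csX4 H B Z D u c e d w :=
          Finset.sum_congr rfl fun e _ => Finset.sum_comm
      _ = ∑ w, ∑ e, ∑ d, csX4 H B Z D u c e d w := Finset.sum_comm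
      _ = ∑ w, ∑ d, ∑ e, csX4 H B Z D u c e d w :=
          Finset.sum_congr rfl fun w _ => Finset.sum_comm
  rw [h1, ← Finset.sum_add_distrib]
  by_cases hu : u ∈ B
  · have hdu := h.hB u (Or.inl hu)
    have key : ∀ w, csX2 H B Z D u c w + ∑ d, ∑ e, csX4 H B Z D u c e d w ≤
        csI (w ∈ B ∧ H.Adj u w) * (1 / (2 * D)) := by
      intro w
      rw [cs_sum_de h]
      unfold csX2
      by_cases hw : w ∈ B ∧ H.Adj u w
      · have hgD : (1 / 2) / max (csG H Z u w) D ≤ 1 / (2 * D) := by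
          rw [div_div]
          refine div_le_div_of_nonneg_left (by norm_num) (by positivity) ?_
          have := le_max_right (csG H Z u w) D
          linarith
        rw [csI_pos ⟨hu, hw⟩, csI_pos hw, one_mul, one_mul, one_mul]
        by_cases hcw : H.Adj w c
        · rw [csI_neg (fun h => h.2.2 hcw.symm : ¬ (c ∈ Z ∧ ¬ H.Adj u c ∧ ¬ H.Adj c w)),
            zero_mul, zero_add]
          have h2 : (1 / 2) * csMu H Z D u w / degS H Z w ≤ 1 / (2 * D) := by
            by_cases hmu : csMu H Z D u w = 0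
            · rw [hmu]; simp; positivity
            · have h3 := h.a_gt' hu hmu
              have h4 := h.mpos u
              have h5 : (0 : ℝ) < degS H Z w := by linarith
              have h6 := h.g_lt hmu
              have h7 : csMu H Z D u w = (D - csG H Z u w) / D := by
                unfold csMu
                have h8 : csG H Z u w / D < 1 := by rwa [div_lt_one hD]
                rw [max_eq_right (by linarith)]
                field_simp
              rw [h7, div_le_div_iff₀ h5 (by positivity)]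
              have h9 := h.hZ u (Or.inl hu)
              have h10 : (1 / 2) * ((D - csG H Z u w) / D) * (2 * D) = D - csG H Z u w := by
                field_simp
              rw [h10]
              unfold csG
              linarith
          calc csI (c ∈ Z ∧ H.Adj w c) * ((1 / 2) * csMu H Z D u w / degS H Z w)
              ≤ 1 * ((1 / 2) * csMu H Z D u w / degS H Z w) := by
                refine mul_le_mul_of_nonneg_right (csI_le_one _) ?_
                have := csMu_nonneg H Z D u w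
                positivity
            _ ≤ 1 / (2 * D) := by rw [one_mul]; exact h2
        · rw [csI_neg (fun h => hcw h.2 : ¬ (c ∈ Z ∧ H.Adj w c)), zero_mul, add_zero]
          calc csI (c ∈ Z ∧ ¬ H.Adj u c ∧ ¬ H.Adj c w) * ((1 / 2) / max (csG H Z u w) D)
              ≤ 1 * ((1 / 2) / max (csG H Z u w) D) := by
                refine mul_le_mul_of_nonneg_right (csI_le_one _) ?_
                have : 0 < max (csG H Z u w) D := lt_max_of_lt_right hD
                positivity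
            _ ≤ 1 / (2 * D) := by rw [one_mul]; exact hgD
      · rw [csI_neg (fun h => hw ⟨h.2.1, h.2.2⟩ : ¬ (u ∈ B ∧ w ∈ B ∧ H.Adj u w)), csI_neg hw]
        simp
    calc _ ≤ ∑ w, csI (w ∈ B ∧ H.Adj u w) * (1 / (2 * D)) := Finset.sum_le_sum fun w _ => key w
      _ = (degS H B u : ℝ) * (1 / (2 * D)) := by rw [← Finset.sum_mul, cs_sum_adj]
      _ ≤ D * (1 / (2 * D)) := mul_le_mul_of_nonneg_right hdu (by positivity)
      _ = 1 / 2 := by field_simp
  · have key : ∀ w, csX2 H B Z D u c w + ∑ d, ∑ e, csX4 H B Z D u c e d w = 0 := by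
      intro w
      rw [cs_sum_de h]
      unfold csX2
      rw [csI_neg (fun h => hu h.1 : ¬ (u ∈ B ∧ w ∈ B ∧ H.Adj u w))]
      simp
    rw [Finset.sum_congr rfl fun w _ => key w]
    simp

theorem cs_rout (h : CsHyp H B Z D θ κ) (c e : V) :
    ∑ u, ∑ d, ∑ w, csX4 H B Z D u c e d w ≤ 1 / 4 := by
  have hD := h.dpos c
  set m : ℝ := (Z.card : ℝ) - 2 * D - 2 with hm
  have hm0 : 0 < m := h.mpos c
  by_cases hc : c ∈ Z
  · have hdc := h.hB c (Or.inr hc)
    -- termwise bound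
    have t1 : ∀ u d w, csX4 H B Z D u c e d w ≤ csI (u ∈ B ∧ w ∈ B ∧ H.Adj u w) *
        csI (c ∈ Z ∧ H.Adj w c) * csI (d ∈ Z ∧ H.Adj u d) *
        ((1 / 2) * csMu H Z D u w / (degS H Z w * degS H Z u) / m) := by
      intro u d w
      unfold csX4
      have n1 := csI_nonneg (u ∈ B ∧ w ∈ B ∧ H.Adj u w)
      have n2 := csI_nonneg (c ∈ Z ∧ H.Adj w c)
      have n3 := csI_nonneg (d ∈ Z ∧ H.Adj u d)
      have n4 := csI_nonneg (e ∈ Z ∧ ¬ H.Adj c e ∧ ¬ H.Adj e d ∧ e ≠ c ∧ e ≠ d)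
      have n4' := csI_le_one (e ∈ Z ∧ ¬ H.Adj c e ∧ ¬ H.Adj e d ∧ e ≠ c ∧ e ≠ d)
      have n5 := csMu_nonneg H Z D u w
      by_cases hd : d ∈ Z ∧ H.Adj u d
      · have h1 := h.M_ge hc hd.1
        have h2 : 0 < csM H Z c d := hm0.trans_le h1
        have h3 : (1 / 2) * csMu H Z D u w / (degS H Z w * degS H Z u * csM H Z c d) ≤
            (1 / 2) * csMu H Z D u w / (degS H Z w * degS H Z u) / m := by
          rw [← div_div]
          exact div_le_div_of_nonneg_left (by positivity) hm0 h1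
        have h4 : 0 ≤ (1 / 2) * csMu H Z D u w / (degS H Z w * degS H Z u * csM H Z c d) := by
          positivity
        calc _ ≤ csI (u ∈ B ∧ w ∈ B ∧ H.Adj u w) * csI (c ∈ Z ∧ H.Adj w c) *
              csI (d ∈ Z ∧ H.Adj u d) * 1 *
              ((1 / 2) * csMu H Z D u w / (degS H Z w * degS H Z u * csM H Z c d)) := by
              refine mul_le_mul_of_nonneg_right ?_ h4
              exact mul_le_mul_of_nonneg_left n4' (by positivity)
          _ ≤ _ := by
              rw [mul_one]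
              exact mul_le_mul_of_nonneg_left h3 (by positivity)
      · rw [csI_neg hd]; simp
    -- sum over d
    have t2 : ∀ u w, ∑ d, csX4 H B Z D u c e d w ≤ csI (u ∈ B ∧ w ∈ B ∧ H.Adj u w) *
        csI (c ∈ Z ∧ H.Adj w c) * ((1 / 2) * csMu H Z D u w / degS H Z w / m) := by
      intro u w
      refine (Finset.sum_le_sum fun d _ => t1 u d w).trans ?_
      rw [← Finset.sum_mul, ← Finset.mul_sum, cs_sum_adj]
      by_cases huw : u ∈ B ∧ w ∈ B ∧ H.Adj u w
      · by_cases hmu : csMu H Z D u w = 0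
        · rw [hmu]; simp
        · have h1 := h.a_gt huw.2.1 hmu
          have h3 : (degS H Z u : ℝ) ≠ 0 := by
            have : (0 : ℝ) < degS H Z u := by linarith
            exact this.ne'
          refine le_of_eq ?_
          rw [← div_div ((1 / 2) * csMu H Z D u w) (degS H Z w : ℝ) (degS H Z u : ℝ)]
          field_simp
      · rw [csI_neg huw]; simp
    -- sum over u
    have t3 : ∀ w, ∑ u, ∑ d, csX4 H B Z D u c e d w ≤
        csI (w ∈ B ∧ H.Adj c w) * ((1 / 2) * (1 + θ) * (max 0 (3 * D - Z.card) / D) / m) := by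
      intro w
      refine (Finset.sum_le_sum fun u _ => t2 u w).trans ?_
      by_cases hw : w ∈ B
      · by_cases hcw : H.Adj c w
        · rw [csI_pos (⟨hw, hcw⟩ : w ∈ B ∧ H.Adj c w), one_mul]
          have hcw' : csI (c ∈ Z ∧ H.Adj w c) = 1 := csI_pos ⟨hc, hcw.symm⟩
          set ν : ℝ := max 0 (2 * D + degS H Z w - Z.card) / D with hν
          have hν0 : 0 ≤ ν := div_nonneg (le_max_left _ _) hD.le
          have haw := h.hZ w (Or.inl hw)
          have t4 : ∀ u, csI (u ∈ B ∧ w ∈ B ∧ H.Adj u w) * csI (c ∈ Z ∧ H.Adj w c) *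
              ((1 / 2) * csMu H Z D u w / degS H Z w / m) ≤
              csI (u ∈ B ∧ H.Adj w u) * ((1 / 2) * ν / degS H Z w / m) := by
            intro u
            rw [hcw', mul_one]
            by_cases hu : u ∈ B ∧ H.Adj w u
            · rw [csI_pos (⟨hu.1, hw, hu.2.symm⟩ : u ∈ B ∧ w ∈ B ∧ H.Adj u w), csI_pos hu,
                one_mul, one_mul]
              have := h.mu_le (w := w) hu.1
              gcongr
            · rw [csI_neg (fun h => hu ⟨h.1, h.2.2.symm⟩ : ¬ (u ∈ B ∧ w ∈ B ∧ H.Adj u w)),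
                csI_neg hu]
              simp
          refine (Finset.sum_le_sum fun u _ => t4 u).trans ?_
          rw [← Finset.sum_mul, cs_sum_adj]
          by_cases hpos : 0 < 2 * D + degS H Z w - Z.card
          · have h1 : (0 : ℝ) < degS H Z w := by
              have := h.mpos c
              linarith
            have h2 := h.deg w hw (by linarith)
            have h3 : ν ≤ max 0 (3 * D - Z.card) / D := by
              rw [hν]
              refine div_le_div_of_nonneg_right ?_ hD.le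
              exact max_le_max le_rfl (by linarith)
            calc (degS H B w : ℝ) * ((1 / 2) * ν / degS H Z w / m)
                ≤ ((1 + θ) * (degS H Z w : ℝ)) * ((1 / 2) * ν / degS H Z w / m) :=
                  mul_le_mul_of_nonneg_right h2 (by positivity)
              _ = (1 / 2) * (1 + θ) * ν / m := by field_simp
              _ ≤ (1 / 2) * (1 + θ) * (max 0 (3 * D - Z.card) / D) / m := by
                  have := h.tnn
                  gcongr
          · have h1 : ν = 0 := by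
              rw [hν, max_eq_left (not_lt.1 hpos), zero_div]
            rw [h1]
            have := h.tnn
            have : 0 ≤ max 0 (3 * D - (Z.card : ℝ)) := le_max_left _ _
            have h5 : (degS H B w : ℝ) * (1 / 2 * 0 / (degS H Z w : ℝ) / m) = 0 := by simp
            rw [h5]
            positivity
        · refine le_of_eq ?_
          rw [csI_neg (fun h => hcw h.2 : ¬ (w ∈ B ∧ H.Adj c w))]
          rw [zero_mul]
          refine Finset.sum_eq_zero fun u _ => ?_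
          rw [csI_neg (fun h => hcw h.2.symm : ¬ (c ∈ Z ∧ H.Adj w c))]
          simp
      · refine le_of_eq ?_
        rw [csI_neg (fun h => hw h.1 : ¬ (w ∈ B ∧ H.Adj c w))]
        rw [zero_mul]
        refine Finset.sum_eq_zero fun u _ => ?_
        rw [csI_neg (fun h => hw h.2.1 : ¬ (u ∈ B ∧ w ∈ B ∧ H.Adj u w))]
        simp
    have t5 : ∑ u, ∑ d, ∑ w, csX4 H B Z D u c e d w = ∑ w, ∑ u, ∑ d, csX4 H B Z D u c e d w := by
      calc ∑ u, ∑ d, ∑ w, csX4 H B Z D u c e d w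
          = ∑ u, ∑ w, ∑ d, csX4 H B Z D u c e d w :=
            Finset.sum_congr rfl fun e _ => Finset.sum_comm
        _ = ∑ w, ∑ u, ∑ d, csX4 H B Z D u c e d w := Finset.sum_comm
    have hnn : 0 ≤ (1 / 2) * (1 + θ) * (max 0 (3 * D - (Z.card : ℝ)) / D) / m := by
      have := h.tnn
      have : 0 ≤ max 0 (3 * D - (Z.card : ℝ)) := le_max_left _ _
      positivity
    rw [t5]
    calc _ ≤ ∑ w, csI (w ∈ B ∧ H.Adj c w) *
          ((1 / 2) * (1 + θ) * (max 0 (3 * D - Z.card) / D) / m) :=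
          Finset.sum_le_sum fun w _ => t3 w
      _ = (degS H B c : ℝ) * ((1 / 2) * (1 + θ) * (max 0 (3 * D - Z.card) / D) / m) := by
          rw [← Finset.sum_mul, cs_sum_adj]
      _ ≤ D * ((1 / 2) * (1 + θ) * (max 0 (3 * D - Z.card) / D) / m) :=
          mul_le_mul_of_nonneg_right hdc hnn
      _ = (1 / 2) * (1 + θ) * max 0 (3 * D - Z.card) / m := by field_simp
      _ ≤ 1 / 4 := by
          rw [div_le_iff₀ hm0]
          have h1 := h.load
          have h2 := h.tnn
          rcases le_total 0 (3 * D - (Z.card : ℝ)) with h3 | h3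
          · rw [max_eq_right h3]
            linarith
          · rw [max_eq_left h3]
            linarith
  · have t1 : ∀ u d w, csX4 H B Z D u c e d w = 0 := by
      intro u d w
      unfold csX4
      rw [csI_neg (fun h => hc h.1 : ¬ (c ∈ Z ∧ H.Adj w c))]
      simp
    simp only [t1, Finset.sum_const_zero]
    norm_num

theorem cs_bd2 (h : CsHyp H B Z D θ κ) (u c w : V) :
    csX2 H B Z D u c w ≤ 1 / κ ^ 3 / (Fintype.card V : ℝ) := by
  have hn := CsHyp.card_pos u
  have hD := h.dpos u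
  have hκ := h.kpos
  have hκ1 := h.kle u
  have h1 : (1 / 2) / max (csG H Z u w) D ≤ 1 / κ ^ 3 / (Fintype.card V : ℝ) := by
    have h2 : (1 / 2) / max (csG H Z u w) D ≤ (1 / 2) / (κ * (Fintype.card V : ℝ)) :=
      div_le_div_of_nonneg_left (by norm_num) (by positivity) (h.hD.trans (le_max_right _ _))
    refine h2.trans ?_
    have h3 : κ ^ 3 ≤ κ := by
      calc κ ^ 3 ≤ κ ^ 1 := pow_le_pow_of_le_one hκ.le hκ1 (by norm_num)
        _ = κ := pow_one κ
    have h4 : κ ^ 3 * (Fintype.card V : ℝ) ≤ κ * (Fintype.card V : ℝ) := by gcongr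
    have h5 : 0 < κ ^ 3 * (Fintype.card V : ℝ) := by positivity
    calc (1 / 2) / (κ * (Fintype.card V : ℝ)) ≤ 1 / (κ ^ 3 * (Fintype.card V : ℝ)) :=
          div_le_div₀ zero_le_one (by norm_num) h5 h4
      _ = 1 / κ ^ 3 / (Fintype.card V : ℝ) := by rw [div_div]
  have h6 : 0 < max (csG H Z u w) D := lt_max_of_lt_right hD
  have n1 := csI_nonneg (u ∈ B ∧ w ∈ B ∧ H.Adj u w)
  have n1' := csI_le_one (u ∈ B ∧ w ∈ B ∧ H.Adj u w)
  have n2 := csI_nonneg (c ∈ Z ∧ ¬ H.Adj u c ∧ ¬ H.Adj c w)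
  have n2' := csI_le_one (c ∈ Z ∧ ¬ H.Adj u c ∧ ¬ H.Adj c w)
  unfold csX2
  calc _ ≤ 1 * 1 * ((1 / 2) / max (csG H Z u w) D) := by gcongr
    _ ≤ _ := by rw [one_mul, one_mul]; exact h1

theorem cs_bd4 (h : CsHyp H B Z D θ κ) (u c e d w : V) :
    csX4 H B Z D u c e d w ≤ 1 / κ ^ 3 / (Fintype.card V : ℝ) ^ 3 := by
  have hn := CsHyp.card_pos u
  have hD := h.dpos u
  have hκ := h.kpos
  have hR : 0 ≤ 1 / κ ^ 3 / (Fintype.card V : ℝ) ^ 3 := by positivity
  unfold csX4
  by_cases huw : u ∈ B ∧ w ∈ B ∧ H.Adj u w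
  · by_cases hc : c ∈ Z ∧ H.Adj w c
    · by_cases hd : d ∈ Z ∧ H.Adj u d
      · by_cases hmu : csMu H Z D u w = 0
        · rw [hmu]; simpa using hR
        · have g := h.gap
          have g1 : κ * (Fintype.card V : ℝ) ≤ degS H Z u := by
            linarith [h.a_gt huw.2.1 hmu]
          have g2 : κ * (Fintype.card V : ℝ) ≤ degS H Z w := by
            linarith [h.a_gt' huw.1 hmu]
          have g3 : κ * (Fintype.card V : ℝ) ≤ csM H Z c d := g.trans (h.M_ge hc.1 hd.1)
          have g4 : csMu H Z D u w ≤ 1 := by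
            unfold csMu
            refine max_le zero_le_one ?_
            have := div_nonneg (h.gnn huw.2.2) hD.le
            linarith
          have n4 := csI_nonneg (e ∈ Z ∧ ¬ H.Adj c e ∧ ¬ H.Adj e d ∧ e ≠ c ∧ e ≠ d)
          have n4' := csI_le_one (e ∈ Z ∧ ¬ H.Adj c e ∧ ¬ H.Adj e d ∧ e ≠ c ∧ e ≠ d)
          have n5 := csMu_nonneg H Z D u w
          have g0 : 0 < κ * (Fintype.card V : ℝ) := by positivity
          have g5 : (κ * (Fintype.card V : ℝ)) ^ 3 ≤
              degS H Z w * degS H Z u * csM H Z c d := by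
            calc (κ * (Fintype.card V : ℝ)) ^ 3 =
                (κ * (Fintype.card V : ℝ)) * (κ * (Fintype.card V : ℝ)) *
                  (κ * (Fintype.card V : ℝ)) := by ring
              _ ≤ _ := by gcongr
          have g6 : (1 / 2) * csMu H Z D u w / (degS H Z w * degS H Z u * csM H Z c d) ≤
              1 / κ ^ 3 / (Fintype.card V : ℝ) ^ 3 := by
            calc _ ≤ 1 / (κ * (Fintype.card V : ℝ)) ^ 3 := by
                  gcongr
                  linarith
              _ = _ := by rw [mul_pow, div_div]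
          have g7 : 0 ≤ (1 / 2) * csMu H Z D u w / (degS H Z w * degS H Z u * csM H Z c d) := by
            have : 0 < degS H Z w * degS H Z u * csM H Z c d := by
              refine lt_of_lt_of_le ?_ g5
              positivity
            positivity
          rw [csI_pos huw, csI_pos hc, csI_pos hd, one_mul, one_mul, one_mul]
          calc _ ≤ 1 * ((1 / 2) * csMu H Z D u w /
                (degS H Z w * degS H Z u * csM H Z c d)) :=
                mul_le_mul_of_nonneg_right n4' g7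
            _ ≤ _ := by rw [one_mul]; exact g6
      · rw [csI_neg hd]; simpa using hR
    · rw [csI_neg hc]; simpa using hR
  · rw [csI_neg huw]; simpa using hR

end

/-- M3b. Fractional routing by 2-paths and 4-paths. -/
theorem core_small {V : Type} [Fintype V] [DecidableEq V] (H : SimpleGraph V) (B Z : Finset V)
    (hBZ : Disjoint B Z)
    (htri : ∀ a b c, H.Adj a b → H.Adj b c → ¬ H.Adj a c)
    (D θ κ : ℝ) (hκ : 0 < κ) (hθ : 0 ≤ θ)
    (hB : ∀ w ∈ B ∪ Z, (degS H B w : ℝ) ≤ D) (hZ : ∀ w ∈ B ∪ Z, (degS H Z w : ℝ) ≤ D)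
    (hBZdeg : ∀ u ∈ B, (Z.card : ℝ) - 2 * D ≤ (degS H Z u : ℝ) →
      (degS H B u : ℝ) ≤ (1 + θ) * (degS H Z u : ℝ))
    (hD : κ * (Fintype.card V : ℝ) ≤ D)
    (hgap : κ * (Fintype.card V : ℝ) ≤ (Z.card : ℝ) - 2 * D - 2)
    (hload : 2 * (1 + θ) * (3 * D - (Z.card : ℝ)) ≤ (Z.card : ℝ) - 2 * D - 2) :
    ∃ P : PathSystem H B Z (1 / κ ^ 3),
      (∑ u ∈ B, (degS H B u : ℝ)) / 2 ≤ P.total := by
  have h : CsHyp H B Z D θ κ :=
    { tri := htri
      kpos := hκ
      tnn := hθ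
      hB := fun w hw => hB w (Finset.mem_union.2 hw)
      hZ := fun w hw => hZ w (Finset.mem_union.2 hw)
      deg := hBZdeg
      hD := hD
      gap := hgap
      load := hload }
  refine ⟨
    { x2 := csX2 H B Z D
      x3 := fun _ _ _ _ => 0
      x4 := csX4 H B Z D
      nn2 := fun u c w => csX2_nonneg h u c w
      nn3 := fun _ _ _ _ => le_rfl
      nn4 := fun u c e d w => csX4_nonneg h u c e d w
      sym2 := fun u c w => csX2_symm u c w
      sym3 := fun _ _ _ _ => rfl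
      sym4 := fun u c e d w => csX4_symm u c e d w
      sup2 := fun u c w hne => ?_
      sup3 := fun _ _ _ _ hne => absurd rfl hne
      sup4 := fun u c e d w hne => ?_
      bd2 := fun u c w => cs_bd2 h u c w
      bd3 := fun u _ _ _ => by positivity
      bd4 := fun u c e d w => cs_bd4 h u c e d w
      dem := fun u w => ?_
      port := fun u c => ?_
      rout := fun c d => ?_ }, ?_⟩
  · unfold csX2 at hne
    have h1 := csI_ne_zero (left_ne_zero_of_mul (left_ne_zero_of_mul hne))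
    have h2 := csI_ne_zero (right_ne_zero_of_mul (left_ne_zero_of_mul hne))
    exact ⟨h1.1, h1.2.1, h2.1, h1.2.2, h2.2.1, h2.2.2⟩
  · unfold csX4 at hne
    have h0 := left_ne_zero_of_mul hne
    have h4 := csI_ne_zero (right_ne_zero_of_mul h0)
    have h0' := left_ne_zero_of_mul h0
    have h3 := csI_ne_zero (right_ne_zero_of_mul h0')
    have h0'' := left_ne_zero_of_mul h0'
    have h2 := csI_ne_zero (right_ne_zero_of_mul h0'')
    have h1 := csI_ne_zero (left_ne_zero_of_mul h0'')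
    refine ⟨h1.1, h1.2.1, h2.1, h4.1, h3.1, h4.2.2.2.1.symm, h4.2.2.2.2, ?_, h1.2.2,
      htri u w c h1.2.2 h2.2, h4.2.1, h4.2.2.1, ?_⟩
    · rintro rfl
      exact htri u w c h1.2.2 h2.2 h3.2
    · intro h5
      exact htri w u d h1.2.2.symm h3.2 h5.symm
  · have h1 := cs_dem h u w
    have h2 := csI_le_one (u ∈ B ∧ w ∈ B ∧ H.Adj u w)
    simp only [Finset.sum_const_zero, add_zero]
    rw [h1]
    linarith
  · have h1 := cs_port h u c
    simp only [Finset.sum_const_zero, add_zero]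
    exact h1
  · have h1 := cs_rout h c d
    have h2 := cs_rout h d c
    simp only [Finset.sum_const_zero, zero_add]
    linarith
  · unfold PathSystem.total
    simp only [Finset.sum_const_zero, add_zero]
    have h1 : ∀ u w, ∑ c, csX2 H B Z D u c w + ∑ c, ∑ e, ∑ d, csX4 H B Z D u c e d w =
      csI (u ∈ B) * csI (w ∈ B ∧ H.Adj u w) * (1 / 2) := by
      intro u w
      rw [cs_dem h u w, csI_and]
    have h2 : ∑ u, ∑ w, (∑ c, csX2 H B Z D u c w + ∑ c, ∑ e, ∑ d, csX4 H B Z D u c e d w) =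
        ∑ u, csI (u ∈ B) * (degS H B u : ℝ) * (1 / 2) := by
      refine Finset.sum_congr rfl fun u _ => ?_
      rw [Finset.sum_congr rfl fun w _ => h1 u w, ← Finset.sum_mul, ← Finset.mul_sum,
        cs_sum_adj]
    have h3 : ∑ u ∈ B, (degS H B u : ℝ) = ∑ u, csI (u ∈ B) * (degS H B u : ℝ) := by
      rw [← Finset.sum_subset (Finset.subset_univ B) (fun x _ hx => by
        rw [csI_neg hx, zero_mul])]
      exact Finset.sum_congr rfl fun u hu => by rw [csI_pos hu, one_mul]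
    rw [h2, h3, ← Finset.sum_mul]
    linarith

end Pool.Agent.Helper8.Verg
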