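import Mathlib

set_option autoImplicit false

/-!
Asymptotic Lescure-Meyniel conjecture for graphs of independence number two: definitions.
`H` is always the complement of the graph `G`; `G` has independence number at most two iff `H` is triangle-free.
-/

namespace Pool.Agent.Helper8.Verg

open Finset

open Classical in
/-- number of `H`-neighbours of `w` in the finite set `S` -/
noncomputable def degS {V : Type} (H : SimpleGraph V) (S : Finset V) (w : V) : ℕ :=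
  (S.filter (fun z => H.Adj w z)).card

open Classical in
/-- number of elements of `S` that are not `H`-neighbours of `w` -/
noncomputable def codegS {V : Type} (H : SimpleGraph V) (S : Finset V) (w : V) : ℕ :=
  (S.filter (fun z => ¬ H.Adj w z)).card

open Classical in
/-- number of elements of `W` that are `H`-neighbours neither of `u` nor of `w` -/
noncomputable def common {V : Type} (H : SimpleGraph V) (W : Finset V) (u w : V) : ℕ :=
  (W.filter (fun z => ¬ H.Adj u z ∧ ¬ H.Adj w z)).card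

open Classical in
/-- `∑ 1 / (s_u s_w)` over all ordered pairs of adjacent vertices of `B`, where `s_u` is the number
of elements of `C` not adjacent to `u` -/
noncomputable def theta {V : Type} (H : SimpleGraph V) (C B : Finset V) : ℝ :=
  ∑ u ∈ B, ∑ w ∈ B, if H.Adj u w then
    (1 : ℝ) / ((codegS H C u : ℝ) * (codegS H C w : ℝ)) else 0

/-- `G` contains a weak immersion of the complete graph on `t` vertices (as in the frozen statement). -/
def HasImm {V : Type} (G : SimpleGraph V) (t : ℕ) : Prop :=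
  ∃ f : Fin t ↪ V, ∃ p : ∀ i j : Fin t, G.Walk (f i) (f j),
    (∀ i j : Fin t, i < j → (p i j).IsPath) ∧
    ∀ i j k l : Fin t, i < j → k < l → (i ≠ k ∨ j ≠ l) →
      ∀ e ∈ (p i j).edges, e ∉ (p k l).edges

/-- A fractional routing of all `H`-edges inside `B` by paths of `Hᶜ` whose inner vertices lie in `Z`,
of length 2 (`x2 u c w`, path `u c w`), 3 (`x3 u c d w`) or 4 (`x4 u c e d w`).
Everything is written for ordered pairs, so that a pair `{u,w}` has total weight at most `1/2` from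
each of its two orders. -/
structure PathSystem {V : Type} [Fintype V] (H : SimpleGraph V) (B Z : Finset V) (K : ℝ) where
  x2 : V → V → V → ℝ
  x3 : V → V → V → V → ℝ
  x4 : V → V → V → V → V → ℝ
  nn2 : ∀ u c w, 0 ≤ x2 u c w
  nn3 : ∀ u c d w, 0 ≤ x3 u c d w
  nn4 : ∀ u c e d w, 0 ≤ x4 u c e d w
  sym2 : ∀ u c w, x2 u c w = x2 w c u
  sym3 : ∀ u c d w, x3 u c d w = x3 w d c u
  sym4 : ∀ u c e d w, x4 u c e d w = x4 w d e c u
  sup2 : ∀ u c w, x2 u c w ≠ 0 → u ∈ B ∧ w ∈ B ∧ c ∈ Z ∧ H.Adj u w ∧ ¬ H.Adj u c ∧ ¬ H.Adj c w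
  sup3 : ∀ u c d w, x3 u c d w ≠ 0 → u ∈ B ∧ w ∈ B ∧ c ∈ Z ∧ d ∈ Z ∧ c ≠ d ∧
    H.Adj u w ∧ ¬ H.Adj u c ∧ ¬ H.Adj c d ∧ ¬ H.Adj d w
  sup4 : ∀ u c e d w, x4 u c e d w ≠ 0 → u ∈ B ∧ w ∈ B ∧ c ∈ Z ∧ e ∈ Z ∧ d ∈ Z ∧
    c ≠ e ∧ e ≠ d ∧ c ≠ d ∧ H.Adj u w ∧ ¬ H.Adj u c ∧ ¬ H.Adj c e ∧ ¬ H.Adj e d ∧ ¬ H.Adj d w
  bd2 : ∀ u c w, x2 u c w ≤ K / (Fintype.card V : ℝ)
  bd3 : ∀ u c d w, x3 u c d w ≤ K / (Fintype.card V : ℝ) ^ 2
  bd4 : ∀ u c e d w, x4 u c e d w ≤ K / (Fintype.card V : ℝ) ^ 3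
  /-- every demand is served at most once -/
  dem : ∀ u w, ∑ c, x2 u c w + ∑ c, ∑ d, x3 u c d w + ∑ c, ∑ e, ∑ d, x4 u c e d w ≤ 1 / 2
  /-- load of the edges between `B` and `Z` -/
  port : ∀ u c, ∑ w, x2 u c w + ∑ d, ∑ w, x3 u c d w + ∑ e, ∑ d, ∑ w, x4 u c e d w ≤ 1 / 2
  /-- load of the edges inside `Z` -/
  rout : ∀ c d, ∑ u, ∑ w, x3 u c d w + ∑ u, ∑ d', ∑ w, x4 u c d d' w
    + ∑ u, ∑ d', ∑ w, x4 u d c d' w ≤ 1 / 2

/-- total weight of a path system -/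
noncomputable def PathSystem.total {V : Type} [Fintype V] {H : SimpleGraph V} {B Z : Finset V}
    {K : ℝ} (P : PathSystem H B Z K) : ℝ :=
  ∑ u, ∑ w, (∑ c, P.x2 u c w + ∑ c, ∑ d, P.x3 u c d w + ∑ c, ∑ e, ∑ d, P.x4 u c e d w)

/-- An integral partial routing: the set `M` of served `H`-edges inside `B` and for each of them the
edge set of a path of `Hᶜ` all of whose inner vertices lie in `Z`, the edge sets being disjoint. -/
structure Served {V : Type} [Fintype V] [DecidableEq V] (H : SimpleGraph V) (B Z : Finset V) where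
  M : Finset (Sym2 V)
  E : Sym2 V → Finset (Sym2 V)
  route : ∀ s ∈ M, ∃ u w, u ∈ B ∧ w ∈ B ∧ H.Adj u w ∧ s = s(u, w) ∧
    ∃ p : Hᶜ.Walk u w, p.IsPath ∧ p.edges.toFinset = E s
  sub : ∀ s ∈ M, ∀ e ∈ E s, (∃ z ∈ Z, z ∈ e) ∧ ∀ z ∈ e, z ∈ B ∪ Z
  disj : ∀ s ∈ M, ∀ t ∈ M, s ≠ t → Disjoint (E s) (E t)

end Pool.Agent.Helper8.Verg
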