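import Mathlib
import Pool.Agent.Helper8.Verg.Defs

set_option autoImplicit false

/-! M6b. Completing a partial routing with reserved vertices. -/

namespace Pool.Agent.Helper8.Verg

open Finset

/-- Assembly of an immersion from a family of edge-disjoint paths. -/
theorem imm_of_family {V : Type} [DecidableEq V] (G : SimpleGraph V) (t : ℕ) (B₁ : Finset V)
    (ht : t ≤ B₁.card) (E : Sym2 V → Finset (Sym2 V))
    (hp : ∀ u ∈ B₁, ∀ w ∈ B₁, u ≠ w → ∃ p : G.Walk u w, p.IsPath ∧ p.edges.toFinset = E s(u, w))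
    (hd : ∀ u ∈ B₁, ∀ w ∈ B₁, ∀ u' ∈ B₁, ∀ w' ∈ B₁, u ≠ w → u' ≠ w' → s(u, w) ≠ s(u', w') →
      Disjoint (E s(u, w)) (E s(u', w'))) : HasImm G t := by
  classical
  obtain ⟨B₂, hB₂, hcard⟩ := exists_subset_card_eq ht
  let e : Fin t ≃ B₂ := (Fin.castOrderIso hcard.symm).toEquiv.trans B₂.equivFin.symm
  let f : Fin t ↪ V := e.toEmbedding.trans (Function.Embedding.subtype _)
  have hf : ∀ i, f i ∈ B₁ := fun i => hB₂ (e i).2
  have hex : ∀ i j : Fin t, ∃ p : G.Walk (f i) (f j), i ≠ j →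
      p.IsPath ∧ p.edges.toFinset = E s(f i, f j) := by
    intro i j
    by_cases hij : i = j
    · subst hij
      exact ⟨SimpleGraph.Walk.nil, fun h => absurd rfl h⟩
    · obtain ⟨p, h1, h2⟩ := hp (f i) (hf i) (f j) (hf j) (fun h => hij (f.injective h))
      exact ⟨p, fun _ => ⟨h1, h2⟩⟩
  choose p hpp using hex
  refine ⟨f, p, fun i j hij => (hpp i j hij.ne).1, ?_⟩
  intro i j k l hij hkl hne x hx hx'
  have h1 : x ∈ E s(f i, f j) := by
    rw [← (hpp i j hij.ne).2]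
    exact List.mem_toFinset.2 hx
  have h2 : x ∈ E s(f k, f l) := by
    rw [← (hpp k l hkl.ne).2]
    exact List.mem_toFinset.2 hx'
  refine disjoint_left.1 (hd _ (hf i) _ (hf j) _ (hf k) _ (hf l)
    (fun h => hij.ne (f.injective h)) (fun h => hkl.ne (f.injective h)) ?_) h1 h2
  intro hs
  rw [Sym2.eq_iff] at hs
  rcases hs with ⟨h3, h4⟩ | ⟨h3, h4⟩
  · rcases hne with h | h
    · exact h (f.injective h3)
    · exact h (f.injective h4)
  · have h5 : i = l := f.injective h3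
    have h6 : j = k := f.injective h4
    subst h5
    subst h6
    exact lt_asymm hij hkl

/-- The greedy choice of the middle vertices. -/
theorem greedy_choice {V : Type} [Fintype V] [DecidableEq V] (H : SimpleGraph V)
    (W : Finset V) (ℓ : ℕ) (L : Finset (Sym2 V))
    (hL : ∀ s ∈ L, ∃ u w, s = s(u, w) ∧ 2 * ℓ ≤ common H W u w)
    (hdeg : ∀ s ∈ L, ∀ u ∈ s, (L.filter (fun s' => u ∈ s')).card < ℓ) :
    ∃ z : Sym2 V → V, (∀ s ∈ L, z s ∈ W ∧ ∀ u ∈ s, ¬ H.Adj u (z s)) ∧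
      ∀ s ∈ L, ∀ s' ∈ L, s ≠ s' → ∀ u, u ∈ s → u ∈ s' → z s ≠ z s' := by
  classical
  suffices h : ∀ F : Finset (Sym2 V), F ⊆ L → ∃ z : Sym2 V → V,
      (∀ s ∈ F, z s ∈ W ∧ ∀ u ∈ s, ¬ H.Adj u (z s)) ∧
      ∀ s ∈ F, ∀ s' ∈ F, s ≠ s' → ∀ u, u ∈ s → u ∈ s' → z s ≠ z s' from h L (Subset.refl L)
  intro F
  induction F using Finset.induction_on with
  | empty =>
    intro _
    rcases L.eq_empty_or_nonempty with hLe | ⟨s, hs⟩
    · rcases isEmpty_or_nonempty V with hV | ⟨⟨v⟩⟩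
      · exact ⟨fun s => (Quot.out s).1, by simp, by simp⟩
      · exact ⟨fun _ => v, by simp, by simp⟩
    · obtain ⟨u, w, -, -⟩ := hL s hs
      exact ⟨fun _ => u, by simp, by simp⟩
  | insert s F hsF ih =>
    intro hF
    obtain ⟨z, hz1, hz2⟩ := ih ((subset_insert s F).trans hF)
    have hsL : s ∈ L := hF (mem_insert_self s F)
    obtain ⟨u, w, hsuw, hcom⟩ := hL s hsL
    have hu : u ∈ s := by rw [hsuw]; exact Sym2.mem_mk_left u w
    have hw : w ∈ s := by rw [hsuw]; exact Sym2.mem_mk_right u w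
    let Fu := F.filter (fun s' => u ∈ s')
    let Fw := F.filter (fun s' => w ∈ s')
    have hFL : F ⊆ L := (subset_insert s F).trans hF
    have hFu : Fu.card < ℓ :=
      (card_le_card (filter_subset_filter _ hFL)).trans_lt (hdeg s hsL u hu)
    have hFw : Fw.card < ℓ :=
      (card_le_card (filter_subset_filter _ hFL)).trans_lt (hdeg s hsL w hw)
    let T := W.filter (fun z => ¬ H.Adj u z ∧ ¬ H.Adj w z)
    have hT : 2 * ℓ ≤ T.card := by
      refine hcom.trans (le_of_eq ?_)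
      unfold common
      congr
    have hcard : ((Fu ∪ Fw).image z).card < T.card := by
      calc ((Fu ∪ Fw).image z).card ≤ (Fu ∪ Fw).card := card_image_le
        _ ≤ Fu.card + Fw.card := card_union_le _ _
        _ < T.card := by omega
    obtain ⟨c, hcT, hc⟩ := exists_mem_notMem_of_card_lt_card hcard
    have hcT' := mem_filter.1 hcT
    refine ⟨Function.update z s c, ?_, ?_⟩
    · intro s' hs'
      rcases mem_insert.1 hs' with rfl | hs'F
      · rw [Function.update_self]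
        refine ⟨hcT'.1, ?_⟩
        intro a ha
        rw [hsuw, Sym2.mem_iff] at ha
        rcases ha with rfl | rfl
        · exact hcT'.2.1
        · exact hcT'.2.2
      · have hne : s' ≠ s := fun h => hsF (h ▸ hs'F)
        rw [Function.update_of_ne hne]
        exact hz1 s' hs'F
    · have hkey : ∀ s' ∈ F, ∀ a, a ∈ s → a ∈ s' → c ≠ z s' := by
        intro s' hs' a ha ha' heq
        apply hc
        rw [heq]
        apply mem_image_of_mem
        rw [hsuw, Sym2.mem_iff] at ha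
        rcases ha with rfl | rfl
        · exact mem_union_left _ (mem_filter.2 ⟨hs', ha'⟩)
        · exact mem_union_right _ (mem_filter.2 ⟨hs', ha'⟩)
      intro s₁ h₁ s₂ h₂ hne a ha₁ ha₂
      rcases mem_insert.1 h₁ with rfl | h₁F
      · rcases mem_insert.1 h₂ with rfl | h₂F
        · exact absurd rfl hne
        · rw [Function.update_self, Function.update_of_ne hne.symm]
          exact hkey s₂ h₂F a ha₁ ha₂
      · rcases mem_insert.1 h₂ with rfl | h₂F
        · rw [Function.update_self, Function.update_of_ne hne]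
          exact (hkey s₁ h₁F a ha₂ ha₁).symm
        · have hne₁ : s₁ ≠ s := fun h => hsF (h ▸ h₁F)
          have hne₂ : s₂ ≠ s := fun h => hsF (h ▸ h₂F)
          rw [Function.update_of_ne hne₁, Function.update_of_ne hne₂]
          exact hz2 s₁ h₁F s₂ h₂F hne a ha₁ ha₂

/-- M6b. Completing a partial routing with the reserved vertices `W`. -/
theorem finish {V : Type} [Fintype V] [DecidableEq V] (H : SimpleGraph V) (B Z W : Finset V)
    (hBZ : Disjoint B Z) (hBW : Disjoint B W) (hZW : Disjoint Z W)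
    (R : Served H B Z) (ℓ t : ℕ) (hℓ : 0 < ℓ) (τ : ℝ)
    (hτ : (∑ u ∈ B, (degS H B u : ℝ)) / 2 - τ ≤ (R.M.card : ℝ))
    (hW : ∀ u ∈ B, ∀ w ∈ B, H.Adj u w →
      2 * ℓ ≤ common H W u w)
    (ht : (t : ℝ) + 2 * τ / ℓ ≤ (B.card : ℝ)) :
    HasImm Hᶜ t := by
  classical
  -- the number of unserved demands at a vertex
  let dl : V → ℕ := fun u => (B.filter (fun w => H.Adj u w ∧ s(u, w) ∉ R.M)).card
  let ds : V → ℕ := fun u => (B.filter (fun w => H.Adj u w ∧ s(u, w) ∈ R.M)).card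
  have hsplit : ∀ u, degS H B u = dl u + ds u := by
    intro u
    have h1 := card_filter_add_card_filter_not (s := B.filter (fun w => H.Adj u w))
      (fun w => s(u, w) ∉ R.M)
    rw [filter_filter, filter_filter] at h1
    have h2 : degS H B u = (B.filter (fun w => H.Adj u w)).card := by
      unfold degS
      congr
    rw [h2, ← h1]
    simp only [dl, ds, not_not]
  have hserved : 2 * R.M.card ≤ ∑ u ∈ B, ds u := by
    have h1 : ∑ u ∈ B, ds u = ((B ×ˢ B).filter (fun q => H.Adj q.1 q.2 ∧ s(q.1, q.2) ∈ R.M)).card := by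
      rw [card_filter, sum_product]
      refine sum_congr rfl fun u _ => ?_
      simp only [ds]
      rw [card_filter]
    rw [h1]
    rw [card_eq_sum_card_fiberwise (f := fun q : V × V => s(q.1, q.2)) (t := R.M)
      (fun q hq => (mem_filter.1 hq).2.2), mul_comm, ← smul_eq_mul]
    apply card_nsmul_le_sum
    intro s hs
    obtain ⟨u, w, hu, hw, huw, rfl, -⟩ := R.route s hs
    have h2 : ({(u, w), (w, u)} : Finset (V × V)) ⊆ ((B ×ˢ B).filter
        (fun q => H.Adj q.1 q.2 ∧ s(q.1, q.2) ∈ R.M)).filter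
        (fun q => s(q.1, q.2) = s(u, w)) := by
      intro q hq
      rw [mem_insert, mem_singleton] at hq
      rcases hq with rfl | rfl
      · exact mem_filter.2 ⟨mem_filter.2 ⟨mem_product.2 ⟨hu, hw⟩, huw, hs⟩, rfl⟩
      · exact mem_filter.2 ⟨mem_filter.2 ⟨mem_product.2 ⟨hw, hu⟩, huw.symm, by
          rw [Sym2.eq_swap]
          exact hs⟩, Sym2.eq_swap⟩
    have h3 : ({(u, w), (w, u)} : Finset (V × V)).card = 2 := by
      rw [card_pair]
      intro h
      exact huw.ne (Prod.ext_iff.1 h).1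
    rw [← h3]
    exact card_le_card h2
  have hsum : (∑ u ∈ B, (dl u : ℝ)) ≤ 2 * τ := by
    have h1 : (∑ u ∈ B, (degS H B u : ℝ)) = ∑ u ∈ B, (dl u : ℝ) + ∑ u ∈ B, (ds u : ℝ) := by
      rw [← sum_add_distrib]
      refine sum_congr rfl fun u _ => ?_
      rw [hsplit u]
      push_cast
      ring
    have h2 : (2 : ℝ) * R.M.card ≤ ∑ u ∈ B, (ds u : ℝ) := by exact_mod_cast hserved
    linarith
  let D : Finset V := B.filter (fun u => ℓ ≤ dl u)
  let B₁ : Finset V := B \ D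
  have hB₁ : ∀ u ∈ B₁, u ∈ B ∧ dl u < ℓ := by
    intro u hu
    obtain ⟨h1, h2⟩ := mem_sdiff.1 hu
    refine ⟨h1, ?_⟩
    by_contra h3
    exact h2 (mem_filter.2 ⟨h1, not_lt.1 h3⟩)
  have hcard : t ≤ B₁.card := by
    have h1 : (D.card : ℝ) * ℓ ≤ 2 * τ := by
      have h2 : (D.card : ℝ) * ℓ ≤ ∑ u ∈ D, (dl u : ℝ) := by
        rw [← nsmul_eq_mul]
        apply card_nsmul_le_sum
        intro u hu
        exact_mod_cast (mem_filter.1 hu).2
      have h3 : ∑ u ∈ D, (dl u : ℝ) ≤ ∑ u ∈ B, (dl u : ℝ) :=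
        sum_le_sum_of_subset_of_nonneg (filter_subset _ _) fun u _ _ => Nat.cast_nonneg _
      linarith
    have h4 : (D.card : ℝ) ≤ 2 * τ / ℓ := by
      rw [le_div_iff₀ (by exact_mod_cast hℓ)]
      exact h1
    have h5 : B₁.card + D.card = B.card := card_sdiff_add_card_eq_card (filter_subset _ _)
    have h6 : (B₁.card : ℝ) + D.card = B.card := by exact_mod_cast h5
    have h7 : (t : ℝ) ≤ B₁.card := by linarith
    exact_mod_cast h7
  -- the unserved pairs in `B₁`
  let L : Finset (Sym2 V) := univ.filter fun s => s ∉ R.M ∧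
    ∃ u w, u ∈ B₁ ∧ w ∈ B₁ ∧ H.Adj u w ∧ s = s(u, w)
  obtain ⟨z, hz1, hz2⟩ := greedy_choice H W ℓ L (by
    intro s hs
    obtain ⟨-, -, u, w, hu, hw, huw, rfl⟩ := mem_filter.1 hs
    exact ⟨u, w, rfl, hW u (hB₁ u hu).1 w (hB₁ w hw).1 huw⟩) (by
    intro s hs a ha
    obtain ⟨-, -, u, w, hu, hw, huw, rfl⟩ := mem_filter.1 hs
    have ha1 : a ∈ B₁ := by
      rcases Sym2.mem_iff.1 ha with rfl | rfl
      · exact hu
      · exact hw
    refine lt_of_le_of_lt ?_ (hB₁ a ha1).2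
    calc (L.filter (fun s' => a ∈ s')).card
        ≤ ((B.filter (fun w => H.Adj a w ∧ s(a, w) ∉ R.M)).image (fun w => s(a, w))).card := by
          apply card_le_card
          intro s' hs'
          obtain ⟨hs'L, has'⟩ := mem_filter.1 hs'
          obtain ⟨-, hnM, u', w', hu', hw', huw', rfl⟩ := mem_filter.1 hs'L
          rw [mem_image]
          rcases Sym2.mem_iff.1 has' with rfl | rfl
          · exact ⟨w', mem_filter.2 ⟨(hB₁ w' hw').1, huw', hnM⟩, rfl⟩
          · refine ⟨u', mem_filter.2 ⟨(hB₁ u' hu').1, huw'.symm, ?_⟩, Sym2.eq_swap⟩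
            rw [Sym2.eq_swap]
            exact hnM
      _ ≤ dl a := card_image_le)
  have hLmem : ∀ s, s ∈ L ↔ s ∉ R.M ∧ ∃ u w, u ∈ B₁ ∧ w ∈ B₁ ∧ H.Adj u w ∧ s = s(u, w) := by
    intro s
    simp [L]
  let E : Sym2 V → Finset (Sym2 V) := fun s =>
    if s ∈ R.M then R.E s else
      if s ∈ L then univ.filter (fun e => ∃ u, u ∈ s ∧ e = s(u, z s)) else {s}
  have hE1 : ∀ s, s ∈ R.M → E s = R.E s := fun s hs => by simp only [E, if_pos hs]
  have hE2 : ∀ s, s ∉ R.M → s ∈ L → ∀ e, e ∈ E s ↔ ∃ u, u ∈ s ∧ e = s(u, z s) := fun s h1 h2 e => by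
    simp only [E, if_neg h1, if_pos h2]
    simp
  have hE3 : ∀ s, s ∉ R.M → s ∉ L → E s = {s} := fun s h1 h2 => by
    simp only [E, if_neg h1, if_neg h2]
  have hBWd : ∀ a, a ∈ B → a ∉ W := fun a h1 h2 => disjoint_left.1 hBW h1 h2
  have hBZd : ∀ a, a ∈ B → a ∉ Z := fun a h1 h2 => disjoint_left.1 hBZ h1 h2
  have hZWd : ∀ a, a ∈ Z → a ∉ W := fun a h1 h2 => disjoint_left.1 hZW h1 h2
  have hLB : ∀ s ∈ L, ∀ a ∈ s, a ∈ B := by
    intro s hs a ha
    obtain ⟨-, u, w, hu, hw, -, rfl⟩ := (hLmem s).1 hs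
    rcases Sym2.mem_iff.1 ha with rfl | rfl
    · exact (hB₁ _ hu).1
    · exact (hB₁ _ hw).1
  refine imm_of_family Hᶜ t B₁ hcard E ?_ ?_
  · -- the paths
    intro u hu w hw huw
    by_cases hM : s(u, w) ∈ R.M
    · obtain ⟨u', w', -, -, -, hs, p, hp, hpE⟩ := R.route _ hM
      rw [hE1 _ hM]
      rw [Sym2.eq_iff] at hs
      rcases hs with ⟨rfl, rfl⟩ | ⟨rfl, rfl⟩
      · exact ⟨p, hp, hpE⟩
      · refine ⟨p.reverse, hp.reverse, ?_⟩
        rw [SimpleGraph.Walk.edges_reverse, List.toFinset_reverse, hpE]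
    · by_cases hH : H.Adj u w
      · have hL : s(u, w) ∈ L := (hLmem _).2 ⟨hM, u, w, hu, hw, hH, rfl⟩
        obtain ⟨hzW, hzadj⟩ := hz1 _ hL
        have hu1 : ¬ H.Adj u (z s(u, w)) := hzadj u (Sym2.mem_mk_left u w)
        have hw1 : ¬ H.Adj w (z s(u, w)) := hzadj w (Sym2.mem_mk_right u w)
        have hzu : u ≠ z s(u, w) := fun h => hBWd u (hB₁ u hu).1 (h ▸ hzW)
        have hzw : w ≠ z s(u, w) := fun h => hBWd w (hB₁ w hw).1 (h ▸ hzW)
        have ha1 : Hᶜ.Adj u (z s(u, w)) := (SimpleGraph.compl_adj H _ _).2 ⟨hzu, hu1⟩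
        have ha2 : Hᶜ.Adj (z s(u, w)) w :=
          (SimpleGraph.compl_adj H _ _).2 ⟨hzw.symm, fun h => hw1 h.symm⟩
        refine ⟨SimpleGraph.Walk.cons ha1 (SimpleGraph.Walk.cons ha2 SimpleGraph.Walk.nil), ?_, ?_⟩
        · rw [SimpleGraph.Walk.isPath_def]
          simp [huw, hzu, hzw.symm]
        · ext e
          rw [hE2 _ hM hL]
          simp only [SimpleGraph.Walk.edges_cons, SimpleGraph.Walk.edges_nil, List.toFinset_cons,
            List.toFinset_nil, mem_insert, notMem_empty, or_false]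
          constructor
          · rintro (rfl | rfl)
            · exact ⟨u, Sym2.mem_mk_left u w, rfl⟩
            · exact ⟨w, Sym2.mem_mk_right u w, Sym2.eq_swap⟩
          · rintro ⟨a, ha, rfl⟩
            rcases Sym2.mem_iff.1 ha with rfl | rfl
            · exact Or.inl rfl
            · exact Or.inr Sym2.eq_swap
      · have hL : s(u, w) ∉ L := by
          intro h
          obtain ⟨-, u', w', -, -, h1, h2⟩ := (hLmem _).1 h
          rw [Sym2.eq_iff] at h2
          rcases h2 with ⟨rfl, rfl⟩ | ⟨rfl, rfl⟩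
          · exact hH h1
          · exact hH h1.symm
        have ha : Hᶜ.Adj u w := (SimpleGraph.compl_adj H _ _).2 ⟨huw, hH⟩
        refine ⟨SimpleGraph.Walk.cons ha SimpleGraph.Walk.nil, ?_, ?_⟩
        · rw [SimpleGraph.Walk.isPath_def]
          simp [huw]
        · rw [hE3 _ hM hL]
          simp
  · -- disjointness
    intro u hu w hw u' hu' w' hw' huw huw' hne
    -- a symmetric description of the cases
    have hBs : ∀ a ∈ s(u, w), a ∈ B := by
      intro a ha
      rcases Sym2.mem_iff.1 ha with rfl | rfl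
      · exact (hB₁ _ hu).1
      · exact (hB₁ _ hw).1
    have hBs' : ∀ a ∈ s(u', w'), a ∈ B := by
      intro a ha
      rcases Sym2.mem_iff.1 ha with rfl | rfl
      · exact (hB₁ _ hu').1
      · exact (hB₁ _ hw').1
    have c1 : ∀ s s' : Sym2 V, s ≠ s' → s ∈ R.M → s' ∈ R.M → ∀ e, e ∈ E s → e ∈ E s' → False := by
      intro s s' hne h1 h2 e he he'
      rw [hE1 _ h1] at he
      rw [hE1 _ h2] at he'
      exact disjoint_left.1 (R.disj s h1 s' h2 hne) he he'
    have c2 : ∀ s s' : Sym2 V, s ∈ R.M → s' ∉ R.M → s' ∈ L → ∀ e, e ∈ E s → e ∈ E s' → False := by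
      intro s s' h1 h2 h3 e he he'
      rw [hE1 _ h1] at he
      obtain ⟨a, ha, rfl⟩ := (hE2 _ h2 h3 e).1 he'
      have h4 := (R.sub s h1 _ he).2 (z s') (Sym2.mem_mk_right _ _)
      rcases mem_union.1 h4 with h5 | h5
      · exact hBWd _ h5 (hz1 s' h3).1
      · exact hZWd _ h5 (hz1 s' h3).1
    have c3 : ∀ s s' : Sym2 V, (∀ a ∈ s', a ∈ B) → s ∈ R.M → s' ∉ R.M → s' ∉ L →
        ∀ e, e ∈ E s → e ∈ E s' → False := by
      intro s s' hs' h1 h2 h3 e he he'
      rw [hE1 _ h1] at he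
      rw [hE3 _ h2 h3, mem_singleton] at he'
      subst he'
      obtain ⟨c, hc, hce⟩ := (R.sub s h1 _ he).1
      exact hBZd c (hs' c hce) hc
    have c4 : ∀ s s' : Sym2 V, (∀ a ∈ s, a ∈ B) → s ≠ s' → s ∉ R.M → s ∈ L → s' ∉ R.M → s' ∈ L →
        ∀ e, e ∈ E s → e ∈ E s' → False := by
      intro s s' hs hne h1 h2 h3 h4 e he he'
      obtain ⟨a, ha, rfl⟩ := (hE2 _ h1 h2 e).1 he
      obtain ⟨b, hb, hab⟩ := (hE2 _ h3 h4 _).1 he'
      rw [Sym2.eq_iff] at hab
      rcases hab with ⟨rfl, h5⟩ | ⟨h5, -⟩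
      · exact hz2 s h2 s' h4 hne a ha hb h5
      · exact hBWd a (hs a ha) (h5 ▸ (hz1 s' h4).1)
    have c5 : ∀ s s' : Sym2 V, (∀ a ∈ s', a ∈ B) → s ∉ R.M → s ∈ L → s' ∉ R.M → s' ∉ L →
        ∀ e, e ∈ E s → e ∈ E s' → False := by
      intro s s' hs' h1 h2 h3 h4 e he he'
      obtain ⟨a, ha, rfl⟩ := (hE2 _ h1 h2 e).1 he
      rw [hE3 _ h3 h4, mem_singleton] at he'
      exact hBWd _ (hs' (z s) (he' ▸ Sym2.mem_mk_right _ _)) (hz1 s h2).1
    have c6 : ∀ s s' : Sym2 V, s ≠ s' → s ∉ R.M → s ∉ L → s' ∉ R.M → s' ∉ L →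
        ∀ e, e ∈ E s → e ∈ E s' → False := by
      intro s s' hne h1 h2 h3 h4 e he he'
      rw [hE3 _ h1 h2, mem_singleton] at he
      rw [hE3 _ h3 h4, mem_singleton] at he'
      exact hne (he.symm.trans he')
    rw [disjoint_left]
    intro e he he'
    by_cases h1 : s(u, w) ∈ R.M
    · by_cases h3 : s(u', w') ∈ R.M
      · exact c1 _ _ hne h1 h3 e he he'
      · by_cases h4 : s(u', w') ∈ L
        · exact c2 _ _ h1 h3 h4 e he he'
        · exact c3 _ _ hBs' h1 h3 h4 e he he'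
    · by_cases h2 : s(u, w) ∈ L
      · by_cases h3 : s(u', w') ∈ R.M
        · exact c2 _ _ h3 h1 h2 e he' he
        · by_cases h4 : s(u', w') ∈ L
          · exact c4 _ _ hBs hne h1 h2 h3 h4 e he he'
          · exact c5 _ _ hBs' h1 h2 h3 h4 e he he'
      · by_cases h3 : s(u', w') ∈ R.M
        · exact c3 _ _ hBs h3 h1 h2 e he' he
        · by_cases h4 : s(u', w') ∈ L
          · exact c5 _ _ hBs h3 h4 h1 h2 e he' he
          · exact c6 _ _ hne h1 h2 h3 h4 e he he'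

end Pool.Agent.Helper8.Verg
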