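import Mathlib

set_option autoImplicit false
set_option linter.unusedSectionVars false
set_option linter.unusedVariables false

/-! Weighted nibble, part A: one random step (finite sums). -/

namespace Pool.Agent.Helper8.Verg

open Finset

section step

variable {α κ : Type} [Fintype α] [DecidableEq α] [Fintype κ] [DecidableEq κ]

/-- probability of choosing exactly `R` among `L` -/
noncomputable def wt (q : κ → ℝ) (L R : Finset κ) : ℝ :=
  (∏ j ∈ R, q j) * ∏ j ∈ L \ R, (1 - q j)

lemma wt_nonneg (q : κ → ℝ) (h0 : ∀ j, 0 ≤ q j) (h1 : ∀ j, q j ≤ 1) (L R : Finset κ) :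
    0 ≤ wt q L R :=
  mul_nonneg (prod_nonneg fun j _ => h0 j) (prod_nonneg fun j _ => by linarith [h1 j])

lemma wt_sum (q : κ → ℝ) (L X K : Finset κ) (hX : X ⊆ L) (hK : K ⊆ L) (hXK : Disjoint X K) :
    ∑ R ∈ L.powerset, (if X ⊆ R ∧ Disjoint R K then wt q L R else 0) =
      (∏ j ∈ X, q j) * ∏ j ∈ K, (1 - q j) := by
  have h1 : ∀ R ∈ L.powerset, (if X ⊆ R ∧ Disjoint R K then wt q L R else 0) =
      (∏ j ∈ R, (if j ∈ K then 0 else q j)) * ∏ j ∈ L \ R, (if j ∈ X then 0 else 1 - q j) := by
    intro R hR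
    rw [mem_powerset] at hR
    by_cases hc : X ⊆ R ∧ Disjoint R K
    · rw [if_pos hc]
      unfold wt
      congr 1
      · refine prod_congr rfl fun j hj => ?_
        rw [if_neg]
        exact fun h => (Finset.disjoint_left.1 hc.2) hj h
      · refine prod_congr rfl fun j hj => ?_
        rw [if_neg]
        intro h
        exact (mem_sdiff.1 hj).2 (hc.1 h)
    · rw [if_neg hc]
      rw [not_and_or] at hc
      rcases hc with hc | hc
      · obtain ⟨j, hj, hjR⟩ := Finset.not_subset.1 hc
        have : ∏ j ∈ L \ R, (if j ∈ X then 0 else 1 - q j) = 0 :=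
          prod_eq_zero (mem_sdiff.2 ⟨hX hj, hjR⟩) (by rw [if_pos hj])
        rw [this, mul_zero]
      · obtain ⟨j, hj, hjK⟩ := Finset.not_disjoint_iff.1 hc
        have : ∏ j ∈ R, (if j ∈ K then 0 else q j) = 0 :=
          prod_eq_zero hj (by rw [if_pos hjK])
        rw [this, zero_mul]
  rw [sum_congr rfl h1, ← prod_add]
  have h2 : ∀ j ∈ L, ((if j ∈ K then 0 else q j) + if j ∈ X then 0 else 1 - q j) =
      (if j ∈ X then q j else 1) * (if j ∈ K then 1 - q j else 1) := by
    intro j _
    by_cases hx : j ∈ X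
    · have : j ∉ K := Finset.disjoint_left.1 hXK hx
      simp [hx, this]
    · by_cases hk : j ∈ K
      · simp [hx, hk]
      · simp [hx, hk]
  rw [prod_congr rfl h2, prod_mul_distrib]
  congr 1
  · rw [prod_ite_mem, Finset.inter_eq_right.2 hX]
  · rw [prod_ite_mem, Finset.inter_eq_right.2 hK]

lemma wt_sum_one (q : κ → ℝ) (L : Finset κ) : ∑ R ∈ L.powerset, wt q L R = 1 := by
  have := wt_sum q L ∅ ∅ (by simp) (by simp) (by simp)
  simpa using this

/-- edges contained in `U` -/
def live (S : κ → Finset α) (U : Finset α) : Finset κ := univ.filter (fun j => S j ⊆ U)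

/-- transition operator of one step -/
noncomputable def TT (S : κ → Finset α) (q : κ → ℝ) (F : Finset α → ℝ) (U : Finset α) : ℝ :=
  ∑ R ∈ (live S U).powerset, wt q (live S U) R * F (U \ R.biUnion S)

lemma TT_mono (S : κ → Finset α) (q : κ → ℝ) (h0 : ∀ j, 0 ≤ q j) (h1 : ∀ j, q j ≤ 1)
    {F G : Finset α → ℝ} (h : ∀ U, F U ≤ G U) (U : Finset α) : TT S q F U ≤ TT S q G U :=
  sum_le_sum fun R _ => mul_le_mul_of_nonneg_left (h _) (wt_nonneg q h0 h1 _ _)

lemma TT_add (S : κ → Finset α) (q : κ → ℝ) (F G : Finset α → ℝ) (U : Finset α) :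
    TT S q (fun U => F U + G U) U = TT S q F U + TT S q G U := by
  unfold TT
  rw [← sum_add_distrib]
  exact sum_congr rfl fun R _ => by ring

lemma TT_smul (S : κ → Finset α) (q : κ → ℝ) (a : ℝ) (F : Finset α → ℝ) (U : Finset α) :
    TT S q (fun U => a * F U) U = a * TT S q F U := by
  unfold TT
  rw [mul_sum]
  exact sum_congr rfl fun R _ => by ring

lemma TT_const (S : κ → Finset α) (q : κ → ℝ) (a : ℝ) (U : Finset α) :
    TT S q (fun _ => a) U = a := by
  unfold TT
  rw [← sum_mul, wt_sum_one, one_mul]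

/-- indicator of `A ⊆ U` -/
noncomputable def ind (A U : Finset α) : ℝ := if A ⊆ U then 1 else 0

lemma ind_nonneg (A U : Finset α) : 0 ≤ ind A U := by
  unfold ind; split_ifs <;> norm_num

lemma ind_le_one (A U : Finset α) : ind A U ≤ 1 := by
  unfold ind; split_ifs <;> norm_num

/-- edges meeting `A` -/
def meet (S : κ → Finset α) (A : Finset α) : Finset κ := univ.filter (fun j => ¬ Disjoint (S j) A)

lemma TT_ind (S : κ → Finset α) (q : κ → ℝ) (A U : Finset α) :
    TT S q (ind A) U = if A ⊆ U then ∏ j ∈ live S U ∩ meet S A, (1 - q j) else 0 := by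
  by_cases hA : A ⊆ U
  · rw [if_pos hA]
    have := wt_sum q (live S U) ∅ (live S U ∩ meet S A) (by simp) inter_subset_left (by simp)
    simp only [prod_empty, one_mul] at this
    rw [← this]
    unfold TT
    refine sum_congr rfl fun R hR => ?_
    rw [mem_powerset] at hR
    have hiff : A ⊆ U \ R.biUnion S ↔ Disjoint R (live S U ∩ meet S A) := by
      constructor
      · intro h
        rw [Finset.disjoint_left]
        intro j hj hj2
        have hm := (mem_filter.1 (mem_inter.1 hj2).2).2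
        apply hm
        rw [Finset.disjoint_left]
        intro a ha haA
        have := (mem_sdiff.1 (h haA)).2
        exact this (mem_biUnion.2 ⟨j, hj, ha⟩)
      · intro h a ha
        rw [mem_sdiff]
        refine ⟨hA ha, fun hb => ?_⟩
        obtain ⟨j, hj, haj⟩ := mem_biUnion.1 hb
        refine (Finset.disjoint_left.1 h) hj (mem_inter.2 ⟨hR hj, ?_⟩)
        refine mem_filter.2 ⟨mem_univ _, ?_⟩
        rw [Finset.not_disjoint_iff]
        exact ⟨a, haj, ha⟩
    unfold ind
    by_cases hd : Disjoint R (live S U ∩ meet S A)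
    · rw [if_pos (hiff.2 hd)]
      simp [hd]
    · rw [if_neg (fun h => hd (hiff.1 h))]
      simp [hd]
  · rw [if_neg hA]
    unfold TT
    refine sum_eq_zero fun R _ => ?_
    have : ind A (U \ R.biUnion S) = 0 := by
      unfold ind
      rw [if_neg]
      exact fun h => hA (h.trans sdiff_subset)
    rw [this, mul_zero]

end step

/-- Bonferroni-type bounds -/
lemma one_sub_sum_le_prod {κ : Type} [DecidableEq κ] (q : κ → ℝ) (h0 : ∀ j, 0 ≤ q j)
    (h1 : ∀ j, q j ≤ 1) (s : Finset κ) :
    0 ≤ ∏ j ∈ s, (1 - q j) - (1 - ∑ j ∈ s, q j) ∧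
      ∏ j ∈ s, (1 - q j) - (1 - ∑ j ∈ s, q j) ≤ (∑ j ∈ s, q j) ^ 2 := by
  induction s using Finset.induction_on with
  | empty => simp
  | insert a s ha ih =>
    rw [prod_insert ha, sum_insert ha]
    have hP0 : 0 ≤ ∏ j ∈ s, (1 - q j) := prod_nonneg fun j _ => by linarith [h1 j]
    have hP1 : ∏ j ∈ s, (1 - q j) ≤ 1 := prod_le_one (fun j _ => by linarith [h1 j])
      (fun j _ => by linarith [h0 j])
    have hs : 0 ≤ ∑ j ∈ s, q j := sum_nonneg fun j _ => h0 j
    have ha0 := h0 a
    have ha1 := h1 a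
    set P := ∏ j ∈ s, (1 - q j)
    set t := ∑ j ∈ s, q j
    constructor
    · nlinarith [ih.1]
    · nlinarith [ih.2, mul_nonneg ha0 hs, mul_nonneg ha0 hP0]

section process

variable {α κ : Type} [Fintype α] [DecidableEq α] [Fintype κ] [DecidableEq κ]

/-- expectation after `i` steps -/
noncomputable def PP (S : κ → Finset α) (q : ℕ → κ → ℝ) : ℕ → (Finset α → ℝ) → ℝ
  | 0, F => F univ
  | i + 1, F => PP S q i (TT S (q i) F)

lemma PP_mono (S : κ → Finset α) (q : ℕ → κ → ℝ) (h0 : ∀ i j, 0 ≤ q i j) (h1 : ∀ i j, q i j ≤ 1)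
    (i : ℕ) {F G : Finset α → ℝ} (h : ∀ U, F U ≤ G U) : PP S q i F ≤ PP S q i G := by
  induction i generalizing F G with
  | zero => exact h _
  | succ i ih => exact ih fun U => TT_mono S (q i) (h0 i) (h1 i) h U

lemma PP_add (S : κ → Finset α) (q : ℕ → κ → ℝ) (i : ℕ) (F G : Finset α → ℝ) :
    PP S q i (fun U => F U + G U) = PP S q i F + PP S q i G := by
  induction i generalizing F G with
  | zero => rfl
  | succ i ih =>
    show PP S q i (TT S (q i) fun U => F U + G U) = _
    have : (TT S (q i) fun U => F U + G U) = fun U => TT S (q i) F U + TT S (q i) G U := by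
      funext U; exact TT_add S (q i) F G U
    rw [this, ih]; rfl

lemma PP_smul (S : κ → Finset α) (q : ℕ → κ → ℝ) (i : ℕ) (a : ℝ) (F : Finset α → ℝ) :
    PP S q i (fun U => a * F U) = a * PP S q i F := by
  induction i generalizing F with
  | zero => rfl
  | succ i ih =>
    show PP S q i (TT S (q i) fun U => a * F U) = _
    have : (TT S (q i) fun U => a * F U) = fun U => a * TT S (q i) F U := by
      funext U; exact TT_smul S (q i) a F U
    rw [this, ih]; rfl

lemma PP_const (S : κ → Finset α) (q : ℕ → κ → ℝ) (i : ℕ) (a : ℝ) :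
    PP S q i (fun _ => a) = a := by
  induction i with
  | zero => rfl
  | succ i ih =>
    show PP S q i (TT S (q i) fun _ => a) = _
    have : (TT S (q i) fun _ => a) = fun _ => a := by
      funext U; exact TT_const S (q i) a U
    rw [this, ih]

lemma PP_sum {β : Type} [DecidableEq β] (S : κ → Finset α) (q : ℕ → κ → ℝ) (i : ℕ)
    (s : Finset β) (c : β → ℝ) (F : β → Finset α → ℝ) :
    PP S q i (fun U => ∑ b ∈ s, c b * F b U) = ∑ b ∈ s, c b * PP S q i (F b) := by
  induction s using Finset.induction_on with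
  | empty => simpa using PP_const S q i 0
  | insert b s hb ih =>
    rw [sum_insert hb, ← ih, ← PP_smul, ← PP_add]
    congr 1
    funext U
    rw [sum_insert hb]

/-- probability that all of `A` is uncovered after `i` steps -/
noncomputable def pr (S : κ → Finset α) (q : ℕ → κ → ℝ) (i : ℕ) (A : Finset α) : ℝ :=
  PP S q i (ind A)

lemma pr_zero (S : κ → Finset α) (q : ℕ → κ → ℝ) (A : Finset α) : pr S q 0 A = 1 := by
  show ind A univ = 1
  unfold ind; simp

lemma pr_nonneg (S : κ → Finset α) (q : ℕ → κ → ℝ) (h0 : ∀ i j, 0 ≤ q i j)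
    (h1 : ∀ i j, q i j ≤ 1) (i : ℕ) (A : Finset α) : 0 ≤ pr S q i A := by
  have := PP_mono S q h0 h1 i (F := fun _ => 0) (G := ind A) (fun U => ind_nonneg A U)
  rwa [PP_const] at this

lemma pr_le_one (S : κ → Finset α) (q : ℕ → κ → ℝ) (h0 : ∀ i j, 0 ≤ q i j)
    (h1 : ∀ i j, q i j ≤ 1) (i : ℕ) (A : Finset α) : pr S q i A ≤ 1 := by
  have := PP_mono S q h0 h1 i (F := ind A) (G := fun _ => 1) (fun U => ind_le_one A U)
  rwa [PP_const] at this

lemma pr_step (S : κ → Finset α) (q : ℕ → κ → ℝ) (h0 : ∀ i j, 0 ≤ q i j)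
    (h1 : ∀ i j, q i j ≤ 1) (i : ℕ) (A : Finset α) :
    |pr S q (i + 1) A - (pr S q i A - ∑ j ∈ meet S A, q i j * pr S q i (A ∪ S j))| ≤
      (∑ j ∈ meet S A, q i j) ^ 2 := by
  set Q := ∑ j ∈ meet S A, q i j with hQ
  have hQ0 : 0 ≤ Q := sum_nonneg fun j _ => h0 i j
  set Dm : Finset α → ℝ := fun U => TT S (q i) (ind A) U +
    ((-1) * ind A U + ∑ j ∈ meet S A, q i j * ind (A ∪ S j) U) with hDm
  have hpt : ∀ U, 0 ≤ Dm U ∧ Dm U ≤ Q ^ 2 := by
    intro U
    simp only [hDm]
    rw [TT_ind]
    by_cases hA : A ⊆ U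
    · rw [if_pos hA]
      have h2 : ind A U = 1 := by unfold ind; rw [if_pos hA]
      have h3 : ∑ j ∈ meet S A, q i j * ind (A ∪ S j) U = ∑ j ∈ live S U ∩ meet S A, q i j := by
        rw [inter_comm, ← Finset.filter_mem_eq_inter, sum_filter]
        refine sum_congr rfl fun j _ => ?_
        by_cases hj : j ∈ live S U
        · rw [if_pos hj]
          have : A ∪ S j ⊆ U := union_subset hA (mem_filter.1 hj).2
          unfold ind
          rw [if_pos this, mul_one]
        · rw [if_neg hj]
          have : ¬ A ∪ S j ⊆ U := fun h => hj (mem_filter.2 ⟨mem_univ _, subset_union_right.trans h⟩)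
          unfold ind
          rw [if_neg this, mul_zero]
      rw [h2, h3]
      obtain ⟨hb1, hb2⟩ := one_sub_sum_le_prod (q i) (h0 i) (h1 i) (live S U ∩ meet S A)
      have h4 : ∑ j ∈ live S U ∩ meet S A, q i j ≤ Q :=
        sum_le_sum_of_subset_of_nonneg inter_subset_right fun j _ _ => h0 i j
      have h5 : 0 ≤ ∑ j ∈ live S U ∩ meet S A, q i j := sum_nonneg fun j _ => h0 i j
      constructor
      · linarith
      · have : (∑ j ∈ live S U ∩ meet S A, q i j) ^ 2 ≤ Q ^ 2 := by gcongr
        linarith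
    · rw [if_neg hA]
      have h2 : ind A U = 0 := by unfold ind; rw [if_neg hA]
      have h3 : ∑ j ∈ meet S A, q i j * ind (A ∪ S j) U = 0 := by
        refine sum_eq_zero fun j _ => ?_
        have : ¬ A ∪ S j ⊆ U := fun h => hA (subset_union_left.trans h)
        unfold ind
        rw [if_neg this, mul_zero]
      rw [h2, h3]
      constructor
      · norm_num
      · have : 0 ≤ Q ^ 2 := sq_nonneg _
        linarith
  have hval : PP S q i Dm = pr S q (i + 1) A -
      (pr S q i A - ∑ j ∈ meet S A, q i j * pr S q i (A ∪ S j)) := by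
    simp only [hDm]
    rw [PP_add S q i (TT S (q i) (ind A)), PP_add, PP_smul, PP_sum]
    show pr S q (i + 1) A + _ = _
    unfold pr
    ring
  have hlo : 0 ≤ PP S q i Dm := by
    have := PP_mono S q h0 h1 i (F := fun _ => 0) (G := Dm) (fun U => (hpt U).1)
    rwa [PP_const] at this
  have hhi : PP S q i Dm ≤ Q ^ 2 := by
    have := PP_mono S q h0 h1 i (F := Dm) (G := fun _ => Q ^ 2) (fun U => (hpt U).2)
    rwa [PP_const] at this
  rw [← hval, abs_of_nonneg hlo]
  exact hhi

end process

end Pool.Agent.Helper8.Verg
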