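import Mathlib
import Pool.Agent.Helper8.Verg.NibbleA

set_option autoImplicit false
set_option linter.unusedSectionVars false
set_option linter.unusedVariables false

/-! Weighted nibble, part B: the matching produced. -/

namespace Pool.Agent.Helper8.Verg

open Finset

variable {α κ : Type} [Fintype α] [DecidableEq α] [Fintype κ] [DecidableEq κ]

/-- matching number inside `U` using edges of `rl` -/
noncomputable def mval (S : κ → Finset α) (rl : Finset κ) (U : Finset α) : ℕ :=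
  ((rl.filter (fun j => S j ⊆ U)).powerset.filter
    (fun M => ∀ i ∈ M, ∀ j ∈ M, i ≠ j → Disjoint (S i) (S j))).sup Finset.card

lemma exists_mval (S : κ → Finset α) (rl : Finset κ) (U : Finset α) :
    ∃ M : Finset κ, M ⊆ rl ∧ (∀ j ∈ M, S j ⊆ U) ∧
      (∀ i ∈ M, ∀ j ∈ M, i ≠ j → Disjoint (S i) (S j)) ∧ M.card = mval S rl U := by
  have hne : ((rl.filter (fun j => S j ⊆ U)).powerset.filter
    (fun M => ∀ i ∈ M, ∀ j ∈ M, i ≠ j → Disjoint (S i) (S j))).Nonempty :=
    ⟨∅, by simp⟩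
  obtain ⟨M, hM, hsup⟩ := Finset.exists_mem_eq_sup _ hne Finset.card
  rw [mem_filter, mem_powerset] at hM
  refine ⟨M, hM.1.trans (filter_subset _ _), fun j hj => (mem_filter.1 (hM.1 hj)).2, hM.2, hsup.symm⟩

lemma le_mval (S : κ → Finset α) (rl : Finset κ) (U : Finset α) (M : Finset κ) (h1 : M ⊆ rl)
    (h2 : ∀ j ∈ M, S j ⊆ U) (h3 : ∀ i ∈ M, ∀ j ∈ M, i ≠ j → Disjoint (S i) (S j)) :
    M.card ≤ mval S rl U := by
  refine Finset.le_sup (f := Finset.card) ?_
  rw [mem_filter, mem_powerset]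
  exact ⟨fun j hj => mem_filter.2 ⟨h1 hj, h2 j hj⟩, h3⟩

/-- the members of `R` in `rl` that are disjoint from all other members of `R` -/
def good (S : κ → Finset α) (rl R : Finset κ) : Finset κ :=
  R.filter (fun j => j ∈ rl ∧ ∀ j' ∈ R, j' ≠ j → Disjoint (S j) (S j'))

lemma good_add_mval (S : κ → Finset α) (hS : ∀ j, (S j).Nonempty) (rl : Finset κ) (U : Finset α)
    (R : Finset κ) (hR : R ⊆ live S U) :
    (good S rl R).card + mval S rl (U \ R.biUnion S) ≤ mval S rl U := by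
  obtain ⟨M, hM1, hM2, hM3, hM4⟩ := exists_mval S rl (U \ R.biUnion S)
  have hdis : ∀ i ∈ good S rl R, ∀ j ∈ M, Disjoint (S i) (S j) := by
    intro i hi j hj
    have hiR : i ∈ R := (mem_filter.1 hi).1
    rw [Finset.disjoint_left]
    intro a ha haj
    exact (mem_sdiff.1 (hM2 j hj haj)).2 (mem_biUnion.2 ⟨i, hiR, ha⟩)
  have hd : Disjoint (good S rl R) M := by
    rw [Finset.disjoint_left]
    intro i hi hiM
    have := hdis i hi i hiM
    rw [disjoint_self_iff_empty] at this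
    exact (hS i).ne_empty this
  rw [← hM4, ← card_union_of_disjoint hd]
  refine le_mval S rl U _ ?_ ?_ ?_
  · intro j hj
    rcases mem_union.1 hj with h | h
    · exact (mem_filter.1 h).2.1
    · exact hM1 h
  · intro j hj
    rcases mem_union.1 hj with h | h
    · exact (mem_filter.1 (hR (mem_filter.1 h).1)).2
    · exact (hM2 j h).trans sdiff_subset
  · intro i hi j hj hij
    rcases mem_union.1 hi with h | h <;> rcases mem_union.1 hj with h' | h'
    · exact (mem_filter.1 h).2.2 j (mem_filter.1 h').1 hij.symm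
    · exact hdis i h j h'
    · exact (hdis j h' i h).symm
    · exact hM3 i h j h' hij

/-- expected gain of one step -/
noncomputable def gain (S : κ → Finset α) (q : κ → ℝ) (rl : Finset κ) (U : Finset α) : ℝ :=
  ∑ R ∈ (live S U).powerset, wt q (live S U) R * ((good S rl R).card : ℝ)

lemma gain_add (S : κ → Finset α) (hS : ∀ j, (S j).Nonempty) (q : κ → ℝ) (h0 : ∀ j, 0 ≤ q j)
    (h1 : ∀ j, q j ≤ 1) (rl : Finset κ) (U : Finset α) :
    gain S q rl U + TT S q (fun U => (mval S rl U : ℝ)) U ≤ (mval S rl U : ℝ) := by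
  have : (mval S rl U : ℝ) = ∑ R ∈ (live S U).powerset, wt q (live S U) R * (mval S rl U : ℝ) := by
    rw [← sum_mul, wt_sum_one, one_mul]
  rw [this]
  unfold gain TT
  rw [← sum_add_distrib]
  refine sum_le_sum fun R hR => ?_
  rw [← mul_add]
  refine mul_le_mul_of_nonneg_left ?_ (wt_nonneg q h0 h1 _ _)
  show ((good S rl R).card : ℝ) + (mval S rl (U \ R.biUnion S) : ℝ) ≤ (mval S rl U : ℝ)
  exact_mod_cast good_add_mval S hS rl U R (mem_powerset.1 hR)

lemma sum_gain (S : κ → Finset α) (hS : ∀ j, (S j).Nonempty) (q : ℕ → κ → ℝ)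
    (h0 : ∀ i j, 0 ≤ q i j) (h1 : ∀ i j, q i j ≤ 1) (rl : Finset κ) (I : ℕ) :
    ∑ i ∈ range I, PP S q i (gain S (q i) rl) + PP S q I (fun U => (mval S rl U : ℝ)) ≤
      (mval S rl univ : ℝ) := by
  induction I with
  | zero => simp [PP]
  | succ I ih =>
    rw [sum_range_succ]
    have := PP_mono S q h0 h1 I (F := fun U => gain S (q I) rl U +
      TT S (q I) (fun U => (mval S rl U : ℝ)) U) (G := fun U => (mval S rl U : ℝ))
      (fun U => gain_add S hS (q I) (h0 I) (h1 I) rl U)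
    rw [PP_add] at this
    have h2 : PP S q (I + 1) (fun U => (mval S rl U : ℝ)) =
      PP S q I (fun U => TT S (q I) (fun U => (mval S rl U : ℝ)) U) := rfl
    rw [h2]
    linarith

lemma wt_mem (q : κ → ℝ) (L : Finset κ) (j : κ) (hj : j ∈ L) :
    ∑ R ∈ L.powerset, wt q L R * (if j ∈ R then 1 else 0) = q j := by
  have := wt_sum q L {j} ∅ (by simpa using hj) (by simp) (by simp)
  simp only [prod_singleton, prod_empty, mul_one] at this
  rw [← this]
  refine sum_congr rfl fun R _ => ?_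
  by_cases h : j ∈ R <;> simp [h]

lemma wt_mem2 (q : κ → ℝ) (L : Finset κ) (j j' : κ) (hj : j ∈ L) (hj' : j' ∈ L) (hne : j ≠ j') :
    ∑ R ∈ L.powerset, wt q L R * (if j ∈ R ∧ j' ∈ R then 1 else 0) = q j * q j' := by
  have := wt_sum q L {j, j'} ∅ (by
    intro x hx
    rcases mem_insert.1 hx with h | h
    · rw [h]; exact hj
    · rw [mem_singleton.1 h]; exact hj') (by simp) (by simp)
  rw [prod_pair hne] at this
  simp only [prod_empty, mul_one] at this
  rw [← this]
  refine sum_congr rfl fun R _ => ?_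
  by_cases h : j ∈ R ∧ j' ∈ R
  · have h2 : ({j, j'} : Finset κ) ⊆ R := by
      intro x hx
      rcases mem_insert.1 hx with h' | h'
      · rw [h']; exact h.1
      · rw [mem_singleton.1 h']; exact h.2
    simp [h, h2]
  · have h2 : ¬ (({j, j'} : Finset κ) ⊆ R) := fun hh =>
      h ⟨hh (by simp), hh (by simp)⟩
    simp [h, h2]

lemma gain_ge (S : κ → Finset α) (q : κ → ℝ) (h0 : ∀ j, 0 ≤ q j)
    (h1 : ∀ j, q j ≤ 1) (rl : Finset κ) (U : Finset α) (c : ℝ)
    (hc : ∀ j, ∑ j' ∈ meet S (S j), q j' ≤ c) :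
    (1 - c) * ∑ j ∈ rl, q j * ind (S j) U ≤ gain S q rl U := by
  set L := live S U with hL
  have hcard : ∀ R ∈ L.powerset, ∑ j ∈ rl ∩ L, (if j ∈ R then (1 : ℝ) else 0) -
      ∑ j ∈ rl ∩ L, ∑ j' ∈ (L ∩ meet S (S j)).erase j, (if j ∈ R ∧ j' ∈ R then (1 : ℝ) else 0) ≤
      ((good S rl R).card : ℝ) := by
    intro R hR
    rw [mem_powerset] at hR
    rw [← sum_sub_distrib]
    have h2 : ((good S rl R).card : ℝ) = ∑ j ∈ rl ∩ L, (if j ∈ good S rl R then (1 : ℝ) else 0) := by
      rw [sum_ite_mem, inter_eq_right.2]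
      · simp
      · intro j hj
        have := mem_filter.1 hj
        exact mem_inter.2 ⟨this.2.1, hR this.1⟩
    rw [h2]
    refine sum_le_sum fun j hj => ?_
    have hjrl := (mem_inter.1 hj).1
    have hs0 : 0 ≤ ∑ j' ∈ (L ∩ meet S (S j)).erase j, (if j ∈ R ∧ j' ∈ R then (1 : ℝ) else 0) :=
      sum_nonneg fun j' _ => by split_ifs <;> norm_num
    by_cases hjR : j ∈ R
    · by_cases hg : j ∈ good S rl R
      · rw [if_pos hjR, if_pos hg]; linarith
      · rw [if_pos hjR, if_neg hg]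
        have : ∃ j' ∈ R, j' ≠ j ∧ ¬ Disjoint (S j) (S j') := by
          by_contra hcon
          push Not at hcon
          exact hg (mem_filter.2 ⟨hjR, hjrl, hcon⟩)
        obtain ⟨j', hj'R, hne, hnd⟩ := this
        have hmem : j' ∈ (L ∩ meet S (S j)).erase j := by
          refine mem_erase.2 ⟨hne, mem_inter.2 ⟨hR hj'R, mem_filter.2 ⟨mem_univ _, ?_⟩⟩⟩
          rwa [disjoint_comm] at hnd
        have : (1 : ℝ) ≤ ∑ j' ∈ (L ∩ meet S (S j)).erase j,
            (if j ∈ R ∧ j' ∈ R then (1 : ℝ) else 0) := by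
          calc (1 : ℝ) = (if j ∈ R ∧ j' ∈ R then (1 : ℝ) else 0) := by rw [if_pos ⟨hjR, hj'R⟩]
            _ ≤ _ := single_le_sum (f := fun j' => (if j ∈ R ∧ j' ∈ R then (1 : ℝ) else 0))
                (fun j' _ => by split_ifs <;> norm_num) hmem
        linarith
    · have hg : j ∉ good S rl R := fun h => hjR (mem_filter.1 h).1
      rw [if_neg hjR, if_neg hg]; linarith
  have hsum := sum_le_sum fun R (hR : R ∈ L.powerset) =>
    mul_le_mul_of_nonneg_left (hcard R hR) (wt_nonneg q h0 h1 L R)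
  have hgain : gain S q rl U = ∑ R ∈ L.powerset, wt q L R * ((good S rl R).card : ℝ) := rfl
  rw [← hgain] at hsum
  refine le_trans ?_ hsum
  have hexp : ∑ R ∈ L.powerset, wt q L R * (∑ j ∈ rl ∩ L, (if j ∈ R then (1 : ℝ) else 0) -
      ∑ j ∈ rl ∩ L, ∑ j' ∈ (L ∩ meet S (S j)).erase j, (if j ∈ R ∧ j' ∈ R then (1 : ℝ) else 0)) =
      ∑ j ∈ rl ∩ L, q j - ∑ j ∈ rl ∩ L, ∑ j' ∈ (L ∩ meet S (S j)).erase j, q j * q j' := by
    simp_rw [mul_sub, sum_sub_distrib, mul_sum]
    congr 1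
    · rw [sum_comm]
      refine sum_congr rfl fun j hj => ?_
      exact wt_mem q L j (mem_inter.1 hj).2
    · rw [sum_comm]
      refine sum_congr rfl fun j hj => ?_
      rw [sum_comm]
      refine sum_congr rfl fun j' hj' => ?_
      have h3 := mem_erase.1 hj'
      exact wt_mem2 q L j j' (mem_inter.1 hj).2 (mem_inter.1 h3.2).1 h3.1.symm
  rw [hexp]
  have hind : ∑ j ∈ rl, q j * ind (S j) U = ∑ j ∈ rl ∩ L, q j := by
    rw [← Finset.filter_mem_eq_inter, sum_filter]
    refine sum_congr rfl fun j _ => ?_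
    by_cases hj : S j ⊆ U
    · have : j ∈ L := mem_filter.2 ⟨mem_univ _, hj⟩
      rw [if_pos this]; unfold ind; rw [if_pos hj, mul_one]
    · have : j ∉ L := fun h => hj (mem_filter.1 h).2
      rw [if_neg this]; unfold ind; rw [if_neg hj, mul_zero]
  rw [hind, mul_sum, ← sum_sub_distrib]
  refine sum_le_sum fun j hj => ?_
  rw [← mul_sum]
  have : ∑ j' ∈ (L ∩ meet S (S j)).erase j, q j' ≤ c := by
    refine le_trans (sum_le_sum_of_subset_of_nonneg ?_ fun j' _ _ => h0 j') (hc j)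
    exact (erase_subset _ _).trans inter_subset_right
  nlinarith [h0 j]

lemma PP_gain_ge (S : κ → Finset α) (q : ℕ → κ → ℝ) (h0 : ∀ i j, 0 ≤ q i j)
    (h1 : ∀ i j, q i j ≤ 1) (rl : Finset κ) (c : ℝ) (i : ℕ)
    (hc : ∀ j, ∑ j' ∈ meet S (S j), q i j' ≤ c) :
    (1 - c) * ∑ j ∈ rl, q i j * pr S q i (S j) ≤ PP S q i (gain S (q i) rl) := by
  have := PP_mono S q h0 h1 i (F := fun U => (1 - c) * ∑ j ∈ rl, q i j * ind (S j) U)
    (G := gain S (q i) rl) (fun U => gain_ge S (q i) (h0 i) (h1 i) rl U c hc)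
  rwa [PP_smul, PP_sum] at this

end Pool.Agent.Helper8.Verg
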