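import Mathlib
import Pool.Agent.Helper8.Verg.NibbleA

set_option autoImplicit false
set_option linter.unusedSectionVars false
set_option linter.unusedVariables false

/-! Weighted nibble, part C: the survival probabilities. -/

namespace Pool.Agent.Helper8.Verg

open Finset

variable {α κ : Type} [Fintype α] [DecidableEq α] [Fintype κ] [DecidableEq κ]

lemma sum_inter_card (S : κ → Finset α) (A : Finset α) (f : κ → ℝ) :
    ∑ v ∈ A, ∑ j ∈ univ.filter (fun j => v ∈ S j), f j = ∑ j ∈ meet S A, ((A ∩ S j).card : ℝ) * f j := by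
  have h1 : ∀ v ∈ A, ∑ j ∈ univ.filter (fun j => v ∈ S j), f j =
      ∑ j, (if v ∈ S j then f j else 0) := fun v _ => by rw [sum_filter]
  rw [sum_congr rfl h1, sum_comm]
  have h2 : ∀ j, ∑ v ∈ A, (if v ∈ S j then f j else 0) = ((A ∩ S j).card : ℝ) * f j := by
    intro j
    rw [← sum_filter, sum_const, nsmul_eq_mul, Finset.filter_mem_eq_inter]
  rw [sum_congr rfl fun j _ => h2 j]
  symm
  refine sum_subset (subset_univ _) fun j _ hj => ?_
  have : Disjoint (S j) A := by
    by_contra h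
    exact hj (mem_filter.2 ⟨mem_univ _, h⟩)
  rw [Finset.inter_comm, Finset.disjoint_iff_inter_eq_empty.1 this]
  simp

lemma sum_offDiag (S : κ → Finset α) (A : Finset α) (f : κ → ℝ) :
    ∑ p ∈ A.offDiag, ∑ j ∈ univ.filter (fun j => p.1 ∈ S j ∧ p.2 ∈ S j), f j =
      ∑ j, ((A ∩ S j).card : ℝ) * (((A ∩ S j).card : ℝ) - 1) * f j := by
  have h1 : ∀ p ∈ A.offDiag, ∑ j ∈ univ.filter (fun j => p.1 ∈ S j ∧ p.2 ∈ S j), f j =
      ∑ j, (if p.1 ∈ S j ∧ p.2 ∈ S j then f j else 0) := fun v _ => by rw [sum_filter]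
  rw [sum_congr rfl h1, sum_comm]
  refine sum_congr rfl fun j _ => ?_
  rw [← sum_filter, sum_const, nsmul_eq_mul]
  congr 1
  have h3 : A.offDiag.filter (fun p => p.1 ∈ S j ∧ p.2 ∈ S j) = (A ∩ S j).offDiag := by
    ext p
    simp only [mem_filter, mem_offDiag, mem_inter]
    tauto
  rw [h3, offDiag_card]
  have hle : (A ∩ S j).card ≤ (A ∩ S j).card * (A ∩ S j).card := Nat.le_mul_self _
  rw [Nat.cast_sub hle]
  push_cast
  ring

/-- one-step bracket estimate -/
lemma bracket (S : κ → Finset α) (hS : ∀ j, (S j).Nonempty) (r : ℕ) (hr : ∀ j, (S j).card ≤ r)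
    (x : κ → ℝ) (hx : ∀ j, 0 ≤ x j)
    (hreg : ∀ a, ∑ j ∈ univ.filter (fun j => a ∈ S j), x j = 1) (δ : ℝ) (hδ : 0 ≤ δ)
    (hcod : ∀ a b, a ≠ b → ∑ j ∈ univ.filter (fun j => a ∈ S j ∧ b ∈ S j), x j ≤ δ)
    (h t C β ψ : ℝ) (hh : 0 ≤ h) (ht : 0 ≤ t) (hψ : 0 ≤ ψ) (hβ : 0 ≤ β)
    (hC : Real.exp (t * r) ≤ C) (P : Finset α → ℝ) (hP0 : ∀ A, 0 ≤ P A) (hP1 : ∀ A, P A ≤ 1)
    (hP : ∀ A, |P A - Real.exp (-t * A.card)| ≤ ψ * Real.exp (β * A.card)) (A : Finset α) :
    |∑ j ∈ meet S A, (h * x j * Real.exp (t * ((S j).card - 1))) * P (A ∪ S j) -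
      h * A.card * Real.exp (-t * A.card)| ≤
      h * C * A.card * (ψ * Real.exp (β * (A.card + r))) + h * C * δ * (A.card : ℝ) ^ 2 := by
  set q : κ → ℝ := fun j => h * x j * Real.exp (t * ((S j).card - 1)) with hq
  have hC0 : 0 < C := lt_of_lt_of_le (Real.exp_pos _) hC
  have hq0 : ∀ j, 0 ≤ q j := fun j => mul_nonneg (mul_nonneg hh (hx j)) (Real.exp_pos _).le
  have hqC : ∀ j, q j ≤ h * C * x j := by
    intro j
    have : Real.exp (t * ((S j).card - 1)) ≤ C := by
      refine le_trans (Real.exp_le_exp.2 ?_) hC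
      refine mul_le_mul_of_nonneg_left ?_ ht
      have : ((S j).card : ℝ) ≤ r := by exact_mod_cast hr j
      linarith
    calc q j = (h * x j) * Real.exp (t * ((S j).card - 1)) := rfl
      _ ≤ (h * x j) * C := mul_le_mul_of_nonneg_left this (mul_nonneg hh (hx j))
      _ = h * C * x j := by ring
  -- main term as a sum
  have hmain : h * A.card * Real.exp (-t * A.card) =
      ∑ j ∈ meet S A, ((A ∩ S j).card : ℝ) * (q j * Real.exp (-t * (A.card + (S j).card - 1))) := by
    rw [← sum_inter_card]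
    have : ∀ v ∈ A, ∑ j ∈ univ.filter (fun j => v ∈ S j),
        q j * Real.exp (-t * (A.card + (S j).card - 1)) = h * Real.exp (-t * A.card) := by
      intro v _
      have h1 : ∀ j ∈ univ.filter (fun j => v ∈ S j),
          q j * Real.exp (-t * (A.card + (S j).card - 1)) = (h * Real.exp (-t * A.card)) * x j := by
        intro j _
        have : Real.exp (t * ((S j).card - 1)) * Real.exp (-t * (A.card + (S j).card - 1)) =
            Real.exp (-t * A.card) := by
          rw [← Real.exp_add]; congr 1; ring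
        calc q j * Real.exp (-t * (A.card + (S j).card - 1))
            = h * x j * (Real.exp (t * ((S j).card - 1)) *
              Real.exp (-t * (A.card + (S j).card - 1))) := by simp only [hq]; ring
          _ = _ := by rw [this]; ring
      rw [sum_congr rfl h1, ← mul_sum, hreg, mul_one]
    rw [sum_congr rfl this, sum_const, nsmul_eq_mul]
    ring
  rw [hmain, ← sum_sub_distrib]
  refine le_trans (abs_sum_le_sum_abs _ _) ?_
  have hterm : ∀ j ∈ meet S A, |q j * P (A ∪ S j) -
      ((A ∩ S j).card : ℝ) * (q j * Real.exp (-t * (A.card + (S j).card - 1)))| ≤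
      (ψ * Real.exp (β * (A.card + r))) * (((A ∩ S j).card : ℝ) * q j) +
        ((A ∩ S j).card : ℝ) * (((A ∩ S j).card : ℝ) - 1) * q j := by
    intro j hj
    have hk : 1 ≤ (A ∩ S j).card := by
      rw [Nat.one_le_iff_ne_zero, Finset.card_ne_zero]
      have := (mem_filter.1 hj).2
      rw [Finset.not_disjoint_iff] at this
      obtain ⟨a, ha, hb⟩ := this
      exact ⟨a, mem_inter.2 ⟨hb, ha⟩⟩
    have hfac : q j * P (A ∪ S j) -
      ((A ∩ S j).card : ℝ) * (q j * Real.exp (-t * (A.card + (S j).card - 1))) =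
      q j * (P (A ∪ S j) - ((A ∩ S j).card : ℝ) * Real.exp (-t * (A.card + (S j).card - 1))) := by
      ring
    rw [hfac, abs_mul, abs_of_nonneg (hq0 j)]
    set k : ℝ := ((A ∩ S j).card : ℝ) with hkdef
    have hk1 : (1 : ℝ) ≤ k := by rw [hkdef]; exact_mod_cast hk
    have hW : 0 ≤ ψ * Real.exp (β * (A.card + r)) := mul_nonneg hψ (Real.exp_pos _).le
    suffices hsuf : |P (A ∪ S j) - k * Real.exp (-t * (A.card + (S j).card - 1))| ≤
        (ψ * Real.exp (β * (A.card + r))) * k + k * (k - 1) by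
      calc q j * |P (A ∪ S j) - k * Real.exp (-t * (A.card + (S j).card - 1))|
          ≤ q j * ((ψ * Real.exp (β * (A.card + r))) * k + k * (k - 1)) :=
            mul_le_mul_of_nonneg_left hsuf (hq0 j)
        _ = _ := by ring
    by_cases hk2 : (A ∩ S j).card = 1
    · have hk3 : k = 1 := by rw [hkdef, hk2]; norm_num
      have hcu : ((A ∪ S j).card : ℝ) = A.card + (S j).card - 1 := by
        have := Finset.card_union_add_card_inter A (S j)
        rw [hk2] at this
        have h2 : ((A ∪ S j).card : ℝ) + 1 = A.card + (S j).card := by exact_mod_cast this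
        linarith
      have hb := hP (A ∪ S j)
      rw [hcu] at hb
      rw [hk3]
      simp only [one_mul, mul_one, sub_self, mul_zero, add_zero]
      refine le_trans hb (mul_le_mul_of_nonneg_left (Real.exp_le_exp.2 ?_) hψ)
      refine mul_le_mul_of_nonneg_left ?_ hβ
      have : ((S j).card : ℝ) ≤ r := by exact_mod_cast hr j
      linarith
    · have hk3 : 2 ≤ k := by
        rw [hkdef]
        have : 2 ≤ (A ∩ S j).card := by omega
        exact_mod_cast this
      have hA1 : (1 : ℝ) ≤ A.card := by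
        have : (A ∩ S j).card ≤ A.card := card_le_card inter_subset_left
        have : 1 ≤ A.card := by omega
        exact_mod_cast this
      have he1 : Real.exp (-t * (A.card + (S j).card - 1)) ≤ 1 := by
        rw [Real.exp_le_one_iff]
        have : (0 : ℝ) ≤ (S j).card := by positivity
        nlinarith
      have he0 : 0 ≤ Real.exp (-t * (A.card + (S j).card - 1)) := (Real.exp_pos _).le
      have hp0 := hP0 (A ∪ S j)
      have hp1 := hP1 (A ∪ S j)
      have hb : |P (A ∪ S j) - k * Real.exp (-t * (A.card + (S j).card - 1))| ≤ k := by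
        rw [abs_le]
        constructor <;> nlinarith
      have : k ≤ k * (k - 1) := by nlinarith
      have h5 : 0 ≤ (ψ * Real.exp (β * (A.card + r))) * k := by positivity
      linarith
  refine le_trans (sum_le_sum hterm) ?_
  rw [sum_add_distrib, ← mul_sum]
  have hs1 : ∑ j ∈ meet S A, ((A ∩ S j).card : ℝ) * q j ≤ h * C * A.card := by
    rw [← sum_inter_card]
    have : ∀ v ∈ A, ∑ j ∈ univ.filter (fun j => v ∈ S j), q j ≤ h * C := by
      intro v _
      calc ∑ j ∈ univ.filter (fun j => v ∈ S j), q j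
          ≤ ∑ j ∈ univ.filter (fun j => v ∈ S j), h * C * x j := sum_le_sum fun j _ => hqC j
        _ = h * C := by rw [← mul_sum, hreg, mul_one]
    calc ∑ v ∈ A, ∑ j ∈ univ.filter (fun j => v ∈ S j), q j ≤ ∑ v ∈ A, h * C := sum_le_sum this
      _ = h * C * A.card := by rw [sum_const, nsmul_eq_mul]; ring
  have hs2 : ∑ j ∈ meet S A, ((A ∩ S j).card : ℝ) * (((A ∩ S j).card : ℝ) - 1) * q j ≤
      h * C * δ * (A.card : ℝ) ^ 2 := by
    have hle : ∑ j ∈ meet S A, ((A ∩ S j).card : ℝ) * (((A ∩ S j).card : ℝ) - 1) * q j ≤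
        ∑ j, ((A ∩ S j).card : ℝ) * (((A ∩ S j).card : ℝ) - 1) * q j := by
      refine sum_le_sum_of_subset_of_nonneg (subset_univ _) fun j _ _ => ?_
      refine mul_nonneg ?_ (hq0 j)
      rcases Nat.eq_zero_or_pos (A ∩ S j).card with h0 | h0
      · rw [h0]; simp
      · have : (1 : ℝ) ≤ ((A ∩ S j).card : ℝ) := by exact_mod_cast h0
        exact mul_nonneg (by linarith) (by linarith)
    refine le_trans hle ?_
    rw [← sum_offDiag]
    have : ∀ p ∈ A.offDiag, ∑ j ∈ univ.filter (fun j => p.1 ∈ S j ∧ p.2 ∈ S j), q j ≤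
        h * C * δ := by
      intro p hp
      have hne := (mem_offDiag.1 hp).2.2
      calc ∑ j ∈ univ.filter (fun j => p.1 ∈ S j ∧ p.2 ∈ S j), q j
          ≤ ∑ j ∈ univ.filter (fun j => p.1 ∈ S j ∧ p.2 ∈ S j), h * C * x j :=
            sum_le_sum fun j _ => hqC j
        _ = h * C * ∑ j ∈ univ.filter (fun j => p.1 ∈ S j ∧ p.2 ∈ S j), x j := by rw [mul_sum]
        _ ≤ h * C * δ := mul_le_mul_of_nonneg_left (hcod _ _ hne) (by positivity)
    refine le_trans (sum_le_sum this) ?_
    rw [sum_const, nsmul_eq_mul, offDiag_card]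
    have h6 : ((A.card * A.card - A.card : ℕ) : ℝ) ≤ (A.card : ℝ) ^ 2 := by
      have : A.card * A.card - A.card ≤ A.card * A.card := Nat.sub_le _ _
      calc ((A.card * A.card - A.card : ℕ) : ℝ) ≤ ((A.card * A.card : ℕ) : ℝ) := by
            exact_mod_cast this
        _ = (A.card : ℝ) ^ 2 := by push_cast; ring
    calc ((A.card * A.card - A.card : ℕ) : ℝ) * (h * C * δ) ≤ (A.card : ℝ) ^ 2 * (h * C * δ) :=
          mul_le_mul_of_nonneg_right h6 (by positivity)
      _ = _ := by ring
  have hW : 0 ≤ ψ * Real.exp (β * (A.card + r)) := mul_nonneg hψ (Real.exp_pos _).le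
  calc ψ * Real.exp (β * (A.card + r)) * ∑ j ∈ meet S A, ((A ∩ S j).card : ℝ) * q j +
      ∑ j ∈ meet S A, ((A ∩ S j).card : ℝ) * (((A ∩ S j).card : ℝ) - 1) * q j
      ≤ ψ * Real.exp (β * (A.card + r)) * (h * C * A.card) + h * C * δ * (A.card : ℝ) ^ 2 :=
        add_le_add (mul_le_mul_of_nonneg_left hs1 hW) hs2
    _ = _ := by ring

end Pool.Agent.Helper8.Verg
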