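import Mathlib
import Pool.Agent.Helper8.Verg.NibbleB
import Pool.Agent.Helper8.Verg.NibbleC

set_option autoImplicit false
set_option linter.unusedSectionVars false
set_option linter.unusedVariables false

/-! Weighted nibble, part D: induction over the steps. -/

namespace Pool.Agent.Helper8.Verg

open Finset

variable {α κ : Type} [Fintype α] [DecidableEq α] [Fintype κ] [DecidableEq κ]

lemma exp_quad (y : ℝ) (hy : 0 ≤ y) : |1 - y - Real.exp (-y)| ≤ y ^ 2 := by
  have h1 : 1 - y ≤ Real.exp (-y) := by linarith [Real.add_one_le_exp (-y)]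
  have h2 : Real.exp (-y) ≤ 1 - y + y ^ 2 := by
    have h3 : 1 + y ≤ Real.exp y := by linarith [Real.add_one_le_exp y]
    have h4 : Real.exp (-y) * Real.exp y = 1 := by rw [← Real.exp_add]; simp
    have h5 : 0 < Real.exp (-y) := Real.exp_pos _
    have h6 : Real.exp (-y) * (1 + y) ≤ 1 := by nlinarith
    have h7 : 0 ≤ y ^ 3 := by positivity
    have h8 : (1 - y + y ^ 2) * (1 + y) = 1 + y ^ 3 := by ring
    have h9 : 0 < 1 + y := by linarith
    nlinarith
  rw [abs_le]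
  constructor <;> nlinarith [sq_nonneg y]

/-- the firing probabilities -/
noncomputable def qq (S : κ → Finset α) (x : κ → ℝ) (h : ℝ) (I i : ℕ) (j : κ) : ℝ :=
  h * x j * Real.exp (((min i I : ℕ) : ℝ) * h * ((S j).card - 1))

structure Params (S : κ → Finset α) (x : κ → ℝ) (r : ℕ) (δ h C : ℝ) (I : ℕ) : Prop where
  ne : ∀ j, (S j).Nonempty
  card : ∀ j, (S j).card ≤ r
  nn : ∀ j, 0 ≤ x j
  reg : ∀ a, ∑ j ∈ univ.filter (fun j => a ∈ S j), x j = 1
  dnn : 0 ≤ δ
  cod : ∀ a b, a ≠ b → ∑ j ∈ univ.filter (fun j => a ∈ S j ∧ b ∈ S j), x j ≤ δ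
  hpos : 0 ≤ h
  C1 : 1 ≤ C
  hC : h * C ≤ 1
  expC : Real.exp ((I : ℝ) * h * r) ≤ C

lemma Params.x_le_one {S : κ → Finset α} {x : κ → ℝ} {r : ℕ} {δ h C : ℝ} {I : ℕ}
    (p : Params S x r δ h C I) (j : κ) : x j ≤ 1 := by
  obtain ⟨a, ha⟩ := p.ne j
  rw [← p.reg a]
  exact single_le_sum (f := x) (fun j _ => p.nn j) (mem_filter.2 ⟨mem_univ _, ha⟩)

lemma Params.exp_le {S : κ → Finset α} {x : κ → ℝ} {r : ℕ} {δ h C : ℝ} {I : ℕ}
    (p : Params S x r δ h C I) (i : ℕ) (hi : i ≤ I) : Real.exp ((i : ℝ) * h * r) ≤ C := by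
  refine le_trans (Real.exp_le_exp.2 ?_) p.expC
  have : (i : ℝ) ≤ I := by exact_mod_cast hi
  have h0 := p.hpos
  gcongr

lemma Params.q_le {S : κ → Finset α} {x : κ → ℝ} {r : ℕ} {δ h C : ℝ} {I : ℕ}
    (p : Params S x r δ h C I) (i : ℕ) (j : κ) : qq S x h I i j ≤ h * C * x j := by
  have h1 : Real.exp (((min i I : ℕ) : ℝ) * h * ((S j).card - 1)) ≤ C := by
    refine le_trans (Real.exp_le_exp.2 ?_) (p.exp_le (min i I) (min_le_right _ _))
    have h2 : ((S j).card : ℝ) ≤ r := by exact_mod_cast p.card j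
    have h3 : 0 ≤ ((min i I : ℕ) : ℝ) * h := mul_nonneg (by positivity) p.hpos
    exact mul_le_mul_of_nonneg_left (by linarith) h3
  calc qq S x h I i j = (h * x j) * Real.exp (((min i I : ℕ) : ℝ) * h * ((S j).card - 1)) := rfl
    _ ≤ (h * x j) * C := mul_le_mul_of_nonneg_left h1 (mul_nonneg p.hpos (p.nn j))
    _ = _ := by ring

lemma Params.q_nonneg {S : κ → Finset α} {x : κ → ℝ} {r : ℕ} {δ h C : ℝ} {I : ℕ}
    (p : Params S x r δ h C I) (i : ℕ) (j : κ) : 0 ≤ qq S x h I i j :=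
  mul_nonneg (mul_nonneg p.hpos (p.nn j)) (Real.exp_pos _).le

lemma Params.q_le_one {S : κ → Finset α} {x : κ → ℝ} {r : ℕ} {δ h C : ℝ} {I : ℕ}
    (p : Params S x r δ h C I) (i : ℕ) (j : κ) : qq S x h I i j ≤ 1 := by
  refine le_trans (p.q_le i j) ?_
  have h1 := p.x_le_one j
  have h2 := p.nn j
  have h3 := p.hC
  have h4 : 0 ≤ h * C := mul_nonneg p.hpos (by linarith [p.C1])
  nlinarith

lemma Params.meet_sum {S : κ → Finset α} {x : κ → ℝ} {r : ℕ} {δ h C : ℝ} {I : ℕ}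
    (p : Params S x r δ h C I) (i : ℕ) (A : Finset α) :
    ∑ j ∈ meet S A, qq S x h I i j ≤ h * C * A.card := by
  have h1 : ∑ j ∈ meet S A, qq S x h I i j ≤
      ∑ j ∈ meet S A, ((A ∩ S j).card : ℝ) * qq S x h I i j := by
    refine sum_le_sum fun j hj => ?_
    have hk : 1 ≤ (A ∩ S j).card := by
      rw [Nat.one_le_iff_ne_zero, Finset.card_ne_zero]
      have := (mem_filter.1 hj).2
      rw [Finset.not_disjoint_iff] at this
      obtain ⟨a, ha, hb⟩ := this
      exact ⟨a, mem_inter.2 ⟨hb, ha⟩⟩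
    have hk1 : (1 : ℝ) ≤ ((A ∩ S j).card : ℝ) := by exact_mod_cast hk
    have := p.q_nonneg i j
    nlinarith
  refine le_trans h1 ?_
  rw [← sum_inter_card]
  have : ∀ v ∈ A, ∑ j ∈ univ.filter (fun j => v ∈ S j), qq S x h I i j ≤ h * C := by
    intro v _
    calc ∑ j ∈ univ.filter (fun j => v ∈ S j), qq S x h I i j
        ≤ ∑ j ∈ univ.filter (fun j => v ∈ S j), h * C * x j := sum_le_sum fun j _ => p.q_le i j
      _ = h * C := by rw [← mul_sum, p.reg, mul_one]
  calc ∑ v ∈ A, ∑ j ∈ univ.filter (fun j => v ∈ S j), qq S x h I i j ≤ ∑ v ∈ A, h * C :=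
        sum_le_sum this
    _ = h * C * A.card := by rw [sum_const, nsmul_eq_mul]; ring

/-- closeness to `exp(-t|A|)` -/
def Bd (S : κ → Finset α) (x : κ → ℝ) (h : ℝ) (I i : ℕ) (ψ β : ℝ) : Prop :=
  ∀ A : Finset α, |pr S (qq S x h I) i A - Real.exp (-((i : ℝ) * h) * A.card)| ≤
    ψ * Real.exp (β * A.card)

lemma Bd_step {S : κ → Finset α} {x : κ → ℝ} {r : ℕ} {δ h C : ℝ} {I : ℕ}
    (p : Params S x r δ h C I) (i : ℕ) (hi : i < I) (ψ β Γ : ℝ) (hψ : 0 < ψ) (hβ1 : 1 ≤ β)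
    (hβ2 : β ≤ 2) (hsmall : C * δ + 2 * h * C ^ 2 ≤ ψ) (hΓ : Γ = C * Real.exp (2 * r) + 1)
    (hB : Bd S x h I i ψ β) : Bd S x h I (i + 1) ψ (β + h * Γ) := by
  intro A
  set q := qq S x h I with hq
  set t : ℝ := (i : ℝ) * h with ht
  have ht0 : 0 ≤ t := mul_nonneg (by positivity) p.hpos
  have hC := p.exp_le i hi.le
  have h1 := pr_step S q (fun i j => p.q_nonneg i j) (fun i j => p.q_le_one i j) i A
  have hQ := p.meet_sum i A
  have hQ0 : 0 ≤ ∑ j ∈ meet S A, q i j := sum_nonneg fun j _ => p.q_nonneg i j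
  have hqi : ∀ j, q i j = h * x j * Real.exp (t * ((S j).card - 1)) := by
    intro j
    simp only [hq, qq, ht]
    rw [min_eq_left hi.le]
  have h2 := bracket S p.ne r p.card x p.nn p.reg δ p.dnn p.cod h t C β ψ p.hpos ht0 hψ.le
    (by linarith) hC (pr S q i) (pr_nonneg S q (fun i j => p.q_nonneg i j)
      (fun i j => p.q_le_one i j) i) (pr_le_one S q (fun i j => p.q_nonneg i j)
      (fun i j => p.q_le_one i j) i) (fun A => hB A) A
  have h2' : ∑ j ∈ meet S A, (h * x j * Real.exp (t * ((S j).card - 1))) * pr S q i (A ∪ S j) =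
      ∑ j ∈ meet S A, q i j * pr S q i (A ∪ S j) :=
    sum_congr rfl fun j _ => by rw [hqi j]
  rw [h2'] at h2
  have h3 := hB A
  set a : ℝ := (A.card : ℝ) with ha
  have ha0 : 0 ≤ a := by positivity
  have h0 := p.hpos
  have hC1 := p.C1
  have h4 : |Real.exp (-t * a) - h * a * Real.exp (-t * a) - Real.exp (-(t + h) * a)| ≤
      (h * a) ^ 2 := by
    have h5 : Real.exp (-(t + h) * a) = Real.exp (-t * a) * Real.exp (-(h * a)) := by
      rw [← Real.exp_add]; congr 1; ring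
    have h6 : Real.exp (-t * a) - h * a * Real.exp (-t * a) - Real.exp (-(t + h) * a) =
        Real.exp (-t * a) * (1 - h * a - Real.exp (-(h * a))) := by rw [h5]; ring
    rw [h6, abs_mul, abs_of_pos (Real.exp_pos _)]
    have h7 : Real.exp (-t * a) ≤ 1 := by
      rw [Real.exp_le_one_iff]
      have := mul_nonneg ht0 ha0
      linarith [neg_mul t a]
    have h8 := exp_quad (h * a) (mul_nonneg h0 ha0)
    calc Real.exp (-t * a) * |1 - h * a - Real.exp (-(h * a))| ≤
        1 * |1 - h * a - Real.exp (-(h * a))| :=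
          mul_le_mul_of_nonneg_right h7 (abs_nonneg _)
      _ ≤ (h * a) ^ 2 := by rw [one_mul]; exact h8
  have hcast : -(((i + 1 : ℕ) : ℝ) * h) * a = -(t + h) * a := by
    rw [ht]; push_cast; ring
  show |pr S q (i + 1) A - Real.exp (-(((i + 1 : ℕ) : ℝ) * h) * a)| ≤
    ψ * Real.exp ((β + h * Γ) * a)
  rw [hcast]
  have hQ2 : (∑ j ∈ meet S A, q i j) ^ 2 ≤ (h * C * a) ^ 2 := by
    gcongr
  have hsplit : |pr S q (i + 1) A - Real.exp (-(t + h) * a)| ≤
      (h * C * a) ^ 2 + ψ * Real.exp (β * a) +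
      (h * C * a * (ψ * Real.exp (β * (a + r))) + h * C * δ * a ^ 2) + (h * a) ^ 2 := by
    have e1 : pr S q (i + 1) A - Real.exp (-(t + h) * a) =
        (pr S q (i + 1) A - (pr S q i A - ∑ j ∈ meet S A, q i j * pr S q i (A ∪ S j))) +
        (pr S q i A - Real.exp (-t * a)) +
        (-(∑ j ∈ meet S A, q i j * pr S q i (A ∪ S j) - h * a * Real.exp (-t * a))) +
        (Real.exp (-t * a) - h * a * Real.exp (-t * a) - Real.exp (-(t + h) * a)) := by ring
    rw [e1]
    refine le_trans (abs_add_le _ _) (add_le_add (le_trans (abs_add_le _ _) (add_le_add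
      (le_trans (abs_add_le _ _) (add_le_add (le_trans h1 hQ2) h3)) ?_)) h4)
    rw [abs_neg]
    exact h2
  refine le_trans hsplit ?_
  set E := Real.exp (β * a) with hE
  have hE0 : 0 < E := Real.exp_pos _
  have hE1 : Real.exp (β * (a + r)) ≤ E * Real.exp (2 * r) := by
    rw [hE, ← Real.exp_add]
    refine Real.exp_le_exp.2 ?_
    have : (0 : ℝ) ≤ r := by positivity
    nlinarith
  have haE : a ≤ E := by
    have h5 := Real.add_one_le_exp (β * a)
    have : a ≤ β * a := by nlinarith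
    linarith
  have hfin : Real.exp ((β + h * Γ) * a) ≥ E * (1 + h * Γ * a) := by
    have h5 : Real.exp ((β + h * Γ) * a) = E * Real.exp (h * Γ * a) := by
      rw [hE, ← Real.exp_add]; congr 1; ring
    rw [h5]
    have h6 := Real.add_one_le_exp (h * Γ * a)
    exact mul_le_mul_of_nonneg_left (by linarith) hE0.le
  have hb1 : (h * C * a) ^ 2 + h * C * δ * a ^ 2 + (h * a) ^ 2 ≤ h * a * (ψ * E) := by
    have h5 : (h * C * a) ^ 2 + h * C * δ * a ^ 2 + (h * a) ^ 2 ≤
        h * a * (a * (C * δ + 2 * h * C ^ 2)) := by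
      have h9 : (h * a) ^ 2 ≤ (h * C * a) ^ 2 := by
        have h7 : 0 ≤ h * a := mul_nonneg h0 ha0
        have h6 : h * a ≤ h * C * a := by
          calc h * a = h * a * 1 := by ring
            _ ≤ h * a * C := mul_le_mul_of_nonneg_left hC1 h7
            _ = h * C * a := by ring
        exact pow_le_pow_left₀ h7 h6 2
      calc (h * C * a) ^ 2 + h * C * δ * a ^ 2 + (h * a) ^ 2
          ≤ (h * C * a) ^ 2 + h * C * δ * a ^ 2 + (h * C * a) ^ 2 := by linarith
        _ = h * a * (a * (C * δ + 2 * h * C ^ 2)) := by ring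
    refine le_trans h5 (mul_le_mul_of_nonneg_left ?_ (mul_nonneg h0 ha0))
    calc a * (C * δ + 2 * h * C ^ 2) ≤ a * ψ := mul_le_mul_of_nonneg_left hsmall ha0
      _ ≤ E * ψ := mul_le_mul_of_nonneg_right haE hψ.le
      _ = ψ * E := by ring
  have hb2 : h * C * a * (ψ * Real.exp (β * (a + r))) ≤ h * C * a * (ψ * (E * Real.exp (2 * r))) := by
    have : 0 ≤ h * C * a := mul_nonneg (mul_nonneg h0 (by linarith)) ha0
    gcongr
  calc (h * C * a) ^ 2 + ψ * E + (h * C * a * (ψ * Real.exp (β * (a + r))) + h * C * δ * a ^ 2) +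
        (h * a) ^ 2
      ≤ ψ * E + h * a * (ψ * E) + h * C * a * (ψ * (E * Real.exp (2 * r))) := by linarith
    _ = ψ * (E * (1 + h * Γ * a)) := by rw [hΓ]; ring
    _ ≤ ψ * Real.exp ((β + h * Γ) * a) := mul_le_mul_of_nonneg_left hfin hψ.le

end Pool.Agent.Helper8.Verg
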