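import Mathlib
import Pool.Agent.Helper8.Verg.NibbleD

set_option autoImplicit false
set_option linter.unusedSectionVars false
set_option linter.unusedVariables false

/-! Kahn's weighted form of the Pippenger nibble: a fractional matching of a hypergraph with
bounded edge size and small codegrees can be rounded to a matching of almost the same size. -/

namespace Pool.Agent.Helper8.Verg

open Finset

section blocks

variable {α κ : Type} [Fintype α] [DecidableEq α] [Fintype κ] [DecidableEq κ]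

lemma Bd_reset {S : κ → Finset α} {x : κ → ℝ} {r : ℕ} {δ h C : ℝ} {I : ℕ}
    (p : Params S x r δ h C I) (i : ℕ) (ψ : ℝ) (hψ : 0 < ψ)
    (hB : Bd S x h I i (ψ ^ 2) 2) : Bd S x h I i ψ 1 := by
  intro A
  have h1 := hB A
  set a : ℝ := (A.card : ℝ) with ha
  have ha0 : 0 ≤ a := by positivity
  by_cases hc : 1 ≤ ψ * Real.exp (1 * a)
  · refine le_trans ?_ hc
    have hp0 := pr_nonneg S (qq S x h I) (fun i j => p.q_nonneg i j) (fun i j => p.q_le_one i j) i A
    have hp1 := pr_le_one S (qq S x h I) (fun i j => p.q_nonneg i j) (fun i j => p.q_le_one i j) i A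
    have he0 : 0 < Real.exp (-((i : ℝ) * h) * a) := Real.exp_pos _
    have he1 : Real.exp (-((i : ℝ) * h) * a) ≤ 1 := by
      rw [Real.exp_le_one_iff]
      have : 0 ≤ (i : ℝ) * h * a := mul_nonneg (mul_nonneg (by positivity) p.hpos) ha0
      linarith [neg_mul ((i : ℝ) * h) a]
    rw [abs_le]
    constructor <;> linarith
  · push Not at hc
    refine le_trans h1 ?_
    have e1 : Real.exp (2 * a) = Real.exp (1 * a) * Real.exp (1 * a) := by
      rw [← Real.exp_add]; congr 1; ring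
    rw [e1]
    have h2 : 0 < ψ * Real.exp (1 * a) := mul_pos hψ (Real.exp_pos _)
    calc ψ ^ 2 * (Real.exp (1 * a) * Real.exp (1 * a))
        = (ψ * Real.exp (1 * a)) * (ψ * Real.exp (1 * a)) := by ring
      _ ≤ 1 * (ψ * Real.exp (1 * a)) := mul_le_mul_of_nonneg_right hc.le h2.le
      _ = ψ * Real.exp (1 * a) := one_mul _

lemma Bd_block {S : κ → Finset α} {x : κ → ℝ} {r : ℕ} {δ h C : ℝ} {I : ℕ}
    (p : Params S x r δ h C I) (i L : ℕ) (hi : i + L ≤ I) (ψ Γ : ℝ) (hψ : 0 < ψ)
    (hsmall : C * δ + 2 * h * C ^ 2 ≤ ψ) (hΓ : Γ = C * Real.exp (2 * r) + 1)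
    (hL : (L : ℝ) * (h * Γ) ≤ 1) (hB : Bd S x h I i ψ 1) :
    ∀ l, l ≤ L → Bd S x h I (i + l) ψ (1 + l * (h * Γ)) := by
  have hΓ0 : 0 ≤ h * Γ := by
    refine mul_nonneg p.hpos ?_
    rw [hΓ]
    have := p.C1
    have h2 : 0 < Real.exp (2 * r) := Real.exp_pos _
    nlinarith
  intro l
  induction l with
  | zero => intro _; simpa using hB
  | succ l ih =>
    intro hl
    have h1 := ih (by omega)
    have hl2 : (l : ℝ) ≤ L := by exact_mod_cast (by omega : l ≤ L)
    have h2 := Bd_step p (i + l) (by omega) ψ (1 + l * (h * Γ)) Γ hψ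
      (by have : (0 : ℝ) ≤ l := by positivity
          nlinarith)
      (by nlinarith) hsmall hΓ h1
    have e1 : 1 + (l : ℝ) * (h * Γ) + h * Γ = 1 + ((l + 1 : ℕ) : ℝ) * (h * Γ) := by
      push_cast; ring
    rw [e1] at h2
    exact h2

lemma Bd_all {S : κ → Finset α} {x : κ → ℝ} {r : ℕ} {δ h C : ℝ} {I : ℕ}
    (p : Params S x r δ h C I) (J L : ℕ) (hI : I = J * L) (hL0 : 0 < L) (η Γ : ℝ) (hη : 0 < η)
    (hη1 : η ≤ 1) (hsmall : C * δ + 2 * h * C ^ 2 ≤ η ^ (2 ^ J))
    (hΓ : Γ = C * Real.exp (2 * r) + 1) (hL : (L : ℝ) * (h * Γ) = 1) :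
    ∀ i, i < I → Bd S x h I i η 2 := by
  have hψ : ∀ j, j ≤ J → η ^ (2 ^ J) ≤ η ^ (2 ^ (J - j)) := by
    intro j hj
    exact pow_le_pow_of_le_one hη.le hη1 (Nat.pow_le_pow_right (by norm_num) (Nat.sub_le _ _))
  have hmain : ∀ j, j ≤ J → Bd S x h I (j * L) (η ^ (2 ^ (J - j))) 1 := by
    intro j
    induction j with
    | zero =>
      intro _ A
      rw [Nat.zero_mul, pr_zero]
      simp only [Nat.cast_zero, zero_mul, neg_zero, Real.exp_zero, sub_self, abs_zero]
      positivity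
    | succ j ih =>
      intro hj
      have h1 := ih (by omega)
      have hle : j * L + L ≤ I := by
        rw [hI]
        calc j * L + L = (j + 1) * L := by ring
          _ ≤ J * L := Nat.mul_le_mul_right _ hj
      have h2 := Bd_block p (j * L) L hle (η ^ (2 ^ (J - j))) Γ (by positivity)
        (le_trans hsmall (hψ j (by omega))) hΓ hL.le h1 L le_rfl
      rw [hL] at h2
      have e1 : η ^ (2 ^ (J - j)) = (η ^ (2 ^ (J - (j + 1)))) ^ 2 := by
        rw [← pow_mul]
        congr 1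
        have : J - j = (J - (j + 1)) + 1 := by omega
        rw [this, pow_succ]
      rw [e1] at h2
      have e2 : (1 : ℝ) + 1 = 2 := by norm_num
      rw [e2] at h2
      have h3 := Bd_reset p _ _ (by positivity) h2
      have e3 : (j + 1) * L = j * L + L := by ring
      rw [e3]
      exact h3
  intro i hi
  have hj : i / L < J := by
    rw [Nat.div_lt_iff_lt_mul hL0]
    rwa [hI] at hi
  have hle : i / L * L + L ≤ I := by
    rw [hI]
    calc i / L * L + L = (i / L + 1) * L := by ring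
      _ ≤ J * L := Nat.mul_le_mul_right _ hj
  have h1 := Bd_block p (i / L * L) L hle (η ^ (2 ^ (J - i / L))) Γ (by positivity)
        (le_trans hsmall (hψ _ hj.le)) hΓ hL.le (hmain _ hj.le) (i % L) (Nat.mod_lt _ hL0).le
  have e1 : i / L * L + i % L = i := by rw [mul_comm]; exact Nat.div_add_mod i L
  rw [e1] at h1
  intro A
  refine le_trans (h1 A) ?_
  have hc1 : η ^ (2 ^ (J - i / L)) ≤ η := by
    calc η ^ (2 ^ (J - i / L)) ≤ η ^ 1 :=
          pow_le_pow_of_le_one hη.le hη1 (Nat.one_le_two_pow)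
      _ = η := pow_one _
  have hmod : ((i % L : ℕ) : ℝ) ≤ L := by exact_mod_cast (Nat.mod_lt _ hL0).le
  have hΓ0 : 0 ≤ h * Γ := by
    by_contra hneg
    push Not at hneg
    have : (0 : ℝ) < L := by exact_mod_cast hL0
    nlinarith
  have hexp : Real.exp ((1 + ((i % L : ℕ) : ℝ) * (h * Γ)) * A.card) ≤ Real.exp (2 * A.card) := by
    refine Real.exp_le_exp.2 (mul_le_mul_of_nonneg_right ?_ (by positivity))
    nlinarith
  calc η ^ (2 ^ (J - i / L)) * Real.exp ((1 + ((i % L : ℕ) : ℝ) * (h * Γ)) * A.card)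
      ≤ η * Real.exp (2 * A.card) := mul_le_mul hc1 hexp (Real.exp_pos _).le hη.le

lemma geom_ge (h : ℝ) (hh : 0 ≤ h) (I : ℕ) :
    1 - Real.exp (-((I : ℝ) * h)) ≤ ∑ i ∈ range I, h * Real.exp (-((i : ℝ) * h)) := by
  induction I with
  | zero => simp
  | succ I ih =>
    rw [sum_range_succ]
    have e1 : Real.exp (-(((I + 1 : ℕ) : ℝ) * h)) = Real.exp (-((I : ℝ) * h)) * Real.exp (-h) := by
      rw [← Real.exp_add]; congr 1; push_cast; ring
    rw [e1]
    have h1 : 1 - h ≤ Real.exp (-h) := by linarith [Real.add_one_le_exp (-h)]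
    have h2 : 0 < Real.exp (-((I : ℝ) * h)) := Real.exp_pos _
    nlinarith

lemma matching_ge {S : κ → Finset α} {x : κ → ℝ} {r : ℕ} {δ h C : ℝ} {I : ℕ}
    (p : Params S x r δ h C I) (J L : ℕ) (hI : I = J * L) (hL0 : 0 < L) (η Γ : ℝ) (hη : 0 < η)
    (hη1 : η ≤ 1) (hsmall : C * δ + 2 * h * C ^ 2 ≤ η ^ (2 ^ J))
    (hΓ : Γ = C * Real.exp (2 * r) + 1) (hL : (L : ℝ) * (h * Γ) = 1)
    (hc : h * C * r ≤ 1) (rl : Finset κ) :
    (1 - Real.exp (-((I : ℝ) * h)) - (I : ℝ) * h * (h * C * r + C * η * Real.exp (2 * r))) *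
      ∑ j ∈ rl, x j ≤ (mval S rl univ : ℝ) := by
  have h0 := p.hpos
  have hC1 := p.C1
  have hBd := Bd_all p J L hI hL0 η Γ hη hη1 hsmall hΓ hL
  set q := qq S x h I with hq
  have hq0 : ∀ i j, 0 ≤ q i j := fun i j => p.q_nonneg i j
  have hq1 : ∀ i j, q i j ≤ 1 := fun i j => p.q_le_one i j
  have hsum := sum_gain S p.ne q hq0 hq1 rl I
  have hmv : 0 ≤ PP S q I (fun U => (mval S rl U : ℝ)) := by
    have := PP_mono S q hq0 hq1 I (F := fun _ => 0) (G := fun U => (mval S rl U : ℝ))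
      (fun U => by positivity)
    rwa [PP_const] at this
  set c := h * C * r with hcdef
  set F := C * η * Real.exp (2 * r) with hF
  have hc0 : 0 ≤ c := mul_nonneg (mul_nonneg h0 (by linarith)) (by positivity)
  have hF0 : 0 ≤ F := by positivity
  have hX : 0 ≤ ∑ j ∈ rl, x j := sum_nonneg fun j _ => p.nn j
  have hstep : ∀ i ∈ range I, (h * Real.exp (-((i : ℝ) * h)) - h * (c + F)) * ∑ j ∈ rl, x j ≤
      PP S q i (gain S (q i) rl) := by
    intro i hi
    rw [mem_range] at hi
    have h1 := PP_gain_ge S q hq0 hq1 rl c i (fun j => by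
      refine le_trans (p.meet_sum i (S j)) ?_
      have h2 : ((S j).card : ℝ) ≤ r := by exact_mod_cast p.card j
      exact mul_le_mul_of_nonneg_left h2 (mul_nonneg h0 (by linarith)))
    refine le_trans ?_ h1
    rw [mul_sum, mul_sum]
    refine sum_le_sum fun j _ => ?_
    have h2 := hBd i hi (S j)
    have h3 : Real.exp (-((i : ℝ) * h) * (S j).card) - η * Real.exp (2 * r) ≤
        pr S q i (S j) := by
      have h4 := (abs_le.1 h2).1
      have h5 : η * Real.exp (2 * (S j).card) ≤ η * Real.exp (2 * r) := by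
        refine mul_le_mul_of_nonneg_left (Real.exp_le_exp.2 ?_) hη.le
        have : ((S j).card : ℝ) ≤ r := by exact_mod_cast p.card j
        linarith
      linarith
    have h6 : q i j * (Real.exp (-((i : ℝ) * h) * (S j).card) - η * Real.exp (2 * r)) ≥
        h * x j * (Real.exp (-((i : ℝ) * h)) - F) := by
      have h7 : q i j * Real.exp (-((i : ℝ) * h) * (S j).card) =
          h * x j * Real.exp (-((i : ℝ) * h)) := by
        simp only [hq, qq]
        rw [min_eq_left hi.le, mul_assoc, ← Real.exp_add]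
        congr 2
        ring
      have h8 : q i j * (η * Real.exp (2 * r)) ≤ h * x j * F := by
        calc q i j * (η * Real.exp (2 * r)) ≤ (h * C * x j) * (η * Real.exp (2 * r)) :=
              mul_le_mul_of_nonneg_right (p.q_le i j) (by positivity)
          _ = h * x j * F := by rw [hF]; ring
      have : q i j * (Real.exp (-((i : ℝ) * h) * (S j).card) - η * Real.exp (2 * r)) =
        q i j * Real.exp (-((i : ℝ) * h) * (S j).card) - q i j * (η * Real.exp (2 * r)) := by ring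
      rw [this, h7]
      nlinarith
    have h9 : q i j * (Real.exp (-((i : ℝ) * h) * (S j).card) - η * Real.exp (2 * r)) ≤
        q i j * pr S q i (S j) := mul_le_mul_of_nonneg_left h3 (hq0 i j)
    have h10 : h * x j * (Real.exp (-((i : ℝ) * h)) - F) ≤ q i j * pr S q i (S j) :=
      le_trans h6 h9
    have hE1 : Real.exp (-((i : ℝ) * h)) ≤ 1 := by
      rw [Real.exp_le_one_iff]
      have : 0 ≤ (i : ℝ) * h := mul_nonneg (by positivity) h0
      linarith
    have hhx : 0 ≤ h * x j := mul_nonneg h0 (p.nn j)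
    have h11 : (h * Real.exp (-((i : ℝ) * h)) - h * (c + F)) * x j ≤
        (1 - c) * (h * x j * (Real.exp (-((i : ℝ) * h)) - F)) := by
      have e1 : (1 - c) * (h * x j * (Real.exp (-((i : ℝ) * h)) - F)) -
          (h * Real.exp (-((i : ℝ) * h)) - h * (c + F)) * x j =
          (h * x j) * (c * (1 - Real.exp (-((i : ℝ) * h))) + c * F) := by ring
      have e2 : 0 ≤ (h * x j) * (c * (1 - Real.exp (-((i : ℝ) * h))) + c * F) := by
        refine mul_nonneg hhx (add_nonneg (mul_nonneg hc0 (by linarith)) (mul_nonneg hc0 hF0))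
      linarith
    refine le_trans h11 ?_
    exact mul_le_mul_of_nonneg_left h10 (by linarith)
  have hs1 := sum_le_sum hstep
  rw [← sum_mul, sum_sub_distrib, sum_const, card_range, nsmul_eq_mul] at hs1
  have hg := geom_ge h h0 I
  have h12 : (1 - Real.exp (-((I : ℝ) * h)) - (I : ℝ) * h * (c + F)) * ∑ j ∈ rl, x j ≤
      (∑ i ∈ range I, h * Real.exp (-((i : ℝ) * h)) - (I : ℝ) * (h * (c + F))) * ∑ j ∈ rl, x j := by
    refine mul_le_mul_of_nonneg_right ?_ hX
    nlinarith
  linarith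

end blocks

/-- the nibble for regular weightings -/
theorem nibble_reg (r : ℕ) (ε : ℝ) (hε : 0 < ε) : ∃ δ : ℝ, 0 < δ ∧
    ∀ (α κ : Type) [Fintype α] [DecidableEq α] [Fintype κ] [DecidableEq κ]
      (S : κ → Finset α) (x : κ → ℝ) (rl : Finset κ),
      (∀ i, 0 ≤ x i) → (∀ i, (S i).Nonempty) → (∀ i, (S i).card ≤ r) →
      (∀ a, ∑ i ∈ univ.filter (fun i => a ∈ S i), x i = 1) →
      (∀ a b, a ≠ b → ∑ i ∈ univ.filter (fun i => a ∈ S i ∧ b ∈ S i), x i ≤ δ) →
      (1 - ε) * ∑ i ∈ rl, x i ≤ (mval S rl univ : ℝ) := by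
  -- constants
  obtain ⟨T, hT0, hT⟩ : ∃ T : ℝ, 0 ≤ T ∧ Real.exp (-T) ≤ ε / 3 := by
    refine ⟨max 0 (Real.log (3 / ε)), le_max_left _ _, ?_⟩
    calc Real.exp (-(max 0 (Real.log (3 / ε)))) ≤ Real.exp (-(Real.log (3 / ε))) :=
          Real.exp_le_exp.2 (neg_le_neg (le_max_right _ _))
      _ = ε / 3 := by
          rw [Real.exp_neg, Real.exp_log (by positivity), inv_div]
  set C : ℝ := Real.exp ((T + 1) * r) with hCdef
  have hC1 : 1 ≤ C := by
    rw [hCdef, Real.one_le_exp_iff]; positivity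
  set Γ : ℝ := C * Real.exp (2 * r) + 1 with hΓ
  have hΓ1 : 1 ≤ Γ := by
    rw [hΓ]; have : 0 < C * Real.exp (2 * r) := by positivity
    linarith
  obtain ⟨J, hJ1, hJ2⟩ : ∃ J : ℕ, T * Γ ≤ J ∧ (J : ℝ) ≤ T * Γ + 1 :=
    ⟨⌈T * Γ⌉₊, Nat.le_ceil _, (Nat.ceil_lt_add_one (by positivity)).le⟩
  set η : ℝ := min 1 (ε / (3 * ((T + 1) * (C * Real.exp (2 * r))))) with hηdef
  have hη : 0 < η := by
    rw [hηdef]; exact lt_min one_pos (by positivity)
  have hη1 : η ≤ 1 := min_le_left _ _
  have hη2 : (T + 1) * (C * η * Real.exp (2 * r)) ≤ ε / 3 := by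
    have h1 : η ≤ ε / (3 * ((T + 1) * (C * Real.exp (2 * r)))) := min_le_right _ _
    have h2 : 0 < (T + 1) * (C * Real.exp (2 * r)) := by positivity
    rw [le_div_iff₀ (by positivity)] at h1
    linarith
  set ψ : ℝ := η ^ (2 ^ J) with hψ
  have hψ0 : 0 < ψ := by positivity
  -- choice of L
  obtain ⟨L, hLbig⟩ : ∃ L : ℕ, max (max (4 * C ^ 2 / ψ) C) (3 * (T + 1) * C * r / ε + C * r) ≤ L :=
    exists_nat_ge _
  have hL1 : 4 * C ^ 2 / ψ ≤ L := le_trans (le_trans (le_max_left _ _) (le_max_left _ _)) hLbig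
  have hL2 : C ≤ L := le_trans (le_trans (le_max_right _ _) (le_max_left _ _)) hLbig
  have hL3 : 3 * (T + 1) * C * r / ε + C * r ≤ L := le_trans (le_max_right _ _) hLbig
  have hLpos : (0 : ℝ) < L := by linarith
  have hL0 : 0 < L := by exact_mod_cast hLpos
  set h : ℝ := 1 / (L * Γ) with hh
  have hhpos : 0 < h := by positivity
  have hhL : h ≤ 1 / L := by
    rw [hh]
    apply one_div_le_one_div_of_le hLpos
    nlinarith
  have hLh : (L : ℝ) * (h * Γ) = 1 := by
    rw [hh]; field_simp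
  have hIh : ((J * L : ℕ) : ℝ) * h = J / Γ := by
    rw [hh]; push_cast; field_simp
  have hIh1 : T ≤ (J : ℝ) / Γ := by
    rw [le_div_iff₀ (by linarith)]; exact hJ1
  have hIh2 : (J : ℝ) / Γ ≤ T + 1 := by
    rw [div_le_iff₀ (by linarith)]; nlinarith
  have hhC : h * C ≤ 1 := by
    calc h * C ≤ 1 / L * L := mul_le_mul hhL hL2 (by linarith) (by positivity)
      _ = 1 := by field_simp
  refine ⟨ψ / (2 * C), by positivity, ?_⟩
  intro α κ _ _ _ _ S x rl hx hS hcard hreg hcod
  have hP : Params S x r (ψ / (2 * C)) h C (J * L) :=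
    { ne := hS, card := hcard, nn := hx, reg := hreg, dnn := by positivity, cod := hcod
      hpos := hhpos.le, C1 := hC1, hC := hhC
      expC := by
        rw [hIh, hCdef]
        refine Real.exp_le_exp.2 (mul_le_mul_of_nonneg_right hIh2 (by positivity)) }
  have hsmall : C * (ψ / (2 * C)) + 2 * h * C ^ 2 ≤ ψ := by
    have h1 : C * (ψ / (2 * C)) = ψ / 2 := by field_simp
    have h2 : 2 * h * C ^ 2 ≤ ψ / 2 := by
      have h3 : 4 * C ^ 2 ≤ L * ψ := by
        rw [div_le_iff₀ hψ0] at hL1; exact hL1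
      have h4 : h * L ≤ 1 := by
        calc h * L ≤ 1 / L * L := mul_le_mul_of_nonneg_right hhL hLpos.le
          _ = 1 := by field_simp
      have h5 : h * (4 * C ^ 2) ≤ h * (L * ψ) := mul_le_mul_of_nonneg_left h3 hhpos.le
      have h6 : h * (L * ψ) ≤ ψ := by
        calc h * (L * ψ) = (h * L) * ψ := by ring
          _ ≤ 1 * ψ := mul_le_mul_of_nonneg_right h4 hψ0.le
          _ = ψ := one_mul _
      linarith
    linarith
  have hcr : (T + 1) * (h * C * r) ≤ ε / 3 := by
    have h1 : 3 * (T + 1) * C * r / ε ≤ L := by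
      have : 0 ≤ C * r := by positivity
      linarith
    rw [div_le_iff₀ hε] at h1
    have h4 : h * L ≤ 1 := by
      calc h * L ≤ 1 / L * L := mul_le_mul_of_nonneg_right hhL hLpos.le
        _ = 1 := by field_simp
    have h5 : h * (3 * (T + 1) * C * r) ≤ h * (L * ε) := mul_le_mul_of_nonneg_left h1 hhpos.le
    have h6 : h * (L * ε) ≤ ε := by
      calc h * (L * ε) = (h * L) * ε := by ring
        _ ≤ 1 * ε := mul_le_mul_of_nonneg_right h4 hε.le
        _ = ε := one_mul _
    nlinarith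
  have hcr1 : h * C * r ≤ 1 := by
    have h1 : C * r ≤ L := by
      have : 0 ≤ 3 * (T + 1) * C * r / ε := by positivity
      linarith
    calc h * C * r = h * (C * r) := by ring
      _ ≤ 1 / L * L := mul_le_mul hhL h1 (by positivity) (by positivity)
      _ = 1 := by field_simp
  have hm := matching_ge hP J L rfl hL0 η Γ hη hη1 hsmall hΓ hLh hcr1 rl
  refine le_trans ?_ hm
  refine mul_le_mul_of_nonneg_right ?_ (sum_nonneg fun j _ => hx j)
  rw [hIh]
  have h1 : Real.exp (-((J : ℝ) / Γ)) ≤ ε / 3 :=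
    le_trans (Real.exp_le_exp.2 (neg_le_neg hIh1)) hT
  have h2 : (J : ℝ) / Γ * (h * C * r + C * η * Real.exp (2 * r)) ≤
      (T + 1) * (h * C * r + C * η * Real.exp (2 * r)) :=
    mul_le_mul_of_nonneg_right hIh2 (by positivity)
  linarith

/-- **Weighted nibble** (Kahn's form of the Pippenger-Frankl-Rödl theorem): a fractional matching
`x` of a hypergraph with edges of size at most `r` and codegrees at most `δ(r, ε)` can be rounded to
a matching of size at least `(1 - ε) ∑ x`. -/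
theorem nibble (r : ℕ) (ε : ℝ) (hε : 0 < ε) : ∃ δ : ℝ, 0 < δ ∧
    ∀ (α ι : Type) [Fintype α] [DecidableEq α] [Fintype ι] [DecidableEq ι]
      (S : ι → Finset α) (x : ι → ℝ),
      (∀ i, 0 ≤ x i) → (∀ i, (S i).Nonempty) → (∀ i, (S i).card ≤ r) →
      (∀ a, ∑ i ∈ univ.filter (fun i => a ∈ S i), x i ≤ 1) →
      (∀ a b, a ≠ b → ∑ i ∈ univ.filter (fun i => a ∈ S i ∧ b ∈ S i), x i ≤ δ) →
      ∃ M : Finset ι, (∀ i ∈ M, ∀ j ∈ M, i ≠ j → Disjoint (S i) (S j)) ∧
        (1 - ε) * ∑ i, x i ≤ (M.card : ℝ) := by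
  obtain ⟨δ, hδ, H⟩ := nibble_reg (max r 1) ε hε
  refine ⟨δ, hδ, ?_⟩
  intro α ι _ _ _ _ S x hx hS hcard hload hcod
  let S' : ι ⊕ α → Finset α := Sum.elim S (fun a => {a})
  let x' : ι ⊕ α → ℝ := Sum.elim x (fun a => 1 - ∑ i ∈ univ.filter (fun i => a ∈ S i), x i)
  have hH := H α (ι ⊕ α) S' x' (univ.map ⟨Sum.inl, Sum.inl_injective⟩) ?_ ?_ ?_ ?_ ?_
  · obtain ⟨M, hM1, hM2, hM3, hM4⟩ := exists_mval S' (univ.map ⟨Sum.inl, Sum.inl_injective⟩) univ
    refine ⟨univ.filter (fun i => (Sum.inl i : ι ⊕ α) ∈ M), ?_, ?_⟩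
    · intro i hi j hj hij
      have := hM3 (Sum.inl i) (mem_filter.1 hi).2 (Sum.inl j) (mem_filter.1 hj).2
        (fun h => hij (Sum.inl_injective h))
      exact this
    · have hcardM : (univ.filter (fun i => (Sum.inl i : ι ⊕ α) ∈ M)).card = M.card := by
        have : (univ.filter (fun i => (Sum.inl i : ι ⊕ α) ∈ M)).map
            ⟨Sum.inl, Sum.inl_injective⟩ = M := by
          ext j
          simp only [mem_map, mem_filter, mem_univ, true_and, Function.Embedding.coeFn_mk]
          constructor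
          · rintro ⟨i, hi, rfl⟩; exact hi
          · intro hj
            obtain ⟨i, _, hi⟩ := mem_map.1 (hM1 hj)
            exact ⟨i, by rw [← hi] at hj; exact hj, hi⟩
        rw [← this, card_map]
        simp
      rw [hcardM, hM4]
      rw [sum_map] at hH
      exact hH
  · rintro (i | a)
    · exact hx i
    · show 0 ≤ 1 - ∑ i ∈ univ.filter (fun i => a ∈ S i), x i
      linarith [hload a]
  · rintro (i | a)
    · exact hS i
    · exact singleton_nonempty a
  · rintro (i | a)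
    · exact le_trans (hcard i) (le_max_left _ _)
    · show ({a} : Finset α).card ≤ _
      rw [card_singleton]; exact le_max_right _ _
  · intro a
    rw [sum_filter, Fintype.sum_sum_type]
    have h1 : ∑ i : ι, (if a ∈ S' (Sum.inl i) then x' (Sum.inl i) else 0) =
        ∑ i ∈ univ.filter (fun i => a ∈ S i), x i := by
      rw [sum_filter]; rfl
    have h2 : ∑ b : α, (if a ∈ S' (Sum.inr b) then x' (Sum.inr b) else 0) = x' (Sum.inr a) := by
      rw [Finset.sum_eq_single a]
      · have : a ∈ S' (Sum.inr a) := mem_singleton_self a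
        rw [if_pos this]
      · intro b _ hb
        have : a ∉ S' (Sum.inr b) := fun h => hb (mem_singleton.1 h).symm
        rw [if_neg this]
      · intro h; exact absurd (mem_univ _) h
    rw [h1, h2]
    show _ + (1 - ∑ i ∈ univ.filter (fun i => a ∈ S i), x i) = 1
    ring
  · intro a b hab
    rw [sum_filter, Fintype.sum_sum_type]
    have h1 : ∑ i : ι, (if a ∈ S' (Sum.inl i) ∧ b ∈ S' (Sum.inl i) then x' (Sum.inl i) else 0) =
        ∑ i ∈ univ.filter (fun i => a ∈ S i ∧ b ∈ S i), x i := by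
      rw [sum_filter]; rfl
    have h2 : ∑ c : α, (if a ∈ S' (Sum.inr c) ∧ b ∈ S' (Sum.inr c) then x' (Sum.inr c) else 0) = 0 := by
      refine sum_eq_zero fun c _ => ?_
      rw [if_neg]
      rintro ⟨h3, h4⟩
      exact hab ((mem_singleton.1 h3).trans (mem_singleton.1 h4).symm)
    rw [h1, h2, add_zero]
    exact hcod a b hab

end Pool.Agent.Helper8.Verg
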