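import Pool.Agent.Helper8.Verg.RoundCore
import Pool.Agent.Helper8.Verg.Nibble

set_option autoImplicit false

/-!
Rounding a path system: from a fractional routing to edge-disjoint paths.
-/

namespace Pool.Agent.Helper8.Verg

open Finset

/-- M6a. Rounding a path system. -/
theorem round_system (K σ : ℝ) (hK : 0 < K) (hσ : 0 < σ) : ∃ N : ℕ,
    ∀ (V : Type) [Fintype V] [DecidableEq V] (H : SimpleGraph V) (B Z : Finset V),
      N ≤ Fintype.card V → Disjoint B Z → ∀ P : PathSystem H B Z K,
      ∃ R : Served H B Z, P.total - σ * (Fintype.card V : ℝ) ^ 2 ≤ (R.M.card : ℝ) :=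
  round_system_of K σ hK hσ (nibble 5 σ hσ)

end Pool.Agent.Helper8.Verg
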