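import Pool.Agent.Helper8.Verg.Defs

set_option autoImplicit false

/-!
Asymptotic Lescure-Meyniel conjecture for graphs of independence number two: choice of the
branch set when `Hᶜ` has a large clique.
-/

namespace Pool.Agent.Helper8.Verg

open Finset

/-- Choosing a subset of given size by averaging. -/
theorem sel_subset {V : Type} [DecidableEq V] (l : V → ℝ) (q : V → V → ℝ)
    (hq : ∀ u w, 0 ≤ q u w) (hq0 : ∀ u, q u u = 0) (τ : ℕ) : ∀ (n : ℕ) (T : Finset V),
    T.card = τ + n → ∃ T' ⊆ T, T'.card = τ ∧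
      ∑ u ∈ T', l u + ∑ u ∈ T', ∑ w ∈ T', q u w ≤
        ((τ : ℝ) / T.card) * ∑ u ∈ T, l u + ((τ : ℝ) / T.card) ^ 2 * ∑ u ∈ T, ∑ w ∈ T, q u w := by
  intro n
  induction n with
  | zero =>
    intro T hT
    refine ⟨T, Finset.Subset.refl _, by simpa using hT, ?_⟩
    rcases Nat.eq_zero_or_pos τ with h0 | h0
    · subst h0
      have : T = ∅ := Finset.card_eq_zero.1 (by simpa using hT)
      subst this
      simp
    · have h1 : (τ : ℝ) / T.card = 1 := by
        rw [hT, Nat.add_zero]
        exact div_self (by positivity)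
      rw [h1]
      simp
  | succ n ih =>
    intro T hT
    rcases Nat.eq_zero_or_pos τ with h0 | h0
    · subst h0
      exact ⟨∅, Finset.empty_subset _, rfl, by simp⟩
    have hi : (T.card : ℝ) = τ + n + 1 := by
      rw [hT]; push_cast; ring
    have hn0 : (0 : ℝ) ≤ n := Nat.cast_nonneg n
    have hτ1 : (1 : ℝ) ≤ τ := by exact_mod_cast h0
    have hTne : T.Nonempty := by
      rw [← Finset.card_pos, hT]; omega
    set Lt := ∑ u ∈ T, l u with hLt
    set Qt := ∑ u ∈ T, ∑ w ∈ T, q u w with hQt
    have hQ0 : 0 ≤ Qt := Finset.sum_nonneg fun u _ => Finset.sum_nonneg fun w _ => hq u w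
    have e1 : ∀ x ∈ T, ∑ u ∈ T.erase x, l u = Lt - l x := by
      intro x hx
      rw [hLt, ← Finset.add_sum_erase T l hx]; ring
    have e2 : ∀ x ∈ T, ∑ u ∈ T.erase x, ∑ w ∈ T.erase x, q u w =
        Qt - ∑ w ∈ T, q x w - ∑ u ∈ T, q u x := by
      intro x hx
      have h1 : ∀ u, ∑ w ∈ T.erase x, q u w = ∑ w ∈ T, q u w - q u x := by
        intro u
        rw [← Finset.add_sum_erase T (fun w => q u w) hx]; ring
      simp only [h1]
      rw [Finset.sum_sub_distrib, hQt, ← Finset.add_sum_erase T (fun u => ∑ w ∈ T, q u w) hx,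
        ← Finset.add_sum_erase T (fun u => q u x) hx, hq0 x]
      ring
    have hcard : ∀ x ∈ T, (T.erase x).card = τ + n := by
      intro x hx
      rw [Finset.card_erase_of_mem hx, hT]; omega
    obtain ⟨x, hx, hle⟩ : ∃ x ∈ T, ((τ : ℝ) / (τ + n)) * ∑ u ∈ T.erase x, l u +
        ((τ : ℝ) / (τ + n)) ^ 2 * ∑ u ∈ T.erase x, ∑ w ∈ T.erase x, q u w ≤
        ((τ : ℝ) / T.card) * Lt + ((τ : ℝ) / T.card) ^ 2 * Qt := by
      apply Finset.exists_le_of_sum_le hTne
      rw [Finset.sum_add_distrib, ← Finset.mul_sum, ← Finset.mul_sum, Finset.sum_congr rfl e1,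
        Finset.sum_congr rfl e2, Finset.sum_sub_distrib, Finset.sum_sub_distrib,
        Finset.sum_sub_distrib, Finset.sum_const, Finset.sum_const, Finset.sum_const,
        nsmul_eq_mul, nsmul_eq_mul, nsmul_eq_mul, Finset.sum_comm (s := T) (t := T) (f := fun x u => q u x),
        ← hLt, ← hQt, hi]
      have hpos : (0 : ℝ) < τ + n := by linarith
      have hpos2 : (0 : ℝ) < τ + n + 1 := by linarith
      have a1 : (τ : ℝ) / (τ + n) * ((τ + n + 1) * Lt - Lt) = τ * Lt := by
        field_simp; ring
      have a2 : ((τ : ℝ) / (τ + n)) ^ 2 * ((τ + n + 1) * Qt - Qt - Qt) ≤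
          (τ ^ 2 / (τ + n + 1)) * Qt := by
        have b1 : ((τ : ℝ) / (τ + n)) ^ 2 * ((τ + n + 1) * Qt - Qt - Qt) =
          (((τ : ℝ) / (τ + n)) ^ 2 * (τ + n - 1)) * Qt := by ring
        rw [b1]
        refine mul_le_mul_of_nonneg_right ?_ hQ0
        rw [div_pow, div_mul_eq_mul_div, div_le_div_iff₀ (by positivity) hpos2, mul_assoc]
        refine mul_le_mul_of_nonneg_left ?_ (by positivity)
        nlinarith
      have a3 : ((τ : ℝ) + n + 1) * (τ / (τ + n + 1) * Lt + (τ / (τ + n + 1)) ^ 2 * Qt) =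
          τ * Lt + (τ ^ 2 / (τ + n + 1)) * Qt := by
        field_simp
      rw [a1, a3]
      linarith
    obtain ⟨T', hT'1, hT'2, hT'3⟩ := ih (T.erase x) (hcard x hx)
    refine ⟨T', hT'1.trans (Finset.erase_subset _ _), hT'2, ?_⟩
    rw [hcard x hx] at hT'3
    push_cast at hT'3
    exact hT'3.trans hle

/-- the weight of an ordered pair in `theta` -/
noncomputable def swt {V : Type} (H : SimpleGraph V) (C : Finset V) (u w : V) : ℝ :=
  open Classical in
  if H.Adj u w then (1 : ℝ) / ((codegS H C u : ℝ) * (codegS H C w : ℝ)) else 0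

theorem theta_eq {V : Type} (H : SimpleGraph V) (C B : Finset V) :
    theta H C B = ∑ u ∈ B, ∑ w ∈ B, swt H C u w := rfl

theorem swt_nonneg {V : Type} (H : SimpleGraph V) (C : Finset V) (u w : V) : 0 ≤ swt H C u w := by
  unfold swt
  split_ifs
  · positivity
  · exact le_rfl

theorem wt_self {V : Type} (H : SimpleGraph V) (C : Finset V) (u : V) : swt H C u u = 0 := by
  unfold swt
  rw [if_neg (H.loopless.irrefl u)]

theorem wt_not {V : Type} (H : SimpleGraph V) (C : Finset V) (u w : V) (h : ¬ H.Adj u w) :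
    swt H C u w = 0 := by
  unfold swt
  rw [if_neg h]

theorem wt_adj {V : Type} (H : SimpleGraph V) (C : Finset V) (u w : V) (h : H.Adj u w) :
    swt H C u w = (1 : ℝ) / ((codegS H C u : ℝ) * (codegS H C w : ℝ)) := by
  unfold swt
  rw [if_pos h]

theorem deg_add_codeg {V : Type} (H : SimpleGraph V) (S : Finset V) (w : V) :
    degS H S w + codegS H S w = S.card := by
  classical
  unfold degS codegS
  exact Finset.card_filter_add_card_filter_not _

/-- the indicator of adjacency -/
noncomputable def sind {V : Type} (H : SimpleGraph V) (c u : V) : ℝ :=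
  open Classical in if H.Adj c u then 1 else 0

theorem ind_comm {V : Type} (H : SimpleGraph V) (c u : V) : sind H c u = sind H u c := by
  unfold sind
  by_cases h : H.Adj c u
  · rw [if_pos h, if_pos h.symm]
  · rw [if_neg h, if_neg fun h' => h h'.symm]

theorem sum_ind {V : Type} (H : SimpleGraph V) (S : Finset V) (u : V) :
    ∑ c ∈ S, sind H u c = degS H S u := by
  classical
  unfold sind degS
  rw [Finset.sum_boole]

/-- Step 1: averaging. -/
theorem sel_step1 {V : Type} [DecidableEq V] (H : SimpleGraph V) (B' C : Finset V)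
    (htri : ∀ a b c, H.Adj a b → H.Adj b c → ¬ H.Adj a c) (c : V) (m : ℕ)
    (hm1 : degS H B' c ≤ m) (hm2 : m ≤ B'.card) :
    ∃ B ⊆ B', B.card = m ∧ theta H C B ≤
      (((m : ℝ) - degS H B' c) / codegS H B' c) * (∑ u ∈ B', ∑ w ∈ B', swt H C u w *
        (sind H c u + sind H c w)) +
      (((m : ℝ) - degS H B' c) / codegS H B' c) ^ 2 * (∑ u ∈ B', ∑ w ∈ B', swt H C u w *
        (1 - sind H c u - sind H c w)) := by
  classical
  set N := B'.filter (fun z => H.Adj c z) with hN
  set J := B'.filter (fun z => ¬ H.Adj c z) with hJ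
  have hNc : N.card = degS H B' c := by unfold degS; congr
  have hJc : J.card = codegS H B' c := by unfold codegS; congr
  have hsum := deg_add_codeg H B' c
  obtain ⟨T, hT1, hT2, hT3⟩ := sel_subset (fun v => ∑ u ∈ N, (swt H C u v + swt H C v u))
    (fun u w => swt H C u w) (swt_nonneg H C) (wt_self H C) (m - degS H B' c) (B'.card - m) J
    (by rw [hJc]; omega)
  have hdisj : Disjoint N T := by
    rw [Finset.disjoint_left]
    intro z hz hzT
    have h1 := (Finset.mem_filter.1 hz).2
    exact (Finset.mem_filter.1 (hT1 hzT)).2 h1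
  have hprod : ∀ u w, swt H C u w * (sind H c u * sind H c w) = 0 := by
    intro u w
    by_cases huw : H.Adj u w
    · by_cases hu : H.Adj c u
      · have : ¬ H.Adj c w := htri c u w hu huw
        simp [sind, this]
      · simp [sind, hu]
    · rw [wt_not H C u w huw, zero_mul]
  have hNN : ∑ u ∈ N, ∑ w ∈ N, swt H C u w = 0 := by
    refine Finset.sum_eq_zero fun u hu => Finset.sum_eq_zero fun w hw => ?_
    have h1 := hprod u w
    have h2 := (Finset.mem_filter.1 hu).2
    have h3 := (Finset.mem_filter.1 hw).2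
    simpa [sind, h2, h3] using h1
  refine ⟨N ∪ T, Finset.union_subset (Finset.filter_subset _ _) (hT1.trans (Finset.filter_subset _ _)),
    ?_, ?_⟩
  · rw [Finset.card_union_of_disjoint hdisj, hNc, hT2]; omega
  · have hth : theta H C (N ∪ T) = ∑ v ∈ T, ∑ u ∈ N, (swt H C u v + swt H C v u) +
        ∑ u ∈ T, ∑ w ∈ T, swt H C u w := by
      rw [theta_eq, Finset.sum_union hdisj]
      simp only [Finset.sum_union hdisj]
      rw [Finset.sum_add_distrib, Finset.sum_add_distrib, hNN]
      simp only [Finset.sum_add_distrib]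
      rw [Finset.sum_comm (s := N) (t := T)]
      ring
    have hL : ∑ v ∈ J, ∑ u ∈ N, (swt H C u v + swt H C v u) =
        ∑ u ∈ B', ∑ w ∈ B', swt H C u w * (sind H c u + sind H c w) := by
      have h1 : ∑ v ∈ J, ∑ u ∈ N, swt H C u v = ∑ u ∈ B', ∑ w ∈ B', swt H C u w * sind H c u := by
        rw [Finset.sum_comm, hN, Finset.sum_filter]
        refine Finset.sum_congr rfl fun u _ => ?_
        by_cases hu : H.Adj c u
        · rw [if_pos hu, hJ, Finset.sum_filter]
          refine Finset.sum_congr rfl fun w _ => ?_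
          have := hprod u w
          by_cases hw : H.Adj c w
          · simp [sind, hu, hw] at this ⊢
            exact this.symm
          · simp [sind, hu, hw]
        · rw [if_neg hu]
          simp [sind, hu]
      have h2 : ∑ v ∈ J, ∑ u ∈ N, swt H C v u = ∑ u ∈ B', ∑ w ∈ B', swt H C u w * sind H c w := by
        rw [hJ, Finset.sum_filter]
        refine Finset.sum_congr rfl fun u _ => ?_
        by_cases hu : H.Adj c u
        · rw [if_neg (not_not.2 hu)]
          symm
          refine Finset.sum_eq_zero fun w _ => ?_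
          have := hprod u w
          simp only [sind, hu, if_true, one_mul] at this
          exact this
        · rw [if_pos hu, hN, Finset.sum_filter]
          refine Finset.sum_congr rfl fun w _ => ?_
          by_cases hw : H.Adj c w
          · simp [sind, hw]
          · simp [sind, hw]
      simp only [Finset.sum_add_distrib, mul_add]
      rw [h1, h2]
    have hQ : ∑ u ∈ J, ∑ w ∈ J, swt H C u w =
        ∑ u ∈ B', ∑ w ∈ B', swt H C u w * (1 - sind H c u - sind H c w) := by
      rw [hJ, Finset.sum_filter]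
      refine Finset.sum_congr rfl fun u _ => ?_
      by_cases hu : H.Adj c u
      · rw [if_neg (not_not.2 hu)]
        symm
        refine Finset.sum_eq_zero fun w _ => ?_
        have := hprod u w
        simp only [sind, hu, if_true, one_mul] at this ⊢
        rw [sub_self, zero_sub, mul_neg, this, neg_zero]
      · rw [if_pos hu, Finset.sum_filter]
        refine Finset.sum_congr rfl fun w _ => ?_
        by_cases hw : H.Adj c w
        · simp [sind, hu, hw]
        · simp [sind, hu, hw]
    rw [hL, hQ, hJc, Nat.cast_sub hm1] at hT3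
    rw [hth]
    exact hT3

/-- Step 3: the edge inequality. -/
theorem sel_edge (k m e κ s s' : ℝ) (hk : 0 < k) (hκ0 : 0 ≤ κ) (hκ : κ ≤ m + e)
    (h1 : k ≤ s + s') (h2 : s + s' ≤ 2 * k) :
    k * (m + e) - e * (s + s') ≤ (m + κ / 2 - κ / k * s) * s' + (m + κ / 2 - κ / k * s') * s := by
  have h3 : ((m + κ / 2 - κ / k * s) * s' + (m + κ / 2 - κ / k * s') * s -
      (k * (m + e) - e * (s + s'))) * (2 * k) =
      (s + s' - k) * (2 * k * (m + e) - κ * (s + s')) + κ * (s - s') ^ 2 := by
    field_simp
    ring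
  have h4 : 0 ≤ (s + s' - k) * (2 * k * (m + e) - κ * (s + s')) := by
    refine mul_nonneg (by linarith) ?_
    nlinarith
  have h5 : 0 ≤ κ * (s - s') ^ 2 := by positivity
  have h6 : 0 ≤ ((m + κ / 2 - κ / k * s) * s' + (m + κ / 2 - κ / k * s') * s -
      (k * (m + e) - e * (s + s'))) := by
    by_contra hneg
    rw [not_le] at hneg
    have := mul_neg_of_neg_of_pos hneg (show 0 < 2 * k by linarith)
    linarith
  linarith

/-- Step 3: the upper bound for the weighted sum over the edges. -/
theorem sel_upper {V : Type} (H : SimpleGraph V) (B' C : Finset V)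
    (htri : ∀ a b c, H.Adj a b → H.Adj b c → ¬ H.Adj a c)
    (hdeg : ∀ u ∈ B', degS H B' u ≤ codegS H C u) (k m e κ : ℝ) (hkC : k = C.card)
    (hk : 0 < k) (he : 0 ≤ e) (hme : e ≤ m) (hκ0 : 0 ≤ κ) (hκ : κ ≤ m + e) :
    ∑ u ∈ B', ∑ w ∈ B', swt H C u w *
      (k * (m + e) - e * ((codegS H C u : ℝ) + codegS H C w)) ≤
      2 * ∑ u ∈ B', (m + κ / 2 - κ / k * codegS H C u) := by
  classical
  have hcod : ∀ u, (codegS H C u : ℝ) ≤ k := by
    intro u
    rw [hkC]
    have := deg_add_codeg H C u
    exact_mod_cast (by omega : codegS H C u ≤ C.card)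
  have hh0 : ∀ u, 0 ≤ m + κ / 2 - κ / k * codegS H C u := by
    intro u
    have h1 : κ / k * codegS H C u ≤ κ := by
      rw [div_mul_eq_mul_div, div_le_iff₀ hk]
      exact mul_le_mul_of_nonneg_left (hcod u) hκ0
    linarith
  have hsym : ∀ u w, sind H u w = sind H w u := ind_comm H
  have hedge : ∀ u ∈ B', ∀ w ∈ B', swt H C u w *
      (k * (m + e) - e * ((codegS H C u : ℝ) + codegS H C w)) ≤
      sind H u w * ((m + κ / 2 - κ / k * codegS H C u) / codegS H C u) +
      sind H u w * ((m + κ / 2 - κ / k * codegS H C w) / codegS H C w) := by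
    intro u hu w hw
    by_cases huw : H.Adj u w
    · have hpos : ∀ x ∈ B', ∀ y ∈ B', H.Adj x y → (0 : ℝ) < codegS H C x := by
        intro x hx y hy hxy
        have h1 : 0 < degS H B' x := by
          unfold degS
          exact Finset.card_pos.2 ⟨y, Finset.mem_filter.2 ⟨hy, hxy⟩⟩
        exact_mod_cast lt_of_lt_of_le h1 (hdeg x hx)
      have hsu := hpos u hu w hw huw
      have hsw := hpos w hw u hu huw.symm
      have hdisj : degS H C u + degS H C w ≤ C.card := by
        unfold degS
        rw [← Finset.card_union_of_disjoint]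
        · exact Finset.card_le_card (Finset.union_subset (Finset.filter_subset _ _)
            (Finset.filter_subset _ _))
        · rw [Finset.disjoint_left]
          intro z hz1 hz2
          exact htri w u z huw.symm (Finset.mem_filter.1 hz1).2 (Finset.mem_filter.1 hz2).2
      have h1 : k ≤ (codegS H C u : ℝ) + codegS H C w := by
        have h3 := deg_add_codeg H C u
        have h4 := deg_add_codeg H C w
        rw [hkC]
        exact_mod_cast (by omega : C.card ≤ codegS H C u + codegS H C w)
      have h2 : (codegS H C u : ℝ) + codegS H C w ≤ 2 * k := by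
        linarith [hcod u, hcod w]
      have h5 := sel_edge k m e κ _ _ hk hκ0 hκ h1 h2
      rw [wt_adj H C u w huw]
      simp only [sind, huw, if_true, one_mul]
      rw [div_mul_eq_mul_div, one_mul, div_add_div _ _ hsu.ne' hsw.ne']
      refine div_le_div_of_nonneg_right ?_ (by positivity)
      linarith
    · rw [wt_not H C u w huw]
      simp [sind, huw]
  refine (Finset.sum_le_sum fun u hu => Finset.sum_le_sum fun w hw => hedge u hu w hw).trans ?_
  simp only [Finset.sum_add_distrib]
  have hswap : ∑ u ∈ B', ∑ w ∈ B', sind H u w *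
      ((m + κ / 2 - κ / k * codegS H C w) / codegS H C w) =
      ∑ u ∈ B', ∑ w ∈ B', sind H u w *
      ((m + κ / 2 - κ / k * codegS H C u) / codegS H C u) := by
    rw [Finset.sum_comm]
    refine Finset.sum_congr rfl fun u _ => Finset.sum_congr rfl fun w _ => ?_
    rw [hsym]
  rw [hswap, two_mul]
  have hbound : ∑ u ∈ B', ∑ w ∈ B', sind H u w *
      ((m + κ / 2 - κ / k * codegS H C u) / codegS H C u) ≤
      ∑ u ∈ B', (m + κ / 2 - κ / k * codegS H C u) := by
    refine Finset.sum_le_sum fun u hu => ?_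
    rw [← Finset.sum_mul, sum_ind]
    rcases Nat.eq_zero_or_pos (codegS H C u) with h0 | h0
    · rw [h0]
      simp only [Nat.cast_zero, div_zero, mul_zero, sub_zero]
      linarith
    · have h1 : (0 : ℝ) < codegS H C u := by exact_mod_cast h0
      have h2 : (degS H B' u : ℝ) ≤ codegS H C u := by exact_mod_cast hdeg u hu
      rw [mul_div_assoc', div_le_iff₀ h1, mul_comm]
      exact mul_le_mul_of_nonneg_left h2 (hh0 u)
  linarith

/-- Step 3: the numerical inequality. -/
theorem sel_num (k m e b : ℝ) (hk : 0 < k) (he : 0 < e) (hme : e < m) (hb : b = k + 2 * e)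
    (h37 : 126 * e ≤ 26 * b) : ∃ κ : ℝ, 0 ≤ κ ∧ κ ≤ m + e ∧
      b * (m + κ / 2) - κ * m ≤ k * m ^ 2 / (m - e) := by
  have hpos : 0 < m - e := by linarith
  rcases le_total m (b / 2) with h | h
  · refine ⟨0, le_rfl, by linarith, ?_⟩
    rw [le_div_iff₀ hpos]
    have h1 : b * (m + 0 / 2) - 0 * m = b * m := by ring
    rw [h1]
    have h2 : k * m ^ 2 - b * m * (m - e) = m * e * (b - 2 * m) := by
      rw [hb]; ring
    have h3 : 0 ≤ m * e * (b - 2 * m) := by
      have : 0 < m := by linarith
      have h4 : 0 ≤ b - 2 * m := by linarith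
      positivity
    linarith
  · refine ⟨m + e, by linarith, le_rfl, ?_⟩
    rw [le_div_iff₀ hpos]
    have h2 : k * m ^ 2 - (b * (m + (m + e) / 2) - (m + e) * m) * (m - e) =
        (m - b / 2) * (m ^ 2 - 2 * e * m - e ^ 2) := by
      have : k = b - 2 * e := by linarith
      rw [this]; ring
    have h3 : 0 ≤ m ^ 2 - 2 * e * m - e ^ 2 := by
      have h4 : 63 / 26 * e ≤ m := by linarith
      nlinarith
    have h5 : 0 ≤ (m - b / 2) * (m ^ 2 - 2 * e * m - e ^ 2) := mul_nonneg (by linarith) h3
    linarith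

/-- M3. Choice of the branch set for a large clique of `Hᶜ`. -/
theorem select_clique {V : Type} [Fintype V] [DecidableEq V] (H : SimpleGraph V) (U C : Finset V)
    (hCU : C ⊆ U)
    (htri : ∀ a b c, H.Adj a b → H.Adj b c → ¬ H.Adj a c)
    (hC : ∀ c ∈ C, ∀ d ∈ C, ¬ H.Adj c d)
    (hdeg : ∀ u ∈ U, degS H U u ≤ C.card)
    (h1 : 37 * U.card ≤ 100 * C.card) (h2 : 2 * C.card < U.card) :
    ∃ B ⊆ U \ C, B.card = U.card / 2 ∧ theta H C B ≤ 2 := by
  classical
  set B' := U \ C with hB'
  by_contra hcon
  push Not at hcon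
  have hCpos : 0 < C.card := by omega
  have hBcard : B'.card = U.card - C.card := by
    rw [hB', Finset.card_sdiff_of_subset hCU]
  have hCle : C.card ≤ U.card := Finset.card_le_card hCU
  have hsplit : ∀ u, degS H U u = degS H B' u + degS H C u := by
    intro u
    unfold degS
    rw [← Finset.card_union_of_disjoint]
    · congr 1
      ext z
      simp only [Finset.mem_union, Finset.mem_filter, hB', Finset.mem_sdiff]
      constructor
      · rintro ⟨hz, hzu⟩
        by_cases hzC : z ∈ C
        · exact Or.inr ⟨hzC, hzu⟩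
        · exact Or.inl ⟨⟨hz, hzC⟩, hzu⟩
      · rintro (⟨⟨hz, _⟩, hzu⟩ | ⟨hz, hzu⟩)
        · exact ⟨hz, hzu⟩
        · exact ⟨hCU hz, hzu⟩
    · rw [Finset.disjoint_left]
      intro z hz1 hz2
      have h3 := (Finset.mem_filter.1 hz1).1
      rw [hB', Finset.mem_sdiff] at h3
      exact h3.2 (Finset.mem_filter.1 hz2).1
  have hdegB : ∀ u ∈ B', degS H B' u ≤ codegS H C u := by
    intro u hu
    rw [hB', Finset.mem_sdiff] at hu
    have h3 := hdeg u hu.1
    have h4 := deg_add_codeg H C u
    have h5 := hsplit u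
    omega
  set k : ℝ := (C.card : ℝ) with hk
  set n1 : ℝ := (U.card : ℝ) with hn1
  set e : ℝ := n1 / 2 - k with he
  set b : ℝ := (B'.card : ℝ) with hb
  have hkpos : 0 < k := by rw [hk]; exact_mod_cast hCpos
  have hepos : 0 < e := by
    have : (2 : ℝ) * C.card < U.card := by exact_mod_cast h2
    rw [he, hn1, hk]; linarith
  have hbeq : b = k + 2 * e := by
    rw [hb, hBcard, Nat.cast_sub hCle, he]; ring
  have h37 : 126 * e ≤ 26 * b := by
    have : (37 : ℝ) * U.card ≤ 100 * C.card := by exact_mod_cast h1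
    rw [hbeq, he, hn1, hk]
    linarith
  -- the quantities attached to `c`
  have hdc : ∀ c ∈ C, degS H B' c ≤ C.card := by
    intro c hc
    have h3 := hdeg c (hCU hc)
    have h5 := hsplit c
    omega
  have hxe : ∀ c ∈ C, (codegS H B' c : ℝ) - e = n1 / 2 - degS H B' c := by
    intro c _
    have h3 : (degS H B' c : ℝ) + codegS H B' c = b := by
      rw [hb]; exact_mod_cast deg_add_codeg H B' c
    rw [hbeq, he] at h3
    rw [he]
    linarith
  have hxpos : ∀ c ∈ C, 0 < (codegS H B' c : ℝ) - e := by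
    intro c hc
    rw [hxe c hc]
    have h3 : (degS H B' c : ℝ) ≤ k := by rw [hk]; exact_mod_cast hdc c hc
    linarith
  set Th := ∑ u ∈ B', ∑ w ∈ B', swt H C u w with hTh
  set Th1 : V → ℝ := fun c => ∑ u ∈ B', ∑ w ∈ B', swt H C u w * (sind H c u + sind H c w) with hTh1
  have hstep : ∀ c ∈ C, 2 * ((codegS H B' c : ℝ) ^ 2 / (codegS H B' c - e)) <
      (codegS H B' c - e) * Th + e * Th1 c := by
    intro c hc
    have hm1 : degS H B' c ≤ U.card / 2 := by
      have := hdc c hc
      omega
    have hm2 : U.card / 2 ≤ B'.card := by omega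
    obtain ⟨B, hB1, hB2, hB3⟩ := sel_step1 H B' C htri c (U.card / 2) hm1 hm2
    have h3 := hcon B hB1 hB2
    set x : ℝ := (codegS H B' c : ℝ) with hx
    have hxe' := hxpos c hc
    have hx0 : 0 < x := by linarith
    set r : ℝ := (((U.card / 2 : ℕ) : ℝ) - degS H B' c) / x with hr
    have hr0 : 0 ≤ r := by
      refine div_nonneg ?_ hx0.le
      have : (degS H B' c : ℝ) ≤ ((U.card / 2 : ℕ) : ℝ) := by exact_mod_cast hm1
      linarith
    have hr1 : r ≤ (x - e) / x := by
      refine div_le_div_of_nonneg_right ?_ hx0.le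
      rw [hxe c hc]
      have : ((U.card / 2 : ℕ) : ℝ) ≤ n1 / 2 := by
        rw [hn1]
        exact Nat.cast_div_le
      linarith
    have hQeq : ∑ u ∈ B', ∑ w ∈ B', swt H C u w * (1 - sind H c u - sind H c w) = Th - Th1 c := by
      simp only [hTh, hTh1, ← Finset.sum_sub_distrib]
      refine Finset.sum_congr rfl fun u _ => Finset.sum_congr rfl fun w _ => ?_
      ring
    have hi0 : ∀ a z, 0 ≤ sind H a z := by
      intro a z; unfold sind; split_ifs <;> norm_num
    have hT1 : 0 ≤ Th1 c := Finset.sum_nonneg fun u _ => Finset.sum_nonneg fun w _ =>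
      mul_nonneg (swt_nonneg H C u w) (add_nonneg (hi0 _ _) (hi0 _ _))
    have hT2 : 0 ≤ Th - Th1 c := by
      rw [← hQeq]
      refine Finset.sum_nonneg fun u _ => Finset.sum_nonneg fun w _ => ?_
      by_cases huw : H.Adj u w
      · refine mul_nonneg (swt_nonneg H C u w) ?_
        by_cases hu : H.Adj c u
        · have : ¬ H.Adj c w := htri c u w hu huw
          simp [sind, hu, this]
        · by_cases hw : H.Adj c w
          · simp [sind, hu, hw]
          · simp [sind, hu, hw]
      · rw [wt_not H C u w huw, zero_mul]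
    rw [hQeq] at hB3
    have h4 : (2 : ℝ) < (x - e) / x * Th1 c + ((x - e) / x) ^ 2 * (Th - Th1 c) := by
      refine lt_of_lt_of_le h3 (hB3.trans ?_)
      gcongr
    have h5 : (x - e) / x * Th1 c + ((x - e) / x) ^ 2 * (Th - Th1 c) =
        (x - e) / x ^ 2 * ((x - e) * Th + e * Th1 c) := by
      field_simp
      ring
    rw [h5] at h4
    have h6 : 2 * (x ^ 2 / (x - e)) < (x - e) / x ^ 2 * ((x - e) * Th + e * Th1 c) *
        (x ^ 2 / (x - e)) := by
      refine mul_lt_mul_of_pos_right h4 (by positivity)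
    have h7 : (x - e) / x ^ 2 * ((x - e) * Th + e * Th1 c) * (x ^ 2 / (x - e)) =
        (x - e) * Th + e * Th1 c := by
      have hne : x - e ≠ 0 := hxe'.ne'
      have hx0' : x ≠ 0 := hx0.ne'
      have h8 : (x - e) / x ^ 2 * ((x - e) * Th + e * Th1 c) * (x ^ 2 / (x - e)) =
        ((x - e) * Th + e * Th1 c) * (((x - e) / (x - e)) * (x ^ 2 / x ^ 2)) := by ring
      rw [h8, div_self hne, div_self (pow_ne_zero 2 hx0'), one_mul, mul_one]
    rw [h7] at h6
    exact h6
  -- summation over `c`
  have hCne : C.Nonempty := Finset.card_pos.1 hCpos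
  have hsum := Finset.sum_lt_sum_of_nonempty hCne hstep
  set S : ℝ := ∑ c ∈ C, (codegS H B' c : ℝ) with hS
  have hSe : ∑ c ∈ C, ((codegS H B' c : ℝ) - e) = S - k * e := by
    rw [Finset.sum_sub_distrib, Finset.sum_const, nsmul_eq_mul]
  have hSpos : 0 < S - k * e := by
    rw [← hSe]
    exact Finset.sum_pos hxpos hCne
  have hCS : S ^ 2 / (S - k * e) ≤ ∑ c ∈ C, (codegS H B' c : ℝ) ^ 2 / (codegS H B' c - e) := by
    rw [← hSe]
    exact Finset.sq_sum_div_le_sum_sq_div C _ hxpos
  have hSB : S = ∑ u ∈ B', (codegS H C u : ℝ) := by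
    have h3 : ∀ (X : Finset V) (z : V), (codegS H X z : ℝ) = ∑ y ∈ X, (1 - sind H z y) := by
      intro X z
      rw [Finset.sum_sub_distrib, sum_ind, Finset.sum_const, nsmul_eq_mul, mul_one]
      have := deg_add_codeg H X z
      have h4 : (degS H X z : ℝ) + codegS H X z = X.card := by exact_mod_cast this
      linarith
    rw [hS]
    simp only [h3]
    rw [Finset.sum_comm]
    refine Finset.sum_congr rfl fun u _ => Finset.sum_congr rfl fun w _ => ?_
    rw [ind_comm]
  have hTh1sum : ∑ c ∈ C, Th1 c = ∑ u ∈ B', ∑ w ∈ B', swt H C u w *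
      (2 * k - ((codegS H C u : ℝ) + codegS H C w)) := by
    simp only [hTh1]
    rw [Finset.sum_comm]
    refine Finset.sum_congr rfl fun u _ => ?_
    rw [Finset.sum_comm]
    refine Finset.sum_congr rfl fun w _ => ?_
    rw [← Finset.mul_sum, Finset.sum_add_distrib]
    simp only [ind_comm H _ u, ind_comm H _ w]
    rw [sum_ind, sum_ind]
    congr 1
    have h4 : (degS H C u : ℝ) + codegS H C u = k := by rw [hk]; exact_mod_cast deg_add_codeg H C u
    have h5 : (degS H C w : ℝ) + codegS H C w = k := by rw [hk]; exact_mod_cast deg_add_codeg H C w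
    linarith
  set m : ℝ := S / k with hm
  have hSm : S = k * m := by rw [hm]; field_simp
  have hme : e < m := by
    have : k * e < k * m := by rw [← hSm]; linarith
    exact lt_of_mul_lt_mul_left this hkpos.le
  have hlow : 2 * (k * m ^ 2 / (m - e)) < ∑ u ∈ B', ∑ w ∈ B', swt H C u w *
      (k * (m + e) - e * ((codegS H C u : ℝ) + codegS H C w)) := by
    have h3 : ∑ u ∈ B', ∑ w ∈ B', swt H C u w *
        (k * (m + e) - e * ((codegS H C u : ℝ) + codegS H C w)) =
        (S - k * e) * Th + e * ∑ c ∈ C, Th1 c := by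
      rw [hTh1sum, hTh, Finset.mul_sum, Finset.mul_sum, ← Finset.sum_add_distrib]
      refine Finset.sum_congr rfl fun u _ => ?_
      rw [Finset.mul_sum, Finset.mul_sum, ← Finset.sum_add_distrib]
      refine Finset.sum_congr rfl fun w _ => ?_
      rw [hSm]
      ring
    rw [h3]
    rw [Finset.sum_add_distrib, ← Finset.mul_sum, ← Finset.sum_mul, hSe, ← Finset.mul_sum] at hsum
    have h4 : S ^ 2 / (S - k * e) = k * m ^ 2 / (m - e) := by
      rw [hSm]
      have : 0 < m - e := by linarith
      have h5 : k * m - k * e = k * (m - e) := by ring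
      rw [h5, div_eq_div_iff (mul_ne_zero hkpos.ne' this.ne') this.ne']
      ring
    rw [h4] at hCS
    linarith
  obtain ⟨κ, hκ0, hκ1, hκ2⟩ := sel_num k m e b hkpos hepos hme hbeq h37
  have hup := sel_upper H B' C htri hdegB k m e κ hk hkpos hepos.le hme.le hκ0 hκ1
  have hfin : ∑ u ∈ B', (m + κ / 2 - κ / k * codegS H C u) = b * (m + κ / 2) - κ * m := by
    have h9 : κ / k * (k * m) = κ * m := by
      rw [← mul_assoc, div_mul_cancel₀ _ hkpos.ne']
    rw [Finset.sum_sub_distrib, Finset.sum_const, nsmul_eq_mul, ← Finset.mul_sum, ← hSB, hSm, h9]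
  rw [hfin] at hup
  linarith

end Pool.Agent.Helper8.Verg
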