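import Mathlib
import Pool.Agent.Helper8.Verg.Defs

set_option autoImplicit false

/-!
VERG-5: balanced colourings by the second moment method.
-/

namespace Pool.Agent.Helper8.Verg

open Finset

/-- deviation of the number of elements of colour `i` in `S` -/
noncomputable def spDev {V : Type} [DecidableEq V] {q : ℕ} (S : Finset V) (i : Fin q)
    (χ : V → Fin q) : ℝ :=
  ((S.filter (fun z => χ z = i)).card : ℝ) - (S.card : ℝ) / q

theorem sp_count {V : Type} [Fintype V] [DecidableEq V] (q : ℕ) (T : Finset V) (i : Fin q) :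
    ((univ.filter (fun χ : V → Fin q => ∀ v ∈ T, χ v = i)).card : ℝ) * (q : ℝ) ^ T.card =
      (q : ℝ) ^ (Fintype.card V) := by
  have h1 : (univ.filter (fun χ : V → Fin q => ∀ v ∈ T, χ v = i)) =
      Fintype.piFinset (fun v => if v ∈ T then ({i} : Finset (Fin q)) else univ) := by
    ext χ
    simp only [mem_filter, mem_univ, true_and, Fintype.mem_piFinset]
    constructor
    · intro h v
      split_ifs with hv
      · exact mem_singleton.2 (h v hv)
      · exact mem_univ _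
    · intro h v hv
      have := h v
      rw [if_pos hv] at this
      exact mem_singleton.1 this
  rw [h1, Fintype.card_piFinset]
  have h2 : ∀ v : V, ((if v ∈ T then ({i} : Finset (Fin q)) else univ).card) =
      if v ∈ T then 1 else q := by
    intro v
    split_ifs
    · exact card_singleton _
    · simp
  simp only [h2]
  push_cast
  have h3 : (q : ℝ) ^ T.card = ∏ v : V, if v ∈ T then (q : ℝ) else 1 := by
    rw [prod_ite_mem, univ_inter, prod_const]
  rw [h3, ← prod_mul_distrib]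
  have h4 : ∀ v : V, (if v ∈ T then (1 : ℝ) else (q : ℝ)) * (if v ∈ T then (q : ℝ) else 1) =
      (q : ℝ) := by
    intro v
    split_ifs <;> simp
  simp only [h4]
  rw [prod_const, card_univ]

theorem sp_card_eq {V : Type} [DecidableEq V] {q : ℕ} (S : Finset V) (i : Fin q)
    (χ : V → Fin q) : ((S.filter (fun z => χ z = i)).card : ℝ) =
      ∑ z ∈ S, if χ z = i then (1 : ℝ) else 0 := by
  rw [card_filter]
  push_cast
  rfl

theorem sp_sum_one {V : Type} [Fintype V] [DecidableEq V] (q : ℕ) (hq : 0 < q) (S : Finset V)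
    (i : Fin q) : ∑ χ : V → Fin q, ((S.filter (fun z => χ z = i)).card : ℝ) =
      (q : ℝ) ^ (Fintype.card V) * ((S.card : ℝ) / q) := by
  have hq' : (q : ℝ) ≠ 0 := by positivity
  simp only [sp_card_eq]
  rw [sum_comm]
  have h1 : ∀ z ∈ S, ∑ χ : V → Fin q, (if χ z = i then (1 : ℝ) else 0) =
      (q : ℝ) ^ (Fintype.card V) / q := by
    intro z _
    have h2 := sp_count q ({z} : Finset V) i
    rw [card_singleton, pow_one] at h2
    rw [← sum_filter, sum_const, nsmul_eq_mul, mul_one, eq_div_iff hq', ← h2]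
    congr 3
    ext χ
    simp
  rw [sum_congr rfl h1, sum_const, nsmul_eq_mul]
  ring

theorem sp_sum_two {V : Type} [Fintype V] [DecidableEq V] (q : ℕ) (hq : 0 < q) (S : Finset V)
    (i : Fin q) : ∑ χ : V → Fin q, ((S.filter (fun z => χ z = i)).card : ℝ) ^ 2 =
      (q : ℝ) ^ (Fintype.card V) *
        ((S.card : ℝ) ^ 2 / q ^ 2 + (S.card : ℝ) * (1 / q - 1 / q ^ 2)) := by
  have hq' : (q : ℝ) ≠ 0 := by positivity
  simp only [sp_card_eq, sq, sum_mul_sum]
  rw [sum_comm]
  have h1 : ∀ z ∈ S, ∑ χ : V → Fin q, ∑ z' ∈ S,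
      ((if χ z = i then (1 : ℝ) else 0) * (if χ z' = i then (1 : ℝ) else 0)) =
      (q : ℝ) ^ (Fintype.card V) * ((S.card : ℝ) / q ^ 2 + (1 / q - 1 / q ^ 2)) := by
    intro z hz
    rw [sum_comm]
    have h2 : ∀ z' ∈ S, ∑ χ : V → Fin q,
        ((if χ z = i then (1 : ℝ) else 0) * (if χ z' = i then (1 : ℝ) else 0)) =
        (q : ℝ) ^ (Fintype.card V) * (1 / q ^ 2 + if z = z' then (1 / q - 1 / q ^ 2 : ℝ) else 0) := by
      intro z' _
      have h3 := sp_count q ({z, z'} : Finset V) i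
      have h4 : ∀ χ : V → Fin q, ((if χ z = i then (1 : ℝ) else 0) *
          (if χ z' = i then (1 : ℝ) else 0)) =
          if (∀ v ∈ ({z, z'} : Finset V), χ v = i) then (1 : ℝ) else 0 := by
        intro χ
        by_cases h5 : χ z = i <;> by_cases h6 : χ z' = i <;> simp [h5, h6]
      simp only [h4]
      rw [← sum_filter, sum_const, nsmul_eq_mul, mul_one]
      by_cases hzz : z = z'
      · subst hzz
        rw [pair_eq_singleton, card_singleton, pow_one] at h3
        rw [if_pos rfl, ← h3, pair_eq_singleton]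
        field_simp
        ring
      · rw [card_pair hzz] at h3
        rw [if_neg hzz, ← h3]
        field_simp
        ring
    rw [sum_congr rfl h2, ← mul_sum, sum_add_distrib, sum_const, nsmul_eq_mul, sum_ite_eq,
      if_pos hz]
    ring
  rw [sum_congr rfl h1, sum_const, nsmul_eq_mul]
  ring

theorem sp_moment {V : Type} [Fintype V] [DecidableEq V] (q : ℕ) (hq : 0 < q) (S : Finset V) :
    ∑ χ : V → Fin q, ∑ i : Fin q, spDev S i χ ^ 2 ≤
      (q : ℝ) ^ (Fintype.card V) * (S.card : ℝ) := by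
  have hq' : (q : ℝ) ≠ 0 := by positivity
  rw [sum_comm]
  have h1 : ∀ i : Fin q, ∑ χ : V → Fin q, spDev S i χ ^ 2 ≤
      (q : ℝ) ^ (Fintype.card V) * (S.card : ℝ) / q := by
    intro i
    have h2 : ∀ χ : V → Fin q, spDev S i χ ^ 2 =
        ((S.filter (fun z => χ z = i)).card : ℝ) ^ 2 -
        (2 * ((S.card : ℝ) / q)) * ((S.filter (fun z => χ z = i)).card : ℝ) +
        ((S.card : ℝ) / q) ^ 2 := by
      intro χ
      unfold spDev
      ring
    simp only [h2]
    rw [sum_add_distrib, sum_sub_distrib, ← mul_sum, sp_sum_one q hq, sp_sum_two q hq, sum_const,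
      card_univ, Fintype.card_fun, Fintype.card_fin, nsmul_eq_mul]
    push_cast
    have h3 : (q : ℝ) ^ Fintype.card V *
        ((S.card : ℝ) ^ 2 / q ^ 2 + (S.card : ℝ) * (1 / q - 1 / q ^ 2)) -
        2 * ((S.card : ℝ) / q) * ((q : ℝ) ^ Fintype.card V * ((S.card : ℝ) / q)) +
        (q : ℝ) ^ Fintype.card V * ((S.card : ℝ) / q) ^ 2 =
        (q : ℝ) ^ Fintype.card V * (S.card : ℝ) / q -
        (q : ℝ) ^ Fintype.card V * (S.card : ℝ) / q ^ 2 := by
      field_simp
      ring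
    rw [h3]
    have h4 : 0 ≤ (q : ℝ) ^ Fintype.card V * (S.card : ℝ) / q ^ 2 := by positivity
    linarith
  calc ∑ i : Fin q, ∑ χ : V → Fin q, spDev S i χ ^ 2
      ≤ ∑ _i : Fin q, (q : ℝ) ^ (Fintype.card V) * (S.card : ℝ) / q :=
        sum_le_sum fun i _ => h1 i
    _ = (q : ℝ) ^ (Fintype.card V) * (S.card : ℝ) := by
        rw [sum_const, card_univ, Fintype.card_fin, nsmul_eq_mul]
        field_simp

/-- M5. Balanced random colourings (second moment). -/
theorem split (q : ℕ) (hq : 0 < q) (η : ℝ) (hη : 0 < η) :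
    ∀ (V : Type) [Fintype V] [DecidableEq V] (H : SimpleGraph V) (U : Finset V),
      2 / η ^ 2 ≤ (Fintype.card V : ℝ) →
      ∃ (χ : V → Fin q) (X : Finset V), (X.card : ℝ) ≤ 2 / η ^ 2 ∧
        (∀ i, |((U.filter (fun z => χ z = i)).card : ℝ) - (U.card : ℝ) / q| ≤
          η * (Fintype.card V : ℝ)) ∧
        ∀ w, w ∉ X → ∀ i, |(degS H (U.filter (fun z => χ z = i)) w : ℝ) - (degS H U w : ℝ) / q| ≤
          η * (Fintype.card V : ℝ) := by
  intro V _ _ H U hn
  classical
  set n : ℝ := (Fintype.card V : ℝ) with hndef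
  have hη2 : 0 < η ^ 2 := by positivity
  have hn0 : 0 < n := lt_of_lt_of_le (by positivity) hn
  have hn2 : 2 ≤ n * η ^ 2 := by rwa [div_le_iff₀ hη2] at hn
  let Sw : V → Finset V := fun w => U.filter (fun z => H.Adj w z)
  have hSw : ∀ w, ((Sw w).card : ℝ) ≤ n := fun w => by
    rw [hndef]
    exact Nat.cast_le.2 (card_le_univ _)
  have hU : (U.card : ℝ) ≤ n := by
    rw [hndef]
    exact Nat.cast_le.2 (card_le_univ _)
  have : NeZero q := ⟨hq.ne'⟩
  have hsum : ∑ χ : V → Fin q, (∑ w : V, ∑ i : Fin q, spDev (Sw w) i χ ^ 2 +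
      n * ∑ i : Fin q, spDev U i χ ^ 2) ≤ ∑ _χ : V → Fin q, 2 * n ^ 2 := by
    rw [sum_add_distrib, sum_comm, ← mul_sum, sum_const, card_univ, Fintype.card_fun,
      Fintype.card_fin, nsmul_eq_mul]
    have h1 : ∑ w : V, ∑ χ : V → Fin q, ∑ i : Fin q, spDev (Sw w) i χ ^ 2 ≤
        ∑ _w : V, (q : ℝ) ^ (Fintype.card V) * n := by
      refine sum_le_sum fun w _ => (sp_moment q hq (Sw w)).trans ?_
      exact mul_le_mul_of_nonneg_left (hSw w) (by positivity)
    have h2 : n * ∑ χ : V → Fin q, ∑ i : Fin q, spDev U i χ ^ 2 ≤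
        n * ((q : ℝ) ^ (Fintype.card V) * n) :=
      mul_le_mul_of_nonneg_left ((sp_moment q hq U).trans
        (mul_le_mul_of_nonneg_left hU (by positivity))) hn0.le
    rw [sum_const, card_univ, nsmul_eq_mul, ← hndef] at h1
    push_cast
    have h3 : (q : ℝ) ^ Fintype.card V * (2 * n ^ 2) = n * ((q : ℝ) ^ (Fintype.card V) * n) +
        n * ((q : ℝ) ^ (Fintype.card V) * n) := by ring
    rw [h3]
    exact add_le_add h1 h2
  obtain ⟨χ, -, hχ⟩ := exists_le_of_sum_le (univ_nonempty) hsum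
  have hA0 : 0 ≤ ∑ w : V, ∑ i : Fin q, spDev (Sw w) i χ ^ 2 :=
    sum_nonneg fun w _ => sum_nonneg fun i _ => sq_nonneg _
  have hB0 : 0 ≤ ∑ i : Fin q, spDev U i χ ^ 2 := sum_nonneg fun i _ => sq_nonneg _
  have hA : ∑ w : V, ∑ i : Fin q, spDev (Sw w) i χ ^ 2 ≤ 2 * n ^ 2 := by
    have := mul_nonneg hn0.le hB0
    linarith
  have hB : n * ∑ i : Fin q, spDev U i χ ^ 2 ≤ 2 * n ^ 2 := by linarith
  have hηn : 0 < η * n := by positivity
  refine ⟨χ, univ.filter (fun w => ∃ i : Fin q, η * n < |spDev (Sw w) i χ|), ?_, ?_, ?_⟩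
  · set X := univ.filter (fun w => ∃ i : Fin q, η * n < |spDev (Sw w) i χ|) with hX
    have h1 : (X.card : ℝ) * (η * n) ^ 2 ≤ ∑ w ∈ X, ∑ i : Fin q, spDev (Sw w) i χ ^ 2 := by
      rw [← nsmul_eq_mul, ← sum_const]
      refine sum_le_sum fun w hw => ?_
      obtain ⟨i, hi⟩ := (mem_filter.1 hw).2
      have h2 : (η * n) ^ 2 ≤ spDev (Sw w) i χ ^ 2 := by
        rw [← sq_abs (spDev (Sw w) i χ)]
        exact pow_le_pow_left₀ hηn.le hi.le 2
      exact h2.trans (single_le_sum (f := fun i => spDev (Sw w) i χ ^ 2)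
        (fun i _ => sq_nonneg _) (mem_univ i))
    have h2 : ∑ w ∈ X, ∑ i : Fin q, spDev (Sw w) i χ ^ 2 ≤
        ∑ w : V, ∑ i : Fin q, spDev (Sw w) i χ ^ 2 :=
      sum_le_sum_of_subset_of_nonneg (subset_univ _)
        (fun w _ _ => sum_nonneg fun i _ => sq_nonneg _)
    have h3 : (X.card : ℝ) * (η * n) ^ 2 ≤ 2 * n ^ 2 := h1.trans (h2.trans hA)
    rw [le_div_iff₀ hη2]
    have h4 : ((X.card : ℝ) * η ^ 2) * n ^ 2 ≤ 2 * n ^ 2 := by
      have : ((X.card : ℝ) * η ^ 2) * n ^ 2 = (X.card : ℝ) * (η * n) ^ 2 := by ring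
      rw [this]
      exact h3
    exact le_of_mul_le_mul_right h4 (by positivity)
  · intro i
    have h1 : spDev U i χ ^ 2 ≤ ∑ i : Fin q, spDev U i χ ^ 2 :=
      single_le_sum (f := fun i => spDev U i χ ^ 2) (fun i _ => sq_nonneg _) (mem_univ i)
    have h2 : n * spDev U i χ ^ 2 ≤ n * (2 * n) := by
      have := mul_le_mul_of_nonneg_left h1 hn0.le
      nlinarith
    have h3 : spDev U i χ ^ 2 ≤ (η * n) ^ 2 := by
      have h4 := le_of_mul_le_mul_left h2 hn0
      nlinarith
    exact abs_le_of_sq_le_sq h3 hηn.le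
  · intro w hw i
    have h1 : ¬ η * n < |spDev (Sw w) i χ| := by
      intro h
      exact hw (mem_filter.2 ⟨mem_univ _, i, h⟩)
    have h2 : spDev (Sw w) i χ =
        (degS H (U.filter (fun z => χ z = i)) w : ℝ) - (degS H U w : ℝ) / q := by
      unfold spDev degS
      rw [filter_comm]
    rw [← h2]
    exact not_lt.1 h1

end Pool.Agent.Helper8.Verg
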