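import Mathlib
import Pool.Agent.Helper8.Verg.Defs
import Pool.Agent.Helper8.Verg.Finish
import Pool.Agent.Helper8.Verg.CoreClique
import Pool.Agent.Helper8.Verg.Select
import Pool.Agent.Helper8.Verg.Split
import Pool.Agent.Helper8.Verg.CoreSmall
import Pool.Agent.Helper8.Verg.Round

set_option autoImplicit false
set_option linter.unusedSectionVars false
set_option linter.unusedVariables false

/-! Assembly: the asymptotic Vergara theorem. -/

namespace Pool.Agent.Helper8.Verg

open Finset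

section basics

variable {V : Type}

lemma degS_mono (H : SimpleGraph V) {S T : Finset V} (h : S ⊆ T) (w : V) :
    degS H S w ≤ degS H T w := by
  classical
  unfold degS
  exact card_le_card (filter_subset_filter _ h)

lemma degS_le_card (H : SimpleGraph V) (S : Finset V) (w : V) : degS H S w ≤ S.card := by
  classical
  unfold degS
  exact card_le_card (filter_subset _ _)

lemma degS_add_codegS (H : SimpleGraph V) (S : Finset V) (w : V) :
    degS H S w + codegS H S w = S.card := by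
  classical
  unfold degS codegS
  exact card_filter_add_card_filter_not (s := S) (fun z => H.Adj w z)

lemma degS_union_le [DecidableEq V] (H : SimpleGraph V) (S T : Finset V) (w : V) :
    degS H (S ∪ T) w ≤ degS H S w + degS H T w := by
  classical
  unfold degS
  rw [filter_union]
  exact card_union_le _ _

lemma degS_add_disjoint [DecidableEq V] (H : SimpleGraph V) {S T U : Finset V} (hS : S ⊆ U)
    (hT : T ⊆ U) (hd : Disjoint S T) (w : V) :
    degS H S w + degS H T w ≤ degS H U w := by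
  classical
  unfold degS
  rw [← card_union_of_disjoint]
  · apply card_le_card
    intro z hz
    rcases mem_union.1 hz with h | h
    · exact mem_filter.2 ⟨hS (mem_filter.1 h).1, (mem_filter.1 h).2⟩
    · exact mem_filter.2 ⟨hT (mem_filter.1 h).1, (mem_filter.1 h).2⟩
  · exact disjoint_filter_filter hd

lemma common_ge (H : SimpleGraph V) (W : Finset V) (u w : V) :
    W.card ≤ common H W u w + (degS H W u + degS H W w) := by
  classical
  unfold common degS
  have : W ⊆ W.filter (fun z => ¬ H.Adj u z ∧ ¬ H.Adj w z) ∪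
      (W.filter (fun z => H.Adj u z) ∪ W.filter (fun z => H.Adj w z)) := by
    intro z hz
    by_cases h1 : H.Adj u z
    · exact mem_union_right _ (mem_union_left _ (mem_filter.2 ⟨hz, h1⟩))
    · by_cases h2 : H.Adj w z
      · exact mem_union_right _ (mem_union_right _ (mem_filter.2 ⟨hz, h2⟩))
      · exact mem_union_left _ (mem_filter.2 ⟨hz, h1, h2⟩)
  refine le_trans (card_le_card this) (le_trans (card_union_le _ _) ?_)
  exact Nat.add_le_add_left (card_union_le _ _) _

/-- a clique of `Hᶜ` is an immersed complete graph -/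
lemma imm_of_clique [DecidableEq V] (H : SimpleGraph V) (C : Finset V)
    (hC : ∀ c ∈ C, ∀ d ∈ C, ¬ H.Adj c d) (t : ℕ) (ht : t ≤ C.card) : HasImm Hᶜ t := by
  refine imm_of_family Hᶜ t C ht (fun s => {s}) ?_ ?_
  · intro u hu w hw huw
    have hadj : Hᶜ.Adj u w := by
      rw [SimpleGraph.compl_adj]; exact ⟨huw, hC u hu w hw⟩
    refine ⟨SimpleGraph.Walk.cons hadj SimpleGraph.Walk.nil, ?_, ?_⟩
    · simp [huw]
    · simp
  · intro u _ w _ u' _ w' _ _ _ hne
    rw [disjoint_singleton]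
    exact hne

end basics

/-- the final step, common to both cases -/
lemma close_up (K σ : ℝ) (hK : 0 < K) (hσ : 0 < σ) : ∃ N : ℕ,
    ∀ (V : Type) [Fintype V] [DecidableEq V] (H : SimpleGraph V) (B Z W : Finset V),
      N ≤ Fintype.card V → Disjoint B Z → Disjoint B W → Disjoint Z W →
      ∀ P : PathSystem H B Z K,
      (∑ u ∈ B, (degS H B u : ℝ)) / 2 - σ * (Fintype.card V : ℝ) ^ 2 ≤ P.total →
      ∀ ℓ t : ℕ, 0 < ℓ →
      (∀ u ∈ B, ∀ w ∈ B, H.Adj u w → 2 * ℓ ≤ common H W u w) →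
      (t : ℝ) + 4 * σ * (Fintype.card V : ℝ) ^ 2 / ℓ ≤ (B.card : ℝ) → HasImm Hᶜ t := by
  obtain ⟨N, hN⟩ := round_system K σ hK hσ
  refine ⟨N, ?_⟩
  intro V _ _ H B Z W hn hBZ hBW hZW P hP ℓ t hℓ hW ht
  obtain ⟨R, hR⟩ := hN V H B Z hn hBZ P
  refine finish H B Z W hBZ hBW hZW R ℓ t hℓ (2 * σ * (Fintype.card V : ℝ) ^ 2) ?_ hW ?_
  · linarith
  · have : 2 * (2 * σ * (Fintype.card V : ℝ) ^ 2) / ℓ = 4 * σ * (Fintype.card V : ℝ) ^ 2 / ℓ := by
      ring
    rw [this]; exact ht

/-- enlarging the constant of a path system -/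
def PathSystem.mono {V : Type} [Fintype V] {H : SimpleGraph V} {B Z : Finset V} {K K' : ℝ}
    (P : PathSystem H B Z K) (h : K ≤ K') : PathSystem H B Z K' :=
  { x2 := P.x2, x3 := P.x3, x4 := P.x4, nn2 := P.nn2, nn3 := P.nn3, nn4 := P.nn4
    sym2 := P.sym2, sym3 := P.sym3, sym4 := P.sym4, sup2 := P.sup2, sup3 := P.sup3, sup4 := P.sup4
    bd2 := fun u c w => le_trans (P.bd2 u c w) (div_le_div_of_nonneg_right h (by positivity))
    bd3 := fun u c d w => le_trans (P.bd3 u c d w) (div_le_div_of_nonneg_right h (by positivity))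
    bd4 := fun u c e d w => le_trans (P.bd4 u c e d w)
      (div_le_div_of_nonneg_right h (by positivity))
    dem := P.dem, port := P.port, rout := P.rout }

lemma PathSystem.mono_total {V : Type} [Fintype V] {H : SimpleGraph V} {B Z : Finset V} {K K' : ℝ}
    (P : PathSystem H B Z K) (h : K ≤ K') : (P.mono h).total = P.total := rfl

/-- Case of small maximum degree. -/
lemma case_small (σ : ℝ) (hσ : 0 < σ) : ∃ N : ℕ,
    ∀ (V : Type) [Fintype V] [DecidableEq V] (H : SimpleGraph V) (U : Finset V),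
      N ≤ Fintype.card V → (∀ a b c, H.Adj a b → H.Adj b c → ¬ H.Adj a c) →
      (9 / 10 : ℝ) * Fintype.card V ≤ (U.card : ℝ) →
      (∀ u ∈ U, 100 * degS H U u ≤ 37 * U.card) →
      ∃ B Z : Finset V, B ⊆ U ∧ Z ⊆ U ∧ Disjoint B Z ∧ ∃ P : PathSystem H B Z (1 / (1 / 10 : ℝ) ^ 3),
        (∑ u ∈ B, (degS H B u : ℝ)) / 2 ≤ P.total ∧
        (U.card : ℝ) / 2 - σ * Fintype.card V ≤ (B.card : ℝ) := by
  set η : ℝ := min (1 / 2000) (σ / 2) with hη
  have hη0 : 0 < η := lt_min (by norm_num) (by linarith)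
  have hη1 : η ≤ 1 / 2000 := min_le_left _ _
  have hη2 : η ≤ σ / 2 := min_le_right _ _
  set c₂ : ℝ := 2 / η ^ 2 with hc₂
  have hc₂0 : 0 < c₂ := by positivity
  obtain ⟨N, hN⟩ : ∃ N : ℕ, max (max c₂ (2 * c₂ / σ)) (10000 * (c₂ + 2)) ≤ N := exists_nat_ge _
  have hN1 : c₂ ≤ N := le_trans (le_trans (le_max_left _ _) (le_max_left _ _)) hN
  have hN2 : 2 * c₂ / σ ≤ N := le_trans (le_trans (le_max_right _ _) (le_max_left _ _)) hN
  have hN3 : 10000 * (c₂ + 2) ≤ N := le_trans (le_max_right _ _) hN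
  refine ⟨N, ?_⟩
  intro V _ _ H U hn htri hU hdeg
  have hnN : (N : ℝ) ≤ Fintype.card V := by exact_mod_cast hn
  set n : ℝ := (Fintype.card V : ℝ) with hndef
  obtain ⟨χ, X, hX, hsz, hdg⟩ := split 2 (by norm_num) η hη0 V H U (by linarith)
  set B₀ := U.filter (fun z => χ z = 0) with hB₀
  set Z₀ := U.filter (fun z => χ z = 1) with hZ₀
  have hdisj₀ : Disjoint B₀ Z₀ := by
    rw [Finset.disjoint_left]
    intro z hz hz'
    have h1 := (mem_filter.1 hz).2
    have h2 := (mem_filter.1 hz').2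
    rw [h1] at h2
    exact absurd h2 (by decide)
  set B := B₀ \ X with hB
  set Z := Z₀ \ X with hZ
  have hBU : B ⊆ U := sdiff_subset.trans (filter_subset _ _)
  have hZU : Z ⊆ U := sdiff_subset.trans (filter_subset _ _)
  have hBZ : Disjoint B Z := hdisj₀.mono sdiff_subset sdiff_subset
  have hUn : (U.card : ℝ) ≤ n := by
    rw [hndef]; exact_mod_cast card_le_univ U
  have hcard : ∀ S : Finset V, (S.card : ℝ) - c₂ ≤ ((S \ X).card : ℝ) := by
    intro S
    have : S.card ≤ (S \ X).card + X.card := by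
      calc S.card ≤ ((S \ X) ∪ X).card := card_le_card (by
            intro z hz
            by_cases h : z ∈ X
            · exact mem_union_right _ h
            · exact mem_union_left _ (mem_sdiff.2 ⟨hz, h⟩))
        _ ≤ _ := card_union_le _ _
    have h2 : (S.card : ℝ) ≤ ((S \ X).card : ℝ) + (X.card : ℝ) := by exact_mod_cast this
    linarith
  have hs0 := abs_le.1 (hsz 0)
  have hs1 := abs_le.1 (hsz 1)
  have hBc : (U.card : ℝ) / 2 - η * n - c₂ ≤ (B.card : ℝ) := by
    have := hcard B₀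
    have h2 := hs0.1
    push_cast at h2
    linarith
  have hZc : (U.card : ℝ) / 2 - η * n - c₂ ≤ (Z.card : ℝ) := by
    have := hcard Z₀
    have h2 := hs1.1
    push_cast at h2
    linarith
  have hηn : η * n ≤ n / 2000 := by nlinarith
  have hdegU : ∀ w ∈ B ∪ Z, (degS H U w : ℝ) ≤ 37 / 100 * U.card := by
    intro w hw
    have hwU : w ∈ U := by
      rcases mem_union.1 hw with h | h
      · exact hBU h
      · exact hZU h
    have := hdeg w hwU
    have h2 : (100 : ℝ) * degS H U w ≤ 37 * U.card := by exact_mod_cast this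
    linarith
  have hnotX : ∀ w ∈ B ∪ Z, w ∉ X := by
    intro w hw
    rcases mem_union.1 hw with h | h
    · exact (mem_sdiff.1 h).2
    · exact (mem_sdiff.1 h).2
  set D : ℝ := 37 / 200 * U.card + η * n with hD
  have hBD : ∀ w ∈ B ∪ Z, (degS H B w : ℝ) ≤ D := by
    intro w hw
    have h1 := (abs_le.1 (hdg w (hnotX w hw) 0)).2
    have h2 := hdegU w hw
    have h3 : (degS H B w : ℝ) ≤ degS H B₀ w := by
      exact_mod_cast degS_mono H sdiff_subset w
    push_cast at h1
    rw [hD]; linarith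
  have hZD : ∀ w ∈ B ∪ Z, (degS H Z w : ℝ) ≤ D := by
    intro w hw
    have h1 := (abs_le.1 (hdg w (hnotX w hw) 1)).2
    have h2 := hdegU w hw
    have h3 : (degS H Z w : ℝ) ≤ degS H Z₀ w := by
      exact_mod_cast degS_mono H sdiff_subset w
    push_cast at h1
    rw [hD]; linarith
  have hc2n : c₂ + 2 ≤ n / 10000 := by linarith
  have hgap0 : (12 / 100 : ℝ) * U.card ≤ (Z.card : ℝ) - 2 * D - 2 := by
    rw [hD]
    linarith
  have q1 : ∀ u ∈ B, (Z.card : ℝ) - 2 * D ≤ (degS H Z u : ℝ) →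
      (degS H B u : ℝ) ≤ (1 + 1 / 20) * (degS H Z u : ℝ) := by
    intro u hu hdu
    have huBZ : u ∈ B ∪ Z := mem_union_left _ hu
    have h1 := (abs_le.1 (hdg u (hnotX u huBZ) 0)).2
    have h2 := (abs_le.1 (hdg u (hnotX u huBZ) 1)).1
    have h3 : (degS H B u : ℝ) ≤ degS H B₀ u := by
      exact_mod_cast degS_mono H sdiff_subset u
    have h4 : (degS H Z₀ u : ℝ) ≤ degS H Z u + c₂ := by
      have h5 : degS H Z₀ u ≤ degS H (Z ∪ X) u := degS_mono H (by
        intro z hz
        by_cases h : z ∈ X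
        · exact mem_union_right _ h
        · exact mem_union_left _ (mem_sdiff.2 ⟨hz, h⟩)) u
      have h6 := degS_union_le H Z X u
      have h7 := degS_le_card H X u
      have h8 : degS H Z₀ u ≤ degS H Z u + X.card := by omega
      have h9 : (degS H Z₀ u : ℝ) ≤ degS H Z u + X.card := by exact_mod_cast h8
      linarith
    push_cast at h1 h2
    have h9 : (12 / 100 : ℝ) * U.card ≤ degS H Z u := by linarith
    linarith
  have q2 : (1 / 10 : ℝ) * (Fintype.card V : ℝ) ≤ D := by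
    rw [hD]; linarith
  have q3 : (1 / 10 : ℝ) * (Fintype.card V : ℝ) ≤ (Z.card : ℝ) - 2 * D - 2 := by
    linarith
  have q4 : 2 * (1 + 1 / 20) * (3 * D - (Z.card : ℝ)) ≤ (Z.card : ℝ) - 2 * D - 2 := by
    have h1 : 3 * D - (Z.card : ℝ) ≤ 56 / 1000 * U.card + 5 * (η * n) := by
      rw [hD]; linarith
    have h2 : 2 * (1 + 1 / 20) * (3 * D - (Z.card : ℝ)) ≤
        2 * (1 + 1 / 20) * (56 / 1000 * U.card + 5 * (η * n)) := by
      linarith
    have h3 : (129 / 1000 : ℝ) * U.card - n / 1000 ≤ (Z.card : ℝ) - 2 * D - 2 := by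
      rw [hD]; linarith
    linarith
  obtain ⟨P, hP⟩ := core_small H B Z hBZ htri D (1 / 20) (1 / 10) (by norm_num) (by norm_num)
    hBD hZD q1 q2 q3 q4
  refine ⟨B, Z, hBU, hZU, hBZ, P, hP, ?_⟩
  have h1 : c₂ ≤ σ / 2 * n := by
    rw [div_le_iff₀ hσ] at hN2
    nlinarith
  have h2 : η * n ≤ σ / 2 * n := mul_le_mul_of_nonneg_right hη2 (by positivity)
  linarith

/-- Case of large maximum degree. -/
lemma case_large (σ : ℝ) (hσ : 0 < σ) (hσ1 : σ ≤ 1) 
    (V : Type) [Fintype V] [DecidableEq V] (H : SimpleGraph V) (U : Finset V)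
    (htri : ∀ a b c, H.Adj a b → H.Adj b c → ¬ H.Adj a c)
    (hhalf : ∀ u ∈ U, 2 * degS H U u < U.card)
    (hdeg : ∃ u ∈ U, 37 * U.card < 100 * degS H U u) :
    ∃ B Z : Finset V, B ⊆ U ∧ Z ⊆ U ∧ Disjoint B Z ∧ ∃ P : PathSystem H B Z (1 / σ ^ 2),
      (∑ u ∈ B, (degS H B u : ℝ)) / 2 - σ * (Fintype.card V : ℝ) ^ 2 ≤ P.total ∧
      (U.card : ℝ) / 2 - 1 ≤ (B.card : ℝ) := by
  classical
  obtain ⟨u₀, hu₀, hu₀d⟩ := hdeg
  obtain ⟨v, hvU, hvmax⟩ := exists_max_image U (fun u => degS H U u) ⟨u₀, hu₀⟩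
  set C := U.filter (fun z => H.Adj v z) with hC
  have hCcard : C.card = degS H U v := by
    rw [hC]; unfold degS; congr
  have hCU : C ⊆ U := filter_subset _ _
  have hCind : ∀ c ∈ C, ∀ d ∈ C, ¬ H.Adj c d := by
    intro c hc d hd hcd
    exact htri v c d (mem_filter.1 hc).2 hcd (mem_filter.1 hd).2
  have hdegC : ∀ u ∈ U, degS H U u ≤ C.card := fun u hu => by
    rw [hCcard]; exact hvmax u hu
  obtain ⟨B, hBUC, hBc, hθ⟩ := select_clique H U C hCU htri hCind hdegC
    (by have := hdegC u₀ hu₀; omega) (by rw [hCcard]; exact hhalf v hvU)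
  have hBU : B ⊆ U := hBUC.trans sdiff_subset
  have hBC : Disjoint B C := by
    rw [Finset.disjoint_left]
    intro z hz
    exact (mem_sdiff.1 (hBUC hz)).2
  obtain ⟨P, hP⟩ := core_clique H B C hBC htri hCind (fun u hu => by
    have h1 := degS_add_disjoint H hBU hCU hBC u
    have h2 := hdegC u (hBU hu)
    have h3 := degS_add_codegS H C u
    omega) hθ σ hσ hσ1
  refine ⟨B, C, hBU, hCU, hBC, P, hP, ?_⟩
  rw [hBc]
  have h1 : U.card ≤ 2 * (U.card / 2) + 1 := by omega
  have h2 : (U.card : ℝ) ≤ 2 * ((U.card / 2 : ℕ) : ℝ) + 1 := by exact_mod_cast h1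
  linarith

/-- Asymptotic Vergara theorem, complement form, when no vertex has large degree. -/
lemma main_nonextremal (ε : ℝ) (hε : 0 < ε) (hε1 : ε ≤ 1 / 10) : ∃ N : ℕ,
    ∀ (V : Type) [Fintype V] [DecidableEq V] (H : SimpleGraph V),
      N ≤ Fintype.card V → (∀ a b c, H.Adj a b → H.Adj b c → ¬ H.Adj a c) →
      (∀ v, (degS H univ v : ℝ) ≤ (1 / 2 - ε) * Fintype.card V) →
      ∀ t : ℕ, (t : ℝ) ≤ (1 / 2 - ε) * Fintype.card V → HasImm Hᶜ t := by
  classical
  -- number of colours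
  obtain ⟨q, hq8⟩ : ∃ q : ℕ, 8 / ε ≤ q := exists_nat_ge _
  have hq0r : (0 : ℝ) < q := lt_of_lt_of_le (by positivity) hq8
  have hq0 : 0 < q := by exact_mod_cast hq0r
  have hqe : 1 / (q : ℝ) ≤ ε / 8 := by
    rw [div_le_iff₀ hε] at hq8
    rw [div_le_iff₀ hq0r]; linarith
  have hqe1 : (8 : ℝ) ≤ q * ε := by
    rw [div_le_iff₀ hε] at hq8; exact hq8
  set η : ℝ := ε / (8 * q) with hη
  have hη0 : 0 < η := by positivity
  set σ : ℝ := ε ^ 2 / (128 * q) with hσ
  have hσ0 : 0 < σ := by positivity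
  have hσ1 : σ ≤ 1 := by
    rw [hσ, div_le_one (by positivity)]
    have : (1 : ℝ) ≤ q := by exact_mod_cast hq0
    nlinarith
  have hσε : σ ≤ ε / 16 := by
    rw [hσ, div_le_iff₀ (by positivity)]
    have : (1 : ℝ) ≤ q := by exact_mod_cast hq0
    nlinarith [mul_pos hε hq0r]
  set K : ℝ := max (1 / σ ^ 2) (1 / (1 / 10 : ℝ) ^ 3) with hK
  have hK0 : 0 < K := lt_of_lt_of_le (by positivity) (le_max_left _ _)
  obtain ⟨N₁, hN₁⟩ := close_up K σ hK0 hσ0
  obtain ⟨N₂, hN₂⟩ := case_small σ hσ0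
  set c₁ : ℝ := 2 / η ^ 2 with hc₁
  have hc₁0 : 0 < c₁ := by positivity
  obtain ⟨N₃, hN₃⟩ : ∃ N : ℕ, max (max (c₁ + 1) (16 * (c₁ + 1) / ε)) (4 * q / ε + 4 * q) ≤ N :=
    exists_nat_ge _
  have hN31 : c₁ + 1 ≤ N₃ := le_trans (le_trans (le_max_left _ _) (le_max_left _ _)) hN₃
  have hN32 : 16 * (c₁ + 1) / ε ≤ N₃ := le_trans (le_trans (le_max_right _ _) (le_max_left _ _)) hN₃
  have hN33 : 4 * q / ε + 4 * q ≤ N₃ := le_trans (le_max_right _ _) hN₃
  refine ⟨max N₁ (max N₂ N₃), ?_⟩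
  intro V _ _ H hn htri hdeg t ht
  have hn1 : N₁ ≤ Fintype.card V := le_trans (le_max_left _ _) hn
  have hn2 : N₂ ≤ Fintype.card V := le_trans (le_trans (le_max_left _ _) (le_max_right _ _)) hn
  have hn3 : N₃ ≤ Fintype.card V := le_trans (le_trans (le_max_right _ _) (le_max_right _ _)) hn
  have hn3r : (N₃ : ℝ) ≤ Fintype.card V := by exact_mod_cast hn3
  set n : ℝ := (Fintype.card V : ℝ) with hndef
  have hn0 : 0 < n := by linarith
  have hcn : c₁ + 1 ≤ ε / 16 * n := by
    rw [div_le_iff₀ hε] at hN32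
    nlinarith
  -- the reserved set
  obtain ⟨χ, X, hX, hsz, hdg⟩ := split q hq0 η hη0 V H univ (by linarith)
  set i₀ : Fin q := ⟨0, hq0⟩
  set W : Finset V := univ.filter (fun z => χ z = i₀) with hW
  have hcU : (((univ : Finset V)).card : ℝ) = n := by rw [card_univ]
  have hηn : η * n = ε * n / (8 * q) := by rw [hη]; ring
  have hWsz := abs_le.1 (hsz i₀)
  rw [hcU] at hWsz
  have hWdeg : ∀ w, w ∉ X → (degS H W w : ℝ) ≤ (1 / 2 - ε) * n / q + η * n := by
    intro w hw
    have h1 := (abs_le.1 (hdg w hw i₀)).2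
    have h2 : (degS H univ w : ℝ) / q ≤ (1 / 2 - ε) * n / q :=
      div_le_div_of_nonneg_right (hdeg w) hq0r.le
    linarith
  have hcommon : ∀ u w, u ∉ X → w ∉ X → ε * n / q ≤ (common H W u w : ℝ) := by
    intro u w hu hw
    have h1 := common_ge H W u w
    have h2 : (W.card : ℝ) ≤ common H W u w + (degS H W u + degS H W w) := by exact_mod_cast h1
    have h3 := hWdeg u hu
    have h4 := hWdeg w hw
    have h5 : (1 / 2 - ε) * n / q = n / q / 2 - ε * n / q := by ring
    have h6 : ε * n / (8 * q) = (ε * n / q) / 8 := by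
      field_simp
    have h7 : 0 < ε * n / q := by positivity
    rw [h5, hηn, h6] at h3 h4
    have h8 := hWsz.1
    rw [hηn, h6] at h8
    linarith
  -- the parameter ℓ
  set ℓ : ℕ := ⌊ε * n / (2 * q)⌋₊ with hℓ
  have hbig : 2 ≤ ε * n / (2 * q) := by
    rw [le_div_iff₀ (by positivity)]
    have h1 : 4 * q / ε ≤ n := by
      have : (0 : ℝ) < 4 * q := by positivity
      linarith
    rw [div_le_iff₀ hε] at h1
    linarith
  have hℓ1 : (ℓ : ℝ) ≤ ε * n / (2 * q) := Nat.floor_le (by positivity)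
  have hℓ2 : ε * n / (4 * q) ≤ ℓ := by
    have h1 := Nat.lt_floor_add_one (ε * n / (2 * q))
    have h2 : ε * n / (4 * q) = (ε * n / (2 * q)) / 2 := by field_simp; ring
    rw [h2]
    have h3 : (ε * n / (2 * q)) < (ℓ : ℝ) + 1 := h1
    linarith
  have hℓ0 : 0 < ℓ := by
    rw [hℓ]
    exact Nat.floor_pos.2 (by linarith)
  have hW2 : ∀ u w, u ∉ X → w ∉ X → 2 * ℓ ≤ common H W u w := by
    intro u w hu hw
    have h1 := hcommon u w hu hw
    have h2 : 2 * (ε * n / (2 * q)) = ε * n / q := by field_simp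
    have h3 : (2 * ℓ : ℝ) ≤ common H W u w := by linarith
    exact_mod_cast h3
  -- the working set
  set U : Finset V := (univ \ W) \ X with hU
  have hUW : ∀ z ∈ U, z ∉ W := fun z hz => (mem_sdiff.1 (mem_sdiff.1 hz).1).2
  have hUX : ∀ z ∈ U, z ∉ X := fun z hz => (mem_sdiff.1 hz).2
  have hUcard : n - n / q - η * n - c₁ ≤ (U.card : ℝ) := by
    have h1 : (univ : Finset V).card ≤ U.card + (W.card + X.card) := by
      calc (univ : Finset V).card ≤ (U ∪ (W ∪ X)).card := card_le_card (by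
            intro z _
            by_cases h1 : z ∈ W
            · exact mem_union_right _ (mem_union_left _ h1)
            · by_cases h2 : z ∈ X
              · exact mem_union_right _ (mem_union_right _ h2)
              · exact mem_union_left _ (mem_sdiff.2 ⟨mem_sdiff.2 ⟨mem_univ _, h1⟩, h2⟩))
        _ ≤ U.card + (W ∪ X).card := card_union_le _ _
        _ ≤ _ := Nat.add_le_add_left (card_union_le _ _) _
    have h2 : ((univ : Finset V).card : ℝ) ≤ U.card + (W.card + X.card) := by exact_mod_cast h1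
    rw [hcU] at h2
    have h3 := hWsz.2
    linarith
  have hnq : n / q ≤ ε / 8 * n := by
    have : n / q = (1 / q) * n := by ring
    rw [this]
    exact mul_le_mul_of_nonneg_right hqe hn0.le
  have hηn2 : η * n ≤ ε / 64 * n := by
    have h1 : η ≤ ε / 64 := by
      rw [hη]
      have : ε / (8 * q) = (1 / q) * (ε / 8) := by ring
      rw [this]
      calc (1 / (q : ℝ)) * (ε / 8) ≤ (ε / 8) * (ε / 8) := by
            exact mul_le_mul_of_nonneg_right hqe (by positivity)
        _ ≤ ε / 64 := by nlinarith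
    exact mul_le_mul_of_nonneg_right h1 hn0.le
  have hεn : 0 < ε * n := by positivity
  have hUbig : (1 - ε / 4) * n ≤ (U.card : ℝ) := by
    have : (1 - ε / 4) * n = n - ε * n / 4 := by ring
    rw [this]
    linarith
  have hhalf : ∀ u ∈ U, 2 * degS H U u < U.card := by
    intro u _
    have h1 : (degS H U u : ℝ) ≤ degS H univ u := by exact_mod_cast degS_mono H (subset_univ _) u
    have h2 := hdeg u
    have h4 : (1 / 2 - ε) * n = n / 2 - ε * n := by ring
    have h5 : (1 - ε / 4) * n = n - ε * n / 4 := by ring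
    rw [h4] at h2
    rw [h5] at hUbig
    have h3 : (2 * degS H U u : ℝ) < U.card := by linarith
    exact_mod_cast h3
  -- fractional system
  obtain ⟨B, Z, hBU, hZU, hBZ, P, hP, hBc⟩ : ∃ B Z : Finset V, B ⊆ U ∧ Z ⊆ U ∧ Disjoint B Z ∧
      ∃ P : PathSystem H B Z K,
      (∑ u ∈ B, (degS H B u : ℝ)) / 2 - σ * n ^ 2 ≤ P.total ∧
      (U.card : ℝ) / 2 - σ * n - 1 ≤ (B.card : ℝ) := by
    by_cases hcase : ∀ u ∈ U, 100 * degS H U u ≤ 37 * U.card
    · obtain ⟨B, Z, h1, h2, h3, P, h4, h5⟩ := hN₂ V H U hn2 htri (by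
        have : (9 / 10 : ℝ) * n ≤ (1 - ε / 4) * n := by nlinarith
        linarith) hcase
      refine ⟨B, Z, h1, h2, h3, P.mono (le_max_right _ _), ?_, ?_⟩
      · rw [P.mono_total]
        have : 0 ≤ σ * n ^ 2 := by positivity
        linarith
      · linarith
    · push Not at hcase
      obtain ⟨B, Z, h1, h2, h3, P, h4, h5⟩ := case_large σ hσ0 hσ1 V H U htri hhalf hcase
      refine ⟨B, Z, h1, h2, h3, P.mono (le_max_left _ _), ?_, ?_⟩
      · rw [P.mono_total]; exact h4
      · have : 0 ≤ σ * n := by positivity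
        linarith
  have hBW : Disjoint B W := by
    rw [Finset.disjoint_left]
    exact fun z hz => hUW z (hBU hz)
  have hZW : Disjoint Z W := by
    rw [Finset.disjoint_left]
    exact fun z hz => hUW z (hZU hz)
  refine hN₁ V H B Z W hn1 hBZ hBW hZW P hP ℓ t hℓ0
    (fun u hu w hw _ => hW2 u w (hUX u (hBU hu)) (hUX w (hBU hw))) ?_
  have h1 : 4 * σ * n ^ 2 / ℓ ≤ ε * n / 8 := by
    have hℓr : (0 : ℝ) < ℓ := by exact_mod_cast hℓ0
    rw [div_le_iff₀ hℓr]
    have h2 : ε * n / 8 * (ε * n / (4 * q)) ≤ ε * n / 8 * ℓ :=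
      mul_le_mul_of_nonneg_left hℓ2 (by positivity)
    have h3 : ε * n / 8 * (ε * n / (4 * q)) = 4 * σ * n ^ 2 := by
      rw [hσ]; field_simp; ring
    rw [← h3]; exact h2
  show (t : ℝ) + 4 * σ * n ^ 2 / ℓ ≤ B.card
  have h4 : σ * n ≤ ε / 16 * n := mul_le_mul_of_nonneg_right hσε hn0.le
  have h5 : (1 - ε / 4) * n / 2 = n / 2 - ε * n / 8 := by ring
  have h6 : (1 / 2 - ε) * n = n / 2 - ε * n := by ring
  rw [h6] at ht
  have h7 : (1 - ε / 4) * n / 2 ≤ (U.card : ℝ) / 2 := by linarith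
  rw [h5] at h7
  linarith

/-- Asymptotic Vergara theorem, complement form. -/
theorem asymptotic_compl (ε : ℝ) (hε : 0 < ε) : ∃ N : ℕ,
    ∀ (V : Type) [Fintype V] (H : SimpleGraph V),
      N ≤ Fintype.card V → (∀ a b c, H.Adj a b → H.Adj b c → ¬ H.Adj a c) →
      ∀ t : ℕ, (t : ℝ) ≤ (1 / 2 - ε) * Fintype.card V → HasImm Hᶜ t := by
  classical
  obtain ⟨N, hN⟩ := main_nonextremal (min ε (1 / 10)) (lt_min hε (by norm_num)) (min_le_right _ _)
  refine ⟨N, ?_⟩
  intro V _ H hn htri t ht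
  have hn0 : (0 : ℝ) ≤ Fintype.card V := by positivity
  have ht' : (t : ℝ) ≤ (1 / 2 - min ε (1 / 10)) * Fintype.card V :=
    le_trans ht (mul_le_mul_of_nonneg_right (by linarith [min_le_left ε (1 / 10)]) hn0)
  by_cases hdeg : ∀ v, (degS H univ v : ℝ) ≤ (1 / 2 - min ε (1 / 10)) * Fintype.card V
  · exact hN V H hn htri hdeg t ht'
  · push Not at hdeg
    obtain ⟨v, hv⟩ := hdeg
    refine imm_of_clique H (univ.filter (fun z => H.Adj v z)) ?_ t ?_
    · intro c hc d hd hcd
      exact htri v c d (mem_filter.1 hc).2 hcd (mem_filter.1 hd).2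
    · have h1 : (t : ℝ) < degS H univ v := by linarith
      have h2 : t < degS H univ v := by exact_mod_cast h1
      have h3 : degS H univ v = (univ.filter (fun z => H.Adj v z)).card := by
        unfold degS; congr
      omega

/-- **Asymptotic Vergara conjecture.** Every graph on `n ≥ N(ε)` vertices without three pairwise
non-adjacent vertices immerses the complete graph on `t` vertices for all `t ≤ (1/2 - ε) n`. -/
theorem asymptotic_half (ε : ℝ) (hε : 0 < ε) : ∃ N : ℕ,
    ∀ (V : Type) [Fintype V] (G : SimpleGraph V),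
      N ≤ Fintype.card V →
      (∀ a b c : V, a ≠ b → b ≠ c → a ≠ c → G.Adj a b ∨ G.Adj b c ∨ G.Adj a c) →
      ∀ t : ℕ, (t : ℝ) ≤ (1 / 2 - ε) * Fintype.card V → HasImm G t := by
  obtain ⟨N, hN⟩ := asymptotic_compl ε hε
  refine ⟨N, ?_⟩
  intro V _ G hn hα t ht
  have := hN V Gᶜ hn ?_ t ht
  · rwa [compl_compl] at this
  · intro a b c hab hbc hac
    rw [SimpleGraph.compl_adj] at hab hbc hac
    rcases hα a b c hab.1 hbc.1 hac.1 with h | h | h
    · exact hab.2 h
    · exact hbc.2 h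
    · exact hac.2 h

end Pool.Agent.Helper8.Verg
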