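import Mathlib
import Pool.Agent.Helper8.Verg.Defs

set_option autoImplicit false

/-!
Joins of immersions, a greedy immersion, and the Tutte-Berge bound for the chromatic number of the
complement of a graph.
-/

namespace Pool.Agent.Helper8.Verg

open Finset

namespace Chi

section Matching

variable {V : Type} [DecidableEq V] (H : SimpleGraph V)

/-- `m` is the involution of a matching of `H[S]` -/
def IsM (S : Finset V) (m : V → V) : Prop :=
  (∀ v, m (m v) = v) ∧ ∀ v, m v ≠ v → v ∈ S ∧ H.Adj v (m v)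

/-- the vertices of `S` missed by the matching -/
def fx (S : Finset V) (m : V → V) : Finset V := S.filter (fun v => m v = v)

theorem mem_fx {S : Finset V} {m : V → V} {v : V} : v ∈ fx S m ↔ v ∈ S ∧ m v = v := mem_filter

variable {H}

theorem two_cost {S : Finset V} {m : V → V} (hm : IsM H S m) :
    2 * (S.image (fun v => s(v, m v))).card = S.card + (fx S m).card := by
  have h1 : S.card = ∑ e ∈ S.image (fun v => s(v, m v)),
      (S.filter (fun v => s(v, m v) = e)).card := card_eq_sum_card_image _ _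
  have h2 : (fx S m).card = ∑ e ∈ S.image (fun v => s(v, m v)),
      ((fx S m).filter (fun v => s(v, m v) = e)).card :=
    card_eq_sum_card_fiberwise (fun v hv => mem_image_of_mem _ (mem_fx.1 hv).1)
  rw [h1, h2, ← sum_add_distrib, sum_const_nat (m := 2), mul_comm]
  intro e he
  obtain ⟨v, hv, rfl⟩ := mem_image.1 he
  by_cases h : m v = v
  · have h3 : S.filter (fun w => s(w, m w) = s(v, m v)) = {v} := by
      ext w
      rw [mem_filter, mem_singleton, h]
      constructor
      · rintro ⟨_, h4⟩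
        rw [Sym2.eq_iff] at h4
        rcases h4 with h4 | h4
        · exact h4.1
        · exact h4.1
      · rintro rfl
        exact ⟨hv, by rw [h]⟩
    have h4 : (fx S m).filter (fun w => s(w, m w) = s(v, m v)) = {v} := by
      ext w
      rw [mem_filter, mem_singleton, h]
      constructor
      · rintro ⟨_, h4⟩
        rw [Sym2.eq_iff] at h4
        rcases h4 with h4 | h4
        · exact h4.1
        · exact h4.1
      · rintro rfl
        exact ⟨mem_fx.2 ⟨hv, h⟩, by rw [h]⟩
    rw [h3, h4, card_singleton]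
  · have hmv : m v ∈ S := by
      refine (hm.2 (m v) ?_).1
      rw [hm.1]
      exact fun h5 => h h5.symm
    have h3 : S.filter (fun w => s(w, m w) = s(v, m v)) = {v, m v} := by
      ext w
      rw [mem_filter, mem_insert, mem_singleton]
      constructor
      · rintro ⟨_, h4⟩
        rw [Sym2.eq_iff] at h4
        rcases h4 with h4 | h4
        · exact Or.inl h4.1
        · exact Or.inr h4.1
      · rintro (rfl | rfl)
        · exact ⟨hv, rfl⟩
        · exact ⟨hmv, by rw [hm.1, Sym2.eq_swap]⟩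
    have h4 : (fx S m).filter (fun w => s(w, m w) = s(v, m v)) = ∅ := by
      rw [filter_eq_empty_iff]
      intro w hw h5
      rw [(mem_fx.1 hw).2, Sym2.eq_iff] at h5
      rcases h5 with h5 | h5
      · exact h (h5.2.symm.trans h5.1)
      · exact h (h5.1.symm.trans h5.2)
    rw [h3, h4, card_empty, card_pair (fun h5 => h h5.symm)]

theorem augment {S : Finset V} {m : V → V} (hm : IsM H S m) {u v : V} (hu : u ∈ S) (hv : v ∈ S)
    (huv : H.Adj u v) (hmu : m u = u) (hmv : m v = v) :
    ∃ m', IsM H S m' ∧ (fx S m').card < (fx S m).card := by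
  have hne : u ≠ v := huv.ne
  set m' : V → V := fun x => if x = u then v else if x = v then u else m x with hm'
  have e1 : m' u = v := by simp [hm']
  have e2 : m' v = u := by simp [hm', hne.symm]
  have e3 : ∀ x, x ≠ u → x ≠ v → m' x = m x := fun x h1 h2 => by simp [hm', h1, h2]
  refine ⟨m', ⟨?_, ?_⟩, ?_⟩
  · intro x
    by_cases hxu : x = u
    · rw [hxu, e1, e2]
    · by_cases hxv : x = v
      · rw [hxv, e2, e1]
      · rw [e3 x hxu hxv, e3 (m x), hm.1]
        · intro h
          apply hxu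
          rw [← hm.1 x, h, hmu]
        · intro h
          apply hxv
          rw [← hm.1 x, h, hmv]
  · intro x hx
    by_cases hxu : x = u
    · rw [hxu, e1]
      exact ⟨hu, huv⟩
    · by_cases hxv : x = v
      · rw [hxv, e2]
        exact ⟨hv, huv.symm⟩
      · rw [e3 x hxu hxv] at hx ⊢
        exact hm.2 x hx
  · apply card_lt_card
    rw [ssubset_iff_of_subset]
    · refine ⟨u, mem_fx.2 ⟨hu, hmu⟩, fun h => ?_⟩
      have := (mem_fx.1 h).2
      rw [e1] at this
      exact hne this.symm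
    · intro x hx
      obtain ⟨hxS, hx1⟩ := mem_fx.1 hx
      have hxu : x ≠ u := by
        rintro rfl
        rw [e1] at hx1
        exact hne hx1.symm
      have hxv : x ≠ v := by
        rintro rfl
        rw [e2] at hx1
        exact hne hx1
      rw [e3 x hxu hxv] at hx1
      exact mem_fx.2 ⟨hxS, hx1⟩

theorem switch {S : Finset V} {N : V → V} (hN : IsM H S N) {x y : V} (hx : x ∈ S)
    (hxy : H.Adj x y) (hNx : N x = x) (hNy : N y ≠ y) :
    ∃ N', IsM H S N' ∧ (fx S N').card = (fx S N).card ∧ N' x = y ∧ N' y = x ∧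
      N' (N y) = N y ∧ ∀ w, w ≠ x → w ≠ y → w ≠ N y → N' w = N w := by
  have hne : x ≠ y := hxy.ne
  have hzx : N y ≠ x := by
    intro h
    apply hne
    rw [← hNx, ← h, hN.1]
  have hNz : N (N y) = y := hN.1 y
  set N' : V → V := fun w => if w = x then y else if w = y then x else
    if w = N y then N y else N w with hN'
  have e1 : N' x = y := by simp [hN']
  have e2 : N' y = x := by simp [hN', hne.symm]
  have e3 : N' (N y) = N y := by simp [hN', hzx, hNy]
  have e4 : ∀ w, w ≠ x → w ≠ y → w ≠ N y → N' w = N w := fun w h1 h2 h3 => by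
    simp [hN', h1, h2, h3]
  have hzS : N y ∈ S := (hN.2 (N y) (by rw [hNz]; exact hNy.symm)).1
  refine ⟨N', ⟨?_, ?_⟩, ?_, e1, e2, e3, e4⟩
  · intro w
    by_cases h1 : w = x
    · rw [h1, e1, e2]
    by_cases h2 : w = y
    · rw [h2, e2, e1]
    by_cases h3 : w = N y
    · rw [h3, e3, e3]
    rw [e4 w h1 h2 h3, e4 (N w), hN.1]
    · intro h
      apply h1
      rw [← hN.1 w, h, hNx]
    · intro h
      apply h3
      rw [← h, hN.1]
    · intro h
      apply h2
      rw [← hN.1 w, h, hNz]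
  · intro w hw
    by_cases h1 : w = x
    · rw [h1, e1]
      exact ⟨hx, hxy⟩
    by_cases h2 : w = y
    · rw [h2, e2]
      exact ⟨(hN.2 y hNy).1, hxy.symm⟩
    by_cases h3 : w = N y
    · rw [h3, e3] at hw
      exact absurd rfl hw
    rw [e4 w h1 h2 h3] at hw ⊢
    exact hN.2 w hw
  · have h1 : fx S N' = insert (N y) ((fx S N).erase x) := by
      ext w
      rw [mem_insert, mem_erase, mem_fx, mem_fx]
      by_cases h1 : w = x
      · rw [h1, e1]
        constructor
        · rintro ⟨_, h⟩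
          exact absurd h hne.symm
        · rintro (h | h)
          · exact absurd h.symm hzx
          · exact absurd rfl h.1
      by_cases h2 : w = y
      · rw [h2, e2]
        constructor
        · rintro ⟨_, h⟩
          exact absurd h hne
        · rintro (h | h)
          · exact absurd h.symm hNy
          · exact absurd h.2.2 hNy
      by_cases h3 : w = N y
      · rw [h3, e3]
        exact ⟨fun _ => Or.inl rfl, fun _ => ⟨hzS, rfl⟩⟩
      rw [e4 w h1 h2 h3]
      constructor
      · exact fun h => Or.inr ⟨h1, h⟩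
      · rintro (h | h)
        · exact absurd h h3
        · exact h.2
    rw [h1, card_insert_of_notMem, card_erase_add_one (mem_fx.2 ⟨hx, hNx⟩)]
    rw [mem_erase, mem_fx, hNz]
    rintro ⟨_, _, h⟩
    exact hNy h.symm

variable (H)

/-- maximum matchings -/
def IsMax (S : Finset V) (m : V → V) : Prop :=
  IsM H S m ∧ ∀ m', IsM H S m' → (fx S m).card ≤ (fx S m').card

omit [DecidableEq V] in
theorem isM_id (S : Finset V) : IsM H S id := ⟨fun _ => rfl, fun _ h => absurd rfl h⟩

theorem exists_max [Fintype V] (S : Finset V) : ∃ m, IsMax H S m := by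
  obtain ⟨m, hm, hmin⟩ := Set.exists_min_image {m : V → V | IsM H S m} (fun m => (fx S m).card)
    (Set.toFinite _) ⟨id, isM_id H S⟩
  exact ⟨m, hm, hmin⟩

variable {H}

theorem not_both {S : Finset V} {a b : V} (ha : a ∈ S) (hb : b ∈ S) (hab : H.Adj a b) :
    ∀ m, IsMax H S m → ¬ (m a = a ∧ m b = b) := by
  rintro m hm ⟨h1, h2⟩
  obtain ⟨m', hm', hlt⟩ := augment hm.1 ha hb hab h1 h2
  exact absurd (hm.2 m' hm') (not_le.2 hlt)

theorem trans_key [Fintype V] {S : Finset V} {t u v : V} (hu : u ∈ S)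
    (hv : v ∈ S) (huv : u ≠ v)
    (h1 : ∀ m, IsMax H S m → ¬ (m t = t ∧ m u = u))
    (h2 : ∀ m, IsMax H S m → ¬ (m t = t ∧ m v = v))
    (hmiss : ∃ m, IsMax H S m ∧ m t = t) : ∀ m, IsMax H S m → ¬ (m u = u ∧ m v = v) := by
  rintro M hM ⟨hMu, hMv⟩
  have hMt : M t ≠ t := fun h => h1 M hM ⟨h, hMu⟩
  obtain ⟨N, ⟨hN, hNt⟩, hmax⟩ := Set.exists_max_image {N : V → V | IsMax H S N ∧ N t = t}
    (fun N => (univ.filter (fun w => M w = N w)).card) (Set.toFinite _) hmiss
  have hNu : N u ≠ u := fun h => h1 N hN ⟨hNt, h⟩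
  have hNv : N v ≠ v := fun h => h2 N hN ⟨hNt, h⟩
  -- a vertex missed by `N` but not by `M`
  have hcard : (fx S M).card = (fx S N).card := le_antisymm (hM.2 N hN.1) (hN.2 M hM.1)
  have hx : ∃ x, x ∈ fx S N \ fx S M ∧ x ≠ t := by
    have h3 : 1 < (fx S M \ fx S N).card := by
      rw [one_lt_card]
      exact ⟨u, mem_sdiff.2 ⟨mem_fx.2 ⟨hu, hMu⟩, fun h => hNu (mem_fx.1 h).2⟩, v,
        mem_sdiff.2 ⟨mem_fx.2 ⟨hv, hMv⟩, fun h => hNv (mem_fx.1 h).2⟩, huv⟩
    have h4 : (fx S M \ fx S N).card = (fx S N \ fx S M).card := by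
      have h5 := card_sdiff_add_card_inter (fx S M) (fx S N)
      have h6 := card_sdiff_add_card_inter (fx S N) (fx S M)
      rw [inter_comm] at h6
      omega
    rw [h4] at h3
    exact exists_mem_ne h3 t
  obtain ⟨x, hx, hxt⟩ := hx
  rw [mem_sdiff, mem_fx, mem_fx] at hx
  obtain ⟨⟨hxS, hNx⟩, hMx'⟩ := hx
  have hMx : M x ≠ x := fun h => hMx' ⟨hxS, h⟩
  have hadj : H.Adj x (M x) := (hM.1.2 x hMx).2
  have hyS : M x ∈ S := (hM.1.2 (M x) (by rw [hM.1.1]; exact hMx.symm)).1
  have hNy : N (M x) ≠ M x := fun h => not_both hxS hyS hadj N hN ⟨hNx, h⟩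
  obtain ⟨N', hN', hfx, e1, e2, e3, e4⟩ := switch hN.1 hxS hadj hNx hNy
  have hN'max : IsMax H S N' := ⟨hN', fun m' hm' => by rw [hfx]; exact hN.2 m' hm'⟩
  have hty : t ≠ M x := fun h => hNy (by rw [← h]; exact hNt)
  have htz : t ≠ N (M x) := by
    intro h
    apply hNy
    rw [← h, ← hNt, h, hN.1.1]
  have hN't : N' t = t := by rw [e4 t hxt.symm hty htz, hNt]
  have hle := hmax N' ⟨hN'max, hN't⟩
  apply absurd hle
  rw [not_le]
  apply card_lt_card
  rw [ssubset_iff_of_subset]
  · refine ⟨x, mem_filter.2 ⟨mem_univ _, e1.symm⟩, fun h => ?_⟩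
    have := (mem_filter.1 h).2
    rw [hNx] at this
    exact hMx this
  · intro w hw
    have hw' := (mem_filter.1 hw).2
    refine mem_filter.2 ⟨mem_univ _, ?_⟩
    by_cases h3 : w = x
    · rw [h3, e1]
    by_cases h4 : w = M x
    · rw [h4, e2, hM.1.1]
    by_cases h5 : w = N (M x)
    · exfalso
      rw [h5, hN.1.1] at hw'
      apply h3
      rw [h5, ← hM.1.1 (N (M x)), hw', hM.1.1]
    rw [e4 w h3 h4 h5]
    exact hw'

theorem gallai [Fintype V] {S : Finset V}
    (hconn : ∀ T ⊆ S, T.Nonempty → T ≠ S → ∃ a ∈ T, ∃ b ∈ S \ T, H.Adj a b)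
    (hmiss : ∀ v ∈ S, ∃ m, IsMax H S m ∧ m v = v) (m : V → V) (hm : IsMax H S m) :
    (fx S m).card ≤ 1 := by
  classical
  rw [card_le_one]
  intro u hu v hv
  by_contra hne
  obtain ⟨huS, hmu⟩ := mem_fx.1 hu
  obtain ⟨hvS, hmv⟩ := mem_fx.1 hv
  set T : Finset V := S.filter
    (fun w => w = u ∨ ∀ m, IsMax H S m → ¬ (m u = u ∧ m w = w)) with hT
  have hTS : T = S := by
    by_contra hTne
    obtain ⟨a, ha, b, hb, hab⟩ := hconn T (filter_subset _ _)
      ⟨u, mem_filter.2 ⟨huS, Or.inl rfl⟩⟩ hTne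
    rw [mem_sdiff] at hb
    apply hb.2
    obtain ⟨haS, ha'⟩ := mem_filter.1 ha
    refine mem_filter.2 ⟨hb.1, ?_⟩
    by_cases hbu : b = u
    · exact Or.inl hbu
    right
    rcases ha' with rfl | ha'
    · exact not_both haS hb.1 hab
    · exact trans_key huS hb.1 (Ne.symm hbu) (fun m hm h => ha' m hm ⟨h.2, h.1⟩)
        (not_both haS hb.1 hab) (hmiss a haS)
  have hvT : v ∈ T := by rw [hTS]; exact hvS
  rcases (mem_filter.1 hvT).2 with h | h
  · exact hne h.symm
  · exact h m hm ⟨hmu, hmv⟩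

theorem berge [Fintype V] (S : Finset V) : ∃ (A : Finset V) (𝒦 : Finset (Finset V)), A ⊆ S ∧
    (∀ K ∈ 𝒦, K.Nonempty ∧ K ⊆ S ∧ Disjoint K A) ∧
    (∀ K ∈ 𝒦, ∀ K' ∈ 𝒦, K ≠ K' → Disjoint K K' ∧ ∀ a ∈ K, ∀ b ∈ K', ¬ H.Adj a b) ∧
    ∃ m, IsM H S m ∧ S.card + (fx S m).card ≤ 2 * ∑ K ∈ 𝒦, (K.card + 1) / 2 := by
  classical
  induction S using Finset.strongInduction with
  | H S ih =>
  by_cases hS : S = ∅
  · subst hS
    refine ⟨∅, ∅, Subset.rfl, by simp, by simp, id, isM_id H _, ?_⟩
    simp [fx]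
  have hSne : S.Nonempty := nonempty_iff_ne_empty.2 hS
  by_cases hconn : ∀ T ⊆ S, T.Nonempty → T ≠ S → ∃ a ∈ T, ∃ b ∈ S \ T, H.Adj a b
  · by_cases hmiss : ∀ v ∈ S, ∃ m, IsMax H S m ∧ m v = v
    · obtain ⟨m, hm⟩ := exists_max H S
      have h1 := gallai hconn hmiss m hm
      have h2 := two_cost hm.1
      refine ⟨∅, {S}, empty_subset _, ?_, ?_, m, hm.1, ?_⟩
      · intro K hK
        rw [mem_singleton.1 hK]
        exact ⟨hSne, Subset.rfl, disjoint_empty_right _⟩
      · intro K hK K' hK' hne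
        rw [mem_singleton.1 hK, mem_singleton.1 hK'] at hne
        exact absurd rfl hne
      · rw [sum_singleton]
        omega
    · push Not at hmiss
      obtain ⟨v, hv, hcov⟩ := hmiss
      obtain ⟨A, 𝒦, hA, h1, h2, m', hm', h3⟩ := ih (S.erase v) (erase_ssubset hv)
      obtain ⟨m, hm⟩ := exists_max H S
      have hm'S : IsM H S m' := ⟨hm'.1, fun w hw =>
        ⟨mem_of_mem_erase (hm'.2 w hw).1, (hm'.2 w hw).2⟩⟩
      have hm'v : m' v = v := by
        by_contra h
        exact notMem_erase v S (hm'.2 v h).1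
      have h4 : (fx S m).card < (fx S m').card := by
        by_contra h
        rw [not_lt] at h
        exact hcov m' ⟨hm'S, fun m'' hm'' => h.trans (hm.2 m'' hm'')⟩ hm'v
      have h5 : (fx S m').card ≤ (fx (S.erase v) m').card + 1 := by
        have h6 : fx S m' ⊆ insert v (fx (S.erase v) m') := by
          intro w hw
          rw [mem_insert, mem_fx, mem_erase]
          obtain ⟨hw1, hw2⟩ := mem_fx.1 hw
          by_cases h : w = v
          · exact Or.inl h
          · exact Or.inr ⟨⟨h, hw1⟩, hw2⟩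
        exact (card_le_card h6).trans (card_insert_le _ _)
      have h6 := two_cost hm.1
      have h7 := card_erase_add_one hv
      refine ⟨insert v A, 𝒦, ?_, ?_, h2, m, hm.1, ?_⟩
      · intro w hw
        rcases mem_insert.1 hw with rfl | hw
        · exact hv
        · exact mem_of_mem_erase (hA hw)
      · intro K hK
        obtain ⟨hK1, hK2, hK3⟩ := h1 K hK
        refine ⟨hK1, hK2.trans (erase_subset _ _), ?_⟩
        rw [disjoint_insert_right]
        exact ⟨fun h => notMem_erase v S (hK2 h), hK3⟩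
      · omega
  · push Not at hconn
    obtain ⟨T, hTS, hTne, hTne', hT⟩ := hconn
    have hT1 : T ⊂ S := Finset.ssubset_iff_subset_ne.2 ⟨hTS, hTne'⟩
    have hT2 : S \ T ⊂ S := by
      obtain ⟨a, ha⟩ := hTne
      exact Finset.ssubset_iff_subset_ne.2 ⟨sdiff_subset, fun h => by
        have h8 : a ∈ S \ T := by rw [h]; exact hTS ha
        exact (mem_sdiff.1 h8).2 ha⟩
    obtain ⟨A₁, 𝒦₁, hA₁, h1, h2, m₁, hm₁, h3⟩ := ih T hT1
    obtain ⟨A₂, 𝒦₂, hA₂, h1', h2', m₂, hm₂, h3'⟩ := ih (S \ T) hT2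
    have hdTT : Disjoint T (S \ T) := disjoint_sdiff
    have hm1T : ∀ v ∈ T, m₁ v ∈ T := by
      intro v hv
      by_cases h : m₁ v = v
      · rw [h]; exact hv
      · exact (hm₁.2 (m₁ v) (by rw [hm₁.1]; exact Ne.symm h)).1
    have hm2T : ∀ v, v ∉ T → m₂ v ∉ T := by
      intro v hv
      by_cases h : m₂ v = v
      · rw [h]; exact hv
      · exact (mem_sdiff.1 (hm₂.2 (m₂ v) (by rw [hm₂.1]; exact Ne.symm h)).1).2
    have hd𝒦 : Disjoint 𝒦₁ 𝒦₂ := by
      rw [disjoint_left]
      intro K hK1 hK2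
      obtain ⟨a, ha⟩ := (h1 K hK1).1
      exact (mem_sdiff.1 ((h1' K hK2).2.1 ha)).2 ((h1 K hK1).2.1 ha)
    refine ⟨A₁ ∪ A₂, 𝒦₁ ∪ 𝒦₂, ?_, ?_, ?_, fun v => if v ∈ T then m₁ v else m₂ v, ⟨?_, ?_⟩, ?_⟩
    · exact union_subset (hA₁.trans hTS) (hA₂.trans sdiff_subset)
    · intro K hK
      rw [disjoint_union_right]
      rcases mem_union.1 hK with hK | hK
      · obtain ⟨hK1, hK2, hK3⟩ := h1 K hK
        exact ⟨hK1, hK2.trans hTS, hK3, disjoint_of_subset_left hK2
          (disjoint_of_subset_right hA₂ hdTT)⟩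
      · obtain ⟨hK1, hK2, hK3⟩ := h1' K hK
        exact ⟨hK1, hK2.trans sdiff_subset, disjoint_of_subset_left hK2
          (disjoint_of_subset_right hA₁ hdTT.symm), hK3⟩
    · intro K hK K' hK' hne
      rcases mem_union.1 hK with hK | hK <;> rcases mem_union.1 hK' with hK' | hK'
      · exact h2 K hK K' hK' hne
      · refine ⟨disjoint_of_subset_left (h1 K hK).2.1
          (disjoint_of_subset_right (h1' K' hK').2.1 hdTT), fun a ha b hb => ?_⟩
        exact hT a ((h1 K hK).2.1 ha) b ((h1' K' hK').2.1 hb)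
      · refine ⟨disjoint_of_subset_left (h1' K hK).2.1
          (disjoint_of_subset_right (h1 K' hK').2.1 hdTT.symm), fun a ha b hb hab => ?_⟩
        exact hT b ((h1 K' hK').2.1 hb) a ((h1' K hK).2.1 ha) hab.symm
      · exact h2' K hK K' hK' hne
    · intro v
      by_cases hv : v ∈ T
      · simp only [hv, if_true, hm1T v hv]
        exact hm₁.1 v
      · simp only [hv, if_false, hm2T v hv]
        exact hm₂.1 v
    · intro v hv
      by_cases hvT : v ∈ T
      · simp only [hvT, if_true] at hv ⊢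
        exact ⟨hTS hvT, (hm₁.2 v hv).2⟩
      · simp only [hvT, if_false] at hv ⊢
        exact ⟨(mem_sdiff.1 (hm₂.2 v hv).1).1, (hm₂.2 v hv).2⟩
    · rw [sum_union hd𝒦]
      have h4 : fx S (fun v => if v ∈ T then m₁ v else m₂ v) ⊆ fx T m₁ ∪ fx (S \ T) m₂ := by
        intro v hv
        obtain ⟨hvS, hv1⟩ := mem_fx.1 hv
        rw [mem_union, mem_fx, mem_fx, mem_sdiff]
        by_cases hvT : v ∈ T
        · simp only [hvT, if_true] at hv1
          exact Or.inl ⟨hvT, hv1⟩
        · simp only [hvT, if_false] at hv1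
          exact Or.inr ⟨⟨hvS, hvT⟩, hv1⟩
      have h5 := (card_le_card h4).trans (card_union_le _ _)
      have h6 : (S \ T).card + T.card = S.card := card_sdiff_add_card_eq_card hTS
      omega

end Matching

end Chi

/-- Tutte-Berge: the chromatic number of the complement. -/
theorem chromatic_le_components {V : Type} [Fintype V] [DecidableEq V] (H : SimpleGraph V) :
    ∃ A : Finset V, ∃ (m : ℕ) (K : Fin m → Finset V), (∀ i, (K i).Nonempty) ∧
      (∀ i j, i ≠ j → Disjoint (K i) (K j)) ∧ (∀ i, Disjoint (K i) A) ∧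
      (∀ i j, i ≠ j → ∀ a ∈ K i, ∀ b ∈ K j, ¬ H.Adj a b) ∧
      Hᶜ.chromaticNumber ≤ ((∑ i, ((K i).card + 1) / 2 : ℕ) : ℕ∞) := by
  classical
  obtain ⟨A, 𝒦, -, h1, h2, m, hm, h3⟩ := Chi.berge (H := H) (univ : Finset V)
  set e := 𝒦.equivFin with he
  have hinj : ∀ i j, i ≠ j → ((e.symm i : Finset V)) ≠ (e.symm j : Finset V) := by
    intro i j hij h
    exact hij (e.symm.injective (Subtype.ext h))
  refine ⟨A, 𝒦.card, fun i => (e.symm i : Finset V), fun i => (h1 _ (e.symm i).2).1,
    fun i j hij => (h2 _ (e.symm i).2 _ (e.symm j).2 (hinj i j hij)).1,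
    fun i => (h1 _ (e.symm i).2).2.2,
    fun i j hij => (h2 _ (e.symm i).2 _ (e.symm j).2 (hinj i j hij)).2, ?_⟩
  have h4 : ∑ i, (((e.symm i : Finset V)).card + 1) / 2 = ∑ K ∈ 𝒦, (K.card + 1) / 2 := by
    rw [← sum_coe_sort 𝒦 (fun K => (K.card + 1) / 2)]
    exact Equiv.sum_comp e.symm (fun K : 𝒦 => ((K : Finset V).card + 1) / 2)
  rw [h4]
  have h5 := Chi.two_cost hm
  have h6 : ((univ : Finset V).image (fun v => s(v, m v))).card ≤ ∑ K ∈ 𝒦, (K.card + 1) / 2 := by
    omega
  let C : Hᶜ.Coloring {x // x ∈ (univ : Finset V).image (fun v => s(v, m v))} :=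
    SimpleGraph.Coloring.mk (fun v => ⟨s(v, m v), mem_image_of_mem _ (mem_univ v)⟩) (by
      intro a b hab h
      rw [SimpleGraph.compl_adj] at hab
      have h7 : s(a, m a) = s(b, m b) := congrArg Subtype.val h
      rw [Sym2.eq_iff] at h7
      rcases h7 with h7 | h7
      · exact hab.1 h7.1
      · apply hab.2
        have h8 := hm.2 a (by rw [h7.2]; exact hab.1.symm)
        rw [h7.2] at h8
        exact h8.2)
  refine (C.colorable.chromaticNumber_le).trans ?_
  rw [Fintype.card_coe]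
  exact_mod_cast h6

namespace Chi

section Imm

variable {V : Type}

/-- Immersion of the complete graph with set of branch vertices `B`, by families of edge sets. -/
def ImmE (G : SimpleGraph V) (B : Finset V) : Prop :=
  ∃ E : Sym2 V → Set (Sym2 V),
    (∀ u ∈ B, ∀ w ∈ B, u ≠ w → ∃ p : G.Walk u w, p.IsPath ∧ ∀ e ∈ p.edges, e ∈ E s(u, w)) ∧
    ∀ u ∈ B, ∀ w ∈ B, ∀ x ∈ B, ∀ y ∈ B, u ≠ w → x ≠ y → s(u, w) ≠ s(x, y) →
      ∀ e ∈ E s(u, w), e ∉ E s(x, y)

theorem hasImm_of_immE (G : SimpleGraph V) (B : Finset V) (h : ImmE G B) : HasImm G B.card := by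
  classical
  obtain ⟨E, h1, h2⟩ := h
  set g := B.equivFin.symm with hg
  have hgB : ∀ i, (g i : V) ∈ B := fun i => (g i).2
  have hginj : ∀ i j, (g i : V) = g j → i = j := fun i j hij => g.injective (Subtype.ext hij)
  have h3 : ∀ i j : Fin B.card, ∃ p : G.Walk (g i : V) (g j : V), i < j →
      (p.IsPath ∧ ∀ e ∈ p.edges, e ∈ E s((g i : V), (g j : V))) := by
    intro i j
    by_cases hij : i = j
    · subst hij
      exact ⟨SimpleGraph.Walk.nil, fun h => absurd h (lt_irrefl _)⟩
    · obtain ⟨p, hp⟩ := h1 _ (hgB i) _ (hgB j) (fun h => hij (hginj i j h))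
      exact ⟨p, fun _ => hp⟩
  choose p hp using h3
  refine ⟨⟨fun i => (g i : V), fun i j hij => hginj i j hij⟩, p, fun i j hij => (hp i j hij).1, ?_⟩
  intro i j k l hij hkl hne e he he'
  refine h2 _ (hgB i) _ (hgB j) _ (hgB k) _ (hgB l) (fun h => hij.ne (hginj i j h))
    (fun h => hkl.ne (hginj k l h)) ?_ e ((hp i j hij).2 e he) ((hp k l hkl).2 e he')
  intro h
  rw [Sym2.eq_iff] at h
  rcases h with h | h
  · have h4 := hginj _ _ h.1
    have h5 := hginj _ _ h.2
    rcases hne with hne | hne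
    · exact hne h4
    · exact hne h5
  · have h4 := hginj _ _ h.1
    have h5 := hginj _ _ h.2
    rw [h4, h5] at hij
    exact lt_asymm hij hkl

theorem immE_of_hasImm (G : SimpleGraph V) (t : ℕ) (h : HasImm G t) :
    ∃ B : Finset V, B.card = t ∧ ImmE G B := by
  classical
  obtain ⟨f, p, h1, h2⟩ := h
  have hmem : ∀ u ∈ univ.map f, ∃ i, f i = u := fun u hu => by
    obtain ⟨i, -, hi⟩ := mem_map.1 hu
    exact ⟨i, hi⟩
  -- normalisation of pairs
  have hpair : ∀ u ∈ univ.map f, ∀ w ∈ univ.map f, u ≠ w → ∃ i j, i < j ∧ s(u, w) = s(f i, f j) := by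
    intro u hu w hw hne
    obtain ⟨i, rfl⟩ := hmem u hu
    obtain ⟨j, rfl⟩ := hmem w hw
    rcases lt_trichotomy i j with h | h | h
    · exact ⟨i, j, h, rfl⟩
    · exact absurd (congrArg f h) hne
    · exact ⟨j, i, h, Sym2.eq_swap⟩
  have huniq : ∀ i j k l, i < j → k < l → s(f i, f j) = s(f k, f l) → i = k ∧ j = l := by
    intro i j k l hij hkl h
    rw [Sym2.eq_iff] at h
    rcases h with h | h
    · exact ⟨f.injective h.1, f.injective h.2⟩
    · have h3 := f.injective h.1
      have h4 := f.injective h.2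
      rw [h3, h4] at hij
      exact absurd hkl (lt_asymm hij)
  refine ⟨univ.map f, by rw [card_map, card_univ, Fintype.card_fin],
    fun s => {e | ∃ i j, i < j ∧ s = s(f i, f j) ∧ e ∈ (p i j).edges}, ?_, ?_⟩
  · intro u hu w hw hne
    obtain ⟨i, rfl⟩ := hmem u hu
    obtain ⟨j, rfl⟩ := hmem w hw
    rcases lt_trichotomy i j with h | h | h
    · exact ⟨p i j, h1 i j h, fun e he => ⟨i, j, h, rfl, he⟩⟩
    · exact absurd (congrArg f h) hne
    · refine ⟨(p j i).reverse, (h1 j i h).reverse, fun e he => ⟨j, i, h, Sym2.eq_swap, ?_⟩⟩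
      rwa [SimpleGraph.Walk.edges_reverse, List.mem_reverse] at he
  · intro u hu w hw x hx y hy huw hxy hne e he he'
    obtain ⟨i, j, hij, hs, he⟩ := he
    obtain ⟨k, l, hkl, hs', he'⟩ := he'
    refine h2 i j k l hij hkl ?_ e he he'
    by_contra hcon
    push Not at hcon
    apply hne
    rw [hs, hs', hcon.1, hcon.2]

end Imm

end Chi

/-- Immersions in a complete join. -/
theorem imm_join {V J : Type} [Fintype J] (G : SimpleGraph V) (K : J → Set V)
    (hdisj : ∀ i j, i ≠ j → Disjoint (K i) (K j))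
    (hadj : ∀ i j, i ≠ j → ∀ a ∈ K i, ∀ b ∈ K j, G.Adj a b) (t : J → ℕ)
    (h : ∀ j, HasImm (G.induce (K j)) (t j)) : HasImm G (∑ j, t j) := by
  classical
  choose B hB hBi using fun j => Chi.immE_of_hasImm _ _ (h j)
  choose E hE1 hE2 using hBi
  have hKu : ∀ (i j : J) (a : V), a ∈ K i → a ∈ K j → i = j := by
    intro i j a hi hj
    by_contra hne
    exact Set.disjoint_left.1 (hdisj i j hne) hi hj
  set BB : Finset V := univ.biUnion (fun j => (B j).map ⟨Subtype.val, Subtype.val_injective⟩) with hBB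
  have hcard : BB.card = ∑ j, t j := by
    rw [hBB, card_biUnion]
    · exact sum_congr rfl fun j _ => by rw [card_map, hB]
    · intro i _ j _ hij
      rw [Function.onFun, disjoint_left]
      intro a ha ha'
      obtain ⟨a1, -, ha1⟩ := mem_map.1 ha
      obtain ⟨a2, -, ha2⟩ := mem_map.1 ha'
      apply hij
      exact hKu i j a (by rw [← ha1]; exact a1.2) (by rw [← ha2]; exact a2.2)
  have hmem : ∀ a ∈ BB, ∃ (j : J) (b : K j), b ∈ B j ∧ (b : V) = a := by
    intro a ha
    obtain ⟨j, -, hj⟩ := mem_biUnion.1 ha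
    obtain ⟨b, hb, hba⟩ := mem_map.1 hj
    exact ⟨j, b, hb, hba⟩
  rw [← hcard]
  apply Chi.hasImm_of_immE
  refine ⟨fun s => {e | (∃ (j : J) (a b : K j), a ∈ B j ∧ b ∈ B j ∧ a ≠ b ∧
      s = s((a : V), (b : V)) ∧ ∃ e' ∈ E j s(a, b), e = Sym2.map Subtype.val e') ∨
    (∃ (i j : J) (a b : V), i ≠ j ∧ a ∈ K i ∧ b ∈ K j ∧ s = s(a, b) ∧ e = s(a, b))}, ?_, ?_⟩
  · intro u hu w hw huw
    obtain ⟨i, a, ha, rfl⟩ := hmem u hu
    obtain ⟨j, b, hb, rfl⟩ := hmem w hw
    by_cases hij : i = j
    · subst hij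
      have hab : a ≠ b := fun h => huw (by rw [h])
      obtain ⟨p, hp, hpE⟩ := hE1 i a ha b hb hab
      refine ⟨p.map (SimpleGraph.Embedding.induce (K i)).toHom, ?_, ?_⟩
      · exact SimpleGraph.Walk.IsPath.map
          (SimpleGraph.Embedding.induce (G := G) (K i)).injective hp
      · intro e he
        have he3 : e ∈ p.edges.map
            (Sym2.map ((SimpleGraph.Embedding.induce (G := G) (K i)).toHom)) := by
          rw [← SimpleGraph.Walk.edges_map]
          exact he
        rw [List.mem_map] at he3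
        obtain ⟨e', he', rfl⟩ := he3
        exact Or.inl ⟨i, a, b, ha, hb, hab, rfl, e', hpE e' he', rfl⟩
    · refine ⟨(hadj i j hij a a.2 b b.2).toWalk, ?_, ?_⟩
      · simp [SimpleGraph.Walk.cons_isPath_iff, huw]
      · intro e he
        have he2 : e = s((a : V), (b : V)) := by simpa using he
        exact Or.inr ⟨i, j, a, b, hij, a.2, b.2, rfl, he2⟩
  · intro u hu w hw x hx y hy huw hxy hne e he he'
    -- an edge inside `K j`
    have hin : ∀ (j : J) (e' : Sym2 (K j)), ∀ z ∈ Sym2.map (Subtype.val : K j → V) e', z ∈ K j := by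
      intro j e' z hz
      obtain ⟨z', -, rfl⟩ := Sym2.mem_map.1 hz
      exact z'.2
    rcases he with ⟨j, a, b, ha, hb, hab, hs, e1, he1, rfl⟩ | ⟨i, j, a, b, hij, ha, hb, hs, rfl⟩
    · rcases he' with ⟨k, c, d, hc, hd, hcd, hs', e2, he2, h12⟩ | ⟨k, l, c, d, hkl, hc, hd, hs', h12⟩
      · have hjk : j = k := by
          obtain ⟨z, hz⟩ : ∃ z, z ∈ e1 := ⟨(Quot.out e1).1, Sym2.out_fst_mem e1⟩
          have h3 : (z : V) ∈ Sym2.map (Subtype.val : K j → V) e1 := Sym2.mem_map.2 ⟨z, hz, rfl⟩
          have h4 := hin j e1 _ h3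
          rw [h12] at h3
          exact hKu j k z h4 (hin k e2 _ h3)
        subst hjk
        have h5 : e1 = e2 := Sym2.map.injective Subtype.val_injective h12
        subst h5
        refine hE2 j a ha b hb c hc d hd hab hcd ?_ e1 he1 he2
        intro h6
        apply hne
        rw [hs, hs', ← Sym2.map_mk, ← Sym2.map_mk]
        exact congrArg (Sym2.map Subtype.val) h6
      · have h3 := hin j e1
        rw [h12] at h3
        have h4 := hKu j k c (h3 c (Sym2.mem_mk_left c d)) hc
        have h5 := hKu j l d (h3 d (Sym2.mem_mk_right c d)) hd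
        exact hkl (h4.symm.trans h5)
    · rcases he' with ⟨k, c, d, hc, hd, hcd, hs', e2, he2, h12⟩ | ⟨k, l, c, d, hkl, hc, hd, hs', h12⟩
      · have h3 := hin k e2
        rw [← h12] at h3
        have h4 := hKu k i a (h3 a (Sym2.mem_mk_left a b)) ha
        have h5 := hKu k j b (h3 b (Sym2.mem_mk_right a b)) hb
        exact hij (h4.symm.trans h5)
      · apply hne
        rw [hs, hs', h12]

/-- Greedy routing by paths of length two. -/
theorem imm_greedy {V : Type} [Fintype V] [DecidableEq V] (H : SimpleGraph V) (d t : ℕ)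
    (hdeg : ∀ v, degS H Finset.univ v ≤ d) (ht : t + 2 * d ≤ Fintype.card V) : HasImm Hᶜ t := by
  classical
  obtain ⟨B, hB⟩ : ∃ B : Finset V, B.card = t := by
    obtain ⟨B, -, hB⟩ := exists_subset_card_eq (s := (univ : Finset V)) (n := t)
      (by rw [card_univ]; omega)
    exact ⟨B, hB⟩
  have hZ : 2 * d ≤ (univ \ B).card := by
    rw [card_univ_sdiff, hB]
    omega
  -- a choice of routers for a set of edges
  have hchoice : ∀ M : Finset (Sym2 V),
      (∀ e ∈ M, ∃ u w, u ∈ B ∧ w ∈ B ∧ H.Adj u w ∧ e = s(u, w)) →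
      ∃ z : Sym2 V → V, (∀ e ∈ M, z e ∉ B ∧ ∀ u ∈ e, ¬ H.Adj u (z e)) ∧
        ∀ e ∈ M, ∀ e' ∈ M, e ≠ e' → (∃ u, u ∈ e ∧ u ∈ e') → z e ≠ z e' := by
    intro M
    induction M using Finset.induction_on with
    | empty =>
      intro _
      rcases isEmpty_or_nonempty V with hV | ⟨⟨v⟩⟩
      · exact ⟨fun e => (Quot.out e).1, by simp, by simp⟩
      · exact ⟨fun _ => v, by simp, by simp⟩
    | insert e M heM ih =>
      intro hM
      obtain ⟨z, hz1, hz2⟩ := ih (fun e' he' => hM e' (mem_insert_of_mem he'))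
      obtain ⟨u, w, hu, hw, huw, rfl⟩ := hM e (mem_insert_self _ _)
      -- the forbidden vertices at an end
      have hbound : ∀ a b, a ∈ B → b ∈ B → H.Adj a b → s(a, b) ∉ M →
          (((univ \ B).filter (fun x => H.Adj a x)) ∪
            (M.filter (fun e' => a ∈ e')).image z).card < d := by
        intro a b ha hb hab habM
        have h1 : (M.filter (fun e' => a ∈ e')) ⊆
            ((B.filter (fun x => H.Adj a x)).erase b).image (fun x => s(a, x)) := by
          intro e' he'
          obtain ⟨he'M, hae'⟩ := mem_filter.1 he'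
          obtain ⟨x, y, hx, hy, hxy, rfl⟩ := hM e' (mem_insert_of_mem he'M)
          rw [mem_image]
          rw [Sym2.mem_iff] at hae'
          rcases hae' with rfl | rfl
          · refine ⟨y, mem_erase.2 ⟨?_, mem_filter.2 ⟨hy, hxy⟩⟩, rfl⟩
            rintro rfl
            exact habM he'M
          · refine ⟨x, mem_erase.2 ⟨?_, mem_filter.2 ⟨hx, hxy.symm⟩⟩, Sym2.eq_swap⟩
            rintro rfl
            apply habM
            rw [Sym2.eq_swap]
            exact he'M
        have h2 : ((M.filter (fun e' => a ∈ e')).image z).card + 1 ≤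
            (B.filter (fun x => H.Adj a x)).card := by
          have h3 := (card_image_le (s := M.filter (fun e' => a ∈ e')) (f := z)).trans
            ((card_le_card h1).trans card_image_le)
          have h4 := card_erase_add_one (show b ∈ B.filter (fun x => H.Adj a x) from
            mem_filter.2 ⟨hb, hab⟩)
          omega
        have h5 : ((univ \ B).filter (fun x => H.Adj a x)).card +
            (B.filter (fun x => H.Adj a x)).card ≤ d := by
          refine le_trans (le_of_eq ?_) (hdeg a)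
          unfold degS
          rw [← card_union_of_disjoint, ← filter_union, sdiff_union_of_subset (subset_univ _)]
          exact disjoint_filter_filter sdiff_disjoint
        have h6 := card_union_le ((univ \ B).filter (fun x => H.Adj a x))
          ((M.filter (fun e' => a ∈ e')).image z)
        omega
      have h1 := hbound u w hu hw huw heM
      have h2 := hbound w u hw hu huw.symm (by rw [Sym2.eq_swap]; exact heM)
      obtain ⟨x, hx, hxF⟩ : ∃ x ∈ univ \ B, x ∉
          ((((univ \ B).filter (fun x => H.Adj u x)) ∪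
            (M.filter (fun e' => u ∈ e')).image z) ∪
          (((univ \ B).filter (fun x => H.Adj w x)) ∪
            (M.filter (fun e' => w ∈ e')).image z)) := by
        apply exists_mem_notMem_of_card_lt_card
        refine (card_union_le _ _).trans_lt ?_
        omega
      rw [mem_union, mem_union, mem_union, mem_filter, mem_filter, mem_image, mem_image] at hxF
      push Not at hxF
      obtain ⟨⟨hxu, hxMu⟩, hxw, hxMw⟩ := hxF
      have hxB : x ∉ B := (mem_sdiff.1 hx).2
      have hfix : ∀ e' ∈ M, Function.update z s(u, w) x e' = z e' := by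
        intro e' he'
        rw [Function.update_of_ne]
        rintro rfl
        exact heM he'
      refine ⟨Function.update z s(u, w) x, ?_, ?_⟩
      · intro e' he'
        rcases mem_insert.1 he' with rfl | he'
        · rw [Function.update_self]
          refine ⟨hxB, fun a ha => ?_⟩
          rw [Sym2.mem_iff] at ha
          rcases ha with rfl | rfl
          · exact hxu hx
          · exact hxw hx
        · rw [hfix e' he']
          exact hz1 e' he'
      · have hnew : ∀ e' ∈ M, (∃ a, a ∈ s(u, w) ∧ a ∈ e') → x ≠ z e' := by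
          rintro e' he' ⟨a, ha, hae'⟩ h
          rw [Sym2.mem_iff] at ha
          rcases ha with rfl | rfl
          · exact hxMu e' (mem_filter.2 ⟨he', hae'⟩) h.symm
          · exact hxMw e' (mem_filter.2 ⟨he', hae'⟩) h.symm
        intro e₁ he₁ e₂ he₂ hne hcom
        rcases mem_insert.1 he₁ with rfl | he₁ <;> rcases mem_insert.1 he₂ with rfl | he₂
        · exact absurd rfl hne
        · rw [Function.update_self, hfix _ he₂]
          exact hnew e₂ he₂ hcom
        · rw [Function.update_self, hfix _ he₁]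
          obtain ⟨a, ha1, ha2⟩ := hcom
          exact (hnew e₁ he₁ ⟨a, ha2, ha1⟩).symm
        · rw [hfix _ he₁, hfix _ he₂]
          exact hz2 e₁ he₁ e₂ he₂ hne hcom
  set M : Finset (Sym2 V) := univ.filter
    (fun e => ∃ u w, u ∈ B ∧ w ∈ B ∧ H.Adj u w ∧ e = s(u, w)) with hM
  obtain ⟨z, hz1, hz2⟩ := hchoice M (fun e he => (mem_filter.1 he).2)
  have hmemM : ∀ u w, u ∈ B → w ∈ B → H.Adj u w → s(u, w) ∈ M := fun u w hu hw huw =>
    mem_filter.2 ⟨mem_univ _, u, w, hu, hw, huw, rfl⟩
  rw [← hB]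
  apply Chi.hasImm_of_immE
  refine ⟨fun s => {e | (s ∉ M ∧ e = s) ∨ (s ∈ M ∧ ∃ u ∈ s, e = s(u, z s))}, ?_, ?_⟩
  · intro u hu w hw huw
    by_cases hadj : H.Adj u w
    · have hs := hmemM u w hu hw hadj
      obtain ⟨hzB, hzn⟩ := hz1 _ hs
      have hzu : z s(u, w) ≠ u := fun h => hzB (by rw [h]; exact hu)
      have hzw : z s(u, w) ≠ w := fun h => hzB (by rw [h]; exact hw)
      have h1 : Hᶜ.Adj u (z s(u, w)) := by
        rw [SimpleGraph.compl_adj]
        exact ⟨hzu.symm, hzn u (Sym2.mem_mk_left u w)⟩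
      have h2 : Hᶜ.Adj (z s(u, w)) w := by
        rw [SimpleGraph.compl_adj]
        exact ⟨hzw, fun h => hzn w (Sym2.mem_mk_right u w) h.symm⟩
      refine ⟨SimpleGraph.Walk.cons h1 (SimpleGraph.Walk.cons h2 SimpleGraph.Walk.nil), ?_, ?_⟩
      · simp [SimpleGraph.Walk.cons_isPath_iff, hzu.symm, hzw, huw]
      · intro e he
        simp only [SimpleGraph.Walk.edges_cons, SimpleGraph.Walk.edges_nil, List.mem_cons,
          List.not_mem_nil, or_false] at he
        rcases he with rfl | rfl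
        · exact Or.inr ⟨hs, u, Sym2.mem_mk_left u w, rfl⟩
        · exact Or.inr ⟨hs, w, Sym2.mem_mk_right u w, Sym2.eq_swap⟩
    · have h1 : Hᶜ.Adj u w := by
        rw [SimpleGraph.compl_adj]
        exact ⟨huw, hadj⟩
      refine ⟨h1.toWalk, by simp [SimpleGraph.Walk.cons_isPath_iff, huw], ?_⟩
      intro e he
      have he2 : e = s(u, w) := by simpa using he
      refine Or.inl ⟨?_, he2⟩
      intro h
      obtain ⟨a, b, ha, hb, hab, hs⟩ := (mem_filter.1 h).2
      rw [Sym2.eq_iff] at hs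
      rcases hs with ⟨rfl, rfl⟩ | ⟨rfl, rfl⟩
      · exact hadj hab
      · exact hadj hab.symm
  · intro u hu w hw x hx y hy huw hxy hne e he he'
    have hends : ∀ a ∈ s(u, w), a ∈ B := by
      intro a ha
      rcases Sym2.mem_iff.1 ha with rfl | rfl
      · exact hu
      · exact hw
    have hends' : ∀ a ∈ s(x, y), a ∈ B := by
      intro a ha
      rcases Sym2.mem_iff.1 ha with rfl | rfl
      · exact hx
      · exact hy
    rcases he with ⟨h1, rfl⟩ | ⟨h1, a, ha, rfl⟩
    · rcases he' with ⟨h2, h3⟩ | ⟨h2, b, hb, h3⟩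
      · exact hne h3
      · refine (hz1 _ h2).1 (hends _ ?_)
        rw [h3]
        exact Sym2.mem_mk_right _ _
    · rcases he' with ⟨h2, h3⟩ | ⟨h2, b, hb, h3⟩
      · refine (hz1 _ h1).1 (hends' _ ?_)
        rw [← h3]
        exact Sym2.mem_mk_right _ _
      · rw [Sym2.eq_iff] at h3
        rcases h3 with ⟨h4, h5⟩ | ⟨h4, h5⟩
        · subst h4
          exact hz2 _ h1 _ h2 hne ⟨a, ha, hb⟩ h5
        · apply (hz1 _ h2).1
          rw [← h4]
          exact hends a ha

end Pool.Agent.Helper8.Verg
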