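import Mathlib
import Pool.Agent.Helper8.Verg.Assemble
import Pool.Agent.Helper8.Verg.Chi

set_option autoImplicit false
set_option linter.unusedSectionVars false
set_option linter.unusedVariables false

/-! The version with the chromatic number. -/

namespace Pool.Agent.Helper8.Verg

open Finset

lemma HasImm.mono {V : Type} {G : SimpleGraph V} {t t' : ℕ} (h : HasImm G t') (htt : t ≤ t') :
    HasImm G t := by
  obtain ⟨f, p, hp, hd⟩ := h
  refine ⟨(Fin.castLEEmb htt).trans f, fun i j => p (Fin.castLE htt i) (Fin.castLE htt j), ?_, ?_⟩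
  · intro i j hij
    exact hp _ _ (by simpa using hij)
  · intro i j k l hij hkl hne e he
    refine hd _ _ _ _ (by simpa using hij) (by simpa using hkl) ?_ e he
    rcases hne with h | h
    · left; exact fun hh => h (Fin.castLE_injective htt hh)
    · right; exact fun hh => h (Fin.castLE_injective htt hh)

/-- The numerical bookkeeping. -/
lemma chi_sum {m : ℕ} (k : Fin m → ℕ) (hk : ∀ i, 1 ≤ k i) (ε : ℝ) (hε : 0 < ε) (hε1 : ε ≤ 1)
    (N₁ r s : ℕ) (hN : 12 / ε ≤ N₁) (hr : 4 * (N₁ : ℝ) / ε ≤ r)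
    (hrk : r ≤ ∑ i, (k i + 1) / 2)
    (hs : s = ∑ i ∈ univ.filter (fun i : Fin m => k i < N₁), k i) :
    (1 - ε) * r ≤ (((s - 2 * N₁ : ℕ) : ℝ)
      + ∑ i ∈ univ.filter (fun i : Fin m => ¬ k i < N₁),
        ((⌊(1 / 2 - ε / 8) * (k i : ℝ)⌋₊ : ℕ) : ℝ)) := by
  have h1 : ∀ i ∈ univ.filter (fun i : Fin m => ¬ k i < N₁),
      (1 - ε / 2) * (((k i : ℝ) + 1) / 2) ≤ ((⌊(1 / 2 - ε / 8) * (k i : ℝ)⌋₊ : ℕ) : ℝ) := by
    intro i hi
    have hi' := (mem_filter.1 hi).2
    have hge : (N₁ : ℝ) ≤ k i := by exact_mod_cast (not_lt.1 hi')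
    have hfl := Nat.lt_floor_add_one ((1 / 2 - ε / 8) * (k i : ℝ))
    have h12 : 12 ≤ ε * k i := by
      have : 12 / ε ≤ k i := le_trans hN hge
      rw [div_le_iff₀ hε] at this
      linarith
    nlinarith
  have h2 : ∀ i ∈ univ.filter (fun i : Fin m => k i < N₁),
      (1 - ε / 2) * (((k i : ℝ) + 1) / 2) ≤ (k i : ℝ) := by
    intro i _
    have : (1 : ℝ) ≤ k i := by exact_mod_cast hk i
    nlinarith
  have h3 := Finset.sum_le_sum h1
  have h4 := Finset.sum_le_sum h2
  have h5 : ∑ i, (1 - ε / 2) * (((k i : ℝ) + 1) / 2)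
      = ∑ i ∈ univ.filter (fun i : Fin m => k i < N₁), (1 - ε / 2) * (((k i : ℝ) + 1) / 2)
      + ∑ i ∈ univ.filter (fun i : Fin m => ¬ k i < N₁),
        (1 - ε / 2) * (((k i : ℝ) + 1) / 2) := by
    rw [Finset.sum_filter_add_sum_filter_not]
  have h6 : (r : ℝ) ≤ ∑ i, ((k i : ℝ) + 1) / 2 := by
    have h7 : (r : ℝ) ≤ ((∑ i, (k i + 1) / 2 : ℕ) : ℝ) := by exact_mod_cast hrk
    refine le_trans h7 ?_
    push_cast
    refine Finset.sum_le_sum fun i _ => ?_
    have := @Nat.cast_div_le ℝ _ _ _ (k i + 1) 2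
    push_cast at this
    exact this
  rw [← Finset.mul_sum] at h5
  have h8 : (1 - ε / 2) * (r : ℝ) ≤ (1 - ε / 2) * ∑ i, ((k i : ℝ) + 1) / 2 :=
    mul_le_mul_of_nonneg_left h6 (by linarith)
  have h9 : (s : ℝ) = ∑ i ∈ univ.filter (fun i : Fin m => k i < N₁), (k i : ℝ) := by
    rw [hs]; push_cast; rfl
  have h10 : (s : ℝ) - 2 * N₁ ≤ ((s - 2 * N₁ : ℕ) : ℝ) := by
    have : s ≤ (s - 2 * N₁) + 2 * N₁ := by omega
    have h : (s : ℝ) ≤ ((s - 2 * N₁ : ℕ) : ℝ) + 2 * N₁ := by exact_mod_cast this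
    linarith
  have h11 : 4 * (N₁ : ℝ) ≤ ε * r := by
    rw [div_le_iff₀ hε] at hr
    linarith
  linarith

/-- The asymptotic statement, for `ε ≤ 1`. -/
lemma asymptotic_chi_aux (ε : ℝ) (hε : 0 < ε) (hε1 : ε ≤ 1) : ∃ N : ℕ,
    ∀ (V : Type) [Fintype V] (G : SimpleGraph V) (r : ℕ),
      G.chromaticNumber = (r : ℕ∞) → N ≤ r →
      (∀ a b c : V, a ≠ b → b ≠ c → a ≠ c → G.Adj a b ∨ G.Adj b c ∨ G.Adj a c) →
      ∀ t : ℕ, (t : ℝ) ≤ (1 - ε) * r → HasImm G t := by
  classical
  obtain ⟨N₀, hN₀⟩ := asymptotic_half (ε / 8) (by positivity)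
  obtain ⟨N₁, hN₁⟩ : ∃ N : ℕ, max (N₀ : ℝ) (12 / ε) ≤ N := exists_nat_ge _
  have hN₁0 : N₀ ≤ N₁ := by exact_mod_cast le_trans (le_max_left _ _) hN₁
  have hN₁e : 12 / ε ≤ N₁ := le_trans (le_max_right _ _) hN₁
  obtain ⟨N₂, hN₂⟩ : ∃ N : ℕ, 4 * (N₁ : ℝ) / ε ≤ N := exists_nat_ge _
  refine ⟨N₂, ?_⟩
  intro V _ G r hχ hr hα t ht
  obtain ⟨A, m, K, hKne, hKd, hKA, hKn, hKχ⟩ := chromatic_le_components Gᶜ
  rw [compl_compl, hχ] at hKχ
  have hrK : r ≤ ∑ i, ((K i).card + 1) / 2 := by exact_mod_cast hKχ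
  -- index type
  let J := Option {i : Fin m // N₁ ≤ (K i).card}
  let S : Finset V := (univ.filter (fun i : Fin m => (K i).card < N₁)).biUnion K
  let K' : J → Set V := fun j => match j with
    | none => (S : Set V)
    | some i => (K i.1 : Set V)
  let T : J → ℕ := fun j => match j with
    | none => S.card - 2 * N₁
    | some i => ⌊(1 / 2 - ε / 8) * ((K i.1).card : ℝ)⌋₊
  have hadjK : ∀ i j, i ≠ j → ∀ a ∈ K i, ∀ b ∈ K j, G.Adj a b := by
    intro i j hij a ha b hb
    have h1 := hKn i j hij a ha b hb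
    rw [SimpleGraph.compl_adj] at h1
    have h2 : a ≠ b := fun h => (Finset.disjoint_left.1 (hKd i j hij)) ha (h ▸ hb)
    by_contra h3
    exact h1 ⟨h2, h3⟩
  have hSmem : ∀ z, z ∈ S ↔ ∃ i : Fin m, (K i).card < N₁ ∧ z ∈ K i := by
    intro z
    simp only [S, mem_biUnion, mem_filter, mem_univ, true_and]
  have himm : HasImm G (∑ j, T j) := by
    refine imm_join G K' ?_ ?_ T ?_
    · rintro (_ | i) (_ | j) hij
      · exact absurd rfl hij
      · show Disjoint (S : Set V) (K j.1 : Set V)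
        rw [Finset.disjoint_coe, Finset.disjoint_left]
        intro z hz hzj
        obtain ⟨i, hi, hzi⟩ := (hSmem z).1 hz
        have hne : i ≠ j.1 := by
          rintro rfl
          exact absurd j.2 (by omega)
        exact (Finset.disjoint_left.1 (hKd i j.1 hne)) hzi hzj
      · show Disjoint (K i.1 : Set V) (S : Set V)
        rw [Finset.disjoint_coe, Finset.disjoint_left]
        intro z hzi hz
        obtain ⟨j, hj, hzj⟩ := (hSmem z).1 hz
        have hne : j ≠ i.1 := by
          rintro rfl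
          exact absurd i.2 (by omega)
        exact (Finset.disjoint_left.1 (hKd j i.1 hne)) hzj hzi
      · show Disjoint (K i.1 : Set V) (K j.1 : Set V)
        rw [Finset.disjoint_coe]
        exact hKd _ _ (fun h => hij (by rw [Subtype.ext h]))
    · rintro (_ | i) (_ | j) hij a ha b hb
      · exact absurd rfl hij
      · obtain ⟨i, hi, hai⟩ := (hSmem a).1 ha
        have hne : i ≠ j.1 := by
          rintro rfl
          exact absurd j.2 (by omega)
        exact hadjK i j.1 hne a hai b hb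
      · obtain ⟨j, hj, hbj⟩ := (hSmem b).1 hb
        have hne : i.1 ≠ j := by
          rintro rfl
          exact absurd i.2 (by omega)
        exact hadjK i.1 j hne a ha b hbj
      · exact hadjK i.1 j.1 (fun h => hij (by rw [Subtype.ext h])) a ha b hb
    · rintro (_ | i)
      · -- small components, greedy
        show HasImm (G.induce (S : Set V)) (S.card - 2 * N₁)
        by_cases hS : 2 * N₁ ≤ S.card
        · have h1 := imm_greedy (G.induce (S : Set V))ᶜ N₁ (S.card - 2 * N₁) ?_ ?_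
          · rwa [compl_compl] at h1
          · rintro ⟨v, hv⟩
            obtain ⟨i, hi, hvi⟩ := (hSmem v).1 hv
            unfold degS
            refine le_trans ?_ hi.le
            refine Finset.card_le_card_of_injOn (fun z : (S : Set V) => (z : V)) ?_ ?_
            · rintro ⟨z, hz⟩ hz2
              simp only [Finset.coe_filter, Set.mem_setOf_eq, Finset.mem_univ, true_and] at hz2
              have h2 := hz2
              rw [SimpleGraph.compl_adj] at h2
              obtain ⟨j, hj, hzj⟩ := (hSmem z).1 hz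
              by_cases hij : i = j
              · rw [hij]; exact hzj
              · exfalso
                exact h2.2 (hadjK i j hij v hvi z hzj)
            · intro a _ b _ hab
              exact Subtype.ext hab
          · have : Fintype.card (S : Set V) = S.card := by simp
            rw [this]; omega
        · have : S.card - 2 * N₁ = 0 := by omega
          rw [this]
          refine ⟨⟨fun i => i.elim0, fun i => i.elim0⟩, fun i => i.elim0, fun i => i.elim0,
            fun i => i.elim0⟩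
      · show HasImm (G.induce (K i.1 : Set V)) ⌊(1 / 2 - ε / 8) * ((K i.1).card : ℝ)⌋₊
        have hcard : Fintype.card (K i.1 : Set V) = (K i.1).card := by simp
        refine hN₀ _ (G.induce (K i.1 : Set V)) ?_ ?_ _ ?_
        · rw [hcard]; exact le_trans hN₁0 i.2
        · rintro ⟨a, ha⟩ ⟨b, hb⟩ ⟨c, hc⟩ hab hbc hac
          exact hα a b c (fun h => hab (Subtype.ext h)) (fun h => hbc (Subtype.ext h))
            (fun h => hac (Subtype.ext h))
        · rw [hcard]
          refine Nat.floor_le (mul_nonneg (by linarith) (Nat.cast_nonneg _))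
  refine himm.mono ?_
  have hSc : S.card = ∑ i ∈ univ.filter (fun i : Fin m => (K i).card < N₁), (K i).card := by
    refine Finset.card_biUnion ?_
    intro i _ j _ hij
    exact hKd i j hij
  have hfin := chi_sum (fun i => (K i).card) (fun i => Finset.card_pos.2 (hKne i)) ε hε hε1
    N₁ r S.card hN₁e (le_trans hN₂ (by exact_mod_cast hr)) hrK hSc
  have hsum : ((∑ j, T j : ℕ) : ℝ) = (((S.card - 2 * N₁ : ℕ) : ℝ)
      + ∑ i ∈ univ.filter (fun i : Fin m => ¬ (K i).card < N₁),
        ((⌊(1 / 2 - ε / 8) * ((K i).card : ℝ)⌋₊ : ℕ) : ℝ)) := by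
    rw [Fintype.sum_option]
    push_cast
    congr 1
    rw [Finset.sum_subtype (p := fun i => N₁ ≤ (K i).card)]
    intro i
    simp
  have : (t : ℝ) ≤ ((∑ j, T j : ℕ) : ℝ) := by
    rw [hsum]
    exact le_trans ht hfin
  exact_mod_cast this

/-- **Asymptotic Lescure-Meyniel conjecture for independence number two.** -/
theorem asymptotic_chi (ε : ℝ) (hε : 0 < ε) : ∃ N : ℕ,
    ∀ (V : Type) [Fintype V] (G : SimpleGraph V) (r : ℕ),
      G.chromaticNumber = (r : ℕ∞) → N ≤ r →
      (∀ a b c : V, a ≠ b → b ≠ c → a ≠ c → G.Adj a b ∨ G.Adj b c ∨ G.Adj a c) →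
      ∀ t : ℕ, (t : ℝ) ≤ (1 - ε) * r → HasImm G t := by
  obtain ⟨N, hN⟩ := asymptotic_chi_aux (min ε 1) (lt_min hε one_pos) (min_le_right _ _)
  refine ⟨N, fun V _ G r hχ hr hα t ht => hN V G r hχ hr hα t (le_trans ht ?_)⟩
  refine mul_le_mul_of_nonneg_right ?_ (Nat.cast_nonneg _)
  have := min_le_left ε 1
  linarith

end Pool.Agent.Helper8.Verg
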