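import Pool.Agent.Helper8.Verg.Defs

set_option autoImplicit false
set_option linter.unusedSectionVars false

/-!
Rounding a path system: from a fractional routing to edge-disjoint paths.
-/

namespace Pool.Agent.Helper8.Verg

open Finset

namespace Round

/-- The statement of the weighted nibble, for the parameters `r` and `ε`. -/
def NibbleFor (r : ℕ) (ε : ℝ) : Prop := ∃ δ : ℝ, 0 < δ ∧
    ∀ (α ι : Type) [Fintype α] [DecidableEq α] [Fintype ι] [DecidableEq ι]
      (S : ι → Finset α) (x : ι → ℝ),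
      (∀ i, 0 ≤ x i) → (∀ i, (S i).Nonempty) → (∀ i, (S i).card ≤ r) →
      (∀ a, ∑ i ∈ univ.filter (fun i => a ∈ S i), x i ≤ 1) →
      (∀ a b, a ≠ b → ∑ i ∈ univ.filter (fun i => a ∈ S i ∧ b ∈ S i), x i ≤ δ) →
      ∃ M : Finset ι, (∀ i ∈ M, ∀ j ∈ M, i ≠ j → Disjoint (S i) (S j)) ∧
        (1 - ε) * ∑ i, x i ≤ (M.card : ℝ)

/-- The nibble for weights that may vanish. -/
theorem nibble_supp (r : ℕ) (ε : ℝ) (hnib : NibbleFor r ε) : ∃ δ : ℝ, 0 < δ ∧
    ∀ (α ι : Type) [Fintype α] [DecidableEq α] [Fintype ι] [DecidableEq ι]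
      (S : ι → Finset α) (x : ι → ℝ),
      (∀ i, 0 ≤ x i) → (∀ i, x i ≠ 0 → (S i).Nonempty) → (∀ i, x i ≠ 0 → (S i).card ≤ r) →
      (∀ a, ∑ i, (if a ∈ S i then x i else 0) ≤ 1) →
      (∀ a b, a ≠ b → ∑ i, (if a ∈ S i ∧ b ∈ S i then x i else 0) ≤ δ) →
      ∃ M : Finset ι, (∀ i ∈ M, x i ≠ 0) ∧ (∀ i ∈ M, ∀ j ∈ M, i ≠ j → Disjoint (S i) (S j)) ∧
        (1 - ε) * ∑ i, x i ≤ (M.card : ℝ) := by
  classical
  obtain ⟨δ, hδ, h⟩ := hnib
  refine ⟨δ, hδ, ?_⟩
  intro α ι _ _ _ _ S x h0 h1 h2 h3 h4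
  have key : ∀ f : ι → ℝ, (∀ i, x i = 0 → f i = 0) →
      ∑ i : {i // x i ≠ 0}, f i.1 = ∑ i, f i := by
    intro f hf
    rw [← Finset.sum_subtype (univ.filter (fun i => x i ≠ 0)) (by simp) f]
    apply Finset.sum_subset (Finset.filter_subset _ _)
    intro i _ hi
    apply hf
    by_contra hne
    exact hi (by simp [hne])
  have hA : ∀ a, ∑ i ∈ univ.filter (fun i : {i // x i ≠ 0} => a ∈ S i.1), x i.1 ≤ 1 := by
    intro a
    rw [Finset.sum_filter]
    have := key (fun i => if a ∈ S i then x i else 0) (fun i hi => by simp [hi])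
    rw [this]
    exact h3 a
  have hB : ∀ a b, a ≠ b → ∑ i ∈ univ.filter
      (fun i : {i // x i ≠ 0} => a ∈ S i.1 ∧ b ∈ S i.1), x i.1 ≤ δ := by
    intro a b hab
    rw [Finset.sum_filter]
    have := key (fun i => if a ∈ S i ∧ b ∈ S i then x i else 0) (fun i hi => by simp [hi])
    rw [this]
    exact h4 a b hab
  obtain ⟨M, hM, hM'⟩ := h α {i // x i ≠ 0} (fun i => S i.1) (fun i => x i.1) (fun i => h0 i.1)
    (fun i => h1 i.1 i.2) (fun i => h2 i.1 i.2) hA hB
  refine ⟨M.map (Function.Embedding.subtype _), ?_, ?_, ?_⟩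
  · intro i hi
    simp only [Finset.mem_map, Function.Embedding.coe_subtype] at hi
    obtain ⟨j, _, rfl⟩ := hi
    exact j.2
  · intro i hi j hj hij
    simp only [Finset.mem_map, Function.Embedding.coe_subtype] at hi hj
    obtain ⟨i, hi, rfl⟩ := hi
    obtain ⟨j, hj, rfl⟩ := hj
    exact hM i hi j hj (fun h => hij (by rw [h]))
  · rw [Finset.card_map]
    have := key x (fun i hi => hi)
    rw [this] at hM'
    exact hM'

/-- Routes: tuples of three, four or five vertices. -/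
abbrev T (V : Type) : Type := (V × V × V) ⊕ (V × V × V × V) ⊕ (V × V × V × V × V)

section Basic

variable {V : Type} [Fintype V] [DecidableEq V] {H : SimpleGraph V} {B Z : Finset V} {K : ℝ}

/-- weight of a route -/
def rwt (P : PathSystem H B Z K) : T V → ℝ
  | .inl (u, c, w) => P.x2 u c w
  | .inr (.inl (u, c, d, w)) => P.x3 u c d w
  | .inr (.inr (u, c, e, d, w)) => P.x4 u c e d w

/-- demand pair of a route -/
def dm : T V → Sym2 V
  | .inl (u, _, w) => s(u, w)
  | .inr (.inl (u, _, _, w)) => s(u, w)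
  | .inr (.inr (u, _, _, _, w)) => s(u, w)

/-- edges of a route -/
def ed : T V → Finset (Sym2 V)
  | .inl (u, c, w) => {s(u, c), s(c, w)}
  | .inr (.inl (u, c, d, w)) => {s(u, c), s(c, d), s(d, w)}
  | .inr (.inr (u, c, e, d, w)) => {s(u, c), s(c, e), s(e, d), s(d, w)}

/-- resources of a route -/
def res (t : T V) : Finset (Sym2 V) := insert (dm t) (ed t)

/-- ordered resource pairs of a route -/
def rpr : T V → List (V × V)
  | .inl (u, c, w) => [(u, w), (u, c), (c, w)]
  | .inr (.inl (u, c, d, w)) => [(u, w), (u, c), (c, d), (d, w)]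
  | .inr (.inr (u, c, e, d, w)) => [(u, w), (u, c), (c, e), (e, d), (d, w)]

/-- vertices of a route -/
def vs : T V → List V
  | .inl (u, c, w) => [u, c, w]
  | .inr (.inl (u, c, d, w)) => [u, c, d, w]
  | .inr (.inr (u, c, e, d, w)) => [u, c, e, d, w]

theorem rwt_nonneg (P : PathSystem H B Z K) (t : T V) : 0 ≤ rwt P t := by
  rcases t with ⟨u, c, w⟩ | ⟨u, c, d, w⟩ | ⟨u, c, e, d, w⟩
  · exact P.nn2 _ _ _
  · exact P.nn3 _ _ _ _
  · exact P.nn4 _ _ _ _ _

theorem mem_res_iff (t : T V) (e : Sym2 V) : e ∈ res t ↔ ∃ p ∈ rpr t, Sym2.mk p.1 p.2 = e := by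
  rcases t with ⟨u, c, w⟩ | ⟨u, c, d, w⟩ | ⟨u, c, e, d, w⟩ <;>
    simp [res, dm, ed, rpr, eq_comm]

theorem res_nonempty (t : T V) : (res t).Nonempty := ⟨dm t, by simp [res]⟩

theorem res_card (t : T V) : (res t).card ≤ 5 := by
  rcases t with ⟨u, c, w⟩ | ⟨u, c, d, w⟩ | ⟨u, c, e, d, w⟩
  · exact (Finset.card_le_three).trans (by norm_num)
  · exact (Finset.card_le_four).trans (by norm_num)
  · exact Finset.card_le_five

theorem vs_of_mem {t : T V} {e : Sym2 V} (he : e ∈ res t) {v : V} (hv : v ∈ e) : v ∈ vs t := by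
  rw [mem_res_iff] at he
  obtain ⟨⟨a, b⟩, hp, rfl⟩ := he
  rw [Sym2.mem_iff] at hv
  rcases t with ⟨u, c, w⟩ | ⟨u, c, d, w⟩ | ⟨u, c, e, d, w⟩ <;>
    simp only [rpr, vs, List.mem_cons, Prod.mk.injEq, List.not_mem_nil, or_false] at hp ⊢ <;>
    rcases hv with rfl | rfl <;> tauto

theorem route_spec (hBZ : Disjoint B Z) (P : PathSystem H B Z K) (t : T V) (ht : rwt P t ≠ 0) :
    ∃ u w, u ∈ B ∧ w ∈ B ∧ H.Adj u w ∧ dm t = s(u, w) ∧
      ∃ p : Hᶜ.Walk u w, p.IsPath ∧ p.edges.toFinset = ed t := by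
  have hne : ∀ x ∈ B, ∀ y ∈ Z, x ≠ y := by
    rintro x hx y hy rfl
    exact Finset.disjoint_left.1 hBZ hx hy
  rcases t with ⟨u, c, w⟩ | ⟨u, c, d, w⟩ | ⟨u, c, e, d, w⟩
  · obtain ⟨hu, hw, hc, huw, huc, hcw⟩ := P.sup2 u c w ht
    have h1 : Hᶜ.Adj u c := by
      rw [SimpleGraph.compl_adj]; exact ⟨hne _ hu _ hc, huc⟩
    have h2 : Hᶜ.Adj c w := by
      rw [SimpleGraph.compl_adj]; exact ⟨(hne _ hw _ hc).symm, hcw⟩
    refine ⟨u, w, hu, hw, huw, rfl, .cons h1 (.cons h2 .nil), ?_, ?_⟩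
    · simp [SimpleGraph.Walk.cons_isPath_iff, hne _ hu _ hc, (hne _ hw _ hc).symm, huw.ne]
    · simp [ed]
  · obtain ⟨hu, hw, hc, hd, hcd, huw, huc, hcd', hdw⟩ := P.sup3 u c d w ht
    have h1 : Hᶜ.Adj u c := by
      rw [SimpleGraph.compl_adj]; exact ⟨hne _ hu _ hc, huc⟩
    have h2 : Hᶜ.Adj c d := by
      rw [SimpleGraph.compl_adj]; exact ⟨hcd, hcd'⟩
    have h3 : Hᶜ.Adj d w := by
      rw [SimpleGraph.compl_adj]; exact ⟨(hne _ hw _ hd).symm, hdw⟩
    refine ⟨u, w, hu, hw, huw, rfl, .cons h1 (.cons h2 (.cons h3 .nil)), ?_, ?_⟩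
    · simp [SimpleGraph.Walk.cons_isPath_iff, hne _ hu _ hc, (hne _ hw _ hc).symm, huw.ne,
        hne _ hu _ hd, (hne _ hw _ hd).symm, hcd]
    · simp [ed]
  · obtain ⟨hu, hw, hc, he, hd, hce, hed, hcd, huw, huc, hce', hed', hdw⟩ := P.sup4 u c e d w ht
    have h1 : Hᶜ.Adj u c := by
      rw [SimpleGraph.compl_adj]; exact ⟨hne _ hu _ hc, huc⟩
    have h2 : Hᶜ.Adj c e := by
      rw [SimpleGraph.compl_adj]; exact ⟨hce, hce'⟩
    have h3 : Hᶜ.Adj e d := by
      rw [SimpleGraph.compl_adj]; exact ⟨hed, hed'⟩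
    have h4 : Hᶜ.Adj d w := by
      rw [SimpleGraph.compl_adj]; exact ⟨(hne _ hw _ hd).symm, hdw⟩
    refine ⟨u, w, hu, hw, huw, rfl, .cons h1 (.cons h2 (.cons h3 (.cons h4 .nil))), ?_, ?_⟩
    · simp [SimpleGraph.Walk.cons_isPath_iff, hne _ hu _ hc, (hne _ hw _ hc).symm, huw.ne,
        hne _ hu _ hd, (hne _ hw _ hd).symm, hne _ hu _ he, (hne _ hw _ he).symm, hcd, hce, hed]
    · simp [ed]

theorem sub_spec (P : PathSystem H B Z K) (t : T V) (ht : rwt P t ≠ 0) (e : Sym2 V)
    (he : e ∈ ed t) : (∃ z ∈ Z, z ∈ e) ∧ ∀ z ∈ e, z ∈ B ∪ Z := by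
  rcases t with ⟨u, c, w⟩ | ⟨u, c, d, w⟩ | ⟨u, c, e', d, w⟩
  · obtain ⟨hu, hw, hc, huw, huc, hcw⟩ := P.sup2 u c w ht
    simp only [ed, Finset.mem_insert, Finset.mem_singleton] at he
    rcases he with rfl | rfl
    · exact ⟨⟨c, hc, by simp⟩, by simp [hu, hc]⟩
    · exact ⟨⟨c, hc, by simp⟩, by simp [hw, hc]⟩
  · obtain ⟨hu, hw, hc, hd, hcd, huw, huc, hcd', hdw⟩ := P.sup3 u c d w ht
    simp only [ed, Finset.mem_insert, Finset.mem_singleton] at he
    rcases he with rfl | rfl | rfl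
    · exact ⟨⟨c, hc, by simp⟩, by simp [hu, hc]⟩
    · exact ⟨⟨c, hc, by simp⟩, by simp [hd, hc]⟩
    · exact ⟨⟨d, hd, by simp⟩, by simp [hd, hw]⟩
  · obtain ⟨hu, hw, hc, he', hd, hce, hed, hcd, huw, huc, hce', hed', hdw⟩ := P.sup4 u c e' d w ht
    simp only [ed, Finset.mem_insert, Finset.mem_singleton] at he
    rcases he with rfl | rfl | rfl | rfl
    · exact ⟨⟨c, hc, by simp⟩, by simp [hu, hc]⟩
    · exact ⟨⟨c, hc, by simp⟩, by simp [he', hc]⟩
    · exact ⟨⟨d, hd, by simp⟩, by simp [hd, he']⟩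
    · exact ⟨⟨d, hd, by simp⟩, by simp [hd, hw]⟩

theorem not_isDiag (hBZ : Disjoint B Z) (P : PathSystem H B Z K) (t : T V) (ht : rwt P t ≠ 0)
    (e : Sym2 V) (he : e ∈ res t) : ¬ e.IsDiag := by
  obtain ⟨u, w, _, _, huw, hdm, p, _, hed⟩ := route_spec hBZ P t ht
  rw [res, Finset.mem_insert] at he
  rcases he with rfl | he
  · rw [hdm]; simpa using huw.ne
  · rw [← hed, List.mem_toFinset] at he
    exact SimpleGraph.not_isDiag_of_mem_edgeSet _ (p.edges_subset_edgeSet he)

theorem sum_wt (P : PathSystem H B Z K) : ∑ t, rwt P t = P.total := by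
  rw [PathSystem.total, Fintype.sum_sum_type, Fintype.sum_sum_type]
  simp only [Fintype.sum_prod_type, rwt, Finset.sum_add_distrib]
  have h2 : ∑ u, ∑ c, ∑ w, P.x2 u c w = ∑ u, ∑ w, ∑ c, P.x2 u c w :=
    Finset.sum_congr rfl fun u _ => Finset.sum_comm
  have h3 : ∑ u, ∑ c, ∑ d, ∑ w, P.x3 u c d w = ∑ u, ∑ w, ∑ c, ∑ d, P.x3 u c d w := by
    refine Finset.sum_congr rfl fun u _ => ?_
    rw [Finset.sum_comm (s := univ) (t := univ) (f := fun w c => ∑ d, P.x3 u c d w)]
    exact Finset.sum_congr rfl fun c _ => Finset.sum_comm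
  have h4 : ∑ u, ∑ c, ∑ e, ∑ d, ∑ w, P.x4 u c e d w =
      ∑ u, ∑ w, ∑ c, ∑ e, ∑ d, P.x4 u c e d w := by
    refine Finset.sum_congr rfl fun u _ => ?_
    rw [Finset.sum_comm (s := univ) (t := univ) (f := fun w c => ∑ e, ∑ d, P.x4 u c e d w)]
    refine Finset.sum_congr rfl fun c _ => ?_
    rw [Finset.sum_comm (s := univ) (t := univ) (f := fun w e => ∑ d, P.x4 u c e d w)]
    exact Finset.sum_congr rfl fun e _ => Finset.sum_comm
  rw [h2, h3, h4]
  ring

theorem pair2 (a b : V) (g : V → V → ℝ) :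
    ∑ c, ∑ w, (if ((c, w) : V × V) = (a, b) then g c w else 0) = g a b := by
  have : ∀ c, (∑ w, (if ((c, w) : V × V) = (a, b) then g c w else 0)) =
      if c = a then g c b else 0 := by
    intro c
    by_cases h : c = a <;> simp [h]
  simp_rw [this]
  simp

theorem push (p : Prop) [Decidable p] (f : V → ℝ) :
    ∑ w, (if p then f w else 0) = if p then ∑ w, f w else 0 := by
  split_ifs <;> simp

theorem list_le (a b : V) (X : ℝ) (hX : 0 ≤ X) (l : List (V × V))
    (h : ∃ p ∈ l, Sym2.mk p.1 p.2 = s(a, b)) :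
    X ≤ (l.map (fun p => (if p = (a, b) then X else 0) + (if p = (b, a) then X else 0))).sum := by
  have hnn : ∀ l : List (V × V), 0 ≤ (l.map (fun p => (if p = (a, b) then X else 0) +
      (if p = (b, a) then X else 0))).sum := by
    intro l
    apply List.sum_nonneg
    intro y hy
    rw [List.mem_map] at hy
    obtain ⟨p, _, rfl⟩ := hy
    split_ifs <;> linarith
  induction l with
  | nil => obtain ⟨p, hp, _⟩ := h; simp at hp
  | cons q l ih =>
    obtain ⟨p, hp, hpe⟩ := h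
    rw [List.map_cons, List.sum_cons]
    rw [List.mem_cons] at hp
    rcases hp with rfl | hp
    · have h1 := hnn l
      obtain ⟨x, y⟩ := p
      rw [Sym2.eq_iff] at hpe
      rcases hpe with ⟨rfl, rfl⟩ | ⟨rfl, rfl⟩
      · simp only [if_true]
        have : (0 : ℝ) ≤ if ((x, y) : V × V) = (y, x) then X else 0 := by split_ifs <;> linarith
        linarith
      · simp only [if_true]
        have : (0 : ℝ) ≤ if ((x, y) : V × V) = (y, x) then X else 0 := by split_ifs <;> linarith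
        linarith
    · have h1 := ih ⟨p, hp, hpe⟩
      have : (0 : ℝ) ≤ (if q = (a, b) then X else 0) + (if q = (b, a) then X else 0) := by
        split_ifs <;> linarith
      linarith

theorem ind_le (P : PathSystem H B Z K) (a b : V) (t : T V) :
    (if s(a, b) ∈ res t then rwt P t else 0) ≤
      ((rpr t).map (fun p => (if p = (a, b) then rwt P t else 0) +
        (if p = (b, a) then rwt P t else 0))).sum := by
  split_ifs with h
  · exact list_le a b _ (rwt_nonneg P t) _ ((mem_res_iff _ _).1 h)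
  · apply List.sum_nonneg
    intro y hy
    rw [List.mem_map] at hy
    obtain ⟨p, _, rfl⟩ := hy
    have := rwt_nonneg P t
    split_ifs <;> linarith

/-- served demand -/
noncomputable def Dem (P : PathSystem H B Z K) (u w : V) : ℝ :=
  ∑ c, P.x2 u c w + ∑ c, ∑ d, P.x3 u c d w + ∑ c, ∑ e, ∑ d, P.x4 u c e d w

/-- load of a port -/
noncomputable def Port (P : PathSystem H B Z K) (u c : V) : ℝ :=
  ∑ w, P.x2 u c w + ∑ d, ∑ w, P.x3 u c d w + ∑ e, ∑ d, ∑ w, P.x4 u c e d w

/-- load of an inner edge -/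
noncomputable def Rout (P : PathSystem H B Z K) (c d : V) : ℝ :=
  ∑ u, ∑ w, P.x3 u c d w + ∑ u, ∑ d', ∑ w, P.x4 u c d d' w + ∑ u, ∑ d', ∑ w, P.x4 u d c d' w

theorem x2_zero (P : PathSystem H B Z K) {u c w : V} (h : ¬ (u ∈ B ∧ w ∈ B ∧ c ∈ Z)) :
    P.x2 u c w = 0 := by
  by_contra h0
  obtain ⟨h1, h2, h3, _⟩ := P.sup2 u c w h0
  exact h ⟨h1, h2, h3⟩

theorem x3_zero (P : PathSystem H B Z K) {u c d w : V} (h : ¬ (u ∈ B ∧ w ∈ B ∧ c ∈ Z ∧ d ∈ Z)) :
    P.x3 u c d w = 0 := by
  by_contra h0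
  obtain ⟨h1, h2, h3, h4, _⟩ := P.sup3 u c d w h0
  exact h ⟨h1, h2, h3, h4⟩

theorem x4_zero (P : PathSystem H B Z K) {u c e d w : V}
    (h : ¬ (u ∈ B ∧ w ∈ B ∧ c ∈ Z ∧ e ∈ Z ∧ d ∈ Z)) : P.x4 u c e d w = 0 := by
  by_contra h0
  obtain ⟨h1, h2, h3, h4, h5, _⟩ := P.sup4 u c e d w h0
  exact h ⟨h1, h2, h3, h4, h5⟩

theorem Dem_zero (P : PathSystem H B Z K) {u w : V} (h : ¬ (u ∈ B ∧ w ∈ B)) : Dem P u w = 0 := by
  have h2 : ∀ c, P.x2 u c w = 0 := fun c => x2_zero P (by tauto)
  have h3 : ∀ c d, P.x3 u c d w = 0 := fun c d => x3_zero P (by tauto)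
  have h4 : ∀ c e d, P.x4 u c e d w = 0 := fun c e d => x4_zero P (by tauto)
  simp [Dem, h2, h3, h4]

theorem Port_zero (P : PathSystem H B Z K) {u c : V} (h : ¬ (u ∈ B ∧ c ∈ Z)) : Port P u c = 0 := by
  have h2 : ∀ w, P.x2 u c w = 0 := fun w => x2_zero P (by tauto)
  have h3 : ∀ d w, P.x3 u c d w = 0 := fun d w => x3_zero P (by tauto)
  have h4 : ∀ e d w, P.x4 u c e d w = 0 := fun e d w => x4_zero P (by tauto)
  simp [Port, h2, h3, h4]

theorem Rout_zero (P : PathSystem H B Z K) {c d : V} (h : ¬ (c ∈ Z ∧ d ∈ Z)) : Rout P c d = 0 := by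
  have h3 : ∀ u w, P.x3 u c d w = 0 := fun u w => x3_zero P (by tauto)
  have h4 : ∀ u d' w, P.x4 u c d d' w = 0 := fun u d' w => x4_zero P (by tauto)
  have h4' : ∀ u d' w, P.x4 u d c d' w = 0 := fun u d' w => x4_zero P (by tauto)
  simp [Rout, h3, h4, h4']

theorem load3 (P : PathSystem H B Z K) (a b : V) :
    ∑ u, ∑ c, ∑ w, (if s(a, b) ∈ res (Sum.inl (u, c, w) : T V) then P.x2 u c w else 0) ≤
      ∑ c, P.x2 a c b + ∑ c, P.x2 b c a + 2 * ∑ w, P.x2 a b w + 2 * ∑ w, P.x2 b a w := by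
  have h1 : ∀ x y : V, ∑ u, ∑ c, ∑ w, (if ((u, w) : V × V) = (x, y) then P.x2 u c w else 0) =
      ∑ c, P.x2 x c y := by
    intro x y
    rw [Finset.sum_comm]
    exact Finset.sum_congr rfl fun c _ => pair2 x y (fun u w => P.x2 u c w)
  have h2 : ∀ x y : V, ∑ u, ∑ c, ∑ w, (if ((u, c) : V × V) = (x, y) then P.x2 u c w else 0) =
      ∑ w, P.x2 x y w := by
    intro x y
    simp only [push]
    exact pair2 x y (fun u c => ∑ w, P.x2 u c w)
  have h3 : ∀ x y : V, ∑ u, ∑ c, ∑ w, (if ((c, w) : V × V) = (x, y) then P.x2 u c w else 0) =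
      ∑ w, P.x2 y x w := by
    intro x y
    refine Finset.sum_congr rfl fun u _ => ?_
    rw [pair2 x y (fun c w => P.x2 u c w)]
    exact P.sym2 _ _ _
  calc _ ≤ ∑ u, ∑ c, ∑ w, (((if ((u, w) : V × V) = (a, b) then P.x2 u c w else 0) +
        (if ((u, w) : V × V) = (b, a) then P.x2 u c w else 0)) +
        ((if ((u, c) : V × V) = (a, b) then P.x2 u c w else 0) +
        (if ((u, c) : V × V) = (b, a) then P.x2 u c w else 0)) +
        ((if ((c, w) : V × V) = (a, b) then P.x2 u c w else 0) +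
        (if ((c, w) : V × V) = (b, a) then P.x2 u c w else 0))) := by
        refine Finset.sum_le_sum fun u _ => Finset.sum_le_sum fun c _ =>
          Finset.sum_le_sum fun w _ => ?_
        have := ind_le P a b (Sum.inl (u, c, w))
        simp only [rwt, rpr, List.map_cons, List.map_nil, List.sum_cons, List.sum_nil,
          add_zero] at this
        linarith
    _ = _ := by
        simp only [Finset.sum_add_distrib, h1, h2, h3]
        ring

theorem load4 (P : PathSystem H B Z K) (a b : V) :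
    ∑ u, ∑ c, ∑ d, ∑ w, (if s(a, b) ∈ res (Sum.inr (Sum.inl (u, c, d, w)) : T V) then
      P.x3 u c d w else 0) ≤
      ∑ c, ∑ d, P.x3 a c d b + ∑ c, ∑ d, P.x3 b c d a + 2 * ∑ d, ∑ w, P.x3 a b d w +
        2 * ∑ d, ∑ w, P.x3 b a d w + ∑ u, ∑ w, P.x3 u a b w + ∑ u, ∑ w, P.x3 u b a w := by
  have h1 : ∀ x y : V, ∑ u, ∑ c, ∑ d, ∑ w, (if ((u, w) : V × V) = (x, y) then
      P.x3 u c d w else 0) = ∑ c, ∑ d, P.x3 x c d y := by
    intro x y
    rw [Finset.sum_comm]
    refine Finset.sum_congr rfl fun c _ => ?_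
    rw [Finset.sum_comm]
    exact Finset.sum_congr rfl fun d _ => pair2 x y (fun u w => P.x3 u c d w)
  have h2 : ∀ x y : V, ∑ u, ∑ c, ∑ d, ∑ w, (if ((u, c) : V × V) = (x, y) then
      P.x3 u c d w else 0) = ∑ d, ∑ w, P.x3 x y d w := by
    intro x y
    simp only [push]
    exact pair2 x y (fun u c => ∑ d, ∑ w, P.x3 u c d w)
  have h3 : ∀ x y : V, ∑ u, ∑ c, ∑ d, ∑ w, (if ((c, d) : V × V) = (x, y) then
      P.x3 u c d w else 0) = ∑ u, ∑ w, P.x3 u x y w := by
    intro x y
    simp only [push]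
    exact Finset.sum_congr rfl fun u _ => pair2 x y (fun c d => ∑ w, P.x3 u c d w)
  have h4 : ∀ x y : V, ∑ u, ∑ c, ∑ d, ∑ w, (if ((d, w) : V × V) = (x, y) then
      P.x3 u c d w else 0) = ∑ d, ∑ w, P.x3 y x d w := by
    intro x y
    rw [Finset.sum_comm]
    refine Finset.sum_congr rfl fun c _ => Finset.sum_congr rfl fun u _ => ?_
    rw [pair2 x y (fun d w => P.x3 u c d w)]
    exact P.sym3 _ _ _ _
  calc _ ≤ ∑ u, ∑ c, ∑ d, ∑ w, (((if ((u, w) : V × V) = (a, b) then P.x3 u c d w else 0) +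
        (if ((u, w) : V × V) = (b, a) then P.x3 u c d w else 0)) +
        ((if ((u, c) : V × V) = (a, b) then P.x3 u c d w else 0) +
        (if ((u, c) : V × V) = (b, a) then P.x3 u c d w else 0)) +
        ((if ((c, d) : V × V) = (a, b) then P.x3 u c d w else 0) +
        (if ((c, d) : V × V) = (b, a) then P.x3 u c d w else 0)) +
        ((if ((d, w) : V × V) = (a, b) then P.x3 u c d w else 0) +
        (if ((d, w) : V × V) = (b, a) then P.x3 u c d w else 0))) := by
        refine Finset.sum_le_sum fun u _ => Finset.sum_le_sum fun c _ =>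
          Finset.sum_le_sum fun d _ => Finset.sum_le_sum fun w _ => ?_
        have := ind_le P a b (Sum.inr (Sum.inl (u, c, d, w)))
        simp only [rwt, rpr, List.map_cons, List.map_nil, List.sum_cons, List.sum_nil,
          add_zero] at this
        linarith
    _ = _ := by
        simp only [Finset.sum_add_distrib, h1, h2, h3, h4]
        ring

theorem load5 (P : PathSystem H B Z K) (a b : V) :
    ∑ u, ∑ c, ∑ e, ∑ d, ∑ w, (if s(a, b) ∈ res (Sum.inr (Sum.inr (u, c, e, d, w)) : T V) then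
      P.x4 u c e d w else 0) ≤
      ∑ c, ∑ e, ∑ d, P.x4 a c e d b + ∑ c, ∑ e, ∑ d, P.x4 b c e d a +
        2 * ∑ e, ∑ d, ∑ w, P.x4 a b e d w + 2 * ∑ e, ∑ d, ∑ w, P.x4 b a e d w +
        2 * ∑ u, ∑ d, ∑ w, P.x4 u a b d w + 2 * ∑ u, ∑ d, ∑ w, P.x4 u b a d w := by
  have h1 : ∀ x y : V, ∑ u, ∑ c, ∑ e, ∑ d, ∑ w, (if ((u, w) : V × V) = (x, y) then
      P.x4 u c e d w else 0) = ∑ c, ∑ e, ∑ d, P.x4 x c e d y := by
    intro x y
    rw [Finset.sum_comm]
    refine Finset.sum_congr rfl fun c _ => ?_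
    rw [Finset.sum_comm]
    refine Finset.sum_congr rfl fun e _ => ?_
    rw [Finset.sum_comm]
    exact Finset.sum_congr rfl fun d _ => pair2 x y (fun u w => P.x4 u c e d w)
  have h2 : ∀ x y : V, ∑ u, ∑ c, ∑ e, ∑ d, ∑ w, (if ((u, c) : V × V) = (x, y) then
      P.x4 u c e d w else 0) = ∑ e, ∑ d, ∑ w, P.x4 x y e d w := by
    intro x y
    simp only [push]
    exact pair2 x y (fun u c => ∑ e, ∑ d, ∑ w, P.x4 u c e d w)
  have h3 : ∀ x y : V, ∑ u, ∑ c, ∑ e, ∑ d, ∑ w, (if ((c, e) : V × V) = (x, y) then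
      P.x4 u c e d w else 0) = ∑ u, ∑ d, ∑ w, P.x4 u x y d w := by
    intro x y
    simp only [push]
    exact Finset.sum_congr rfl fun u _ => pair2 x y (fun c e => ∑ d, ∑ w, P.x4 u c e d w)
  have h4 : ∀ x y : V, ∑ u, ∑ c, ∑ e, ∑ d, ∑ w, (if ((e, d) : V × V) = (x, y) then
      P.x4 u c e d w else 0) = ∑ u, ∑ d, ∑ w, P.x4 u y x d w := by
    intro x y
    simp only [push]
    calc _ = ∑ u, ∑ c, ∑ w, P.x4 u c x y w :=
          Finset.sum_congr rfl fun u _ => Finset.sum_congr rfl fun c _ =>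
            pair2 x y (fun e d => ∑ w, P.x4 u c e d w)
      _ = ∑ u, ∑ c, ∑ w, P.x4 w y x c u :=
          Finset.sum_congr rfl fun u _ => Finset.sum_congr rfl fun c _ =>
            Finset.sum_congr rfl fun w _ => P.sym4 _ _ _ _ _
      _ = ∑ w, ∑ c, ∑ u, P.x4 w y x c u := by
          calc _ = ∑ u, ∑ w, ∑ c, P.x4 w y x c u :=
                Finset.sum_congr rfl fun u _ => Finset.sum_comm
            _ = ∑ w, ∑ u, ∑ c, P.x4 w y x c u := Finset.sum_comm
            _ = _ := Finset.sum_congr rfl fun w _ => Finset.sum_comm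
  have h5 : ∀ x y : V, ∑ u, ∑ c, ∑ e, ∑ d, ∑ w, (if ((d, w) : V × V) = (x, y) then
      P.x4 u c e d w else 0) = ∑ e, ∑ d, ∑ w, P.x4 y x e d w := by
    intro x y
    calc _ = ∑ u, ∑ c, ∑ e, P.x4 u c e x y :=
          Finset.sum_congr rfl fun u _ => Finset.sum_congr rfl fun c _ =>
            Finset.sum_congr rfl fun e _ => pair2 x y (fun d w => P.x4 u c e d w)
      _ = ∑ u, ∑ c, ∑ e, P.x4 y x e c u :=
          Finset.sum_congr rfl fun u _ => Finset.sum_congr rfl fun c _ =>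
            Finset.sum_congr rfl fun w _ => P.sym4 _ _ _ _ _
      _ = ∑ e, ∑ c, ∑ u, P.x4 y x e c u := by
          calc _ = ∑ u, ∑ e, ∑ c, P.x4 y x e c u :=
                Finset.sum_congr rfl fun u _ => Finset.sum_comm
            _ = ∑ e, ∑ u, ∑ c, P.x4 y x e c u := Finset.sum_comm
            _ = _ := Finset.sum_congr rfl fun w _ => Finset.sum_comm
  calc _ ≤ ∑ u, ∑ c, ∑ e, ∑ d, ∑ w, (((if ((u, w) : V × V) = (a, b) then P.x4 u c e d w else 0) +
        (if ((u, w) : V × V) = (b, a) then P.x4 u c e d w else 0)) +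
        ((if ((u, c) : V × V) = (a, b) then P.x4 u c e d w else 0) +
        (if ((u, c) : V × V) = (b, a) then P.x4 u c e d w else 0)) +
        ((if ((c, e) : V × V) = (a, b) then P.x4 u c e d w else 0) +
        (if ((c, e) : V × V) = (b, a) then P.x4 u c e d w else 0)) +
        ((if ((e, d) : V × V) = (a, b) then P.x4 u c e d w else 0) +
        (if ((e, d) : V × V) = (b, a) then P.x4 u c e d w else 0)) +
        ((if ((d, w) : V × V) = (a, b) then P.x4 u c e d w else 0) +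
        (if ((d, w) : V × V) = (b, a) then P.x4 u c e d w else 0))) := by
        refine Finset.sum_le_sum fun u _ => Finset.sum_le_sum fun c _ =>
          Finset.sum_le_sum fun e _ => Finset.sum_le_sum fun d _ =>
          Finset.sum_le_sum fun w _ => ?_
        have := ind_le P a b (Sum.inr (Sum.inr (u, c, e, d, w)))
        simp only [rwt, rpr, List.map_cons, List.map_nil, List.sum_cons, List.sum_nil,
          add_zero] at this
        linarith
    _ = _ := by
        simp only [Finset.sum_add_distrib, h1, h2, h3, h4, h5]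
        ring

theorem load_le (P : PathSystem H B Z K) (a b : V) :
    ∑ t, (if s(a, b) ∈ res t then rwt P t else 0) ≤
      Dem P a b + Dem P b a + 2 * Port P a b + 2 * Port P b a + Rout P a b + Rout P b a := by
  rw [Fintype.sum_sum_type, Fintype.sum_sum_type]
  simp only [Fintype.sum_prod_type, rwt]
  have h3 := load3 P a b
  have h4 := load4 P a b
  have h5 := load5 P a b
  simp only [Dem, Port, Rout]
  linarith

theorem load (hBZ : Disjoint B Z) (P : PathSystem H B Z K) (e : Sym2 V) :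
    ∑ t, (if e ∈ res t then rwt P t else 0) ≤ 1 := by
  induction e using Sym2.ind with
  | _ a b =>
    refine (load_le P a b).trans ?_
    have hne : ∀ x ∈ B, x ∉ Z := fun x hx hz => Finset.disjoint_left.1 hBZ hx hz
    by_cases ha : a ∈ B
    · have ha' := hne a ha
      by_cases hb : b ∈ B
      · have hb' := hne b hb
        rw [Port_zero P (fun h => hb' h.2), Port_zero P (fun h => ha' h.2),
          Rout_zero P (fun h => hb' h.2), Rout_zero P (fun h => ha' h.2)]
        have h1 : Dem P a b ≤ 1 / 2 := P.dem a b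
        have h2 : Dem P b a ≤ 1 / 2 := P.dem b a
        linarith
      · rw [Dem_zero P (fun h => hb h.2), Dem_zero P (fun h => hb h.1),
          Port_zero P (u := b) (fun h => hb h.1),
          Rout_zero P (fun h => ha' h.1), Rout_zero P (fun h => ha' h.2)]
        have h1 : Port P a b ≤ 1 / 2 := P.port a b
        linarith
    · by_cases hb : b ∈ B
      · have hb' := hne b hb
        rw [Dem_zero P (fun h => ha h.1), Dem_zero P (fun h => ha h.2),
          Port_zero P (u := a) (fun h => ha h.1),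
          Rout_zero P (fun h => hb' h.2), Rout_zero P (fun h => hb' h.1)]
        have h1 : Port P b a ≤ 1 / 2 := P.port b a
        linarith
      · rw [Dem_zero P (fun h => ha h.1), Dem_zero P (fun h => ha h.2),
          Port_zero P (u := a) (fun h => ha h.1), Port_zero P (u := b) (fun h => hb h.1)]
        have h1 : Rout P a b ≤ 1 / 2 := P.rout a b
        have h2 : Rout P b a ≤ 1 / 2 := P.rout b a
        linarith

/-! ### Codegrees -/

theorem count_three (L : ℕ) (x y z : V) (hxy : x ≠ y) (hxz : x ≠ z) (hyz : y ≠ z) :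
    (univ.filter (fun t : Fin L → V => (∃ p, t p = x) ∧ (∃ p, t p = y) ∧ ∃ p, t p = z)).card ≤
      L ^ 3 * Fintype.card V ^ (L - 3) := by
  classical
  have h1 : ∀ p q r : Fin L, (univ.filter (fun t : Fin L → V => t p = x ∧ t q = y ∧ t r = z)).card
      ≤ Fintype.card V ^ (L - 3) := by
    intro p q r
    by_cases hpq : p = q
    · subst hpq
      rw [Finset.card_eq_zero.2]
      · exact Nat.zero_le _
      · rw [Finset.filter_eq_empty_iff]
        rintro t _ ⟨h1, h2, _⟩
        exact hxy (h1.symm.trans h2)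
    by_cases hpr : p = r
    · subst hpr
      rw [Finset.card_eq_zero.2]
      · exact Nat.zero_le _
      · rw [Finset.filter_eq_empty_iff]
        rintro t _ ⟨h1, _, h2⟩
        exact hxz (h1.symm.trans h2)
    by_cases hqr : q = r
    · subst hqr
      rw [Finset.card_eq_zero.2]
      · exact Nat.zero_le _
      · rw [Finset.filter_eq_empty_iff]
        rintro t _ ⟨_, h1, h2⟩
        exact hyz (h1.symm.trans h2)
    have hsub : (univ.filter (fun t : Fin L → V => t p = x ∧ t q = y ∧ t r = z)) ⊆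
        Fintype.piFinset (fun i : Fin L => if i ∈ ({p, q, r} : Finset (Fin L)) then
          ({if i = p then x else if i = q then y else z} : Finset V) else univ) := by
      intro t ht
      rw [Finset.mem_filter] at ht
      obtain ⟨_, rfl, rfl, rfl⟩ := ht
      rw [Fintype.mem_piFinset]
      intro i
      by_cases hi : i ∈ ({p, q, r} : Finset (Fin L))
      · rw [if_pos hi]
        simp only [Finset.mem_insert, Finset.mem_singleton] at hi ⊢
        rcases hi with rfl | rfl | rfl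
        · simp
        · simp [Ne.symm hpq]
        · simp [Ne.symm hpr, Ne.symm hqr]
      · rw [if_neg hi]
        exact Finset.mem_univ _
    refine (Finset.card_le_card hsub).trans ?_
    rw [Fintype.card_piFinset]
    have h3 : ({p, q, r} : Finset (Fin L)).card = 3 := by
      rw [Finset.card_insert_of_notMem (by simp [hpq, hpr]), Finset.card_pair hqr]
    have h4 : (univ \ ({p, q, r} : Finset (Fin L))).card = L - 3 := by
      rw [Finset.card_sdiff_of_subset (Finset.subset_univ _), h3, Finset.card_univ,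
        Fintype.card_fin]
    calc ∏ i : Fin L, (if i ∈ ({p, q, r} : Finset (Fin L)) then
          ({if i = p then x else if i = q then y else z} : Finset V) else univ).card
        = ∏ i : Fin L, (if i ∈ ({p, q, r} : Finset (Fin L)) then 1 else Fintype.card V) := by
          refine Finset.prod_congr rfl fun i _ => ?_
          split_ifs <;> simp
      _ = Fintype.card V ^ (L - 3) := by
          rw [Finset.prod_ite, Finset.prod_const_one, one_mul, Finset.prod_const]
          congr 1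
          rw [← h4]
          congr 1
          ext i
          simp
      _ ≤ _ := le_rfl
  calc (univ.filter (fun t : Fin L → V => (∃ p, t p = x) ∧ (∃ p, t p = y) ∧ ∃ p, t p = z)).card
      ≤ ((univ : Finset (Fin L × Fin L × Fin L)).biUnion (fun s =>
          univ.filter (fun t : Fin L → V => t s.1 = x ∧ t s.2.1 = y ∧ t s.2.2 = z))).card := by
        apply Finset.card_le_card
        intro t ht
        rw [Finset.mem_filter] at ht
        obtain ⟨_, ⟨p, hp⟩, ⟨q, hq⟩, ⟨r, hr⟩⟩ := ht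
        rw [Finset.mem_biUnion]
        exact ⟨(p, q, r), Finset.mem_univ _, by simp [hp, hq, hr]⟩
    _ ≤ ∑ s : Fin L × Fin L × Fin L,
          (univ.filter (fun t : Fin L → V => t s.1 = x ∧ t s.2.1 = y ∧ t s.2.2 = z)).card :=
        Finset.card_biUnion_le
    _ ≤ ∑ s : Fin L × Fin L × Fin L, Fintype.card V ^ (L - 3) :=
        Finset.sum_le_sum fun s _ => h1 _ _ _
    _ = _ := by
        rw [Finset.sum_const, Finset.card_univ, Fintype.card_prod, Fintype.card_prod,
          Fintype.card_fin, smul_eq_mul]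
        ring

theorem vec3 {u c w x : V} (h : x ∈ [u, c, w]) : ∃ p : Fin 3, (![u, c, w] : Fin 3 → V) p = x := by
  simp only [List.mem_cons, List.not_mem_nil, or_false] at h
  rcases h with rfl | rfl | rfl
  · exact ⟨0, rfl⟩
  · exact ⟨1, rfl⟩
  · exact ⟨2, rfl⟩

theorem vec4 {u c d w x : V} (h : x ∈ [u, c, d, w]) :
    ∃ p : Fin 4, (![u, c, d, w] : Fin 4 → V) p = x := by
  simp only [List.mem_cons, List.not_mem_nil, or_false] at h
  rcases h with rfl | rfl | rfl | rfl
  · exact ⟨0, rfl⟩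
  · exact ⟨1, rfl⟩
  · exact ⟨2, rfl⟩
  · exact ⟨3, rfl⟩

theorem vec5 {u c e d w x : V} (h : x ∈ [u, c, e, d, w]) :
    ∃ p : Fin 5, (![u, c, e, d, w] : Fin 5 → V) p = x := by
  simp only [List.mem_cons, List.not_mem_nil, or_false] at h
  rcases h with rfl | rfl | rfl | rfl | rfl
  · exact ⟨0, rfl⟩
  · exact ⟨1, rfl⟩
  · exact ⟨2, rfl⟩
  · exact ⟨3, rfl⟩
  · exact ⟨4, rfl⟩

theorem count3 (x y z : V) (hxy : x ≠ y) (hxz : x ≠ z) (hyz : y ≠ z) :
    (univ.filter (fun t : V × V × V => x ∈ vs (Sum.inl t : T V) ∧ y ∈ vs (Sum.inl t : T V) ∧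
      z ∈ vs (Sum.inl t : T V))).card ≤ 27 := by
  have h := count_three 3 x y z hxy hxz hyz
  norm_num at h
  refine le_trans (Finset.card_le_card_of_injOn (fun t => ![t.1, t.2.1, t.2.2]) ?_ ?_) h
  · rintro ⟨u, c, w⟩ ht
    rw [Finset.mem_coe, Finset.mem_filter] at ht ⊢
    exact ⟨Finset.mem_univ _, vec3 ht.2.1, vec3 ht.2.2.1, vec3 ht.2.2.2⟩
  · rintro ⟨u, c, w⟩ _ ⟨u', c', w'⟩ _ h
    have h0 := congrFun h 0
    have h1 := congrFun h 1
    have h2 := congrFun h 2
    simp at h0 h1 h2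
    simp [h0, h1, h2]

theorem count4 (x y z : V) (hxy : x ≠ y) (hxz : x ≠ z) (hyz : y ≠ z) :
    (univ.filter (fun t : V × V × V × V => x ∈ vs (Sum.inr (Sum.inl t) : T V) ∧
      y ∈ vs (Sum.inr (Sum.inl t) : T V) ∧
      z ∈ vs (Sum.inr (Sum.inl t) : T V))).card ≤ 64 * Fintype.card V := by
  have h := count_three 4 x y z hxy hxz hyz
  norm_num at h
  refine le_trans (Finset.card_le_card_of_injOn (fun t => ![t.1, t.2.1, t.2.2.1, t.2.2.2]) ?_ ?_) h
  · rintro ⟨u, c, d, w⟩ ht
    rw [Finset.mem_coe, Finset.mem_filter] at ht ⊢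
    exact ⟨Finset.mem_univ _, vec4 ht.2.1, vec4 ht.2.2.1, vec4 ht.2.2.2⟩
  · rintro ⟨u, c, d, w⟩ _ ⟨u', c', d', w'⟩ _ h
    have h0 := congrFun h 0
    have h1 := congrFun h 1
    have h2 := congrFun h 2
    have h3 := congrFun h 3
    simp at h0 h1 h2 h3
    simp [h0, h1, h2, h3]

theorem count5 (x y z : V) (hxy : x ≠ y) (hxz : x ≠ z) (hyz : y ≠ z) :
    (univ.filter (fun t : V × V × V × V × V => x ∈ vs (Sum.inr (Sum.inr t) : T V) ∧
      y ∈ vs (Sum.inr (Sum.inr t) : T V) ∧
      z ∈ vs (Sum.inr (Sum.inr t) : T V))).card ≤ 125 * Fintype.card V ^ 2 := by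
  have h := count_three 5 x y z hxy hxz hyz
  norm_num at h
  refine le_trans (Finset.card_le_card_of_injOn
    (fun t => ![t.1, t.2.1, t.2.2.1, t.2.2.2.1, t.2.2.2.2]) ?_ ?_) h
  · rintro ⟨u, c, e, d, w⟩ ht
    rw [Finset.mem_coe, Finset.mem_filter] at ht ⊢
    exact ⟨Finset.mem_univ _, vec5 ht.2.1, vec5 ht.2.2.1, vec5 ht.2.2.2⟩
  · rintro ⟨u, c, e, d, w⟩ _ ⟨u', c', e', d', w'⟩ _ h
    have h0 := congrFun h 0
    have h1 := congrFun h 1
    have h2 := congrFun h 2
    have h3 := congrFun h 3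
    have h4 := congrFun h 4
    simp at h0 h1 h2 h3 h4
    simp [h0, h1, h2, h3, h4]

theorem codeg (hBZ : Disjoint B Z) (hK : 0 < K) (P : PathSystem H B Z K) (hV : 0 < Fintype.card V)
    (e₁ e₂ : Sym2 V) (hne : e₁ ≠ e₂) :
    ∑ t, (if e₁ ∈ res t ∧ e₂ ∈ res t then rwt P t else 0) ≤ 216 * K / Fintype.card V := by
  have hn : (0 : ℝ) < Fintype.card V := by exact_mod_cast hV
  by_cases hd : e₁.IsDiag ∨ e₂.IsDiag
  · rw [Finset.sum_eq_zero]
    · positivity
    · intro t _
      split_ifs with h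
      · by_contra h0
        rcases hd with hd | hd
        · exact not_isDiag hBZ P t h0 _ h.1 hd
        · exact not_isDiag hBZ P t h0 _ h.2 hd
      · rfl
  · push Not at hd
    obtain ⟨hd1, hd2⟩ := hd
    obtain ⟨x, y, z, hxy, hxz, hyz, hx, hy, hz⟩ : ∃ x y z : V, x ≠ y ∧ x ≠ z ∧ y ≠ z ∧
        x ∈ e₁ ∧ y ∈ e₁ ∧ z ∈ e₂ := by
      induction e₁ using Sym2.ind with
      | _ a b =>
        induction e₂ using Sym2.ind with
        | _ a' b' =>
          rw [Sym2.mk_isDiag_iff] at hd1 hd2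
          rw [Ne, Sym2.eq_iff] at hne
          by_cases h1 : a' = a
          · subst h1
            refine ⟨a', b, b', hd1, hd2, ?_, by simp, by simp, by simp⟩
            intro h; exact hne (Or.inl ⟨rfl, h⟩)
          · by_cases h2 : a' = b
            · subst h2
              refine ⟨a, a', b', hd1, ?_, hd2, by simp, by simp, by simp⟩
              intro h; exact hne (Or.inr ⟨h, rfl⟩)
            · exact ⟨a, b, a', hd1, Ne.symm h1, Ne.symm h2, by simp, by simp, by simp⟩
    have hcov : ∀ t : T V, e₁ ∈ res t ∧ e₂ ∈ res t → x ∈ vs t ∧ y ∈ vs t ∧ z ∈ vs t :=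
      fun t ht => ⟨vs_of_mem ht.1 hx, vs_of_mem ht.1 hy, vs_of_mem ht.2 hz⟩
    rw [Fintype.sum_sum_type, Fintype.sum_sum_type]
    have e3 : ∑ t : V × V × V, (if e₁ ∈ res (Sum.inl t : T V) ∧ e₂ ∈ res (Sum.inl t : T V) then
        rwt P (Sum.inl t) else 0) ≤ 27 * (K / Fintype.card V) := by
      calc _ ≤ ∑ t : V × V × V, (if x ∈ vs (Sum.inl t : T V) ∧ y ∈ vs (Sum.inl t : T V) ∧
            z ∈ vs (Sum.inl t : T V) then K / Fintype.card V else 0) := by
            refine Finset.sum_le_sum fun t _ => ?_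
            split_ifs with h1 h2 h2
            · exact P.bd2 _ _ _
            · exact absurd (hcov _ h1) h2
            · positivity
            · exact le_rfl
        _ ≤ _ := by
            rw [← Finset.sum_filter, Finset.sum_const, nsmul_eq_mul]
            apply mul_le_mul_of_nonneg_right _ (by positivity)
            exact_mod_cast count3 x y z hxy hxz hyz
    have e4 : ∑ t : V × V × V × V, (if e₁ ∈ res (Sum.inr (Sum.inl t) : T V) ∧
        e₂ ∈ res (Sum.inr (Sum.inl t) : T V) then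
        rwt P (Sum.inr (Sum.inl t)) else 0) ≤ 64 * (K / Fintype.card V) := by
      calc _ ≤ ∑ t : V × V × V × V, (if x ∈ vs (Sum.inr (Sum.inl t) : T V) ∧
            y ∈ vs (Sum.inr (Sum.inl t) : T V) ∧
            z ∈ vs (Sum.inr (Sum.inl t) : T V) then K / (Fintype.card V : ℝ) ^ 2 else 0) := by
            refine Finset.sum_le_sum fun t _ => ?_
            split_ifs with h1 h2 h2
            · exact P.bd3 _ _ _ _
            · exact absurd (hcov _ h1) h2
            · positivity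
            · exact le_rfl
        _ ≤ (64 * Fintype.card V) * (K / (Fintype.card V : ℝ) ^ 2) := by
            rw [← Finset.sum_filter, Finset.sum_const, nsmul_eq_mul]
            apply mul_le_mul_of_nonneg_right _ (by positivity)
            exact_mod_cast count4 x y z hxy hxz hyz
        _ = _ := by field_simp
    have e5 : ∑ t : V × V × V × V × V, (if e₁ ∈ res (Sum.inr (Sum.inr t) : T V) ∧
        e₂ ∈ res (Sum.inr (Sum.inr t) : T V) then
        rwt P (Sum.inr (Sum.inr t)) else 0) ≤ 125 * (K / Fintype.card V) := by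
      calc _ ≤ ∑ t : V × V × V × V × V, (if x ∈ vs (Sum.inr (Sum.inr t) : T V) ∧
            y ∈ vs (Sum.inr (Sum.inr t) : T V) ∧
            z ∈ vs (Sum.inr (Sum.inr t) : T V) then K / (Fintype.card V : ℝ) ^ 3 else 0) := by
            refine Finset.sum_le_sum fun t _ => ?_
            split_ifs with h1 h2 h2
            · exact P.bd4 _ _ _ _ _
            · exact absurd (hcov _ h1) h2
            · positivity
            · exact le_rfl
        _ ≤ (125 * (Fintype.card V : ℝ) ^ 2) * (K / (Fintype.card V : ℝ) ^ 3) := by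
            rw [← Finset.sum_filter, Finset.sum_const, nsmul_eq_mul]
            apply mul_le_mul_of_nonneg_right _ (by positivity)
            exact_mod_cast count5 x y z hxy hxz hyz
        _ = _ := by field_simp
    have : 216 * K / (Fintype.card V : ℝ) = 27 * (K / Fintype.card V) +
      (64 * (K / Fintype.card V) + 125 * (K / Fintype.card V)) := by ring
    rw [this]
    linarith

end Basic

end Round

open Round in
/-- M6a. Rounding a path system, given the nibble. -/
theorem round_system_of (K σ : ℝ) (hK : 0 < K) (hσ : 0 < σ) (hnib : NibbleFor 5 σ) : ∃ N : ℕ,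
    ∀ (V : Type) [Fintype V] [DecidableEq V] (H : SimpleGraph V) (B Z : Finset V),
      N ≤ Fintype.card V → Disjoint B Z → ∀ P : PathSystem H B Z K,
      ∃ R : Served H B Z, P.total - σ * (Fintype.card V : ℝ) ^ 2 ≤ (R.M.card : ℝ) := by
  classical
  obtain ⟨δ, hδ, h⟩ := nibble_supp 5 σ hnib
  refine ⟨max 1 ⌈216 * K / δ⌉₊, ?_⟩
  intro V _ _ H B Z hN hBZ P
  have hV : 0 < Fintype.card V := lt_of_lt_of_le one_pos ((le_max_left _ _).trans hN)
  have hn : (0 : ℝ) < Fintype.card V := by exact_mod_cast hV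
  have hN' : 216 * K / δ ≤ Fintype.card V := by
    refine (Nat.le_ceil _).trans ?_
    exact_mod_cast (le_max_right _ _).trans hN
  have hcd : 216 * K / Fintype.card V ≤ δ := by
    rw [div_le_iff₀ hn]
    rw [div_le_iff₀ hδ] at hN'
    linarith
  obtain ⟨M, hM0, hM1, hM2⟩ := h (Sym2 V) (T V) res (rwt P) (rwt_nonneg P)
    (fun t _ => res_nonempty t) (fun t _ => res_card t) (fun e => load hBZ P e)
    (fun e₁ e₂ hne => (codeg hBZ hK P hV e₁ e₂ hne).trans hcd)
  rw [sum_wt] at hM2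
  have hinj : Set.InjOn (dm : T V → Sym2 V) M := by
    intro t ht t' ht' htt
    by_contra hne
    have := hM1 t ht t' ht' hne
    rw [Finset.disjoint_left] at this
    exact this (a := dm t) (by simp [res]) (by rw [htt]; simp [res])
  have hE : ∀ t ∈ M, (M.filter (fun t' => dm t' = dm t)).biUnion ed = ed t := by
    intro t ht
    have : M.filter (fun t' => dm t' = dm t) = {t} := by
      ext t'
      simp only [Finset.mem_filter, Finset.mem_singleton]
      constructor
      · rintro ⟨h1, h2⟩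
        exact hinj h1 ht h2
      · rintro rfl
        exact ⟨ht, rfl⟩
    rw [this, Finset.singleton_biUnion]
  refine ⟨⟨M.image dm, fun s => (M.filter (fun t' => dm t' = s)).biUnion ed, ?_, ?_, ?_⟩, ?_⟩
  · intro s hs
    rw [Finset.mem_image] at hs
    obtain ⟨t, ht, rfl⟩ := hs
    obtain ⟨u, w, hu, hw, huw, hdm, p, hp, hpe⟩ := route_spec hBZ P t (hM0 t ht)
    exact ⟨u, w, hu, hw, huw, hdm, p, hp, by rw [hpe, hE t ht]⟩
  · intro s hs e he
    rw [Finset.mem_image] at hs
    obtain ⟨t, ht, rfl⟩ := hs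
    rw [hE t ht] at he
    exact sub_spec P t (hM0 t ht) e he
  · intro s hs s' hs' hne
    rw [Finset.mem_image] at hs hs'
    obtain ⟨t, ht, rfl⟩ := hs
    obtain ⟨t', ht', rfl⟩ := hs'
    rw [hE t ht, hE t' ht']
    have := hM1 t ht t' ht' (fun h => hne (by rw [h]))
    exact this.mono (Finset.subset_insert _ _) (Finset.subset_insert _ _)
  · have hcard : (M.image dm).card = M.card := Finset.card_image_of_injOn hinj
    change _ ≤ ((M.image dm).card : ℝ)
    rw [hcard]
    have htot : P.total ≤ (Fintype.card V : ℝ) ^ 2 := by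
      calc P.total = ∑ u, ∑ w, Dem P u w := rfl
        _ ≤ ∑ u : V, ∑ w : V, (1 : ℝ) := by
            refine Finset.sum_le_sum fun u _ => Finset.sum_le_sum fun w _ => ?_
            exact (P.dem u w).trans (by norm_num)
        _ = _ := by simp; ring
    nlinarith

end Pool.Agent.Helper8.Verg
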